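import Pool.Agent.MP_670f9a_nt.H83.Spec

/-! Adding a fibre to a family of points: the determinant of monomials. -/

set_option autoImplicit false

namespace Pool.Agent.MP_670f9a_nt.GL

open Real Finset Matrix
open scoped Kronecker

namespace AddFA

/-- the column operations -/
noncomputable def U (n : ℕ) (c : ℂ) : Matrix (Fin (n + 1)) (Fin (n + 1)) ℂ := of fun b' b =>
  Fin.cases (motive := fun _ => ℂ) (if b' = 0 then 1 else 0)
    (fun b => (if b' = b.succ then 1 else 0) - c * if b' = b.castSucc then 1 else 0) b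

theorem det_U (n : ℕ) (c : ℂ) : (U n c).det = 1 := by
  rw [← det_eq_of_forall_col_eq_smul_add_pred (A := 1) (fun _ => c), det_one]
  · intro i
    simp [U, one_apply]
  · intro i j
    simp [U, one_apply]

/-- splitting off the first block -/
def ee (k d : ℕ) : Fin d ⊕ Fin (k + 1) × Fin d ≃ Fin (k + 1 + 1) × Fin d where
  toFun := Sum.elim (fun a => (0, a)) fun i => (i.1.succ, i.2)
  invFun i := Fin.cases (motive := fun _ => Fin d ⊕ Fin (k + 1) × Fin d) (.inl i.2)
    (fun b => .inr (b, i.2)) i.1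
  left_inv := by rintro (a | ⟨b, a⟩) <;> simp
  right_inv := by
    rintro ⟨b, a⟩
    induction b using Fin.cases <;> simp

theorem mul_U (n d : ℕ) (c : ℂ) (p : Fin (n + 1) × Fin d → ℂ × ℂ) (i j : Fin (n + 1) × Fin d) :
    ((of fun i j : Fin (n + 1) × Fin d => (p i).1 ^ (j.1 : ℕ) * (p i).2 ^ (j.2 : ℕ)) *
      (U n c ⊗ₖ (1 : Matrix (Fin d) (Fin d) ℂ))) i j =
      Fin.cases (motive := fun _ => ℂ) 1 (fun b => ((p i).1 - c) * (p i).1 ^ (b : ℕ)) j.1 *
        (p i).2 ^ (j.2 : ℕ) := by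
  obtain ⟨b, a⟩ := j
  rw [mul_apply, Fintype.sum_prod_type]
  simp only [of_apply, kroneckerMap_apply, one_apply, mul_ite, mul_one, mul_zero, sum_ite_eq',
    mem_univ, if_true]
  induction b using Fin.cases with
  | zero => simp [U]
  | succ b =>
    simp only [U, of_apply, Fin.cases_succ, mul_sub, mul_ite, mul_one, mul_zero, sum_sub_distrib,
      sum_ite_eq', mem_univ, if_true, Fin.val_succ, Fin.val_castSucc]
    ring

theorem Dt_add (k d : ℕ) (p : Fin (k + 1) × Fin d → ℂ × ℂ) (c : ℂ) (y : Fin d → ℂ) :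
    Dt (k + 1) d (addF (fun σ => (c, y σ)) p)
      = (vandermonde y).det * (∏ i, ((p i).1 - c)) * Dt k d p := by
  have h : (U (k + 1) c ⊗ₖ (1 : Matrix (Fin d) (Fin d) ℂ)).det = 1 := by
    rw [det_kronecker, det_U, det_one, one_pow, one_pow, one_mul]
  unfold Dt
  rw [mul_assoc, ← det_mul_column, ← det_fromBlocks_zero₁₂ _
    (of fun (i : Fin (k + 1) × Fin d) (a : Fin d) => (p i).2 ^ (a : ℕ)),
    ← mul_one (det (n := Fin (k + 1 + 1) × Fin d) _), ← h, ← det_mul,
    ← det_submatrix_equiv_self (ee k d)]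
  congr 1
  ext i j
  rw [submatrix_apply, mul_U]
  rcases i with a | ⟨b, a⟩ <;> rcases j with a' | ⟨b', a'⟩ <;> simp [ee, addF, mul_assoc]

theorem Dt_zero (d : ℕ) (p : Fin (0 + 1) × Fin d → ℂ × ℂ) :
    Dt 0 d p = (vandermonde fun σ => (p (0, σ)).2).det := by
  unfold Dt
  rw [← det_submatrix_equiv_self (Equiv.uniqueProd (Fin d) (Fin 1)).symm]
  congr 1
  ext i j
  simp

theorem Dt_ne (k d : ℕ) (x : Fin (k + 1) → ℂ) (y : Fin (k + 1) → Fin d → ℂ)
    (hx : Function.Injective x) (hy : ∀ b, Function.Injective (y b)) :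
    Dt k d (fun i => (x i.1, y i.1 i.2)) ≠ 0 := by
  induction k with
  | zero =>
    rw [Dt_zero]
    exact det_vandermonde_ne_zero_iff.2 (hy 0)
  | succ k ih =>
    have e : (fun i : Fin (k + 1 + 1) × Fin d => (x i.1, y i.1 i.2))
        = addF (fun σ => (x 0, y 0 σ)) fun i => (x i.1.succ, y i.1.succ i.2) := by
      funext ⟨b, a⟩
      induction b using Fin.cases <;> simp [addF]
    rw [e, Dt_add]
    exact mul_ne_zero (mul_ne_zero (det_vandermonde_ne_zero_iff.2 (hy 0)) (prod_ne_zero_iff.2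
      fun i _ => sub_ne_zero.2 fun h => Fin.succ_ne_zero _ (hx h)))
      (ih (fun b => x b.succ) (fun b => y b.succ) (hx.comp (Fin.succ_injective _)) fun b => hy _)

theorem Dt_an (k d : ℕ) (p : Fin (k + 1) × Fin d → ℂ × ℂ) (i : Fin (k + 1) × Fin d) (v : ℂ → ℂ)
    (V : Set ℂ) (hv : AnalyticOnNhd ℂ v V) :
    AnalyticOnNhd ℂ (fun z => Dt k d (Function.update p i (z, v z))) V := by
  intro z hz
  have h : ∀ j, AnalyticAt ℂ (fun z => (Function.update p i (z, v z) j).1) z ∧
      AnalyticAt ℂ (fun z => (Function.update p i (z, v z) j).2) z := fun j => by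
    by_cases e : j = i
    · subst e
      simp only [Function.update_self]
      exact ⟨analyticAt_id, hv z hz⟩
    · simp only [Function.update_of_ne e]
      exact ⟨analyticAt_const, analyticAt_const⟩
  simp only [Dt, det_apply', of_apply]
  exact Finset.analyticAt_fun_sum _ fun σ _ => analyticAt_const.mul
    (Finset.analyticAt_fun_prod _ fun j _ => ((h _).1.pow _).mul ((h _).2.pow _))

theorem log_van (d : ℕ) (y : Fin d → ℂ) (hy : Function.Injective y) :
    log ‖(vandermonde y).det‖ = 1 / 2 * ∑ σ, ∑ σ', log ‖y σ - y σ'‖ := by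
  have h0 : ∀ i : Fin d, ∀ j ∈ Ioi i, ‖y j - y i‖ ≠ 0 := fun i j hj =>
    norm_ne_zero_iff.2 (sub_ne_zero.2 fun h => (mem_Ioi.1 hj).ne' (hy h))
  have h1 : log ‖(vandermonde y).det‖ = ∑ i, ∑ j ∈ Ioi i, log ‖y j - y i‖ := by
    simp only [det_vandermonde, norm_prod]
    rw [log_prod fun i _ => prod_ne_zero_iff.2 (h0 i)]
    exact sum_congr rfl fun i _ => log_prod (h0 i)
  have h2 := sum_sum_Ioi_add_eq_sum_sum_off_diag fun j i => log ‖y i - y j‖
  have h3 : ∀ i, ∑ j ∈ ({i} : Finset (Fin d))ᶜ, log ‖y i - y j‖ = ∑ j, log ‖y i - y j‖ := fun i => by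
    rw [← sum_compl_add_sum {i}, sum_singleton, sub_self, norm_zero, log_zero, add_zero]
  simp only [h3, sum_add_distrib] at h2
  rw [← h2, h1]
  have h4 : ∑ i, ∑ j ∈ Ioi i, log ‖y i - y j‖ = ∑ i, ∑ j ∈ Ioi i, log ‖y j - y i‖ :=
    sum_congr rfl fun i _ => sum_congr rfl fun j _ => by rw [norm_sub_rev]
  linarith

end AddFA

open AddFA

theorem sAddFOf : SAddFOf := by
  refine ⟨fun k d p => ⟨fun c y => ?_, fun h i j e => ?_, Dt_an k d p, fun q F => ?_,
    fun q σ a => ?_⟩, Dt_ne, fun d y hy => ⟨det_vandermonde_ne_zero_iff.2 hy, log_van d y hy⟩,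
    fun d s hs hn => ?_⟩
  · rw [Dt_add, norm_mul, norm_mul, norm_prod]
  · by_contra hne
    exact h (det_zero_of_row_eq hne (funext fun l => by simp only [of_apply, e]))
  · rw [← (ee k d).sum_comp, Fintype.sum_sum_type]
    rfl
  · funext ⟨b, a'⟩
    induction b using Fin.cases with
    | zero => by_cases e : a' = σ <;> simp [addF, e]
    | succ b => simp [addF]
  · induction s using Quotient.inductionOn with | _ l =>
    subst hs
    exact ⟨l.get, List.nodup_iff_injective_get.1 hn,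
      ((Fin.univ_val_map l.get).trans (congrArg _ (List.ofFn_get l))).symm⟩

end Pool.Agent.MP_670f9a_nt.GL
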