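import Pool.Agent.MP_670f9a_nt.H83.Spec

/-! Admissible weights and test functions. -/

namespace Pool.Agent.MP_670f9a_nt.GL

open Polynomial Real MeasureTheory Metric Filter
open scoped Topology

namespace AdmA

theorem dens {f s : ℂ → ℝ} {R S : ℝ} (hf : ∀ r, 0 < r → IntegrableOn f (ball 0 r))
    (hs : Dens s R S) : Integrable fun z => f z * s z := by
  obtain ⟨m, b, z0, -⟩ := hs
  refine IntegrableOn.integrable_of_forall_notMem_eq_zero (s := ball 0 (|R| + 1))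
    (Integrable.mul_bdd (c := S) (hf _ (by positivity)) m.aestronglyMeasurable
      (.of_forall fun z => by rw [Real.norm_of_nonneg (b z).1]; exact (b z).2)) fun z hz => ?_
  rw [z0 z, mul_zero]
  rw [mem_ball_zero_iff, not_lt] at hz
  linarith [le_abs_self R]

theorem bd {Q : ℂ[X][X]} {K : Set ℂ} (hK : IsCompact {p | On Q p ∧ p.1 ∈ K}) {F : ℂ × ℂ → ℝ}
    (hF : ∀ p, On Q p → p.1 ∈ K → ContinuousAt F p) (h0 : ∀ p : ℂ × ℂ, p.1 ∉ K → F p = 0) :
    ∃ M, ∀ p, On Q p → |F p| ≤ M := by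
  obtain ⟨M, hM⟩ := hK.exists_bound_of_continuousOn fun p k => (hF p k.1 k.2).continuousWithinAt
  refine ⟨|M|, fun p k => ?_⟩
  by_cases h : p.1 ∈ K
  · exact (hM p ⟨k, h⟩).trans (le_abs_self M)
  · rw [h0 p h, abs_zero]
    exact abs_nonneg M

end AdmA

open AdmA in
theorem sAdmOf : SAdmOf := by
  rintro ⟨-, -, hC⟩ hF hM ⟨c1, c2⟩ hD Q B G
  obtain ⟨fb, rg, -⟩ := hC Q B G
  obtain ⟨cp, -, sm⟩ := hF Q B G
  obtain ⟨-, -, -, -, m5, m6, m7, m8, -⟩ := hM Q B G
  have a1 : ∀ (Y : ℂ × ℂ → ℝ) (c : ℂ) (R : ℝ), Adm Q Y → IntegrableOn (fs Q Y) (ball c R) := by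
    rintro Y c R ⟨y1, y2⟩
    obtain ⟨M, hM⟩ := y2 (‖c‖ + R)
    have k := (m5 _ (m7 ((Prod.fst ⁻¹' closedBall c R).indicator Y) _ M
      ((m6 Y (y1.mono fun p k => k.1)).indicator (measurable_fst measurableSet_closedBall))
      (isCompact_closedBall c R) (fun p k k' => ?_) fun p _ k =>
        Set.indicator_of_notMem (s := Prod.fst ⁻¹' closedBall c R) k _)).1
    · refine k.integrableOn.congr_fun (fun z hz => ?_) measurableSet_ball
      exact congrArg _ (Multiset.map_congr rfl fun y _ =>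
        Set.indicator_of_mem (s := Prod.fst ⁻¹' closedBall c R) (ball_subset_closedBall hz) _)
    · rw [Set.indicator_of_mem (s := Prod.fst ⁻¹' closedBall c R) k']
      exact hM p k.1 (norm_le_of_mem_closedBall k')
  refine ⟨a1, fun Y s R S y => dens fun r _ => a1 Y 0 r y,
    fun s R S a => dens fun r k => ((hD r k).1 0 a).1, ?_⟩
  rintro φ ⟨t1, K, hK, dj, t0⟩
  have nb : ∀ x ∉ K, ∀ᶠ z in 𝓝 x, z ∉ K := fun x k => hK.isClosed.isOpen_compl.mem_nhds k
  have z : ∀ p : ℂ × ℂ, p.1 ∉ K → ∀ w, D Q w φ p = 0 ∧ Lap Q φ p = 0 := fun p k w =>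
    (c1 Q p w).2.2.2.1 φ (((continuous_fst.tendsto p).eventually (nb _ k)).mono t0)
  have f0 : ∀ x ∉ K, fs Q φ x = 0 := fun x k =>
    Multiset.sum_eq_zero fun a ha => by
      obtain ⟨y, -, rfl⟩ := Multiset.mem_map.1 ha
      exact t0 (x, y) k
  have f2 := fun x k => (sm φ x k).2.2 fun y hy => t1 _ ((fb x k y).1 hy)
  have cD := fun p (k : Reg Q B p) w => ((rg p k).2.2 φ w).1 ((t1 p k.1).of_le (by norm_num))
  have cL := fun p (k : Reg Q B p) => (c2 Q B p G k).2.2.1 φ (t1 p k.1)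
  have r : ∀ p, On Q p → p.1 ∈ K → Reg Q B p := fun p a b => ⟨a, Set.disjoint_left.1 dj b⟩
  obtain ⟨M₁, h₁⟩ := bd (cp K hK dj) (fun p k _ => (t1 p k).continuousAt) t0
  obtain ⟨M₂, h₂⟩ := bd (cp K hK dj) (fun p a b => cD p (r p a b) 1) fun p k => (z p k 1).1
  obtain ⟨M₃, h₃⟩ := bd (cp K hK dj) (fun p a b => cD p (r p a b) Complex.I)
    fun p k => (z p k _).1
  obtain ⟨M₄, h₄⟩ := bd (cp K hK dj) (fun p a b => cL p (r p a b)) fun p k => (z p k 1).2
  refine ⟨⟨fun p k => (t1 p k).continuousAt.continuousWithinAt, fun _ => ⟨M₁, fun p k _ => h₁ p k⟩⟩,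
    contDiff_iff_contDiffAt.2 fun x => ?_, .intro hK f0, fun x k => (f2 x k).2,
    m8 _ K (fun p k => ?_) hK dj fun p _ k => by simp only [gr, (z p k _).1, mul_zero, add_zero],
    fun a => ⟨fun p k => contDiffAt_const.mul (t1 p k), K, hK, dj,
      fun p k => mul_eq_zero_of_right a (t0 p k)⟩,
    ⟨max (max M₁ M₂) (max M₃ M₄), fun p k => by
      simp only [le_max_iff, h₁ p k.1, h₂ p k.1, h₃ p k.1, h₄ p k.1, true_or, or_true, and_self]⟩,
    fun Y y => m8 _ K (fun p k => ((y p k.1).mono fun q k => k.1).mul (cL p k).continuousWithinAt)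
      hK dj fun p _ k => by rw [(z p k 1).2, mul_zero]⟩
  · by_cases h : x ∈ K
    · exact (f2 x (Set.disjoint_left.1 dj h)).1
    · exact (contDiffAt_const (c := 0)).congr_of_eventuallyEq ((nb x h).mono f0)
  · exact (((cD p k 1).mul (cD p k 1)).add ((cD p k _).mul (cD p k _))).continuousWithinAt

end Pool.Agent.MP_670f9a_nt.GL
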