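import Pool.Agent.MP_670f9a_nt.H83.Spec

/-!
An absolutely irreducible factor over a Galois number field.
-/

set_option autoImplicit false

namespace Pool.Agent.MP_670f9a_nt.GL

open Polynomial Finset
open Pool.Agent.MP_670f9a_nt.NP (toC)

namespace Alg1A

theorem kron {R : Type} [CommRing R] (Q : R[X][X]) {N : ℕ} (hN : ∀ j, (Q.coeff j).natDegree < N)
    {i : ℕ} (hi : i < N) (j : ℕ) : (Q.eval (X ^ N)).coeff (i + N * j) = (Q.coeff j).coeff i := by
  rw [eval_eq_sum, sum_def, finsetSum_coeff, sum_eq_single j]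
  · rw [← pow_mul, coeff_mul_X_pow]
  · intro k _ hk
    rw [← pow_mul, coeff_mul_X_pow']
    split_ifs with h
    · refine coeff_eq_zero_of_natDegree_lt ((hN k).trans_le ?_)
      rcases lt_or_gt_of_ne hk with h1 | h1
      · have := Nat.mul_le_mul_left N (Nat.succ_le_of_lt h1)
        rw [Nat.mul_succ] at this
        omega
      · have := Nat.mul_le_mul_left N (Nat.succ_le_of_lt h1)
        rw [Nat.mul_succ] at this
        omega
    · rfl
  · intro h
    rw [notMem_support_iff.1 h]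
    simp

theorem kron_ne {R : Type} [CommRing R] {Q : R[X][X]} {N : ℕ}
    (hN : ∀ j, (Q.coeff j).natDegree < N) (h : Q ≠ 0) : Q.eval (X ^ N) ≠ 0 := by
  intro e
  refine h (Polynomial.ext fun j => ?_)
  have := kron Q hN (hN j) j
  rw [e, coeff_zero] at this
  exact leadingCoeff_eq_zero.1 this.symm

theorem bound {R : Type} [CommRing R] (Q : R[X][X]) :
    ∃ N : ℕ, ∀ j, (Q.coeff j).natDegree < N := by
  refine ⟨Q.support.sup (fun j => (Q.coeff j).natDegree) + 1, fun j => Nat.lt_succ_of_le ?_⟩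
  by_cases h : j ∈ Q.support
  · exact le_sup (f := fun j => (Q.coeff j).natDegree) h
  · rw [notMem_support_iff.1 h]
    simp

theorem ev_map {R S : Type} [CommRing R] [CommRing S] (f : R →+* S) (Q : R[X][X]) (N : ℕ) :
    (Q.map (mapRingHom f)).eval (X ^ N) = (Q.eval (X ^ N)).map f := by
  have : (X ^ N : S[X]) = mapRingHom f (X ^ N) := by simp
  rw [this, eval_map, eval₂_at_apply]
  rfl

theorem lift2 (K : IntermediateField ℚ ℂ) (Q : ℂ[X][X]) {N : ℕ}
    (hN : ∀ j, (Q.coeff j).natDegree < N) (h : ∀ n, (Q.eval (X ^ N)).coeff n ∈ K) :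
    ∃ Q' : K[X][X], mp (algebraMap K ℂ) Q' = Q := by
  refine (mem_lifts Q).1 ((lifts_iff_coeff_lifts Q).2 fun j => ?_)
  refine (mem_lifts (f := algebraMap K ℂ) (Q.coeff j)).1 ((lifts_iff_coeff_lifts _).2 fun i => ?_)
  rcases lt_or_ge i N with hi | hi
  · rw [← kron Q hN hi j]
    exact ⟨⟨_, h _⟩, rfl⟩
  · rw [coeff_eq_zero_of_natDegree_lt ((hN j).trans_le hi)]
    exact ⟨0, map_zero _⟩

theorem coef_mem (K : IntermediateField ℚ ℂ) (s : ℂ[X]) (h1 : s.leadingCoeff ∈ K)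
    (h2 : ∀ r ∈ s.roots, r ∈ K) (n : ℕ) : s.coeff n ∈ K := by
  have e := C_leadingCoeff_mul_prod_multiset_X_sub_C (p := s) IsAlgClosed.card_roots_eq_natDegree
  have hm : s ∈ (mapRingHom (algebraMap K ℂ)).range := by
    rw [← e]
    refine mul_mem ⟨C ⟨_, h1⟩, by simp⟩ (multiset_prod_mem _ fun a ha => ?_)
    obtain ⟨r, hr, rfl⟩ := Multiset.mem_map.1 ha
    exact ⟨X - C ⟨r, h2 r hr⟩, by simp⟩
  obtain ⟨t, rfl⟩ := hm
  rw [coe_mapRingHom, coeff_map]
  exact (t.coeff n).2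

end Alg1A

open Alg1A in
theorem sAlg1Of : SAlg1Of := by
  intro P hP
  have hd : (toC P).natDegree = P.natDegree := natDegree_map_eq_of_injective
    (Polynomial.map_injective _ (Int.castRingHom ℂ).injective_int) P
  have h0 : toC P ≠ 0 := fun e => by rw [e, natDegree_zero] at hd; omega
  have hu : ¬ IsUnit (toC P) := fun e => by rw [natDegree_eq_zero_of_isUnit e] at hd; omega
  obtain ⟨Q₀, hQ₀, S₀, hS⟩ := WfDvdMonoid.exists_irreducible_factor hu h0
  have hS0 : S₀ ≠ 0 := fun e => h0 (by rw [hS, e, mul_zero])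
  obtain ⟨N₁, hN₁⟩ := bound Q₀
  obtain ⟨N₂, hN₂⟩ := bound S₀
  obtain ⟨N, hN, hN'⟩ : ∃ N, (∀ j, (Q₀.coeff j).natDegree < N) ∧
      ∀ j, (S₀.coeff j).natDegree < N :=
    ⟨N₁ + N₂, fun j => (hN₁ j).trans_le (by omega), fun j => (hN₂ j).trans_le (by omega)⟩
  have hq := kron_ne hN hQ₀.ne_zero
  have hs := kron_ne hN' hS0
  obtain ⟨c, hc⟩ : ∃ c, c = (Q₀.eval (X ^ N)).leadingCoeff := ⟨_, rfl⟩
  have hc0 : c ≠ 0 := hc ▸ leadingCoeff_ne_zero.2 hq
  obtain ⟨p, hp⟩ : ∃ p : ℚ[X], p = (P.eval (X ^ N)).map (Int.castRingHom ℚ) := ⟨_, rfl⟩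
  have hpC : p.map (algebraMap ℚ ℂ) = Q₀.eval (X ^ N) * S₀.eval (X ^ N) := by
    rw [← eval_mul, ← hS, toC, ev_map, hp, Polynomial.map_map]
    congr 1
  have hp0 : p.map (algebraMap ℚ ℂ) ≠ 0 := hpC ▸ mul_ne_zero hq hs
  obtain ⟨K, hK⟩ : ∃ K, K = IntermediateField.adjoin ℚ (p.rootSet ℂ) := ⟨_, rfl⟩
  have hsf : p.IsSplittingField ℚ K :=
    hK ▸ IntermediateField.adjoin_rootSet_isSplittingField (IsAlgClosed.splits _)
  have hfd : FiniteDimensional ℚ K := IsSplittingField.finiteDimensional K p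
  have hno : Normal ℚ K := Normal.of_isSplittingField p
  have hr : ∀ s : ℂ[X], s ∣ p.map (algebraMap ℚ ℂ) → ∀ r ∈ s.roots, r ∈ K := fun s h r hr => by
    rw [hK]
    refine IntermediateField.subset_adjoin ℚ _ ?_
    rw [rootSet_def, Finset.mem_coe, Multiset.mem_toFinset, aroots_def]
    exact Multiset.mem_of_le (roots.le_of_dvd hp0 h) hr
  have e1 : p.map (algebraMap ℚ ℂ) =
      (C (C c⁻¹) * Q₀).eval (X ^ N) * (C (C c) * S₀).eval (X ^ N) := by
    rw [hpC, eval_mul, eval_mul, eval_C, eval_C, mul_mul_mul_comm, ← C_mul, inv_mul_cancel₀ hc0,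
      C_1, one_mul]
  have l1 : ((C (C c⁻¹) * Q₀).eval (X ^ N)).leadingCoeff = 1 := by
    rw [eval_mul, eval_C, leadingCoeff_mul, leadingCoeff_C, ← hc, inv_mul_cancel₀ hc0]
  have l2 : ((C (C c) * S₀).eval (X ^ N)).leadingCoeff ∈ K := by
    have := congrArg leadingCoeff e1
    rw [leadingCoeff_mul, l1, one_mul, leadingCoeff_map] at this
    rw [← this]
    exact K.algebraMap_mem _
  obtain ⟨Q, hQ⟩ := lift2 K (C (C c⁻¹) * Q₀) (N := N)
    (fun j => by rw [coeff_C_mul]; exact (natDegree_C_mul_le _ _).trans_lt (hN j))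
    (coef_mem K _ (l1 ▸ one_mem K) (hr _ ⟨_, e1⟩))
  obtain ⟨S, hS'⟩ := lift2 K (C (C c) * S₀) (N := N)
    (fun j => by rw [coeff_C_mul]; exact (natDegree_C_mul_le _ _).trans_lt (hN' j))
    (coef_mem K _ l2 (hr _ ⟨_, e1.trans (mul_comm _ _)⟩))
  refine ⟨K, Q, hfd, {}, ?_, S, ?_⟩
  · rw [hQ, irreducible_isUnit_mul (isUnit_C.2 (isUnit_C.2 (inv_ne_zero hc0).isUnit))]
    exact hQ₀
  · refine Polynomial.map_injective (mapRingHom (algebraMap K ℂ))
      (Polynomial.map_injective _ (algebraMap K ℂ).injective) ?_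
    rw [Polynomial.map_mul]
    change _ = mp _ Q * mp _ S
    rw [hQ, hS', mul_mul_mul_comm, ← C_mul, ← C_mul, inv_mul_cancel₀ hc0, C_1, C_1, one_mul, ← hS,
      Polynomial.map_map, mapRingHom_comp, toC]
    congr 2

end Pool.Agent.MP_670f9a_nt.GL
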