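import Pool.Agent.MP_670f9a_nt.H83.SpecG
import Pool.Agent.MP_670f9a_nt.GL.Alg1

/-!
A given absolutely irreducible factor is defined over a Galois number field.
-/

set_option autoImplicit false

namespace Pool.Agent.MP_670f9a_nt.GL

open Polynomial Finset
open Pool.Agent.MP_670f9a_nt.NP (toC)

open Alg1A in
theorem sAlg1FOf : SAlg1FOf := by
  rintro P Q₀ hP hQ₀ ⟨S₀, hS⟩
  have h0 : toC P ≠ 0 := (Polynomial.map_ne_zero_iff
    (Polynomial.map_injective _ (Int.castRingHom ℂ).injective_int)).2 hP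
  have hS0 : S₀ ≠ 0 := fun e => h0 (by rw [hS, e, mul_zero])
  obtain ⟨N₁, hN₁⟩ := bound Q₀
  obtain ⟨N₂, hN₂⟩ := bound S₀
  obtain ⟨N, hN, hN'⟩ : ∃ N, (∀ j, (Q₀.coeff j).natDegree < N) ∧
      ∀ j, (S₀.coeff j).natDegree < N :=
    ⟨N₁ + N₂, fun j => (hN₁ j).trans_le (by omega), fun j => (hN₂ j).trans_le (by omega)⟩
  have hq := kron_ne hN hQ₀.ne_zero
  have hs := kron_ne hN' hS0
  obtain ⟨c, hc⟩ : ∃ c, c = (Q₀.eval (X ^ N)).leadingCoeff := ⟨_, rfl⟩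
  have hc0 : c ≠ 0 := hc ▸ leadingCoeff_ne_zero.2 hq
  obtain ⟨p, hp⟩ : ∃ p : ℚ[X], p = (P.eval (X ^ N)).map (Int.castRingHom ℚ) := ⟨_, rfl⟩
  have hpC : p.map (algebraMap ℚ ℂ) = Q₀.eval (X ^ N) * S₀.eval (X ^ N) := by
    rw [← eval_mul, ← hS, toC, ev_map, hp, Polynomial.map_map]
    congr 1
  have hp0 : p.map (algebraMap ℚ ℂ) ≠ 0 := hpC ▸ mul_ne_zero hq hs
  obtain ⟨K, hK⟩ : ∃ K, K = IntermediateField.adjoin ℚ (p.rootSet ℂ) := ⟨_, rfl⟩
  have hsf : p.IsSplittingField ℚ K :=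
    hK ▸ IntermediateField.adjoin_rootSet_isSplittingField (IsAlgClosed.splits _)
  have hfd : FiniteDimensional ℚ K := IsSplittingField.finiteDimensional K p
  have hno : Normal ℚ K := Normal.of_isSplittingField p
  have hr : ∀ s : ℂ[X], s ∣ p.map (algebraMap ℚ ℂ) → ∀ r ∈ s.roots, r ∈ K := fun s h r hr => by
    rw [hK]
    refine IntermediateField.subset_adjoin ℚ _ ?_
    rw [rootSet_def, Finset.mem_coe, Multiset.mem_toFinset, aroots_def]
    exact Multiset.mem_of_le (roots.le_of_dvd hp0 h) hr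
  have e1 : p.map (algebraMap ℚ ℂ) =
      (C (C c⁻¹) * Q₀).eval (X ^ N) * (C (C c) * S₀).eval (X ^ N) := by
    rw [hpC, eval_mul, eval_mul, eval_C, eval_C, mul_mul_mul_comm, ← C_mul, inv_mul_cancel₀ hc0,
      C_1, one_mul]
  have l1 : ((C (C c⁻¹) * Q₀).eval (X ^ N)).leadingCoeff = 1 := by
    rw [eval_mul, eval_C, leadingCoeff_mul, leadingCoeff_C, ← hc, inv_mul_cancel₀ hc0]
  have l2 : ((C (C c) * S₀).eval (X ^ N)).leadingCoeff ∈ K := by
    have := congrArg leadingCoeff e1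
    rw [leadingCoeff_mul, l1, one_mul, leadingCoeff_map] at this
    rw [← this]
    exact K.algebraMap_mem _
  obtain ⟨Q, hQ⟩ := lift2 K (C (C c⁻¹) * Q₀) (N := N)
    (fun j => by rw [coeff_C_mul]; exact (natDegree_C_mul_le _ _).trans_lt (hN j))
    (coef_mem K _ (l1 ▸ one_mem K) (hr _ ⟨_, e1⟩))
  obtain ⟨S, hS'⟩ := lift2 K (C (C c) * S₀) (N := N)
    (fun j => by rw [coeff_C_mul]; exact (natDegree_C_mul_le _ _).trans_lt (hN' j))
    (coef_mem K _ l2 (hr _ ⟨_, e1.trans (mul_comm _ _)⟩))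
  refine ⟨K, Q, hfd, {}, ?_, S, ?_⟩
  · rw [hQ]
    exact associated_unit_mul_left _ _ (isUnit_C.2 (isUnit_C.2 (inv_ne_zero hc0).isUnit))
  · refine Polynomial.map_injective (mapRingHom (algebraMap K ℂ))
      (Polynomial.map_injective _ (algebraMap K ℂ).injective) ?_
    rw [Polynomial.map_mul]
    change _ = mp _ Q * mp _ S
    rw [hQ, hS', mul_mul_mul_comm, ← C_mul, ← C_mul, inv_mul_cancel₀ hc0, C_1, C_1, one_mul, ← hS,
      Polynomial.map_map, mapRingHom_comp, toC]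
    congr 2

end Pool.Agent.MP_670f9a_nt.GL
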