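import Pool.Agent.MP_670f9a_nt.H83.Spec

/-! The product of the conjugates of a factor. -/

namespace Pool.Agent.MP_670f9a_nt.GL

open Polynomial
open Pool.Agent.MP_670f9a_nt.NP (toC)

namespace Alg2A

/-- The map on polynomials in two variables. -/
noncomputable def mm {R S : Type} [CommRing R] [CommRing S] (f : R →+* S) : R[X][X] →+* S[X][X] :=
  mapRingHom (mapRingHom f)

theorem mm_mm {R S T : Type} [CommRing R] [CommRing S] [CommRing T] (f : R →+* S) (g : S →+* T)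
    (F : R[X][X]) : mm g (mm f F) = mm (g.comp f) F := by
  simp only [mm, coe_mapRingHom, Polynomial.map_map, mapRingHom_comp]

theorem mm_inj {R S : Type} [CommRing R] [CommRing S] {f : R →+* S} (h : Function.Injective f) :
    Function.Injective (mm f) := map_injective _ (map_injective _ h)

theorem rat {K : Type} [Field K] [Algebra ℚ K] [FiniteDimensional ℚ K] [IsGalois ℚ K]
    (F : K[X][X]) (h : ∀ g : K ≃ₐ[ℚ] K, mm (g : K →+* K) F = F) :
    ∃ F0 : ℚ[X][X], mm (algebraMap ℚ K) F0 = F := by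
  refine (mem_lifts F).1 ((lifts_iff_coeff_lifts F).2 fun a => (mem_lifts _).1
    ((lifts_iff_coeff_lifts _).2 fun b => (IsGalois.mem_range_algebraMap_iff_fixed _).2 fun g => ?_))
  have := congrArg (fun F : K[X][X] => (F.coeff a).coeff b) (h g)
  simp only [mm, coe_mapRingHom, coeff_map] at this
  exact this

end Alg2A

open Alg2A in
theorem sAlg2Of : SAlg2Of := by
  intro P K _ _ Q hP hQ hd
  let P0 : ℚ[X][X] := mm (Int.castRingHom ℚ) P
  let PK : K[X][X] := mm (Int.castRingHom K) P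
  have h0 : mm (algebraMap ℚ K) P0 = PK := by
    rw [mm_mm, Subsingleton.elim ((algebraMap ℚ K).comp _) (Int.castRingHom K)]
  have h1 : ∀ g : K ≃ₐ[ℚ] K, mm (g : K →+* K) PK = PK := fun g => by
    rw [mm_mm, Subsingleton.elim ((g : K →+* K).comp _) (Int.castRingHom K)]
  have h2 : mm (algebraMap K ℂ) PK = toC P := by
    rw [mm_mm, Subsingleton.elim ((algebraMap K ℂ).comp _) (Int.castRingHom ℂ)]
    rfl
  have h3 : ∀ g, mp (emb K g) Q = mm (algebraMap K ℂ) (mm (g : K →+* K) Q) := fun g =>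
    (mm_mm _ _ _).symm
  have h4 : ∀ g : K ≃ₐ[ℚ] K, mm (g : K →+* K) Q ∣ PK := fun g => h1 g ▸ _root_.map_dvd (mm (g : K →+* K)) hd
  refine ⟨fun g => by rw [h3, ← h2]; exact _root_.map_dvd _ (h4 g), ?_⟩
  obtain ⟨N, hN⟩ : ∃ N, N = ∏ g : K ≃ₐ[ℚ] K, mm (g : K →+* K) Q := ⟨_, rfl⟩
  have h5 : ∀ h : K ≃ₐ[ℚ] K, mm (h : K →+* K) N = N := fun h => by
    rw [hN, map_prod]
    exact Fintype.prod_equiv (Equiv.mulLeft h) _ _ fun g => mm_mm _ _ _
  obtain ⟨H, hH⟩ : N ∣ PK ^ Fintype.card (K ≃ₐ[ℚ] K) := by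
    rw [hN, ← Finset.card_univ, ← Finset.prod_const]
    exact Finset.prod_dvd_prod_of_dvd _ _ fun g _ => h4 g
  have hi := mm_inj (algebraMap ℚ K).injective
  have hP0 : Prime P0 := Irreducible.prime hP
  have hN0 : N ≠ 0 := by
    rintro h
    rw [h, zero_mul, ← h0, ← map_pow, map_eq_zero_iff _ hi] at hH
    exact pow_ne_zero _ hP0.ne_zero hH
  obtain ⟨N0, rfl⟩ := rat N h5
  obtain ⟨H0, rfl⟩ := rat H fun g => mul_left_cancel₀ hN0 (by
    have := congrArg (mm (g : K →+* K)) hH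
    rw [map_pow, map_mul, h1, h5] at this
    rw [← this, hH])
  rw [← h0, ← map_pow, ← map_mul] at hH
  obtain ⟨t, -, u, hu⟩ := (dvd_prime_pow hP0 _).1 ⟨H0, hi hH⟩
  obtain ⟨c, hc, e⟩ := Polynomial.isUnit_iff.1 (u⁻¹).isUnit
  obtain ⟨q, hq, rfl⟩ := Polynomial.isUnit_iff.1 hc
  have h6 : N0 = C (C q) * P0 ^ t := by rw [e, ← hu, mul_comm, Units.mul_inv_cancel_right]
  refine ⟨t, q, Nat.one_le_iff_ne_zero.2 ?_, hq.ne_zero, ?_⟩
  · rintro rfl
    rw [pow_zero, mul_one, e] at h6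
    have h7 : mm ((1 : K ≃ₐ[ℚ] K) : K →+* K) Q ∣ mm (algebraMap ℚ K) N0 :=
      hN ▸ Finset.dvd_prod_of_mem _ (Finset.mem_univ _)
    have h8 : mm ((1 : K ≃ₐ[ℚ] K) : K →+* K) Q = Q := by
      ext a b
      simp [mm, coeff_map]
    exact hQ (isUnit_of_dvd_unit (h8 ▸ h7) (h6 ▸ (u⁻¹).isUnit.map _))
  · simp only [h3]
    rw [← map_prod, ← hN, h6, map_mul, map_pow, h0, map_mul, map_pow, h2]
    simp [mm]

end Pool.Agent.MP_670f9a_nt.GL

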