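import Pool.Agent.MP_670f9a_nt.H83.Spec

/-!
Integrality of the norm of a form in the coefficients of a geometric component.
-/

namespace Pool.Agent.MP_670f9a_nt.GL

open Polynomial Real Finset
open Pool.Agent.MP_670f9a_nt.NP (toC)

namespace Alg3A

variable {K : Type} [Field K] (V : ValuationSubring K)

theorem prim {F : K[X][X]} (hF : F ≠ 0) : ∃ (s : K) (G : V[X][X]),
    G.map (mapRingHom V.subtype) = C (C s) * F ∧
      G.map (mapRingHom (IsLocalRing.residue V)) ≠ 0 := by
  classical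
  obtain ⟨⟨a, b⟩, hp, hm⟩ := exists_max_image (F.support.sigma fun a => (F.coeff a).support)
    (fun p => V.valuation ((F.coeff p.1).coeff p.2)) ⟨⟨F.natDegree, F.leadingCoeff.natDegree⟩,
      mem_sigma.2 ⟨natDegree_mem_support_of_nonzero hF,
        natDegree_mem_support_of_nonzero (leadingCoeff_ne_zero.2 hF)⟩⟩
  have h0 : (F.coeff a).coeff b ≠ 0 := mem_support_iff.1 (mem_sigma.1 hp).2
  have hl : C (C ((F.coeff a).coeff b)⁻¹) * F ∈ lifts (mapRingHom V.subtype) := by
    refine (lifts_iff_coeff_lifts _).2 fun i => (mem_lifts _).1 ((lifts_iff_coeff_lifts _).2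
      fun j => ?_)
    rw [coeff_C_mul, coeff_C_mul]
    refine ⟨⟨((F.coeff a).coeff b)⁻¹ * (F.coeff i).coeff j, (V.valuation_le_one_iff _).1 ?_⟩, rfl⟩
    rw [map_mul, map_inv₀, inv_mul_le_one₀ (by simpa [pos_iff_ne_zero])]
    by_cases h : (F.coeff i).coeff j = 0
    · simp [h]
    · exact hm ⟨i, j⟩ (mem_sigma.2 ⟨mem_support_iff.2 fun e => h (by simp [e]), mem_support_iff.2 h⟩)
  obtain ⟨G, hG⟩ := (mem_lifts _).1 hl
  refine ⟨_, G, hG, fun h => ?_⟩
  have h1 := congrArg (fun p : K[X][X] => (p.coeff a).coeff b) hG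
  have h2 := congrArg (fun p => (p.coeff a).coeff b) h
  simp only [coeff_map, coe_mapRingHom, coeff_C_mul, inv_mul_cancel₀ h0, coeff_zero] at h1 h2
  rw [show (G.coeff a).coeff b = 1 from Subtype.ext h1, map_one] at h2
  exact one_ne_zero h2

theorem inv_mem {G : V[X][X]} (hG : G.map (mapRingHom (IsLocalRing.residue V)) ≠ 0) {s : K}
    {P : ℤ[X][X]} (h : G.map (mapRingHom V.subtype) =
      C (C s) * P.map (mapRingHom (Int.castRingHom K))) : s ≠ 0 ∧ s⁻¹ ∈ V := by
  obtain ⟨a, ha⟩ := not_forall.1 (mt Polynomial.ext hG)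
  obtain ⟨b, hb⟩ := not_forall.1 (mt Polynomial.ext ha)
  have h1 := congrArg (fun p : K[X][X] => (p.coeff a).coeff b) h
  simp only [coeff_map, coe_mapRingHom, coeff_C_mul, coeff_zero] at h1 hb
  obtain ⟨u, hu⟩ := ((IsLocalRing.residue_ne_zero_iff_isUnit _).1 hb).exists_right_inv
  have h2 := congrArg V.subtype hu
  rw [map_mul, map_one, h1, mul_assoc] at h2
  refine ⟨left_ne_zero_of_mul_eq_one h2, ?_⟩
  rw [← eq_inv_of_mul_eq_one_right h2]
  exact mul_mem (intCast_mem V _) u.2

end Alg3A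

open Alg3A in
theorem sAlg3Of : SAlg3Of := by
  intro P K _ _ Q t q hQ hq h γ E hγ hI
  have h1 : ∏ g : K ≃ₐ[ℚ] K, Q.map (mapRingHom (g : K →+* K)) =
      C (C (q : K)) * (P ^ t).map (mapRingHom (Int.castRingHom K)) := by
    refine map_injective (mapRingHom (algebraMap K ℂ)) (map_injective _ (algebraMap K ℂ).injective)
      ?_
    simp only [mp, emb, toC] at h
    simp only [Polynomial.map_prod, Polynomial.map_mul, Polynomial.map_pow, Polynomial.map_map, map_C,
      mapRingHom_comp, coe_mapRingHom, map_ratCast, h]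
    congr 4
  have hq' : (q : K) ≠ 0 := Rat.cast_ne_zero.2 hq
  have h2 : IsIntegral ℤ (algebraMap ℚ K (Algebra.norm ℚ γ / q ^ E)) := by
    by_contra hc
    have : IsIntegrallyClosedIn (integralClosure ℤ K).toSubring K :=
      inferInstanceAs (IsIntegrallyClosedIn (integralClosure ℤ K) K)
    obtain ⟨V, -, hV⟩ := Subring.exists_le_valuationSubring_of_isIntegrallyClosedIn
      (R := (integralClosure ℤ K).toSubring) hc
    choose s G h3 h4 using fun g : K ≃ₐ[ℚ] K => prim V
      ((Polynomial.map_ne_zero_iff (f := mapRingHom (g : K →+* K))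
        (map_injective (g : K →+* K) g.injective)).2 hQ)
    obtain ⟨h5, h6⟩ := inv_mem V (G := ∏ g, G g) (s := (∏ g, s g) * q) (P := P ^ t)
      (by rw [Polynomial.map_prod]; exact prod_ne_zero_iff.2 fun g _ => h4 g) (by
        simp only [Polynomial.map_prod, h3, prod_mul_distrib, h1, map_mul, map_prod, mul_assoc])
    have h7 : ∀ g : K ≃ₐ[ℚ] K, s g ^ E * g γ ∈ V := fun g => by
      simpa using hI (V.comap (g : K →+* K)) (g.symm (s g)) fun a b => by
        have := congrArg (fun p => (p.coeff a).coeff b) (h3 g)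
        simp only [coeff_map, coe_mapRingHom, coeff_C_mul] at this
        simpa using this ▸ (((G g).coeff a).coeff b).2
    refine hV ?_
    convert mul_mem (prod_mem fun g (_ : g ∈ univ) => h7 g) (pow_mem h6 E) using 1
    have := left_ne_zero_of_mul h5
    rw [map_div₀, Algebra.norm_eq_prod_automorphisms, prod_mul_distrib, prod_pow, map_pow,
      eq_ratCast, inv_pow, mul_pow]
    field_simp
  obtain ⟨n, hn⟩ := IsIntegrallyClosed.isIntegral_iff.1
    ((isIntegral_algebraMap_iff (algebraMap ℚ K).injective).1 h2)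
  rw [eq_div_iff (pow_ne_zero _ hq)] at hn
  have n0 : n ≠ 0 := fun e => hγ (by simpa [e] using hn.symm)
  have h8 : ∏ g, emb K g γ = n * (q : ℂ) ^ E := by
    have := congrArg (algebraMap K ℂ) (Algebra.norm_eq_prod_automorphisms ℚ γ)
    rw [map_prod, ← hn] at this
    simpa [emb] using this.symm
  have h9 : 0 < ‖(q : ℂ)‖ := norm_pos_iff.2 (Rat.cast_ne_zero.2 hq)
  rw [← Real.log_prod fun g _ => norm_ne_zero_iff.2 ((_root_.map_ne_zero _).2 hγ), ← norm_prod, h8,
    ← Real.log_pow, norm_mul, norm_pow]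
  refine Real.log_le_log (by positivity) (le_mul_of_one_le_left (by positivity) ?_)
  rw [Complex.norm_intCast]
  exact_mod_cast Int.one_le_abs n0

end Pool.Agent.MP_670f9a_nt.GL
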