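import Pool.Agent.MP_670f9a_nt.H83.Spec

/-! The area formula on the curve. -/

namespace Pool.Agent.MP_670f9a_nt.GL

open Polynomial MeasureTheory Metric Filter Set
open scoped ENNReal Topology

namespace AreaA

theorem det_smul_one (c : ℂ) : (c • (1 : ℂ →L[ℝ] ℂ)).det = ‖c‖ ^ 2 := by
  rw [ContinuousLinearMap.det, ← LinearMap.det_toMatrix Complex.basisOneI, Matrix.det_fin_two]
  simp [LinearMap.toMatrix_apply, Complex.sq_norm, Complex.normSq_apply]

theorem tsum_ind {α : Type} {T : ℕ → Set α} (h : Pairwise (Function.onFun Disjoint T))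
    (H : α → ℝ≥0∞) (p : α) : ∑' n, (T n).indicator H p = (⋃ n, T n).indicator H p := by
  by_cases hp : p ∈ ⋃ n, T n
  · obtain ⟨n, hn⟩ := mem_iUnion.1 hp
    rw [tsum_eq_single n fun m hm => indicator_of_notMem (disjoint_right.1 (h hm) hn) _,
      indicator_of_mem hn, indicator_of_mem hp]
  · rw [indicator_of_notMem hp]
    exact ENNReal.tsum_eq_zero.2 fun n => indicator_of_notMem (fun z => hp (mem_iUnion_of_mem n z)) _

/-- the graph -/
def Gr (U : Set ℂ) (v : ℂ → ℂ) : Set (ℂ × ℂ) := {q | q.1 ∈ U ∧ q.2 = v q.1}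

variable {Q : ℂ[X][X]} {B : Finset ℂ} {f : ℂ × ℂ → ℂ}

variable (Q B f) in
/-- a sheet on which `f` is injective -/
structure Pc (U : Set ℂ) (v : ℂ → ℂ) : Prop where
  opn : IsOpen U
  an : ∀ z ∈ U, z ∉ B ∧ AnalyticAt ℂ v z ∧ On Q (z, v z)
  inj : InjOn (fun z => f (z, v z)) U

theorem Pc.meas {U : Set ℂ} {v : ℂ → ℂ} (h : Pc Q B f U v) : MeasurableSet (Gr U v) := by
  have e : Gr U v = (fun z => (z, v z)) '' U := by
    ext q
    exact ⟨fun z => ⟨q.1, z.1, Prod.ext rfl z.2.symm⟩, by rintro ⟨z, hz, rfl⟩; exact ⟨hz, rfl⟩⟩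
  rw [e]
  exact h.opn.measurableSet.image_of_continuousOn_injOn
    (continuousOn_id.prodMk fun z hz => (h.an z hz).2.1.continuousAt.continuousWithinAt)
    fun _ _ _ _ z => congrArg Prod.fst z

theorem meas_dC (hC : SChart) : Measurable (dC Q f) := by
  have e : dC Q f = fun p => fderiv ℂ f p (1, 0) + sl Q p * fderiv ℂ f p (0, 1) := by
    funext p
    rw [dC, ← smul_eq_mul, ← map_smul, ← map_add]
    simp
  rw [e]
  exact (measurable_fderiv_apply_const ℂ f _).add
    ((hC.2.1 Q).2.2.2.1.mul (measurable_fderiv_apply_const ℂ f _))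

theorem meas_G (hC : SChart) {Φ : ℂ × ℂ → ℝ≥0∞} (hΦ : Measurable Φ) :
    Measurable fun p => Φ p * ENNReal.ofReal (‖dC Q f p‖ ^ 2) :=
  hΦ.mul ((meas_dC hC).norm.pow_const 2).ennreal_ofReal

variable (hC : SChart) (hG : Good Q B) (hf : ∀ p, Reg Q B p → AnalyticAt ℂ f p)

include hC hG hf

theorem loc (hL : SLoc) {p : ℂ × ℂ} (hp : Reg Q B p) (hd : dC Q f p ≠ 0) :
    ∃ a : Set ℂ × (ℂ → ℂ), Pc Q B f a.1 a.2 ∧ ∀ᶠ q in 𝓝 p, Reg Q B q → q ∈ Gr a.1 a.2 := by
  obtain ⟨c, y₀⟩ := p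
  obtain ⟨r, hr, h⟩ := hL Q B {c} hG isCompact_singleton (disjoint_singleton_left.2 hp.2)
  obtain ⟨y, h1, h2⟩ := h c rfl
  obtain ⟨m, -, hv⟩ := hC.2.2 Q B hG
  have hc := mem_ball_self (x := c) hr
  have mem : ∀ z ∈ ball c r, ∀ w, On Q (z, w) ↔ ∃ σ, y σ z = w := fun z hz w => by
    rw [← m z (h2 z hz).1, (h2 z hz).2]
    simp
  obtain ⟨σ, rfl⟩ := (mem c hc y₀).1 hp.1
  have hb := isOpen_ball.mem_nhds hc
  have h3 := (hv (y σ) c hp.2 (h1 σ c hc) (mem_of_superset hb fun z hz =>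
    (mem z hz _).2 ⟨σ, rfl⟩)).2.1 f (hf _ hp).differentiableAt
  have h4 : AnalyticAt ℂ (fun u => f (u, y σ u)) c :=
    (hf _ hp).comp_of_eq (analyticAt_id.prod (h1 σ c hc)) rfl
  have h5 := ((h4.contDiffAt (n := 1)).hasStrictDerivAt' h3 one_ne_zero).eventually_left_inverse hd
  obtain ⟨U, hU, hUo, hcU⟩ := _root_.mem_nhds_iff.1 (inter_mem h5 hb)
  refine ⟨(U, y σ), ⟨hUo, fun z hz => ⟨(h2 z (hU hz).2).1, h1 σ z (hU hz).2,
    (mem z (hU hz).2 _).2 ⟨σ, rfl⟩⟩, fun a ha b hb e => ?_⟩, ?_⟩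
  · have e1 := (hU ha).1
    have e2 := (hU hb).1
    simp only [mem_ofPred_eq] at e1 e2 e
    rw [← e1, ← e2, e]
  · have nd : Function.Injective fun τ => y τ c := by
      have := (hG.2 c hp.2).2
      rw [(h2 c hc).2] at this
      exact fun a b e => Multiset.inj_on_of_nodup_map this a (Finset.mem_univ_val _) b
        (Finset.mem_univ_val _) e
    have ev : ∀ τ, ∀ᶠ q : ℂ × ℂ in 𝓝 (c, y σ c), τ ≠ σ → y τ q.1 ≠ q.2 := fun τ => by
      by_cases e : τ = σ
      · exact Eventually.of_forall fun _ z => absurd e z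
      · have a : ContinuousAt (fun q : ℂ × ℂ => y τ q.1) (c, y σ c) :=
          (h1 τ c hc).continuousAt.comp_of_eq continuousAt_fst rfl
        exact ((a.sub continuousAt_snd).eventually_ne (sub_ne_zero.2 fun z => e (nd z))).mono
          fun _ z _ => sub_ne_zero.1 z
    filter_upwards [eventually_all.2 ev, continuousAt_fst.eventually (hUo.mem_nhds hcU)]
      with q a b hq
    obtain ⟨τ, hτ⟩ := (mem q.1 (hU b).2 q.2).1 hq.1
    by_cases e : τ = σ
    · exact ⟨b, by rw [← hτ, e]⟩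
    · exact absurd hτ (a τ e)

theorem piece (hM : SMu) {U : Set ℂ} {v : ℂ → ℂ} (h : Pc Q B f U v) {T : Set (ℂ × ℂ)}
    (hT : MeasurableSet T) (hs : T ⊆ Gr U v) {Φ : ℂ × ℂ → ℝ≥0∞} (hΦ : Measurable Φ) :
    (Measurable fun w => ∑' p, T.indicator ({p | f p = w}.indicator Φ) p) ∧
    ∫⁻ p, T.indicator (fun p => Φ p * ENNReal.ofReal (‖dC Q f p‖ ^ 2)) p ∂mu Q
      = ∫⁻ w, ∑' p, T.indicator ({p | f p = w}.indicator Φ) p := by
  obtain ⟨m, -, hv⟩ := hC.2.2 Q B hG
  have eq : ∀ p ∈ T, (p.1, v p.1) = p := fun p hp => Prod.ext rfl (hs hp).2.symm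
  have reg : ∀ z ∈ U, Reg Q B (z, v z) := fun z hz => ⟨(h.an z hz).2.2, (h.an z hz).1⟩
  have inj : InjOn f T := fun p hp q hq e => by
    have := h.inj (hs hp).1 (hs hq).1 (by simp only [eq p hp, eq q hq, e])
    rw [← eq p hp, ← eq q hq, this]
  have v1 : ∀ p ∈ T, ∑' q, T.indicator ({q | f q = f p}.indicator Φ) q = Φ p := fun p hp => by
    rw [tsum_eq_single p fun q hq => ?_, indicator_of_mem hp, indicator_of_mem (by rfl)]
    by_cases a : q ∈ T
    · exact (indicator_of_mem a _).trans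
        (indicator_of_notMem (s := {q | f q = f p}) (fun z => hq (inj a hp z)) _)
    · exact indicator_of_notMem a _
  have v0 : ∀ w, (¬∃ p : T, T.domRestrict f p = w) →
      ∑' q, T.indicator ({q | f q = w}.indicator Φ) q = 0 := fun w hw =>
    ENNReal.tsum_eq_zero.2 fun q => by
      by_cases a : q ∈ T
      · exact (indicator_of_mem a _).trans
          (indicator_of_notMem (s := {q | f q = w}) (fun z => hw ⟨⟨q, a⟩, z⟩) _)
      · exact indicator_of_notMem a _
  have emb : MeasurableEmbedding (T.domRestrict f) := ContinuousOn.measurableEmbedding hT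
    (fun p hp => (hf p (eq p hp ▸ reg _ (hs hp).1)).continuousAt.continuousWithinAt) inj
  have hA : MeasurableSet (Prod.fst '' T) := hT.image_of_continuousOn_injOn continuousOn_fst
    fun p hp q hq e => by rw [← eq p hp, ← eq q hq, e]
  have mA : ∀ z ∈ Prod.fst '' T, z ∈ U ∧ (z, v z) ∈ T := by
    rintro _ ⟨p, hp, rfl⟩
    exact ⟨(hs hp).1, (eq p hp).symm ▸ hp⟩
  constructor
  · have := emb.measurable_extend (hΦ.comp measurable_subtype_coe) (measurable_const (a := 0))
    convert this using 2 with w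
    by_cases a : ∃ p : T, T.domRestrict f p = w
    · obtain ⟨p, rfl⟩ := a
      rw [emb.injective.extend_apply]
      exact v1 p p.2
    · rw [Function.extend_apply' _ _ _ a, v0 w a]
  have hd : ∀ z ∈ Prod.fst '' T, HasFDerivWithinAt (fun z => f (z, v z))
      (dC Q f (z, v z) • (1 : ℂ →L[ℝ] ℂ)) (Prod.fst '' T) z := fun z hz =>
    ((hv v z (h.an z (mA z hz).1).1 (h.an z (mA z hz).1).2.1
      (mem_of_superset (h.opn.mem_nhds (mA z hz).1) fun u hu => (h.an u hu).2.2)).2.1 f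
        (hf _ (reg z (mA z hz).1)).differentiableAt).complexToReal_fderiv.hasFDerivWithinAt
  rw [((hM Q B hG).2.2.2.1 _ ((meas_G hC hΦ).indicator hT)).2,
    ← setLIntegral_eq_of_support_subset (s := (fun z => f (z, v z)) '' (Prod.fst '' T))
      (f := fun w => ∑' p, T.indicator ({p | f p = w}.indicator Φ) p) fun w hw => ?_,
    lintegral_image_eq_lintegral_abs_det_fderiv_mul volume hA hd
      (h.inj.mono fun z hz => (mA z hz).1), ← lintegral_indicator hA]
  · refine lintegral_congr fun x => ?_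
    by_cases a : x ∈ Prod.fst '' T
    · obtain ⟨a1, a2⟩ := mA x a
      rw [indicator_of_mem a, v1 _ a2, det_smul_one, abs_pow, abs_norm, mul_comm]
      refine (Finset.sum_eq_single_of_mem (s := ⟨fib Q x, (hG.2 x (h.an x a1).1).2⟩) (v x)
        ((m x (h.an x a1).1 _).2 (h.an x a1).2.2) fun y _ hy =>
          indicator_of_notMem (fun z => hy (hs z).2) _).trans (indicator_of_mem a2 _)
    · rw [indicator_of_notMem a]
      refine Multiset.sum_eq_zero fun t ht => ?_
      obtain ⟨y, -, rfl⟩ := Multiset.mem_map.1 ht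
      exact indicator_of_notMem (fun z => a ⟨_, z, rfl⟩) _
  · by_contra a
    refine hw (v0 w fun ⟨p, hp⟩ => a ⟨p.1.1, ⟨p, p.2, rfl⟩, ?_⟩)
    simp only [eq p p.2]
    exact hp

end AreaA

open AreaA in
theorem sAreaOf : SAreaOf := by
  intro hL hC hM Q B f Φ hG hf hΦ
  set S : Set (ℂ × ℂ) := {p | Reg Q B p ∧ dC Q f p ≠ 0} with hS
  have hSm : MeasurableSet S := (hM Q B hG).2.1.inter
    (meas_dC hC (measurableSet_singleton 0).compl)
  choose! a ha hb using fun (p : ℂ × ℂ) (hp : p ∈ S) => loc hC hG hf hL hp.1 hp.2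
  obtain ⟨t, ht, htc, hcov⟩ := TopologicalSpace.countable_cover_nhdsWithin
    (f := fun p => Gr (a p).1 (a p).2) (s := S) fun p hp =>
      mem_nhdsWithin_iff_eventually.2 ((hb p hp).mono fun q z hq => z hq.1)
  obtain ⟨u, hu⟩ := ((htc.image a).insert (∅, 0)).exists_eq_range (insert_nonempty _ _)
  have hP : ∀ n, Pc Q B f (u n).1 (u n).2 := fun n => by
    have : u n ∈ insert (∅, 0) (a '' t) := hu ▸ mem_range_self n
    rcases this with h | ⟨p, hp, h⟩
    · rw [h]
      exact ⟨isOpen_empty, fun _ z => z.elim, injOn_empty _⟩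
    · exact h ▸ ha p (ht hp)
  set T := disjointed fun n => Gr (u n).1 (u n).2 ∩ S with hT
  have hTm : ∀ n, MeasurableSet (T n) :=
    MeasurableSet.disjointed fun n => (hP n).meas.inter hSm
  have hU : ⋃ n, T n = S := by
    rw [hT, iUnion_disjointed]
    refine (iUnion_subset fun n => inter_subset_right).antisymm fun p hp => ?_
    obtain ⟨q, hq, h⟩ := mem_iUnion₂.1 (hcov hp)
    obtain ⟨n, hn⟩ : a q ∈ range u := hu ▸ mem_insert_of_mem _ (mem_image_of_mem a hq)
    exact mem_iUnion_of_mem n ⟨hn ▸ h, hp⟩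
  have key := fun n => piece hC hG hf hM (hP n) (hTm n)
    ((disjointed_subset _ n).trans inter_subset_left) hΦ
  have hd : Pairwise (Function.onFun Disjoint T) := disjoint_disjointed _
  calc _ = ∫⁻ p, ∑' n, (T n).indicator (fun p => Φ p * ENNReal.ofReal (‖dC Q f p‖ ^ 2)) p
        ∂mu Q := by
        refine lintegral_congr_ae ((hM Q B hG).2.2.1.mono fun p hp => ?_)
        simp only [tsum_ind hd, hU]
        by_cases e : dC Q f p = 0
        · rw [indicator_of_notMem fun z => z.2 e]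
          simp [e]
        · rw [indicator_of_mem (show p ∈ S from ⟨hp, e⟩)]
    _ = ∑' n, ∫⁻ w, ∑' p, (T n).indicator ({p | f p = w}.indicator Φ) p := by
        rw [lintegral_tsum fun n => ((meas_G hC hΦ).indicator (hTm n)).aemeasurable]
        exact tsum_congr fun n => (key n).2
    _ = _ := by
        rw [← lintegral_tsum fun n => (key n).1.aemeasurable]
        refine lintegral_congr fun w => ?_
        rw [ENNReal.tsum_comm]
        simp only [tsum_ind hd, hU]
        refine Eq.trans ?_ (tsum_subtype {p | Reg Q B p ∧ f p = w ∧ dC Q f p ≠ 0} Φ).symm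
        refine tsum_congr fun p => ?_
        rw [indicator_indicator]
        congr 1
        ext q
        exact ⟨fun z => ⟨z.1.1, z.2, z.1.2⟩, fun z => ⟨⟨z.1, z.2.2⟩, z.2.1⟩⟩

end Pool.Agent.MP_670f9a_nt.GL
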