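import Pool.Agent.MP_670f9a_nt.H83.Spec

/-! The area of the part of the curve close to the unit torus. -/

namespace Pool.Agent.MP_670f9a_nt.GL

open Polynomial Real MeasureTheory
open scoped ENNReal

namespace AreaTA

/-- The density on an annulus. -/
noncomputable def g (t n : ℝ) : ℂ → ℝ :=
  {z : ℂ | |log ‖z‖| ≤ t / n}.indicator fun z => n ^ 2 * (1 / ‖z‖ ^ 2)

theorem ms (s : ℝ) : MeasurableSet {z : ℂ | |log ‖z‖| ≤ s} :=
  measurableSet_le (by fun_prop) measurable_const

theorem g0 (t n : ℝ) (z : ℂ) : 0 ≤ g t n z := Set.indicator_nonneg (fun _ _ => by positivity) z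

theorem key (hM : SMu) (hP : SPol) {Q : ℂ[X][X]} {B : Finset ℂ} (h : Good Q B) {t n : ℝ}
    (ht : 0 < t) (hn : 0 < n) :
    ∫⁻ p, ENNReal.ofReal (g t n p.1) ∂mu Q = ENNReal.ofReal (Q.natDegree * (4 * π * t * n)) := by
  obtain ⟨a, b⟩ := hP.2.2.2.2.1 (t / n) (div_pos ht hn)
  obtain ⟨c, d⟩ := (hM Q B h).2.2.2.2.2.2.2.2 (g t n)
    (IntegrableOn.integrable_indicator (a.const_mul _) (ms _))
  rw [← ofReal_integral_eq_lintegral_ofReal c (.of_forall fun p => g0 t n p.1), d, g,
    integral_indicator (ms _), integral_const_mul, b]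
  congr 2
  field_simp

theorem g_eq {t n a : ℝ} {z : ℂ} (ht : 0 < t) (hn : 0 < n) (h : (n * log ‖z‖) ^ 2 + a ^ 2 ≤ t ^ 2) :
    g t n z = n ^ 2 * (1 / ‖z‖ ^ 2) := by
  rw [g, Set.indicator_of_mem (s := {z : ℂ | |log ‖z‖| ≤ t / n}) ((le_div_iff₀' hn).2 ?_)]
  rw [← abs_of_pos hn, ← abs_mul]
  exact abs_le_of_sq_le_sq (by linarith [sq_nonneg a]) ht.le

end AreaTA

open AreaTA in
theorem sAreaTOf : SAreaTOf := fun hM hP hS hR Q B t ⟨h, _, _, B', h'⟩ ht => by
  have d0 : (0 : ℝ) < Q.natDegree := by exact_mod_cast h.1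
  have e0 : (0 : ℝ) < (sw Q).natDegree := by exact_mod_cast h'.1
  obtain ⟨-, -, -, -, -, mq, mS, -⟩ := hR.1 Q
  have mW : MeasurableSet {p | qq Q p ≤ t ^ 2} := measurableSet_le mq measurable_const
  have mg : ∀ n, Measurable fun z => ENNReal.ofReal (g t n z) := fun n =>
    (Measurable.indicator (by fun_prop) (ms _)).ennreal_ofReal
  have s0 : ∀ p, 0 ≤ SS Q p := fun p => add_nonneg (sq_nonneg _) (sq_nonneg _)
  have h1 := (hS Q B B' h h').2.1
    (fun p => if p.1 ∈ B then 0 else ENNReal.ofReal (g t Q.natDegree p.2))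
    (.ite (B.measurableSet.preimage measurable_fst) measurable_const ((mg _).comp measurable_snd))
    fun p hp => if_pos hp
  have h2 : ∫⁻ p in {p | qq Q p ≤ t ^ 2}, ENNReal.ofReal (SS Q p) ∂mu Q ≤
      ENNReal.ofReal (8 * π * t * DD Q) := by
    rw [← lintegral_indicator mW, show 8 * π * t * DD Q = Q.natDegree *
      (4 * π * t * (sw Q).natDegree) + (sw Q).natDegree * (4 * π * t * Q.natDegree) by
        rw [DD]; ring, ENNReal.ofReal_add (by positivity) (by positivity), ← key hM hP h ht e0,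
      ← key hM hP h' ht d0]
    refine le_trans ?_ (add_le_add_right (h1.trans_le (lintegral_mono fun p => ?_)) _)
    · refine (lintegral_mono_ae ((hM Q B h).2.2.1.mono fun p hp => ?_)).trans_eq
        (lintegral_add_left ((mg _).fun_comp measurable_fst) _)
      refine Set.indicator_apply_le' (fun hw => ?_) fun _ => zero_le
      rw [if_neg hp.2, g_eq ht e0 hw, g_eq ht d0 ((add_comm _ _).trans_le hw),
        ← ENNReal.ofReal_mul (by positivity), ← ENNReal.ofReal_add (by positivity) (by positivity)]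
      simp only [SS, da, db, norm_mul, norm_div, Complex.norm_natCast]
      exact (congrArg _ (by ring)).le
    · split_ifs
      exacts [zero_le, le_rfl]
  have h3 : IntegrableOn (SS Q) {p | qq Q p ≤ t ^ 2} (mu Q) := ⟨mS.aestronglyMeasurable,
    (hasFiniteIntegral_iff_ofReal (.of_forall s0)).2 (h2.trans_lt ENNReal.ofReal_lt_top)⟩
  rw [← ofReal_integral_eq_lintegral_ofReal h3 (.of_forall s0),
    ENNReal.ofReal_le_ofReal_iff (by rw [DD]; positivity)] at h2
  exact ⟨h3, h2⟩

end Pool.Agent.MP_670f9a_nt.GL
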