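import Pool.Agent.MP_670f9a_nt.H83.Spec

/-!
Averages over the centre of the disc.
-/

namespace Pool.Agent.MP_670f9a_nt.GL

open Real MeasureTheory Metric Filter

namespace Avg1A

theorem meas (r : ℝ) : MeasurableSet {p : ℂ × ℂ | p.2 ∈ ball p.1 r} :=
  (isOpen_lt (continuous_snd.dist continuous_fst) continuous_const).measurableSet

theorem key {A : Set ℂ} {r R : ℝ} {f : ℂ → ℝ} (hA : IsCompact A) (hR : A ⊆ ball 0 R)
    (hf : IntegrableOn f (ball 0 (R + r))) : IntegrableOn (fun c => ∫ z in ball c r, f z) A ∧
      ∫ c in A, ∫ z in ball c r, f z = ∫ z, f z * (volume.restrict A).real (ball z r) := by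
  have : IsFiniteMeasure (volume.restrict A) := isFiniteMeasure_restrict.2 hA.measure_lt_top.ne
  have h : Integrable (fun p : ℂ × ℂ => (ball p.1 r).indicator f p.2)
      ((volume.restrict A).prod volume) := by
    refine ((((integrable_indicator_iff measurableSet_ball).2 hf).comp_snd _).indicator
      (meas r)).congr ?_
    filter_upwards [Measure.quasiMeasurePreserving_fst.ae (ae_restrict_mem hA.measurableSet)]
      with p hp
    by_cases h : p.2 ∈ ball p.1 r
    · rw [Set.indicator_of_mem h, Set.indicator_of_mem (show p ∈ {p : ℂ × ℂ | p.2 ∈ ball p.1 r}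
        from h), Set.indicator_of_mem]
      exact mem_ball.2 (by linarith [dist_triangle p.2 p.1 0, mem_ball.1 h, mem_ball.1 (hR hp)])
    · rw [Set.indicator_of_notMem h, Set.indicator_of_notMem
        (show p ∉ {p : ℂ × ℂ | p.2 ∈ ball p.1 r} from h)]
  simp only [← integral_indicator measurableSet_ball]
  refine ⟨h.integral_prod_left, (integral_integral_swap h).trans
    (integral_congr_ae (ae_of_all _ fun z => ?_))⟩
  beta_reduce
  rw [mul_comm, ← smul_eq_mul, ← integral_indicator_const _ measurableSet_ball]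
  refine integral_congr_ae (ae_of_all _ fun c => ?_)
  simp only [Set.indicator, mem_ball, dist_comm z]

end Avg1A

open Avg1A in
theorem sAvg1Of : SAvg1Of := by
  intro A r hA h0 hr
  obtain ⟨R, hR⟩ := hA.isBounded.subset_ball 0
  have : IsFiniteMeasure (volume.restrict A) := isFiniteMeasure_restrict.2 hA.measure_lt_top.ne
  have k : ∀ f : ℂ → ℝ, IntegrableOn f (ball 0 (R + r)) →
      (volume.real A)⁻¹ * ∫ c in A, (π * r ^ 2)⁻¹ * ∫ z in ball c r, f z =
      ∫ z, f z * ((volume.real A)⁻¹ * ((π * r ^ 2)⁻¹ * (volume.restrict A).real (ball z r))) :=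
    fun f hf => by
      rw [integral_const_mul, (key hA hR hf).2, ← integral_const_mul, ← integral_const_mul]
      exact integral_congr_ae (ae_of_all _ fun z => by ring)
  refine ⟨fun z => (volume.real A)⁻¹ * ((π * r ^ 2)⁻¹ * (volume.restrict A).real (ball z r)), R + r,
    (volume.real A)⁻¹ * ((π * r ^ 2)⁻¹ * (volume.restrict A).real Set.univ),
    ⟨((measurable_measure_prodMk_left (meas r)).ennreal_toReal.const_mul _).const_mul _,
      fun z => ⟨by positivity, mul_le_mul_of_nonneg_left (mul_le_mul_of_nonneg_left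
        (measureReal_mono (Set.subset_univ _)) (by positivity)) (by positivity)⟩, fun z hz => ?_, ?_⟩,
    fun f hf => ⟨(key hA hR (hf _)).1, k f (hf _)⟩⟩
  · beta_reduce
    rw [measureReal_restrict_apply measurableSet_ball,
      Set.eq_empty_of_forall_notMem (s := ball z r ∩ A) fun c hc => ?_]
    · simp
    · linarith [dist_triangle_left z 0 c, mem_ball.1 hc.1, mem_ball.1 (hR hc.2), dist_zero_right z]
  · have := k (fun _ => 1) (integrableOn_const measure_ball_lt_top.ne)
    simp only [one_mul] at this
    rw [← this]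
    have e : ∀ c : ℂ, ∫ _ in ball c r, (1 : ℝ) = π * r ^ 2 := fun c => by
      simp [Measure.real, hr.le, mul_comm]
    simp only [e, inv_mul_cancel₀ (show π * r ^ 2 ≠ 0 by positivity)]
    simp [h0.ne']

end Pool.Agent.MP_670f9a_nt.GL
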