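import Pool.Agent.MP_670f9a_nt.H83.Spec

/-! Averaging a localised test function over the centre. -/

namespace Pool.Agent.MP_670f9a_nt.GL

open MeasureTheory Metric Filter

namespace Avg2A

theorem fub {μ : Measure (ℂ × ℂ)} [SFinite μ] {K A : Set ℂ} {r : ℝ} (hA : IsCompact A)
    (hK : ∀ x ∈ K, closedBall x r ⊆ A) {f : ℂ × ℂ → ℝ} {g : ℂ → ℝ} (hf : Integrable f μ)
    (f0 : ∀ p : ℂ × ℂ, p.1 ∉ K → f p = 0) (hg : Continuous g)
    (g0 : ∀ z ∉ closedBall 0 r, g z = 0) :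
    Integrable (fun z : ℂ × ℂ × ℂ => f z.2 * g (z.2.1 - z.1)) ((volume.restrict A).prod μ) ∧
      ∫ z : ℂ × ℂ × ℂ, f z.2 * g (z.2.1 - z.1) ∂(volume.restrict A).prod μ =
        (∫ z, g z) * ∫ p, f p ∂μ := by
  have : IsFiniteMeasure (volume.restrict A) := isFiniteMeasure_restrict.2 hA.measure_lt_top.ne
  obtain ⟨C, hC⟩ := hg.bounded_above_of_compact_support (.intro (isCompact_closedBall 0 r) g0)
  have i : Integrable (fun z : ℂ × ℂ × ℂ => f z.2 * g (z.2.1 - z.1)) ((volume.restrict A).prod μ) :=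
    (hf.comp_snd _).mul_bdd (c := C) (by fun_prop) (.of_forall fun _ => hC _)
  refine ⟨i, ?_⟩
  rw [integral_prod_symm _ i, ← integral_const_mul]
  refine integral_congr_ae (.of_forall fun p => ?_)
  by_cases h : p.1 ∈ K
  · simp only
    rw [integral_const_mul, mul_comm, setIntegral_eq_integral_of_forall_compl_eq_zero
      fun c hc => g0 _ fun e => hc (hK _ h (by simpa [dist_eq_norm, norm_sub_rev] using e)),
      integral_sub_left_eq_self]
  · simp [f0 p h]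

end Avg2A

open Avg2A in
theorem sAvg2Of : SAvg2Of := by
  intro hC hM hL hF hA Q B φ Y K A χ r hG hT hK h0 cA cχ χ0 hKA cY
  obtain ⟨m1, -, m2, -, -, -, -, m3, -⟩ := hM Q B hG
  have van : ∀ K : Set ℂ, IsCompact K → (∀ p : ℂ × ℂ, p.1 ∉ K → φ p = 0) → ∀ p : ℂ × ℂ, p.1 ∉ K →
      ∀ w, D Q w φ p = 0 ∧ Lap Q φ p = 0 := fun K hK h p hp w => (hL.1 Q p w).2.2.2.1 φ <|
    mem_of_superset ((hK.isClosed.isOpen_compl.preimage continuous_fst).mem_nhds hp) h
  obtain ⟨K', k1, k2, k3⟩ := hT.2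
  have cY' : ContinuousOn Y {p | Reg Q B p} := cY.mono fun _ h => h.1
  have s0 : ∀ z ∉ closedBall (0 : ℂ) r, χ z = 0 := fun z hz =>
    χ0 z (le_of_not_ge fun h => hz (mem_closedBall_zero_iff.2 h))
  have s1 : tsupport χ ⊆ closedBall 0 r :=
    closure_minimal (fun z hz => by_contra fun h => hz (s0 z h)) isClosed_closedBall
  obtain ⟨f1, f2, -, f3, f4, -⟩ := hF χ cχ (.intro (isCompact_closedBall 0 r) s0)
  obtain ⟨i1, e1⟩ := fub cA hKA (f := fun p => Y p * φ p) (m3 _ K' (cY'.mul fun p hp =>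
    (hT.1 p hp.1).continuousAt.continuousWithinAt) k1 k2 fun p _ h => by simp [k3 p h])
    (fun p h => by simp [h0 p h]) f1 fun z hz => f2 z fun h => hz (s1 h)
  have h2 := fun w => fub cA hKA (f := fun p => 2 * (Y p * D Q w φ p)) (g := (fderiv ℝ χ · w))
    ((m3 _ K' (cY'.mul fun p hp => ((((hC.2.2 Q B hG).2.1 p hp).2.2 φ w).1
      ((hT.1 p hp.1).of_le one_le_two)).continuousWithinAt) k1 k2
      fun p _ h => by simp [(van K' k1 k3 p h w).1]).const_mul 2)
    (fun p h => by simp [(van K hK h0 p h w).1])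
    ((cχ.continuous_fderiv two_ne_zero).clm_apply continuous_const)
    fun z hz => by simp [fderiv_of_notMem_tsupport ℝ fun h => hz (s1 h)]
  obtain ⟨i4, e4⟩ := fub cA hKA (((hA Q B hG).2.2.2 φ hT).2.2.2.2.2.2.2 Y cY)
    (fun p h => by simp [(van K hK h0 p h 1).2]) cχ.continuous s0
  have i := ((i1.add (h2 1).1).add (h2 Complex.I).1).add i4
  have e : ∀ c, ∫ p, Y p * Lap Q (fun q => φ q * χ (q.1 - c)) p ∂mu Q = ∫ p, _ ∂mu Q := fun c =>
    integral_congr_ae (g := fun p => Y p * φ p * lap χ (p.1 - c) +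
      2 * (Y p * D Q 1 φ p) * fderiv ℝ χ (p.1 - c) 1 +
      2 * (Y p * D Q Complex.I φ p) * fderiv ℝ χ (p.1 - c) Complex.I +
      Y p * Lap Q φ p * χ (p.1 - c)) <| m2.mono fun p hp => by
    have c1 : ContDiff ℝ 2 fun z => χ (z - c) := by fun_prop
    have d := fun w => (hL.1 Q p w).2.2.2.2.1 _ (c1.differentiable two_ne_zero p.1)
    obtain ⟨l1, -, -, l2⟩ := hL.2 Q B p hG hp
    simp only
    rw [(l1 φ _ (hT.1 p hp.1) (by fun_prop)).1, l2 _ c1.contDiffAt, gr, d, d]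
    simp only [lap, fderiv_comp_sub]
    rw [fderiv_comp_sub (f := fun u => fderiv ℝ χ u 1),
      fderiv_comp_sub (f := fun u => fderiv ℝ χ u Complex.I)]
    ring
  simp only [e]
  refine ⟨i.integral_prod_left, (integral_prod _ i).symm.trans ?_⟩
  rw [integral_add' ((i1.add (h2 1).1).add (h2 _).1) i4, integral_add' (i1.add (h2 1).1) (h2 _).1,
    integral_add' i1 (h2 1).1, e1, (h2 _).2, (h2 _).2, e4, f3, f4, f4]
  ring

end Pool.Agent.MP_670f9a_nt.GL
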