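import Pool.Agent.MP_670f9a_nt.H83.Spec
import Pool.Agent.MP_670f9a_nt.H13.All2

/-! Above the unit circle the roots are close to the unit circle on average. -/

namespace Pool.Agent.MP_670f9a_nt.GL

open Polynomial Real MeasureTheory Metric Filter
open Pool.Agent.MP_670f9a_nt.NP (Phi Psi m2 toC)

namespace AxisA

theorem abs_log (t : ℝ) : |log t| = 2 * log⁺ t - log t := by
  have hd : log⁺ t = max 0 (log t) := rfl
  rw [hd]
  rcases le_total 0 (log t) with h | h
  · rw [abs_of_nonneg h, max_eq_right h]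
    ring
  · rw [abs_of_nonpos h, max_eq_left h]
    ring

theorem sum_abs (s : Multiset ℂ) :
    (s.map fun y => |log ‖y‖|).sum =
      2 * (s.map fun y => log⁺ ‖y‖).sum - (s.map fun y => log ‖y‖).sum := by
  induction s using Multiset.induction_on with
  | empty => simp
  | cons a s ih =>
    simp only [Multiset.map_cons, Multiset.sum_cons, ih, abs_log ‖a‖]
    ring

theorem log_prod (s : Multiset ℂ) (hs : ∀ y ∈ s, y ≠ 0) :
    (s.map fun y => (0 : ℂ) - y).prod ≠ 0 ∧
      log ‖(s.map fun y => (0 : ℂ) - y).prod‖ = (s.map fun y => log ‖y‖).sum := by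
  induction s using Multiset.induction_on with
  | empty => simp
  | cons a s ih =>
    obtain ⟨h1, h2⟩ := ih fun y hy => hs y (Multiset.mem_cons_of_mem hy)
    have ha : (0 : ℂ) - a ≠ 0 := by simpa using hs a (Multiset.mem_cons_self a s)
    simp only [Multiset.map_cons, Multiset.sum_cons, Multiset.prod_cons]
    refine ⟨mul_ne_zero ha h1, ?_⟩
    rw [norm_mul, log_mul (norm_ne_zero_iff.2 ha) (norm_ne_zero_iff.2 h1), h2]
    simp

theorem one_var (p : ℂ[X]) (hp : p ≠ 0) (hs : ∀ y ∈ p.roots, y ≠ 0) :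
    (p.roots.map fun y => |log ‖y‖|).sum =
      2 * p.logMahlerMeasure - log ‖p.leadingCoeff‖ - log ‖p.coeff 0‖ := by
  obtain ⟨h1, h2⟩ := log_prod p.roots hs
  have h0 : p.coeff 0 = p.leadingCoeff * (p.roots.map fun y => (0 : ℂ) - y).prod := by
    rw [coeff_zero_eq_eval_zero]
    conv_lhs => rw [(IsAlgClosed.splits p).eq_prod_roots]
    simp [eval_multiset_prod]
  rw [sum_abs, logMahlerMeasure_eq_log_leadingCoeff_add_sum_log_roots, h0, norm_mul,
    log_mul (norm_ne_zero_iff.2 (leadingCoeff_ne_zero.2 hp)) (norm_ne_zero_iff.2 h1), h2]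
  ring

theorem int_nonneg (f : ℤ[X]) : 0 ≤ (f.map (Int.castRingHom ℂ)).logMahlerMeasure := by
  by_cases hf : f = 0
  · simp [hf]
  · exact (NP.sRoots f f.natDegree f.natDegree (leadingCoeff_ne_zero.2 hf)
      (leadingCoeff_ne_zero.2 hf)).1

theorem log_int (g : ℂ[X]) : CircleIntegrable (fun x => log ‖g.eval x‖) 0 1 :=
  (analyticOnNhd_id.aeval_polynomial g).meromorphicOn.circleIntegrable_log_norm

theorem off (Q : ℂ[X][X]) (B : Finset ℂ) (h : Tor Q B) (x : ℂ) (hx : x ∉ B) :
    fs Q (fun p => |log ‖p.2‖|) x =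
      2 * Phi Q x - log ‖(Q.coeff Q.natDegree).eval x‖ - log ‖(Q.coeff 0).eval x‖ := by
  obtain ⟨⟨hd, hG⟩, -, hy, -⟩ := h
  have hc := (hG x hx).1
  have hp : Q.map (evalRingHom x) ≠ 0 := by
    intro h0
    rw [fib, h0] at hc
    simp at hc
    omega
  have hn : (Q.map (evalRingHom x)).natDegree = Q.natDegree :=
    le_antisymm natDegree_map_le (hc ▸ card_roots' _)
  have hr : ∀ y ∈ (Q.map (evalRingHom x)).roots, y ≠ 0 := by
    intro y hy'
    refine hy (x, y) ⟨?_, hx⟩
    have := (mem_roots hp).1 hy'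
    rwa [IsRoot, map_evalRingHom_eval] at this
  have h1 := one_var _ hp hr
  have h2 : (Q.map (evalRingHom x)).logMahlerMeasure = Phi Q x := by
    simp only [logMahlerMeasure_def, map_evalRingHom_eval, Phi]
  rw [h2, leadingCoeff, hn, coeff_map, coeff_map] at h1
  exact h1

end AxisA

theorem sAxisOf : SAxisOf := by
  intro _ P B h
  have hP : P ≠ 0 := by
    rintro rfl
    have := h.1.1
    simp [toC] at this
  obtain ⟨hQ, hm⟩ := NP.allAdd.2.2.2.2 P hP
  refine ⟨hm, ?_⟩
  have hco : ∀ j, (toC P).coeff j = (P.coeff j).map (Int.castRingHom ℂ) := fun j => by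
    simp [toC]
  have hI := (H30.sFub _ hQ).1
  have he : (fun x => 2 * Phi (toC P) x - log ‖((toC P).coeff (toC P).natDegree).eval x‖ -
      log ‖((toC P).coeff 0).eval x‖) =ᶠ[codiscreteWithin (sphere (0 : ℂ) |1|)]
      fs (toC P) fun p => |log ‖p.2‖| := by
    filter_upwards [compl_finite_mem_codiscreteWithin (s := sphere (0 : ℂ) |1|) B.finite_toSet]
      with x hx
    exact (AxisA.off _ B h x hx).symm
  have hI2 : CircleIntegrable (fun x => 2 * Phi (toC P) x) 0 1 := hI.const_mul 2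
  have hI3 : CircleIntegrable (fun x => 2 * Phi (toC P) x -
      log ‖((toC P).coeff (toC P).natDegree).eval x‖) 0 1 :=
    hI2.sub (AxisA.log_int ((toC P).coeff (toC P).natDegree))
  have hI4 := hI3.sub (AxisA.log_int ((toC P).coeff 0))
  refine ⟨CircleIntegrable.congr_codiscreteWithin he hI4, ?_⟩
  rw [Mx, ← circleAverage_congr_codiscreteWithin he one_ne_zero,
    circleAverage_fun_sub hI3 (AxisA.log_int _), circleAverage_fun_sub hI2 (AxisA.log_int _)]
  have h2 : circleAverage (fun x => 2 * Phi (toC P) x) 0 1 = 2 * m2 (toC P) :=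
    circleAverage_fun_smul (a := (2 : ℝ)) (f := Phi (toC P))
  have h3 := AxisA.int_nonneg (P.coeff (toC P).natDegree)
  have h4 := AxisA.int_nonneg (P.coeff 0)
  rw [← hco, logMahlerMeasure_def] at h3 h4
  linarith

end Pool.Agent.MP_670f9a_nt.GL
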