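import Pool.Agent.MP_670f9a_nt.H83.Spec

/-!
The degree of the logarithmic Gauss map.
-/

set_option autoImplicit false

namespace Pool.Agent.MP_670f9a_nt.GL

open Polynomial Finset

namespace BezGA

theorem coeff_sw (P : ℂ[X][X]) (i j : ℕ) : ((sw P).coeff j).coeff i = (P.coeff i).coeff j := by
  unfold sw
  induction P using Polynomial.induction_on' with
  | add p q hp hq => simp [hp, hq]
  | monomial n a =>
    induction a using Polynomial.induction_on' with
    | add p q hp hq => simp only [map_add, coeff_add, hp, hq]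
    | monomial m r =>
      rw [Bivariate.swap_monomial_monomial]
      simp only [coeff_monomial]
      split_ifs <;> simp_all [coeff_monomial]

theorem coeff_dx (Q : ℂ[X][X]) (j : ℕ) :
    (sw (derivative (sw Q))).coeff j = derivative (Q.coeff j) := by
  ext i
  rw [coeff_sw, coeff_derivative, coeff_derivative, ← Nat.cast_succ, coeff_mul_natCast, coeff_sw,
    Nat.cast_succ]

theorem coeff_eu {R : Type} [CommRing R] (p : R[X]) (j : ℕ) :
    (X * derivative p).coeff j = p.coeff j * j := by
  cases j <;> simp [coeff_X_mul, coeff_derivative]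

/-- the equation of a fibre of the Gauss map -/
noncomputable def Fw (Q : ℂ[X][X]) (a b : ℂ) : ℂ[X][X] :=
  C (C a * X) * sw (derivative (sw Q)) + C (C b) * (X * derivative Q)

theorem coeff_Fw (Q : ℂ[X][X]) (a b : ℂ) (j i : ℕ) :
    ((Fw Q a b).coeff j).coeff i = (a * i + b * j) * (Q.coeff j).coeff i := by
  rw [Fw, coeff_add, coeff_C_mul, coeff_C_mul, coeff_dx, coeff_eu, mul_assoc, coeff_add,
    coeff_C_mul, coeff_C_mul, coeff_eu, coeff_mul_natCast]
  ring

theorem deg_Fw (Q : ℂ[X][X]) (a b : ℂ) : (Fw Q a b).natDegree ≤ Q.natDegree :=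
  natDegree_le_iff_coeff_eq_zero.2 fun j hj => Polynomial.ext fun i => by
    rw [coeff_Fw, coeff_eq_zero_of_natDegree_lt hj]
    simp

theorem deg_Fw' (Q : ℂ[X][X]) (a b : ℂ) (j : ℕ) :
    ((Fw Q a b).coeff j).natDegree ≤ (Q.coeff j).natDegree :=
  natDegree_le_iff_coeff_eq_zero.2 fun i hi => by
    rw [coeff_Fw, coeff_eq_zero_of_natDegree_lt hi, mul_zero]

theorem deg_det {N e : ℕ} (M : Matrix (Fin N) (Fin N) ℂ[X]) (h : ∀ i j, (M i j).natDegree ≤ e) :
    M.det.natDegree ≤ N * e := by
  rw [Matrix.det_apply]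
  refine natDegree_sum_le_of_forall_le _ _ fun σ _ => (natDegree_smul_le _ _).trans
    ((natDegree_prod_le _ _).trans ?_)
  simpa using sum_le_card_nsmul univ _ e fun i _ => h (σ i) i

theorem deg_res {f g : ℂ[X][X]} {e : ℕ} (m n : ℕ) (hf : ∀ j, (f.coeff j).natDegree ≤ e)
    (hg : ∀ j, (g.coeff j).natDegree ≤ e) : (resultant f g m n).natDegree ≤ (m + n) * e :=
  deg_det _ fun i j => by
    induction j using Fin.addCases <;>
      simp only [sylvester, Matrix.of_apply, Fin.addCases_left, Fin.addCases_right] <;>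
      split_ifs <;> simp [hf, hg]

/-- common zeros give a zero of the determinant with multiplicity -/
theorem mult {N : ℕ} (P : Fin N → ℂ[X][X]) (hP : ∀ j, (P j).natDegree < N) (x : ℂ) (Z : Finset ℂ)
    (hZ : ∀ y ∈ Z, ∀ j, (P j).evalEval x y = 0) (hc : Z.card ≤ N) :
    (X - C x) ^ Z.card ∣ (Matrix.of fun i j : Fin N => (P j).coeff i).det := by
  classical
  obtain ⟨t, ht, hN⟩ := Infinite.exists_superset_card_eq Z N hc
  let z : Fin N → ℂ := fun i => (equivFinOfCardEq hN).symm i
  have hz : Function.Injective z := Subtype.val_injective.comp (Equiv.injective _)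
  have h1 : ∀ i j, ∃ c, (P j).eval (C (z i)) = (if z i ∈ Z then X - C x else 1) * c := fun i j => by
    split_ifs with h
    · exact dvd_iff_isRoot.2 (hZ _ h j)
    · exact ⟨_, (one_mul _).symm⟩
  choose c hc using h1
  have h2 : (C : ℂ →+* ℂ[X]).mapMatrix (Matrix.vandermonde z) *
      (Matrix.of fun i j : Fin N => (P j).coeff i) =
      Matrix.of fun i j => (if z i ∈ Z then X - C x else 1) * (Matrix.of c) i j := by
    ext1 i j
    rw [Matrix.of_apply, Matrix.of_apply, ← hc, eval_eq_sum_range' (hP j), Matrix.mul_apply,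
      ← Fin.sum_univ_eq_sum_range fun k => (P j).coeff k * C (z i) ^ k]
    exact sum_congr rfl fun k _ => by simp [mul_comm]
  have h3 := congrArg Matrix.det h2
  rw [Matrix.det_mul, ← RingHom.map_det, Matrix.det_mul_column, prod_ite, prod_const, prod_const_one,
    mul_one] at h3
  have h4 : (univ.filter fun i => z i ∈ Z).card = Z.card :=
    card_bij (fun i _ => z i) (fun i hi => (mem_filter.1 hi).2) (fun _ _ _ _ h => hz h)
      fun y hy => ⟨equivFinOfCardEq hN ⟨y, ht hy⟩, by simp [z, hy], by simp [z]⟩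
  rw [h4] at h3
  exact (isUnit_C.2 (Matrix.det_vandermonde_ne_zero_iff.2 hz).isUnit).dvd_mul_left.1 ⟨_, h3⟩

theorem mult_res {f g : ℂ[X][X]} {m n : ℕ} (hf : f.natDegree ≤ m) (hg : g.natDegree ≤ n) (x : ℂ)
    (Z : Finset ℂ) (hZ : ∀ y ∈ Z, f.evalEval x y = 0 ∧ g.evalEval x y = 0) (hc : Z.card ≤ m + n) :
    (X - C x) ^ Z.card ∣ resultant f g m n := by
  have key : ∀ (p : ℂ[X][X]) (k j i : ℕ), p.natDegree ≤ k →
      (if i ∈ Set.Icc j (j + k) then p.coeff (i - j) else 0) = (p * X ^ j).coeff i := by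
    intro p k j i hp
    rw [coeff_mul_X_pow']
    split_ifs with h1 h2 h2
    · rfl
    · exact absurd h1.1 h2
    · exact (coeff_eq_zero_of_natDegree_lt (by simp [h2] at h1; omega)).symm
    · rfl
  have dg : ∀ (p : ℂ[X][X]) (j : ℕ), (p * X ^ j).natDegree ≤ p.natDegree + j := fun p j =>
    natDegree_mul_le.trans (by simp)
  convert mult (fun j : Fin (m + n) => j.addCases (fun j => g * X ^ (j : ℕ))
    fun j => f * X ^ (j : ℕ)) (fun j => ?_) x Z (fun y hy j => ?_) hc using 1
  · rw [resultant]
    congr 1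
    ext1 i j
    induction j using Fin.addCases <;>
      simp only [sylvester, Matrix.of_apply, Fin.addCases_left, Fin.addCases_right]
    exacts [key _ _ _ _ hg, key _ _ _ _ hf]
  · induction j using Fin.addCases with
    | left j => have := dg g j; rw [Fin.addCases_left]; omega
    | right j => have := dg f j; rw [Fin.addCases_right]; omega
  · induction j using Fin.addCases <;> simp [evalEval_mul, hZ y hy]

end BezGA

open BezGA in
theorem sBezGOf : SBezGOf := by
  classical
  rintro - ⟨h1, h2, h3⟩ Q B ⟨hG, -, hy, B', he, -⟩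
  obtain ⟨f1, f2, -⟩ := h3 Q B hG
  have hdeg := (h2 Q).2.2.2.2.1
  have he' : ((sw Q).natDegree : ℂ) ≠ 0 := Nat.cast_ne_zero.2 (by omega)
  have key : ∀ w p, Reg Q B p → (gm Q p = w ↔
      (Fw Q Q.natDegree ((sw Q).natDegree * w)).evalEval p.1 p.2 = 0) := fun w p hp => by
    have a1 := (f2 p hp).1
    have a2 := hy p hp
    simp only [Fw, evalEval_add, evalEval_mul, evalEval_C, evalEval_X, eval_mul, eval_C, eval_X,
      h1, gm, sl]
    field_simp
    constructor <;> intro h <;> linear_combination -h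
  obtain ⟨x0, hx0⟩ := Infinite.exists_notMem_finset B
  refine ⟨((fib Q x0).map fun y => gm Q (x0, y)).toFinset, fun w hw S hS => ?_⟩
  set F := Fw Q Q.natDegree ((sw Q).natDegree * w) with hF
  have hF1 : F.natDegree ≤ Q.natDegree := deg_Fw _ _ _
  have hR : resultant Q F Q.natDegree Q.natDegree ≠ 0 := fun h => by
    have a1 : (Q.map (evalRingHom x0)).natDegree = Q.natDegree :=
      le_antisymm natDegree_map_le ((hG.2 x0 hx0).1.ge.trans (card_roots' _))
    have a2 := resultant_eq_prod_eval (Q.map (evalRingHom x0)) (F.map (evalRingHom x0)) _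
      (natDegree_map_le.trans hF1) (IsAlgClosed.splits _)
    rw [a1, resultant_map_map, h, map_zero] at a2
    refine mul_ne_zero (pow_ne_zero _ (leadingCoeff_ne_zero.2 fun h0 => ?_))
      (Multiset.prod_ne_zero fun h0 => ?_) a2.symm
    · have := hG.1
      rw [← a1, h0] at this
      simp at this
    · obtain ⟨y, hy', h0⟩ := Multiset.mem_map.1 h0
      rw [map_evalRingHom_eval] at h0
      exact hw (Multiset.mem_toFinset.2 (Multiset.mem_map.2
        ⟨y, hy', (key w (x0, y) ⟨(f1 x0 hx0 y).1 hy', hx0⟩).2 h0⟩))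
  have hle : S.val.map Prod.fst ≤ (resultant Q F Q.natDegree Q.natDegree).roots := by
    refine Multiset.le_iff_count.2 fun x => ?_
    have a1 : ((S.filter fun p => x = p.1).image Prod.snd).card = (S.val.map Prod.fst).count x := by
      rw [Multiset.count_map, card_image_of_injOn fun p hp q hq h => Prod.ext
        ((mem_filter.1 hp).2.symm.trans (mem_filter.1 hq).2) h]
      rfl
    have a2 : ∀ y ∈ (S.filter fun p => x = p.1).image Prod.snd,
        Reg Q B (x, y) ∧ gm Q (x, y) = w := fun y hy' => by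
      obtain ⟨p, hp, rfl⟩ := mem_image.1 hy'
      obtain ⟨hp', rfl⟩ := mem_filter.1 hp
      exact hS p hp'
    rw [← a1, count_roots, le_rootMultiplicity_iff hR]
    generalize (S.filter fun p => x = p.1).image Prod.snd = Z at a2
    refine mult_res le_rfl hF1 x Z (fun y hy' => ⟨(a2 y hy').1.1,
      (key w _ (a2 y hy').1).1 (a2 y hy').2⟩) ?_
    rcases Z.eq_empty_or_nonempty with rfl | ⟨y, hy'⟩
    · simp
    · have hx : x ∉ B := (a2 y hy').1.2
      refine le_add_right ((Multiset.card_le_card ((Multiset.le_iff_subset Z.nodup).2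
        fun y hy' => (f1 x hx y).2 (a2 y hy').1.1)).trans (hG.2 x hx).1.le)
  have := (Multiset.card_le_card hle).trans ((card_roots' _).trans
    (deg_res _ _ hdeg fun j => (deg_Fw' _ _ _ j).trans (hdeg j)))
  rw [Multiset.card_map, ← two_mul, mul_assoc] at this
  rw [DD]
  exact_mod_cast this

end Pool.Agent.MP_670f9a_nt.GL
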