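import Pool.Agent.MP_670f9a_nt.H83.Spec

/-! Rules of calculus for the derivative along the curve. -/

set_option autoImplicit false

namespace Pool.Agent.MP_670f9a_nt.GL

open Polynomial Real Filter
open scoped Topology

namespace CalcA

variable (Q : ℂ[X][X]) {p : ℂ × ℂ} (w : ℂ) {F G : ℂ × ℂ → ℝ}

theorem D_mul (hF : DifferentiableAt ℝ F p) (hG : DifferentiableAt ℝ G p) :
    D Q w (fun q => F q * G q) p = F p * D Q w G p + G p * D Q w F p := by
  rw [D, fderiv_fun_mul hF hG]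
  rfl

theorem D_add (hF : DifferentiableAt ℝ F p) (hG : DifferentiableAt ℝ G p) :
    D Q w (fun q => F q + G q) p = D Q w F p + D Q w G p := by
  rw [D, fderiv_fun_add hF hG]
  rfl

theorem D_comp {h : ℝ → ℝ} (hF : DifferentiableAt ℝ F p) (hh : DifferentiableAt ℝ h (F p)) :
    D Q w (fun q => h (F q)) p = deriv h (F p) * D Q w F p :=
  congrArg (fun L : ℂ × ℂ →L[ℝ] ℝ => L (w, sl Q p * w))
    (hh.hasDerivAt.comp_hasFDerivAt p hF.hasFDerivAt).fderiv

theorem D_smul (a : ℝ) : D Q w (fun q => a * F q) p = a * D Q w F p :=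
  congrArg (fun L : ℂ × ℂ →L[ℝ] ℝ => L (w, sl Q p * w))
    (congrFun (fderiv_const_smul_field (𝕜 := ℝ) (f := F) a) p)

theorem D_congr (h : F =ᶠ[𝓝 p] G) : D Q w F p = D Q w G p := by
  rw [D, h.fderiv_eq, D]

theorem D_congr' (h : F =ᶠ[𝓝 p] G) : D Q w F =ᶠ[𝓝 p] D Q w G :=
  h.eventuallyEq_nhds.mono fun _ hq => D_congr Q w hq

theorem D_zero (h : F =ᶠ[𝓝 p] fun _ => 0) : D Q w F =ᶠ[𝓝 p] fun _ => 0 :=
  (D_congr' Q w h).trans (Eventually.of_forall fun q => by simp [D])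

theorem D_fst {f : ℂ → ℝ} (hf : DifferentiableAt ℝ f p.1) :
    D Q w (fun q => f q.1) p = fderiv ℝ f p.1 w :=
  congrArg (fun L : ℂ × ℂ →L[ℝ] ℝ => L (w, sl Q p * w))
    (hf.hasFDerivAt.comp p hasFDerivAt_fst).fderiv

theorem D_hol {f : ℂ × ℂ → ℂ} {T : ℂ → ℝ} (hf : DifferentiableAt ℂ f p)
    (hT : DifferentiableAt ℝ T (f p)) :
    D Q w (fun q => T (f q)) p = fderiv ℝ T (f p) (dC Q f p * w) := by
  refine (congrArg (fun L : ℂ × ℂ →L[ℝ] ℝ => L (w, sl Q p * w))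
    (hT.hasFDerivAt.comp p (hf.hasFDerivAt.restrictScalars ℝ)).fderiv).trans ?_
  change fderiv ℝ T (f p) (fderiv ℂ f p (w, sl Q p * w)) = _
  rw [dC, mul_comm _ w, mul_comm _ w, ← smul_eq_mul w (fderiv ℂ f p _), ← map_smul]
  simp

theorem D_re {f : ℂ × ℂ → ℂ} (hf : DifferentiableAt ℂ f p) :
    D Q w (fun q => (f q).re) p = (dC Q f p * w).re := by
  refine (D_hol Q w (T := Complex.reCLM) hf Complex.reCLM.differentiableAt).trans ?_
  rw [ContinuousLinearMap.fderiv]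
  rfl

theorem cs (w : ℂ) (a b : ℝ) : |w.re * a + w.im * b| ≤ ‖w‖ * √(a * a + b * b) := by
  rw [Complex.norm_def, ← Real.sqrt_mul (Complex.normSq_nonneg w), Complex.normSq_apply]
  refine Real.abs_le_sqrt ?_
  nlinarith [sq_nonneg (w.re * b - w.im * a)]

theorem ev (hF : ContDiffAt ℝ 2 F p) : ∀ᶠ q in 𝓝 p, DifferentiableAt ℝ F q :=
  (hF.eventually (by simp)).mono fun _ h => h.differentiableAt (by simp)

theorem DD_mul (hF : ContDiffAt ℝ 2 F p) (hG : ContDiffAt ℝ 2 G p)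
    (dF : DifferentiableAt ℝ (D Q w F) p) (dG : DifferentiableAt ℝ (D Q w G) p) :
    D Q w (D Q w fun q => F q * G q) p = F p * D Q w (D Q w G) p +
      2 * (D Q w F p * D Q w G p) + G p * D Q w (D Q w F) p := by
  have h1 := (ev hF).self_of_nhds
  have h2 := (ev hG).self_of_nhds
  rw [D_congr Q w (G := fun q => F q * D Q w G q + G q * D Q w F q)
    (((ev hF).and (ev hG)).mono fun q h => D_mul Q w h.1 h.2),
    D_add Q w (h1.fun_mul dG) (h2.fun_mul dF), D_mul Q w h1 dG, D_mul Q w h2 dF]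
  ring

theorem DD_add (hF : ContDiffAt ℝ 2 F p) (hG : ContDiffAt ℝ 2 G p)
    (dF : DifferentiableAt ℝ (D Q w F) p) (dG : DifferentiableAt ℝ (D Q w G) p) :
    D Q w (D Q w fun q => F q + G q) p = D Q w (D Q w F) p + D Q w (D Q w G) p := by
  rw [D_congr Q w (G := fun q => D Q w F q + D Q w G q)
    (((ev hF).and (ev hG)).mono fun q h => D_add Q w h.1 h.2), D_add Q w dF dG]

theorem DD_comp {h : ℝ → ℝ} (hF : ContDiffAt ℝ 2 F p) (hh : ContDiffAt ℝ 2 h (F p))
    (dF : DifferentiableAt ℝ (D Q w F) p) :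
    D Q w (D Q w fun q => h (F q)) p = deriv h (F p) * D Q w (D Q w F) p +
      deriv (deriv h) (F p) * (D Q w F p * D Q w F p) := by
  have h1 := (ev hF).self_of_nhds
  have h2 : ∀ᶠ q in 𝓝 p, DifferentiableAt ℝ h (F q) :=
    hF.continuousAt.eventually ((hh.eventually (by simp)).mono fun _ h =>
      h.differentiableAt (by simp))
  have h3 : DifferentiableAt ℝ (deriv h) (F p) :=
    ((hh.fderiv_right (m := 1) (by norm_num)).differentiableAt (by simp)).clm_apply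
      (differentiableAt_const 1)
  rw [D_congr Q w (G := fun q => deriv h (F q) * D Q w F q)
    (((ev hF).and h2).mono fun q h => D_comp Q w h.1 h.2),
    D_mul Q w (F := fun q => deriv h (F q)) (h3.comp p h1) dF, D_comp Q w h1 h3]
  ring

theorem DD_fst {f : ℂ → ℝ} (hf : ContDiffAt ℝ 2 f p.1) :
    D Q w (D Q w fun q => f q.1) p = fderiv ℝ (fun u => fderiv ℝ f u w) p.1 w := by
  have h2 : ∀ᶠ q : ℂ × ℂ in 𝓝 p, DifferentiableAt ℝ f q.1 :=
    continuousAt_fst.eventually ((hf.eventually (by simp)).mono fun _ h =>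
      h.differentiableAt (by simp))
  rw [D_congr Q w (G := fun q => fderiv ℝ f q.1 w) (h2.mono fun q h => D_fst Q w h)]
  exact D_fst Q w (f := fun u => fderiv ℝ f u w)
    (((hf.fderiv_right (m := 1) (by norm_num)).differentiableAt (by simp)).clm_apply
      (differentiableAt_const w))

end CalcA

open CalcA in
theorem sCalcOf : SCalcOf := by
  rintro ⟨-, h1, h2⟩
  refine ⟨fun Q p w => ⟨fun F G => D_mul Q w, fun F h => D_comp Q w, fun F a => D_smul Q w a,
    fun F h => ⟨(D_zero Q w h).self_of_nhds, ?_⟩, fun f => D_fst Q w, fun f => D_re Q w,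
    fun f T => D_hol Q w, fun F => ⟨add_nonneg (mul_self_nonneg _) (mul_self_nonneg _), ?_⟩⟩,
    fun Q B p hB hp => ?_⟩
  · rw [Lap, (D_zero Q 1 (D_zero Q 1 h)).self_of_nhds,
      (D_zero Q Complex.I (D_zero Q Complex.I h)).self_of_nhds, add_zero]
  · rw [((h1 Q).2.2.2.2.2 F).2 w p]
    exact cs w _ _
  · have k := ((h2 Q B hB).2.1 p hp).2.2
    have d : ∀ {F : ℂ × ℂ → ℝ} (w : ℂ), ContDiffAt ℝ 2 F p → DifferentiableAt ℝ (D Q w F) p :=
      fun w h => ((k _ w).2 h).differentiableAt (by simp)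
    refine ⟨fun F G hF hG => ⟨?_, ?_⟩, fun F h hF hh => ?_, fun F hF => ?_, fun f hf => ?_⟩
    · simp only [Lap, gr, DD_mul Q _ hF hG (d _ hF) (d _ hG)]
      ring
    · simp only [Lap, DD_add Q _ hF hG (d _ hF) (d _ hG)]
      ring
    · simp only [Lap, gr, DD_comp Q _ hF hh (d _ hF)]
      ring
    · exact ((k _ 1).1 ((k F 1).2 hF)).add ((k _ Complex.I).1 ((k F Complex.I).2 hF))
    · rw [Lap, lap, DD_fst Q _ hf, DD_fst Q _ hf]

end Pool.Agent.MP_670f9a_nt.GL
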