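import Pool.Agent.MP_670f9a_nt.H83.Spec

/-! Calculus in the chart `x` of the curve. -/

namespace Pool.Agent.MP_670f9a_nt.GL

open Polynomial Filter
open scoped Topology

namespace ChartA

theorem evs (Q : ℂ[X][X]) (x y : ℂ) : (sw Q).evalEval y x = Q.evalEval x y := by
  simpa only [sw, coe_aevalAeval_eq_evalEval] using Bivariate.aevalAeval_swap y x Q

theorem an (Q : ℂ[X][X]) (p : ℂ × ℂ) : AnalyticAt ℂ (fun p : ℂ × ℂ => Q.evalEval p.1 p.2) p := by
  induction Q using Polynomial.induction_on' with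
  | add a b ha hb => simpa only [evalEval_add] using ha.fun_add hb
  | monomial n f =>
    simp only [← C_mul_X_pow_eq_monomial, evalEval_mul, evalEval_C, evalEval_pow, evalEval_X]
    exact (analyticAt_fst.aeval_polynomial f).fun_mul (analyticAt_snd.fun_pow n)

theorem an' (Q : ℂ[X][X]) (p : ℂ × ℂ) : AnalyticAt ℂ (fun p : ℂ × ℂ => Q.evalEval p.2 p.1) p := by
  simpa only [← evs Q] using an (sw Q) p

theorem cf (Q : ℂ[X][X]) (i j : ℕ) : ((sw Q).coeff i).coeff j = (Q.coeff j).coeff i := by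
  unfold sw
  induction Q using Polynomial.induction_on' with
  | add a b ha hb => simp only [map_add, coeff_add, ha, hb]
  | monomial n f =>
    rw [Bivariate.swap_monomial, coeff_mul_C, coeff_map, coeff_C_mul, coeff_X_pow, coeff_monomial]
    by_cases h : j = n <;> simp [h, eq_comm]

theorem dy (Q : ℂ[X][X]) (x y : ℂ) :
    HasDerivAt (fun u => Q.evalEval x u) ((derivative Q).evalEval x y) y := by
  simpa only [derivative_map, map_evalRingHom_eval] using (Q.map (evalRingHom x)).hasDerivAt y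

theorem lin (Q : ℂ[X][X]) (F : ℂ × ℂ → ℝ) (w : ℂ) (p : ℂ × ℂ) :
    D Q w F p = w.re * D Q 1 F p + w.im * D Q Complex.I F p := by
  simp only [D, ← smul_eq_mul (α := ℝ), ← map_smul, ← map_add]
  congr 1
  refine Prod.ext (by simp) ?_
  simp only [Prod.snd_add, Prod.smul_snd, Complex.real_smul]
  linear_combination -sl Q p * w.re_add_im

variable {Q : ℂ[X][X]} {B : Finset ℂ}

theorem ne (h : Good Q B) {x : ℂ} (hx : x ∉ B) : Q.map (evalRingHom x) ≠ 0 := fun e => by
  have := (h.2 x hx).1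
  rw [fib, e, roots_zero, Multiset.card_zero] at this
  exact absurd h.1 (by omega)

theorem der (h : Good Q B) {p : ℂ × ℂ} (hp : Reg Q B p) : (derivative Q).evalEval p.1 p.2 ≠ 0 := by
  intro e
  have := Multiset.nodup_iff_count_le_one.1 (h.2 _ hp.2).2 p.2
  rw [fib, count_roots] at this
  refine this.not_gt ((one_lt_rootMultiplicity_iff_isRoot (ne h hp.2)).2 ⟨?_, ?_⟩)
  · exact (map_evalRingHom_eval _ _ _).trans hp.1
  · rw [derivative_map]
    exact (map_evalRingHom_eval _ _ _).trans e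

theorem asl (h : Good Q B) {p : ℂ × ℂ} (hp : Reg Q B p) : AnalyticAt ℂ (sl Q) p :=
  (an' _ p).fun_neg.fun_div (an _ p) (der h hp)

theorem cD (h : Good Q B) {p : ℂ × ℂ} (hp : Reg Q B p) {F : ℂ × ℂ → ℝ} (w : ℂ) {m n : WithTop ℕ∞}
    (hF : ContDiffAt ℝ n F p) (e : m + 1 ≤ n) : ContDiffAt ℝ m (D Q w F) p :=
  (hF.fderiv_right e).clm_apply (contDiffAt_const.prodMk
    (((asl h hp).contDiffAt.restrict_scalars ℝ).mul contDiffAt_const))

variable {v : ℂ → ℂ} {z : ℂ}

theorem root (h : Good Q B) (hz : z ∉ B) (hv : AnalyticAt ℂ v z)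
    (ho : ∀ᶠ u in 𝓝 z, On Q (u, v u)) : HasDerivAt v (sl Q (z, v z)) z := by
  have d := hv.differentiableAt.hasDerivAt
  have L := (an Q (z, v z)).differentiableAt.hasFDerivAt
  have a := L.comp_hasDerivAt z ((hasDerivAt_id z).prodMk (hasDerivAt_const z (v z)))
  have a := a.unique ((dy (sw Q) (v z) z).congr_of_eventuallyEq
    (.of_forall fun u => (evs Q u (v z)).symm))
  have b := L.comp_hasDerivAt (v z) ((hasDerivAt_const _ z).prodMk (hasDerivAt_id _))
  have b := b.unique (dy Q z (v z))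
  have c := L.comp_hasDerivAt z ((hasDerivAt_id z).prodMk d)
  have c := c.unique ((hasDerivAt_const z 0).congr_of_eventuallyEq ho)
  rw [show ((1 : ℂ), deriv v z) = (1, 0) + deriv v z • (0, 1) by simp, map_add, map_smul, a, b,
    smul_eq_mul] at c
  refine d.congr_deriv ((eq_div_iff (der h (p := (z, v z)) ⟨ho.self_of_nhds, hz⟩)).2 ?_)
  linear_combination c

theorem one {F : ℂ × ℂ → ℝ} {s : ℂ} (d : HasDerivAt v s z) (hF : DifferentiableAt ℝ F (z, v z))
    (w : ℂ) : fderiv ℝ (fun u => F (u, v u)) z w = fderiv ℝ F (z, v z) (w, s * w) := by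
  have := hF.hasFDerivAt.comp z ((hasFDerivAt_id z).prodMk (d.hasFDerivAt.restrictScalars ℝ))
  rw [show fderiv ℝ (fun u => F (u, v u)) z = _ from this.fderiv]
  simp [mul_comm]

theorem cv (hv : AnalyticAt ℂ v z) {n : WithTop ℕ∞} : ContDiffAt ℝ n (fun u => (u, v u)) z :=
  contDiffAt_id.prodMk (hv.contDiffAt.restrict_scalars ℝ)

theorem two (h : Good Q B) (hz : z ∉ B) (hv : AnalyticAt ℂ v z) (ho : ∀ᶠ u in 𝓝 z, On Q (u, v u))
    {F : ℂ × ℂ → ℝ} (hF : ContDiffAt ℝ 2 F (z, v z)) (w : ℂ) :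
    fderiv ℝ (fun u => fderiv ℝ (fun u => F (u, v u)) u w) z w = D Q w (D Q w F) (z, v z) := by
  have e : (fun u => fderiv ℝ (fun u => F (u, v u)) u w) =ᶠ[𝓝 z] fun u => D Q w F (u, v u) := by
    filter_upwards [B.finite_toSet.isClosed.isOpen_compl.mem_nhds hz, hv.eventually_analyticAt,
      ho.eventually_nhds, (cv hv (n := 0)).continuousAt.eventually (hF.eventually (by simp))]
      with u a b c d
    exact one (root h a b c) (d.differentiableAt two_ne_zero) w
  rw [e.fderiv_eq]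
  exact one (root h hz hv ho) ((cD h ⟨ho.self_of_nhds, hz⟩ w hF
    (m := 1) one_add_one_eq_two.le).differentiableAt one_ne_zero) w

end ChartA

open ChartA in
theorem sChartOf : SChartOf := by
  have ct : ∀ Q : ℂ[X][X], Continuous fun p : ℂ × ℂ => Q.evalEval p.1 p.2 := fun Q =>
    continuous_iff_continuousAt.2 fun p => (an Q p).continuousAt
  have ms : ∀ Q, Measurable (sl Q) := fun Q =>
    ((ct _).comp continuous_swap).measurable.neg.div (ct _).measurable
  refine ⟨evs, fun Q => ⟨Bivariate.swap_swap_apply Q, an Q, isClosed_eq (ct Q) continuous_const,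
    ms Q, fun j => natDegree_le_iff_coeff_eq_zero.2 fun i hi => ?_, fun F => ⟨fun w => ?_, lin Q F⟩⟩,
    fun Q B h => ⟨fun x hx y => ?_, fun p hp => ⟨der h hp, asl h hp, fun F w =>
      ⟨fun a => (cD h hp w a (m := 0) (by simp)).continuousAt,
        fun a => cD h hp w a one_add_one_eq_two.le⟩⟩, fun v z hz hv ho => ?_⟩⟩
  · rw [← cf, coeff_eq_zero_of_natDegree_lt hi, coeff_zero]
  · exact ContinuousLinearMap.measurable_apply₂.comp ((measurable_fderiv ℝ F).prodMk
      (measurable_const.prodMk ((ms Q).mul_const w)))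
  · rw [fib, mem_roots (ne h hx), IsRoot, map_evalRingHom_eval]
    rfl
  · have d := root h hz hv ho
    exact ⟨d, fun f hf => hf.hasFDerivAt.comp_hasDerivAt z ((hasDerivAt_id z).prodMk d), fun F =>
      ⟨fun a => one d a, fun a => a.comp z (cv hv), fun a => ⟨a.comp z (cv hv), by
        rw [lap, Lap, two h hz hv ho a, two h hz hv ho a]⟩⟩⟩

end Pool.Agent.MP_670f9a_nt.GL
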