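import Pool.Agent.MP_670f9a_nt.H83.Spec
import Pool.Agent.MP_670f9a_nt.H13.All2

/-! Components of the curve. -/

namespace Pool.Agent.MP_670f9a_nt.GL

open Polynomial Real Finset MeasureTheory Metric Filter
open Pool.Agent.MP_670f9a_nt.NP (Phi Psi m2 toC mahler pts)
open scoped Topology

namespace CompA

theorem sw_mul (Q R : ℂ[X][X]) : sw (Q * R) = sw Q * sw R := map_mul Bivariate.swap Q R

theorem fib_mul {Q R : ℂ[X][X]} {x : ℂ} (h : (Q * R).map (evalRingHom x) ≠ 0) :
    fib (Q * R) x = fib Q x + fib R x := by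
  unfold fib
  rw [Polynomial.map_mul] at h ⊢
  exact roots_mul h

theorem fib_card (Q : ℂ[X][X]) (x : ℂ) : (fib Q x).card ≤ Q.natDegree :=
  (card_roots' _).trans natDegree_map_le

theorem fib_on {Q : ℂ[X][X]} {x y : ℂ} (h : y ∈ fib Q x) : On Q (x, y) := by
  have := (mem_roots'.1 h).2
  rwa [IsRoot, map_evalRingHom_eval] at this

theorem fs_mul {Q R : ℂ[X][X]} {x : ℂ} (h : (Q * R).map (evalRingHom x) ≠ 0) (F : ℂ × ℂ → ℝ) :
    fs (Q * R) F x = fs Q F x + fs R F x := by
  unfold fs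
  rw [fib_mul h, Multiset.map_add, Multiset.sum_add]

theorem fs_C (q : ℂ) (F : ℂ × ℂ → ℝ) (x : ℂ) : fs (C (C q)) F x = 0 := by
  simp [fs, fib]

theorem fs_prod {ι : Type} (s : Finset ι) (Q : ι → ℂ[X][X]) {x : ℂ}
    (h : (∏ i ∈ s, Q i).map (evalRingHom x) ≠ 0) (F : ℂ × ℂ → ℝ) :
    fs (∏ i ∈ s, Q i) F x = ∑ i ∈ s, fs (Q i) F x := by
  classical
  induction s using Finset.induction_on with
  | empty => simp [fs, fib]
  | insert a s ha ih =>
    rw [prod_insert ha] at h ⊢
    rw [fs_mul h, sum_insert ha, ih (by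
      rw [Polynomial.map_mul] at h; exact right_ne_zero_of_mul h)]

theorem m2_C (q : ℂ) : m2 (C (C q)) = log ‖q‖ := by
  have e : Phi (C (C q)) = fun _ => log ‖q‖ := by
    funext u
    simp only [Phi, evalEval_CC, circleAverage_const]
  rw [m2, e, circleAverage_const]

theorem m2_prod {ι : Type} (s : Finset ι) (Q : ι → ℂ[X][X]) (h : ∀ i ∈ s, Q i ≠ 0) :
    m2 (∏ i ∈ s, Q i) = ∑ i ∈ s, m2 (Q i) := by
  classical
  induction s using Finset.induction_on with
  | empty => simpa using m2_C 1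
  | insert a s ha ih =>
    have h' : ∀ i ∈ s, Q i ≠ 0 := fun i hi => h i (mem_insert_of_mem hi)
    rw [prod_insert ha, sum_insert ha, NP.allAdd.1 _ _ (h a (mem_insert_self _ _))
      (prod_ne_zero_iff.2 h'), ih h']

theorem one (hC : SChart) (P Q : ℂ[X][X]) (B : Finset ℂ) (hP : Good P B) (hQ : Q ∣ P)
    (h1 : 1 ≤ Q.natDegree) :
    Good Q B ∧ (∀ φ, Test P B φ → Test Q B φ) ∧ ∀ p, Reg Q B p → sl Q p = sl P p := by
  obtain ⟨R, rfl⟩ := hQ
  have h0 : Q * R ≠ 0 := fun e => by have := hP.1; rw [e] at this; simp at this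
  have hd := natDegree_mul (left_ne_zero_of_mul h0) (right_ne_zero_of_mul h0)
  have hon : ∀ p, On Q p → On (Q * R) p := fun p hp => by
    unfold On at hp ⊢
    rw [evalEval_mul, hp, zero_mul]
  refine ⟨⟨h1, fun x hx => ?_⟩, fun φ hφ => ⟨fun p hp => hφ.1 p (hon p hp), hφ.2⟩, fun p hp => ?_⟩
  · obtain ⟨c, n⟩ := hP.2 x hx
    have hx0 : (Q * R).map (evalRingHom x) ≠ 0 := fun e => by
      have := hP.1
      rw [fib, e, roots_zero, Multiset.card_zero] at c
      omega
    rw [fib_mul hx0] at c n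
    rw [Multiset.card_add] at c
    have c1 := fib_card Q x
    have c2 := fib_card R x
    exact ⟨by omega, Multiset.nodup_of_le (Multiset.le_add_right _ _) n⟩
  · have h2 := (((hC.2.2 _ B hP).2.1 p ⟨hon p hp.1, hp.2⟩).1)
    have h3 : Q.evalEval p.1 p.2 = 0 := hp.1
    have e1 : (derivative (Q * R)).evalEval p.1 p.2 =
        (derivative Q).evalEval p.1 p.2 * R.evalEval p.1 p.2 := by
      rw [derivative_mul, evalEval_add, evalEval_mul, evalEval_mul, h3, zero_mul, add_zero]
    have e2 : (derivative (sw (Q * R))).evalEval p.2 p.1 =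
        (derivative (sw Q)).evalEval p.2 p.1 * R.evalEval p.1 p.2 := by
      rw [sw_mul, derivative_mul, evalEval_add, evalEval_mul, evalEval_mul, hC.1, hC.1, h3,
        zero_mul, add_zero]
    rw [e1] at h2
    rw [sl, sl, e1, e2, ← neg_mul, mul_div_mul_right _ _ (right_ne_zero_of_mul h2)]

theorem two (hC : SChart) (hF : SFs) (hA : SAdm) (Q : ℂ[X][X]) (B B' : Finset ℂ) (φ : ℂ × ℂ → ℝ)
    (hQ : Good Q B) (hQ' : Good (sw Q) B') (hφ : Test Q B φ) :
    CircleIntegrable (fs Q φ) 0 1 ∧ CircleIntegrable (fs (sw Q) fun p => φ p.swap) 0 1 := by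
  obtain ⟨-, h1, -, -, -, -, ⟨M, hM⟩, -⟩ := (hA Q B hQ).2.2.2 φ hφ
  refine ⟨h1.continuous.continuousOn.circleIntegrable zero_le_one, ?_⟩
  have hon : ∀ x y, y ∈ fib (sw Q) x → On Q (y, x) := fun x y hy => by
    have := fib_on hy
    unfold On at this ⊢
    rwa [hC.1] at this
  have hb : ∀ p, On Q p → |φ p| ≤ max M 0 := fun p hp => by
    by_cases e : p.1 ∈ B
    · obtain ⟨K, -, hK, h0⟩ := hφ.2
      rw [h0 p fun e' => Set.disjoint_left.1 hK e' e, abs_zero]
      exact le_max_right _ _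
    · exact (hM p ⟨hp, e⟩).1.trans (le_max_left _ _)
  set G := fs (sw Q) fun p => φ p.swap with hG
  have hc : ∀ x ∉ B', ContinuousAt G x := fun x hx =>
    ((hF _ B' hQ').2.2 _ x hx).1 fun y hy =>
      (ContinuousAt.comp (f := Prod.swap) (x := (x, y)) (hφ.1 _ (hon x y hy)).continuousAt
        continuous_swap.continuousAt).continuousWithinAt
  have hB : ∀ x, ‖G x‖ ≤ (sw Q).natDegree * max M 0 := fun x => by
    refine (norm_multiset_sum_le _).trans ?_
    rw [Multiset.map_map]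
    refine (Multiset.sum_le_card_nsmul _ (max M 0) fun a ha => ?_).trans ?_
    · obtain ⟨y, hy, rfl⟩ := Multiset.mem_map.1 ha
      exact hb _ (hon x y hy)
    · rw [Multiset.card_map, nsmul_eq_mul]
      exact mul_le_mul_of_nonneg_right (Nat.cast_le.2 (fib_card _ x)) (le_max_right _ _)
  have hm : Measurable fun θ => G (circleMap 0 1 θ) := by
    refine measurable_of_countable_not_continuousAt
      ((B'.countable_toSet.preimage_circleMap 0 one_ne_zero).mono fun θ hθ => ?_)
    by_contra e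
    exact hθ (ContinuousAt.comp (f := circleMap 0 1) (hc _ e) (continuous_circleMap 0 1).continuousAt)
  exact (intervalIntegrable_const (c := (sw Q).natDegree * max M 0)).mono_fun'
    hm.aestronglyMeasurable (ae_of_all _ fun θ => hB _)

end CompA

theorem sCompOf : SCompOf := by
  intro hC hF hA
  refine ⟨CompA.one hC, CompA.two hC hF hA, fun ι _ P Q t q hP hq e => ?_⟩
  have hq' : (C (C q) : ℂ[X][X]) ≠ 0 := C_ne_zero.2 (C_ne_zero.2 hq)
  have h0 : ∏ i, Q i ≠ 0 := e ▸ mul_ne_zero hq' (pow_ne_zero _ hP)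
  have h1 : ∀ i ∈ univ, Q i ≠ 0 := prod_ne_zero_iff.1 h0
  refine ⟨?_, ?_, ?_, fun x hx F => ?_⟩
  · rw [← natDegree_prod _ _ h1, e, natDegree_C_mul (C_ne_zero.2 hq), natDegree_pow]
  · have := congrArg Bivariate.swap e
    rw [map_prod, map_mul, map_pow, Bivariate.swap_C_C] at this
    exact this
  · rw [← CompA.m2_prod _ _ h1, e, NP.allAdd.1 _ _ hq' (pow_ne_zero _ hP), CompA.m2_C]
    have := CompA.m2_prod (range t) (fun _ => P) fun _ _ => hP
    rw [prod_const, card_range, sum_const, card_range, nsmul_eq_mul] at this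
    rw [this]
  · have h2 : (P ^ t).map (evalRingHom x) ≠ 0 := by
      rw [Polynomial.map_pow]; exact pow_ne_zero _ hx
    have h3 : (C (C q) * P ^ t).map (evalRingHom x) ≠ 0 := by
      rw [Polynomial.map_mul]
      exact mul_ne_zero (by simpa using hq) h2
    have := CompA.fs_prod (range t) (fun _ => P) (x := x) (by rwa [prod_const, card_range]) F
    rw [prod_const, card_range, sum_const, card_range, nsmul_eq_mul] at this
    rw [← CompA.fs_prod _ _ (e ▸ h3), e, CompA.fs_mul h3, CompA.fs_C, zero_add, this]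

end Pool.Agent.MP_670f9a_nt.GL
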