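import Pool.Agent.MP_670f9a_nt.H83.Spec

/-! The two circle means as integrals of first derivatives over the curve. -/

namespace Pool.Agent.MP_670f9a_nt.GL

open Polynomial Real Finset MeasureTheory Metric Filter
open scoped ENNReal ComplexConjugate Topology

namespace ConvA

theorem bounds {C : Set (ℂ × ℂ)} (hC : IsCompact C) {f : ℂ × ℂ → ℂ} (hf : ContinuousOn f C)
    (h0 : ∀ p ∈ C, f p ≠ 0) : ∃ r₁ r₂ : ℝ, 0 < r₁ ∧ ∀ p ∈ C, r₁ ≤ ‖f p‖ ∧ ‖f p‖ ≤ r₂ := by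
  obtain ⟨r₁, h1, h2⟩ := hC.exists_forall_le' (a := (0 : ℝ)) hf.norm
    fun p hp => norm_pos_iff.mpr (h0 p hp)
  obtain ⟨r₂, h3⟩ := hC.exists_bound_of_continuousOn hf
  exact ⟨r₁, r₂, h1, fun p hp => ⟨h2 p hp, h3 p hp⟩⟩

theorem measD (hC : SChart) (Q : ℂ[X][X]) (φ : ℂ × ℂ → ℝ) {ζ : ℂ × ℂ → ℂ} (hζ : Measurable ζ) :
    Measurable fun p => D Q (ζ p) φ p := by
  obtain ⟨h1, h2⟩ := (hC.2.1 Q).2.2.2.2.2 φ
  have e : (fun p => D Q (ζ p) φ p) =
      fun p => (ζ p).re * D Q 1 φ p + (ζ p).im * D Q Complex.I φ p := funext fun p => h2 _ p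
  rw [e]
  exact ((Complex.measurable_re.comp hζ).mul (h1 1)).add
    ((Complex.measurable_im.comp hζ).mul (h1 Complex.I))

theorem intD (hC : SChart) (hM : SMu) (hS : SCalc) {Q : ℂ[X][X]} {B : Finset ℂ} (hG : Good Q B)
    {φ : ℂ × ℂ → ℝ} {K : Set ℂ} (hK : IsCompact K) (hφ : ∀ p : ℂ × ℂ, p.1 ∉ K → φ p = 0) {M : ℝ}
    (hb : ∀ p, Reg Q B p → |D Q 1 φ p| ≤ M ∧ |D Q Complex.I φ p| ≤ M) {ζ : ℂ × ℂ → ℂ}
    (hζ : Measurable ζ) {Z : ℝ} (hZ : ∀ p, Reg Q B p → p.1 ∈ K → ‖ζ p‖ ≤ Z) :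
    Integrable (fun p => D Q (ζ p) φ p) (mu Q) := by
  refine (hM Q B hG).2.2.2.2.2.2.1 _ K (Z * M + Z * M)
    (measD hC Q φ hζ).aestronglyMeasurable hK (fun p hp hpK => ?_) fun p _ hpK => ?_
  · rw [((hC.2.1 Q).2.2.2.2.2 φ).2]
    have h0 : 0 ≤ Z := (norm_nonneg _).trans (hZ p hp hpK)
    refine (abs_add_le _ _).trans (add_le_add ?_ ?_) <;> rw [abs_mul]
    · exact mul_le_mul ((Complex.abs_re_le_norm _).trans (hZ p hp hpK)) (hb p hp).1
        (abs_nonneg _) h0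
    · exact mul_le_mul ((Complex.abs_im_le_norm _).trans (hZ p hp hpK)) (hb p hp).2
        (abs_nonneg _) h0
  · refine ((hS.1 Q p (ζ p)).2.2.2.1 φ ?_).1
    filter_upwards [continuous_fst.continuousAt.preimage_mem_nhds
      (hK.isClosed.isOpen_compl.mem_nhds hpK)] with q hq using hφ q hq

theorem swapD (Q : ℂ[X][X]) (φ : ℂ × ℂ → ℝ) (p : ℂ × ℂ) (z : ℂ) (h0 : sl Q p.swap ≠ 0)
    (h1 : sl (sw Q) p = (sl Q p.swap)⁻¹) :
    D Q (conj (z * sl Q p.swap)) φ p.swap / ‖sl Q p.swap‖ ^ 2 =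
      D (sw Q) (conj z) (fun q => φ q.swap) p := by
  have e1 : fderiv ℝ (fun q : ℂ × ℂ => φ q.swap) p =
      (fderiv ℝ φ p.swap).comp (ContinuousLinearEquiv.prodComm ℝ ℂ ℂ : ℂ × ℂ →L[ℝ] ℂ × ℂ) :=
    (ContinuousLinearEquiv.prodComm ℝ ℂ ℂ).comp_right_fderiv (f := φ) (x := p)
  have hn : ‖sl Q p.swap‖ ^ 2 ≠ 0 := pow_ne_zero _ (norm_ne_zero_iff.mpr h0)
  unfold D
  rw [e1, h1, div_eq_iff hn, mul_comm _ (‖sl Q p.swap‖ ^ 2),
    ← smul_eq_mul (‖sl Q p.swap‖ ^ 2), ← map_smul]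
  generalize sl Q p.swap = s at h0 ⊢
  have e2 : ((‖s‖ ^ 2 : ℝ) : ℂ) = s * conj s := by
    rw [Complex.mul_conj, Complex.normSq_eq_norm_sq]
  rw [ContinuousLinearMap.comp_apply]
  congr 1
  refine Prod.ext ?_ ?_
  · change conj (z * s) = (‖s‖ ^ 2 : ℝ) • (s⁻¹ * conj z)
    rw [Complex.real_smul, e2, map_mul]
    field_simp
  · change s * conj (z * s) = (‖s‖ ^ 2 : ℝ) • conj z
    rw [Complex.real_smul, e2, map_mul]
    ring

end ConvA

open ConvA in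
theorem sConvOf : SConvOf := by
  rintro hC hF hM hS hA hW hg hX Q B φ ⟨hG, h0B, hy, B', hG'⟩ hT
  obtain ⟨M, hb⟩ := ((hA Q B hG).2.2.2 φ hT).2.2.2.2.2.2.1
  obtain ⟨hφ2, K, hK, hKB, hφ⟩ := hT
  have hb' : ∀ p, Reg Q B p → |D Q 1 φ p| ≤ M ∧ |D Q Complex.I φ p| ≤ M :=
    fun p hp => ⟨(hb p hp).2.1, (hb p hp).2.2.1⟩
  have hCp := (hF Q B hG).1 K hK hKB
  have hR : ∀ p ∈ {p | On Q p ∧ p.1 ∈ K}, Reg Q B p := fun p hp =>
    ⟨hp.1, fun h => Set.disjoint_left.mp hKB hp.2 (mem_coe.mpr h)⟩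
  obtain ⟨r₁, r₂, hr, hx⟩ := bounds hCp (f := fun p => p.1) continuous_fst.continuousOn
    fun p hp h => (hR p hp).2 (h ▸ h0B)
  obtain ⟨s₁, s₂, hs, hy'⟩ := bounds hCp (f := fun p => p.2) continuous_snd.continuousOn
    fun p hp => hy p (hR p hp)
  obtain ⟨A, hA'⟩ := hCp.exists_bound_of_continuousOn (f := sl Q) fun p hp =>
    (((hC.2.2 Q B hG).2.1 p (hR p hp)).2.1.continuousAt).continuousWithinAt
  have hsg : ∀ x : ℝ, ‖(sg x : ℂ)‖ ≤ 1 := fun x => by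
    rw [Complex.norm_real, Real.norm_eq_abs]; exact (hg.2.2 x).1
  have hms : Measurable fun z : ℂ => (sg (log ‖z‖) : ℂ) :=
    Complex.measurable_ofReal.comp (hg.2.1.comp (Real.measurable_log.comp measurable_norm))
  have hmc : Measurable fun z : ℂ => conj z := Complex.continuous_conj.measurable
  have hsl : Measurable (sl Q) := (hC.2.1 Q).2.2.2.1
  have i1 : Integrable (fun p => D Q (conj (sg (log ‖p.1‖) / p.1)) φ p) (mu Q) := by
    refine intD hC hM hS hG hK hφ hb' (hmc.comp ((hms.comp measurable_fst).div measurable_fst))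
      (Z := 1 / r₁) fun p hp hpK => ?_
    rw [RCLike.norm_conj, norm_div]
    exact div_le_div₀ zero_le_one (hsg _) hr (hx p ⟨hp.1, hpK⟩).1
  have hmζ : Measurable fun p : ℂ × ℂ => conj ((sg (log ‖p.2‖) : ℂ) * (sl Q p / p.2)) :=
    hmc.comp ((hms.comp measurable_snd).mul (hsl.div measurable_snd))
  have i2 : Integrable (fun p => D Q (conj (sg (log ‖p.2‖) * (sl Q p / p.2))) φ p) (mu Q) := by
    refine intD hC hM hS hG hK hφ hb' hmζ (Z := 1 * (A / s₁)) fun p hp hpK => ?_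
    have a1 := hA' p ⟨hp.1, hpK⟩
    rw [RCLike.norm_conj, norm_mul, norm_div]
    exact mul_le_mul (hsg _) (div_le_div₀ ((norm_nonneg _).trans a1) a1 hs (hy' p ⟨hp.1, hpK⟩).1)
      (by positivity) zero_le_one
  refine ⟨i1, (hX Q B φ r₁ r₂ hG hr (fun p hp _ => (hφ2 p hp.1).of_le (by norm_num))
    (fun p hp _ h => hφ p fun hpK => ?_) i1).2, i2, ?_⟩
  · have := hx p ⟨hp.1, hpK⟩
    rcases h with h | h <;> linarith [this.1, this.2]
  classical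
  set Φ : ℂ × ℂ → ℝ := fun p => if p.1 ∈ B then 0 else
    D Q (conj (sg (log ‖p.2‖) * (sl Q p / p.2))) φ p / ‖sl Q p‖ ^ 2 with hΦ
  have hmΦ : Measurable Φ := by
    refine Measurable.ite (measurable_fst B.measurableSet) measurable_const ?_
    exact (measD hC Q φ hmζ).div (hsl.norm.pow_const 2)
  have e1 : (fun p => Φ p * ‖sl Q p‖ ^ 2) =ᵐ[mu Q]
      fun p => D Q (conj (sg (log ‖p.2‖) * (sl Q p / p.2))) φ p := by
    filter_upwards [(hM Q B hG).2.2.1] with p hp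
    simp only [hΦ, if_neg hp.2]
    by_cases h : sl Q p = 0
    · simp [h, D, Prod.mk_zero_zero]
    · exact div_mul_cancel₀ _ (pow_ne_zero _ (norm_ne_zero_iff.mpr h))
  obtain ⟨hw1, -, hw3⟩ := hW Q B B' hG hG'
  obtain ⟨i3, e3⟩ := hw3 Φ hmΦ (fun p hp => if_pos hp) (i2.congr e1.symm)
  have hon : ∀ p, Reg (sw Q) B' p → On Q p.swap := fun p hp => (hC.1 Q p.2 p.1).symm.trans hp.1
  have e2 : (fun p : ℂ × ℂ => Φ p.swap) =ᵐ[mu (sw Q)]
      fun p => D (sw Q) (conj (sg (log ‖p.1‖) / p.1)) (fun q => φ q.swap) p := by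
    filter_upwards [(hM (sw Q) B' hG').2.2.1] with p hp
    by_cases h : p.swap.1 ∈ B
    · have hk : p.2 ∉ K := fun hk => Set.disjoint_left.mp hKB hk (mem_coe.mpr h)
      rw [show Φ p.swap = 0 from if_pos h]
      refine ((hS.1 (sw Q) p _).2.2.2.1 _ ?_).1.symm
      filter_upwards [continuous_snd.continuousAt.preimage_mem_nhds
        (hK.isClosed.isOpen_compl.mem_nhds hk)] with q hq using hφ q.swap hq
    · obtain ⟨a1, a2⟩ := hw1 p.swap ⟨hon p hp, h⟩ hp.2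
      rw [← swapD Q φ p _ a1 a2]
      simp only [hΦ, if_neg h, Prod.snd_swap]
      rw [mul_div_assoc', div_mul_eq_mul_div]
  rw [← integral_congr_ae e1, e3, integral_congr_ae e2]
  refine (hX (sw Q) B' (fun q => φ q.swap) s₁ s₂ hG' hs (fun p hp _ => ?_)
    (fun p hp _ h => hφ p.swap fun hpK => ?_) (i3.congr e2)).2
  · exact ((hφ2 _ (hon p hp)).of_le (by norm_num)).comp p (contDiff_snd.prodMk contDiff_fst).contDiffAt
  · have := hy' p.swap ⟨hon p hp, hpK⟩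
    rw [Prod.snd_swap] at this
    rcases h with h | h <;> linarith [this.1, this.2]

end Pool.Agent.MP_670f9a_nt.GL
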