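import Pool.Agent.MP_670f9a_nt.H83.Spec

/-! From polynomials in two variables to iterated polynomials. -/

namespace Pool.Agent.MP_670f9a_nt.GL

open Polynomial
open Pool.Agent.MP_670f9a_nt.NP (Phi m2 toC pts)

namespace Conv0A

theorem coeff_eq (P : MvPolynomial (Fin 2) ℤ) (m : Fin 2 →₀ ℕ) :
    (((Bivariate.equivMvPolynomial ℤ).symm P).coeff (m 1)).coeff (m 0) = P.coeff m := by
  induction P using MvPolynomial.induction_on' with
  | add p q hp hq => simp only [map_add, coeff_add, MvPolynomial.coeff_add, hp, hq]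
  | monomial u a =>
    have e : (Bivariate.equivMvPolynomial ℤ).symm (MvPolynomial.monomial u a) =
        monomial (u 1) (monomial (u 0) a) := by
      rw [MvPolynomial.monomial_eq, Finsupp.prod_fintype _ _ fun _ => pow_zero _, Fin.prod_univ_two]
      simp only [map_mul, map_pow, Bivariate.equivMvPolynomial_symm_C,
        Bivariate.equivMvPolynomial_symm_X_0, Bivariate.equivMvPolynomial_symm_X_1,
        ← C_mul_X_pow_eq_monomial, mul_assoc]
    rw [e, MvPolynomial.coeff_monomial, coeff_monomial]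
    by_cases h : u = m
    · simp [h]
    · rw [if_neg h]
      split_ifs with h1
      · rw [coeff_monomial, if_neg fun h0 => h (Finsupp.ext (Fin.forall_fin_two.2 ⟨h0, h1⟩))]
      · simp

theorem eval_eq (P : MvPolynomial (Fin 2) ℤ) (u v : ℂ) :
    (toC ((Bivariate.equivMvPolynomial ℤ).symm P)).evalEval u v = MvPolynomial.aeval ![u, v] P := by
  induction P using MvPolynomial.induction_on with
  | C a => simp [toC]
  | add p q hp hq => rw [map_add, map_add, ← hp, ← hq]; simp [toC]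
  | mul_X p i hp =>
    rw [map_mul, map_mul, ← hp]
    fin_cases i <;> simp [toC, evalEval_C]

theorem nonCol {P : MvPolynomial (Fin 2) ℤ} (h : ¬ Collinear ℝ (pts P.support)) :
    NonCol ((Bivariate.equivMvPolynomial ℤ).symm P) := by
  by_contra hn
  refine h ?_
  have k : ∀ a ∈ P.support, ∀ b ∈ P.support, ∀ c ∈ P.support,
      ((b 0 : ℝ) - a 0) * ((c 1 : ℝ) - a 1) = ((c 0 : ℝ) - a 0) * ((b 1 : ℝ) - a 1) :=
    fun a ha b hb c hc => by
      by_contra e
      refine hn ⟨a 0, a 1, b 0, b 1, c 0, c 1, ?_, ?_, ?_, fun e' => e (by exact_mod_cast e')⟩ <;>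
        rw [coeff_eq] <;> exact MvPolynomial.mem_support_iff.1 ‹_›
  by_cases hs : (pts P.support).Subsingleton
  · rcases hs.eq_empty_or_singleton with e | ⟨x, e⟩ <;> rw [e]
    · exact collinear_empty _ _
    · exact collinear_singleton _ _
  obtain ⟨_, ⟨a, ha, rfl⟩, _, ⟨b, hb, rfl⟩, hab⟩ := Set.not_subsingleton_iff.1 hs
  refine (collinear_iff_of_mem (Set.mem_image_of_mem _ ha)).2 
    ⟨fun i => (b i : ℝ) - a i, ?_⟩
  rintro _ ⟨c, hc, rfl⟩
  have e := k a ha b hb c hc
  by_cases h0 : (b 0 : ℝ) - a 0 = 0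
  · have h1 : (b 1 : ℝ) - a 1 ≠ 0 := fun h1 => hab (funext (Fin.forall_fin_two.2
      ⟨(sub_eq_zero.1 h0).symm, (sub_eq_zero.1 h1).symm⟩))
    refine ⟨((c 1 : ℝ) - a 1) / (b 1 - a 1), funext (Fin.forall_fin_two.2 ⟨?_, ?_⟩)⟩
    · rw [h0, zero_mul] at e
      have := (mul_eq_zero.1 e.symm).resolve_right h1
      simp only [vadd_eq_add, Pi.add_apply, Pi.smul_apply, smul_eq_mul, h0]
      linarith
    · simp [div_mul_cancel₀ _ h1]
  · refine ⟨((c 0 : ℝ) - a 0) / (b 0 - a 0), funext (Fin.forall_fin_two.2 ⟨?_, ?_⟩)⟩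
    · simp [div_mul_cancel₀ _ h0]
    · simp only [vadd_eq_add, Pi.add_apply, Pi.smul_apply, smul_eq_mul]
      field_simp
      linarith

attribute [local instance] Polynomial.algebra in
theorem irr {F : ℤ[X][X]} (hF : Irreducible F) (hn : NonCol F) : Irr F := by
  have i1 := Polynomial.isLocalization (nonZeroDivisors ℤ) ℚ
  have i2 := Polynomial.isLocalization ((nonZeroDivisors ℤ).map (C : ℤ →+* ℤ[X])) ℚ[X]
  have hp : (Ideal.span {F}).IsPrime := (Ideal.span_singleton_prime hF.ne_zero).2 hF.prime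
  have := IsLocalization.isPrime_of_isPrime_disjoint
    (((nonZeroDivisors ℤ).map (C : ℤ →+* ℤ[X])).map (C : ℤ[X] →+* ℤ[X][X])) ℚ[X][X] _ hp (by
    rw [Set.disjoint_left]
    rintro _ ⟨_, ⟨n, hn0, rfl⟩, rfl⟩ hd
    have n0 : n ≠ 0 := nonZeroDivisors.ne_zero hn0
    have hd' : F ∣ C (C n) := Ideal.mem_span_singleton.1 hd
    have d0 : F.natDegree = 0 := by
      simpa using natDegree_le_of_dvd hd' (C_ne_zero.2 (C_ne_zero.2 n0))
    obtain ⟨i₁, j₁, i₂, j₂, i₃, j₃, h1, h2, h3, h4⟩ := hn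
    have z : ∀ i j : ℕ, (F.coeff j).coeff i ≠ 0 → j = 0 := fun i j h => by
      by_contra e
      rw [coeff_eq_zero_of_natDegree_lt (p := F) (d0.trans_lt (Nat.pos_of_ne_zero e))] at h
      exact h (coeff_zero i)
    rw [z _ _ h1, z _ _ h2, z _ _ h3] at h4
    simp at h4)
  rw [Ideal.map_span, Set.image_singleton] at this
  have e : algebraMap ℤ[X][X] ℚ[X][X] F = F.map (mapRingHom (Int.castRingHom ℚ)) := rfl
  rw [e] at this
  refine ((Ideal.span_singleton_prime fun h => hF.ne_zero ?_).1 this).irreducible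
  exact (Polynomial.map_eq_zero_iff (map_injective _ Int.cast_injective)).1 h

end Conv0A

open Conv0A in
theorem sConv0Of : SConv0Of := fun P hP hc =>
  ⟨_, irr ((MulEquiv.irreducible_iff (Bivariate.equivMvPolynomial ℤ).symm).2 hP) (nonCol hc),
    nonCol hc, by
      unfold m2 Phi NP.mahler
      simp only [eval_eq]⟩

end Pool.Agent.MP_670f9a_nt.GL
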