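import Pool.Agent.MP_670f9a_nt.H83.SpecG
import Pool.Agent.MP_670f9a_nt.GL.Conv0

/-! From polynomials in two variables to iterated polynomials, with a factorisation. -/

namespace Pool.Agent.MP_670f9a_nt.GL

open Polynomial
open Pool.Agent.MP_670f9a_nt.NP (Phi m2 toC pts)

namespace Conv0FA

theorem map_eq (P : MvPolynomial (Fin 2) ℤ) :
    (Bivariate.equivMvPolynomial ℂ).symm (MvPolynomial.map (Int.castRingHom ℂ) P) =
      toC ((Bivariate.equivMvPolynomial ℤ).symm P) := by
  induction P using MvPolynomial.induction_on with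
  | C a => simp [toC]
  | add p q hp hq => simp only [map_add, hp, hq, toC, Polynomial.map_add]
  | mul_X p i hp =>
    simp only [map_mul, hp, toC, Polynomial.map_mul, MvPolynomial.map_X]
    fin_cases i <;> simp

end Conv0FA

open Conv0A in
theorem sConv0FOf : SConv0FOf := fun P s F hP hc hF e =>
  ⟨_, irr ((MulEquiv.irreducible_iff (Bivariate.equivMvPolynomial ℤ).symm).2 hP) (nonCol hc),
    nonCol hc, by
      unfold m2 Phi NP.mahler
      simp only [eval_eq],
    fun i => (Bivariate.equivMvPolynomial ℂ).symm (F i),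
    fun i h => hF i (by simpa using h.map (Bivariate.equivMvPolynomial ℂ)),
    by rw [← map_prod, e, Conv0FA.map_eq]⟩

end Pool.Agent.MP_670f9a_nt.GL
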