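import Pool.Agent.MP_670f9a_nt.H83.Spec

/-! The circle mean of a fibre sum as an integral over the curve. -/

namespace Pool.Agent.MP_670f9a_nt.GL

open Polynomial Real Finset MeasureTheory Metric Filter
open scoped ENNReal ComplexConjugate Topology

theorem sConvXOf : SConvXOf := by
  classical
  intro hC hF hM hP Q B φ r₁ r₂ hG hr hφ h0 hI
  have hmem := (hC.2.2 Q B hG).1
  have hz : ∀ z ∉ insert (0 : ℂ) B, z ≠ 0 ∧ z ∉ B := fun z hz => by simpa using hz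
  have hd : ∀ z ∉ insert (0 : ℂ) B, ContDiffAt ℝ 1 (fs Q φ) z ∧
      ∀ w, fderiv ℝ (fs Q φ) z w = fs Q (D Q w φ) z := fun z h =>
    ((hF Q B hG).2.2 φ z (hz z h).2).2.1 fun y hy =>
      hφ _ ⟨(hmem z (hz z h).2 y).mp hy, (hz z h).2⟩ (hz z h).1
  obtain ⟨i1, i2⟩ := (hM Q B hG).2.2.2.2.1 _ hI
  have hae : (fs Q fun p => D Q (conj (sg (log ‖p.1‖) / p.1)) φ p) =ᵐ[volume]
      fun z => fderiv ℝ (fs Q φ) z (conj (sg (log ‖z‖) / z)) := by
    have : ∀ᵐ z : ℂ, z ∉ ((insert (0 : ℂ) B : Finset ℂ) : Set ℂ) :=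
      (insert (0 : ℂ) B).countable_toSet.ae_notMem _
    filter_upwards [this] with z h
    rw [(hd z h).2]
    rfl
  obtain ⟨c1, c2⟩ := hP (fs Q φ) (insert 0 B) r₁ r₂ hr (mem_insert_self _ _)
    (fun z h => (hd z h).1) (fun z h h' => by
      refine Multiset.sum_eq_zero fun a ha => ?_
      obtain ⟨y, hy, rfl⟩ := Multiset.mem_map.mp ha
      exact h0 _ ⟨(hmem z (hz z h).2 y).mp hy, (hz z h).2⟩ (hz z h).1 h') (i1.congr hae)
  exact ⟨c1, by rw [i2, integral_congr_ae hae, c2]; rfl⟩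

end Pool.Agent.MP_670f9a_nt.GL
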