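import Pool.Agent.MP_670f9a_nt.H83.Spec

/-! Logarithmic cut-off functions. -/

namespace Pool.Agent.MP_670f9a_nt.GL

open Real MeasureTheory Metric Filter
open scoped Topology

namespace CutA

/-- The density of the energy. -/
noncomputable def en (η : ℂ → ℝ) (z : ℂ) : ℝ := fderiv ℝ η z 1 ^ 2 + fderiv ℝ η z Complex.I ^ 2

/-- The statement with two parameters. -/
def Ok (B : Finset ℂ) (δ ε : ℝ) : Prop := ∃ (η : ℂ → ℝ) (ρ : ℝ), 0 < ρ ∧
  ContDiff ℝ 2 η ∧ (∀ z, 0 ≤ η z ∧ η z ≤ 1) ∧ (∀ b ∈ B, ∀ z ∈ ball b ρ, η z = 0) ∧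
  (∀ z, (∀ b ∈ B, δ ≤ ‖z - b‖) → η z = 1) ∧ Integrable (en η) ∧ ∫ z, en η z ≤ ε

theorem en_nonneg (η : ℂ → ℝ) (z : ℂ) : 0 ≤ en η z := by
  unfold en
  positivity

theorem en_cont {η : ℂ → ℝ} (h : ContDiff ℝ 2 η) : Continuous (en η) := by
  have := h.continuous_fderiv (by norm_num)
  unfold en
  fun_prop

theorem dz {s : ℝ} (h : s ≤ 0 ∨ 1 ≤ s) : deriv smoothTransition s = 0 := by
  rcases h with h | h
  · refine IsLocalMin.deriv_eq_zero (Eventually.of_forall fun x => ?_)
    rw [smoothTransition.zero_of_nonpos h]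
    exact smoothTransition.nonneg x
  · refine IsLocalMax.deriv_eq_zero (Eventually.of_forall fun x => ?_)
    rw [smoothTransition.one_of_one_le h]
    exact smoothTransition.le_one x

theorem bd : ∃ G : ℝ, ∀ s, |deriv smoothTransition s| ≤ G := by
  obtain ⟨G, hG⟩ := (isCompact_Icc (a := (0 : ℝ)) (b := 1)).exists_bound_of_continuousOn
    ((smoothTransition.contDiff (n := 1)).continuous_deriv le_rfl).continuousOn
  refine ⟨G, fun s => ?_⟩
  by_cases h : s ∈ Set.Icc (0 : ℝ) 1
  · exact hG s h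
  · rw [dz (by rw [Set.mem_Icc] at h; by_contra z; exact h ⟨by grind, by grind⟩), abs_zero]
    exact (norm_nonneg _).trans (hG 0 (by simp))

theorem zero (hP : SPol) {δ ε : ℝ} (hδ : 0 < δ) (hε : 0 < ε) : Ok {0} δ ε := by
  classical
  obtain ⟨G, hG⟩ := bd
  have hπ := pi_pos
  obtain ⟨L, h0, h1, h2⟩ : ∃ L : ℝ, 0 < L ∧ -L ≤ log δ ∧ 16 * π * G ^ 2 / ε ≤ L := by
    have : 0 ≤ 16 * π * G ^ 2 / ε := by positivity
    exact ⟨16 * π * G ^ 2 / ε + |log δ| + 1, by positivity, by linarith [neg_abs_le (log δ)],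
      by linarith [abs_nonneg (log δ)]⟩
  let η : ℂ → ℝ := fun z => if z = 0 then 0 else smoothTransition (2 + log ‖z‖ / L)
  have e0 : ∀ z ∈ ball (0 : ℂ) (exp (-2 * L)), η z = 0 := fun z hz => by
    by_cases h : z = 0
    · exact if_pos h
    · refine (if_neg h).trans (smoothTransition.zero_of_nonpos ?_)
      have := (log_le_iff_le_exp (norm_pos_iff.2 h)).2 (mem_ball_zero_iff.1 hz).le
      rw [← le_neg_iff_add_nonpos_left, div_le_iff₀ h0]
      exact this
  have e1 : η =ᶠ[𝓝 0] fun _ => 0 := eventually_of_mem (ball_mem_nhds _ (exp_pos _)) e0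
  have e2 : ∀ z : ℂ, z ≠ 0 → η =ᶠ[𝓝 z] fun z => smoothTransition (2 + log ‖z‖ / L) := fun z hz =>
    eventually_of_mem (isOpen_ne.mem_nhds hz) fun u hu => if_neg hu
  have hc : ContDiff ℝ 2 η := contDiff_iff_contDiffAt.2 fun z => by
    by_cases h : z = 0
    · exact h ▸ contDiffAt_const.congr_of_eventuallyEq e1
    · exact (smoothTransition.contDiffAt.comp z (contDiffAt_const.add
        (((contDiffAt_norm ℝ h).log (norm_ne_zero_iff.2 h)).div_const L))).congr_of_eventuallyEq
          (e2 z h)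
  obtain ⟨i1, i2⟩ := hP.2.2.2.2.1 (2 * L) (by positivity)
  have hm : MeasurableSet {z : ℂ | |log ‖z‖| ≤ 2 * L} :=
    measurableSet_le (by fun_prop) measurable_const
  have i3 := ((integrable_indicator_iff hm).2 i1).const_mul (2 * G ^ 2 / L ^ 2)
  have hb : ∀ z, en η z ≤ 2 * G ^ 2 / L ^ 2 *
      {z : ℂ | |log ‖z‖| ≤ 2 * L}.indicator (fun z => 1 / ‖z‖ ^ 2) z := fun z => by
    by_cases h : z = 0
    · refine le_trans (le_of_eq ?_) (mul_nonneg (by positivity)
        (Set.indicator_nonneg (fun _ _ => by positivity) z))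
      simp [en, h, e1.fderiv_eq]
    have hz := norm_pos_iff.2 h
    have d1 : HasDerivAt (fun t => smoothTransition (2 + log t / L))
        (deriv smoothTransition (2 + log ‖z‖ / L) * (‖z‖⁻¹ / L)) ‖z‖ :=
      ((smoothTransition.contDiff (n := 1)).differentiable one_ne_zero _).hasDerivAt.comp ‖z‖
        (((hasDerivAt_log hz.ne').div_const L).const_add 2)
    have d2 := (e2 z h).fderiv_eq.trans (d1.comp_hasFDerivAt z
      ((contDiffAt_norm ℝ (n := 1) h).differentiableAt one_ne_zero).hasFDerivAt).fderiv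
    have d3 : ∀ w : ℂ, ‖w‖ = 1 → fderiv ℝ norm z w ^ 2 ≤ 1 := fun w hw => by
      have := (fderiv ℝ norm z).le_of_opNorm_le
        (norm_fderiv_le_of_lipschitz ℝ lipschitzWith_one_norm) w
      rw [hw, NNReal.coe_one, mul_one] at this
      exact (sq_le_one_iff_abs_le_one _).2 this
    rw [en, d2, ContinuousLinearMap.smul_apply, ContinuousLinearMap.smul_apply, smul_eq_mul,
      smul_eq_mul, mul_pow, mul_pow _ (fderiv ℝ norm z _), ← mul_add]
    refine (mul_le_mul_of_nonneg_left (add_le_add (d3 1 norm_one) (d3 _ Complex.norm_I))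
      (sq_nonneg _)).trans ?_
    by_cases hs : |log ‖z‖| ≤ 2 * L
    · rw [Set.indicator_of_mem (by exact hs), mul_pow]
      refine (mul_le_mul_of_nonneg_right (mul_le_mul_of_nonneg_right
        (sq_le_sq' (abs_le.1 (hG _)).1 (abs_le.1 (hG _)).2) (sq_nonneg _)) (by norm_num)).trans_eq ?_
      field_simp
      ring
    · rw [Set.indicator_of_notMem (by exact hs), dz]
      · simp
      rcases lt_abs.1 (not_le.1 hs) with h3 | h3
      · exact .inr (by linarith [div_nonneg (by linarith : 0 ≤ log ‖z‖) h0.le])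
      · exact .inl (by rw [← le_neg_iff_add_nonpos_left, div_le_iff₀ h0]; linarith)
  have i4 : Integrable (en η) := i3.mono' (en_cont hc).aestronglyMeasurable
    (Eventually.of_forall fun z => (norm_of_nonneg (en_nonneg η z)).trans_le (hb z))
  refine ⟨η, exp (-2 * L), exp_pos _, hc, fun z => ?_, by simpa using e0, fun z hz => ?_, i4,
    (integral_mono i4 i3 hb).trans ?_⟩
  · by_cases h : z = 0
    · simp [η, h]
    · simp [η, h, smoothTransition.nonneg, smoothTransition.le_one]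
  · have h3 : δ ≤ ‖z‖ := by simpa using hz
    refine (if_neg (norm_pos_iff.1 (hδ.trans_le h3))).trans (smoothTransition.one_of_one_le ?_)
    have := log_le_log hδ h3
    rw [← sub_le_iff_le_add', le_div_iff₀ h0]
    linarith
  · rw [integral_const_mul, integral_indicator hm, i2]
    rw [div_le_iff₀ hε] at h2
    rw [show 2 * G ^ 2 / L ^ 2 * (4 * π * (2 * L)) = 16 * π * G ^ 2 / L by field_simp; ring,
      div_le_iff₀ h0, mul_comm ε]
    exact h2

theorem one (hP : SPol) {δ ε : ℝ} (hδ : 0 < δ) (hε : 0 < ε) (b : ℂ) : Ok {b} δ ε := by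
  obtain ⟨η, ρ, h1, h2, h3, h4, h5, h6, h7⟩ := zero hP hδ hε
  have e : en (fun z => η (z - b)) = fun z => en η (z - b) := funext fun z => by
    simp only [en, fderiv_comp_sub]
  refine ⟨fun z => η (z - b), ρ, h1, h2.comp (contDiff_id.sub contDiff_const), fun z => h3 _,
    fun c hc z hz => h4 0 (by simp) _ ?_, fun z hz => h5 _ (by simpa using hz),
    e ▸ h6.comp_sub_right b, ?_⟩
  · rwa [mem_ball_zero_iff, ← Finset.mem_singleton.1 hc, ← mem_ball_iff_norm]
  · rwa [e, integral_sub_right_eq_self]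

theorem all (hP : SPol) {δ : ℝ} (hδ : 0 < δ) (B : Finset ℂ) : ∀ ε, 0 < ε → Ok B δ ε := by
  classical
  refine B.induction_on (fun ε hε => ?_) fun b B _ ih ε hε => ?_
  · have e : en (fun _ => 1) = fun _ => 0 := funext fun z => by simp [en]
    exact ⟨fun _ => 1, 1, one_pos, contDiff_const, by simp, by simp, by simp,
      e ▸ integrable_zero _ _ _, by simpa [e] using hε.le⟩
  obtain ⟨η, ρ, h1, h2, h3, h4, h5, h6, h7⟩ := one hP hδ (show 0 < ε / 4 by positivity) b
  obtain ⟨η', ρ', g1, g2, g3, g4, g5, g6, g7⟩ := ih (ε / 4) (by positivity)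
  have hc := h2.mul g2
  have i3 := (h6.add g6).const_mul 2
  have hb : ∀ z, en (fun z => η z * η' z) z ≤ 2 * (en η z + en η' z) := fun z => by
    have k : ∀ a a' : ℝ, (η z * a' + η' z * a) ^ 2 ≤ 2 * (a ^ 2 + a' ^ 2) := fun a a' => by
      nlinarith [sq_nonneg (η z * a' - η' z * a),
        mul_le_of_le_one_left (sq_nonneg a') (pow_le_one₀ (n := 2) (h3 z).1 (h3 z).2),
        mul_le_of_le_one_left (sq_nonneg a) (pow_le_one₀ (n := 2) (g3 z).1 (g3 z).2)]
    simp only [en, fderiv_fun_mul (h2.differentiable two_ne_zero z)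
      (g2.differentiable two_ne_zero z), ContinuousLinearMap.add_apply,
      ContinuousLinearMap.smul_apply, smul_eq_mul]
    linarith [k (fderiv ℝ η z 1) (fderiv ℝ η' z 1),
      k (fderiv ℝ η z Complex.I) (fderiv ℝ η' z Complex.I)]
  have i4 : Integrable (en fun z => η z * η' z) := i3.mono' (en_cont hc).aestronglyMeasurable
    (Eventually.of_forall fun z => (norm_of_nonneg (en_nonneg _ z)).trans_le (hb z))
  refine ⟨_, min ρ ρ', lt_min h1 g1, hc, fun z => ⟨mul_nonneg (h3 z).1 (g3 z).1,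
    mul_le_one₀ (h3 z).2 (g3 z).1 (g3 z).2⟩, fun c hc z hz => ?_, fun z hz => ?_, i4,
    (integral_mono i4 i3 hb).trans ?_⟩
  · rcases Finset.mem_insert.1 hc with rfl | hc
    · rw [h4 c (by simp) z (ball_subset_ball (min_le_left _ _) hz), zero_mul]
    · rw [g4 c hc z (ball_subset_ball (min_le_right _ _) hz), mul_zero]
  · rw [h5 z fun c hc => hz c (by simp [Finset.mem_singleton.1 hc]),
      g5 z fun c hc => hz c (Finset.mem_insert_of_mem hc), mul_one]
  · rw [integral_const_mul, integral_add' h6 g6]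
    linarith

end CutA

theorem sCutOf : SCutOf := fun hP B δ hδ => CutA.all hP hδ B δ hδ

end Pool.Agent.MP_670f9a_nt.GL
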