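import Pool.Agent.MP_670f9a_nt.H83.Spec

/-!
Integrals of logarithms over discs.
-/

namespace Pool.Agent.MP_670f9a_nt.GL

open Polynomial Real MeasureTheory Metric Filter

namespace DiscH

theorem int_mul_log {s R : ℝ} (hs : 0 ≤ s) (h : s ≤ R) :
    ∫ ρ in s..R, ρ * log ρ =
      (R * (R * log R) / 2 - R ^ 2 / 4) - (s * (s * log s) / 2 - s ^ 2 / 4) := by
  refine intervalIntegral.integral_eq_sub_of_hasDerivAt_of_le
    (f := fun ρ => ρ * (ρ * log ρ) / 2 - ρ ^ 2 / 4) h ?_ ?_
    (continuous_mul_log.intervalIntegrable _ _)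
  · exact (((continuous_id.mul continuous_mul_log).div_const 2).sub
      ((continuous_pow 2).div_const 4)).continuousOn
  · intro x hx
    have hx0 : x ≠ 0 := (hs.trans_lt hx.1).ne'
    have h1 := (((hasDerivAt_id x).mul (hasDerivAt_mul_log hx0)).div_const 2).sub
      ((hasDerivAt_pow 2 x).div_const 4)
    refine h1.congr_deriv ?_
    norm_num
    ring

theorem int_lin (a b k : ℝ) : ∫ ρ in a..b, ρ * k = (b ^ 2 - a ^ 2) / 2 * k := by
  rw [intervalIntegral.integral_mul_const, integral_id]

theorem eq_low {s ρ : ℝ} (h0 : 0 < ρ) (h : ρ ≤ s) : log ρ + log⁺ (ρ⁻¹ * s) = log s := by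
  have h1 : 1 ≤ ρ⁻¹ * s := by rw [← div_eq_inv_mul, le_div_iff₀ h0]; linarith
  rw [posLog_eq_log (h1.trans (le_abs_self _)), log_mul (inv_pos.2 h0).ne' (by linarith), log_inv]
  ring

theorem eq_high {s ρ : ℝ} (hs : 0 ≤ s) (h0 : 0 < ρ) (h : s ≤ ρ) :
    log ρ + log⁺ (ρ⁻¹ * s) = log ρ := by
  have h1 : |ρ⁻¹ * s| ≤ 1 := by
    rw [abs_of_nonneg (by positivity), ← div_eq_inv_mul, div_le_one h0]
    exact h
  rw [(posLog_eq_zero_iff _).2 h1, add_zero]

theorem radial {R : ℝ} (hR : 0 < R) (a : ℂ) (F : ℝ → ℝ)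
    (hF : ∀ ρ, 0 < ρ → F ρ = log ρ + log⁺ (ρ⁻¹ * ‖a‖)) :
    2 * π * ∫ ρ in (0 : ℝ)..R, ρ * F ρ = π * R ^ 2 * hU R a := by
  have hs := norm_nonneg a
  have lo : ∀ t, 0 ≤ t → t ≤ ‖a‖ → Set.EqOn (fun ρ => ρ * F ρ) (fun ρ => ρ * log ‖a‖)
      (Set.uIcc 0 t) := by
    intro t ht hta ρ hρ
    rw [Set.uIcc_of_le ht] at hρ
    rcases hρ.1.eq_or_lt with h | h
    · simp [← h]
    · simp only [hF ρ h, eq_low h (hρ.2.trans hta)]
  unfold hU
  split_ifs with h
  · have hi : Set.EqOn (fun ρ => ρ * F ρ) (fun ρ => ρ * log ρ) (Set.uIcc ‖a‖ R) := by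
      intro ρ hρ
      rw [Set.uIcc_of_le h] at hρ
      rcases (hs.trans hρ.1).eq_or_lt with h' | h'
      · simp [← h']
      · simp only [hF ρ h', eq_high hs h' hρ.1]
    have i1 : IntervalIntegrable (fun ρ => ρ * F ρ) volume 0 ‖a‖ :=
      ((continuous_id.mul continuous_const).continuousOn.congr
        (lo _ hs le_rfl)).intervalIntegrable
    have i2 : IntervalIntegrable (fun ρ => ρ * F ρ) volume ‖a‖ R :=
      (continuous_mul_log.continuousOn.congr hi).intervalIntegrable
    rw [← intervalIntegral.integral_add_adjacent_intervals i1 i2,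
      intervalIntegral.integral_congr (lo _ hs le_rfl), intervalIntegral.integral_congr hi,
      int_lin, int_mul_log hs h]
    field_simp
    ring
  · rw [intervalIntegral.integral_congr (lo R hR.le (not_le.1 h).le), int_lin]
    ring

theorem cont_hU {R : ℝ} (hR : 0 < R) : Continuous (hU R) := by
  have h : hU R = fun a : ℂ =>
      if ‖a‖ ≤ R then log R + (‖a‖ ^ 2 / R ^ 2 - 1) / 2 else log (max ‖a‖ R) := by
    funext a
    unfold hU
    split_ifs with h
    · rfl
    · rw [max_eq_left (not_le.1 h).le]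
  rw [h]
  refine Continuous.if_le (by fun_prop) ?_ continuous_norm continuous_const ?_
  · exact (continuous_norm.max continuous_const).log fun a =>
      (hR.trans_le (le_max_right _ _)).ne'
  · intro a ha
    rw [ha, max_self, div_self (by positivity)]
    ring

theorem int_poly (hP : SPol) (c : ℂ) (R : ℝ) :
    ∀ (n : ℕ) (g : ℂ[X]), g.natDegree = n →
      IntegrableOn (fun z => log ‖g.eval z‖) (ball c R) := by
  intro n
  induction n with
  | zero =>
    intro g hg
    rw [eq_C_of_natDegree_eq_zero hg]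
    simp only [eval_C]
    exact integrableOn_const measure_ball_lt_top.ne
  | succ n ih =>
    intro g hg
    have hd : g.degree ≠ 0 := fun h => by
      rw [natDegree_eq_of_degree_eq_some (n := 0) h] at hg
      omega
    obtain ⟨a, ha⟩ := IsAlgClosed.exists_root g hd
    obtain ⟨h, rfl⟩ := dvd_iff_isRoot.2 ha
    have h0 : h ≠ 0 := by
      rintro rfl
      simp at hg
    rw [natDegree_mul (X_sub_C_ne_zero a) h0, natDegree_X_sub_C] at hg
    have i1 := hP.2.1 c a R
    have i2 := ih h (by omega)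
    refine (i1.add i2).congr (ae_restrict_of_ae ?_)
    have f1 : ({z : ℂ | IsRoot h z} ∪ {a}).Finite :=
      (finite_setOfPred_isRoot h0).union (Set.finite_singleton a)
    filter_upwards [measure_eq_zero_iff_ae_notMem.1 (f1.measure_zero volume)] with z hz
    simp only [Set.mem_union, Set.mem_ofPred_eq, Set.mem_singleton_iff, not_or, IsRoot] at hz
    simp only [Pi.add_apply, eval_mul, eval_sub, eval_X, eval_C, norm_mul]
    rw [log_mul (norm_ne_zero_iff.2 (sub_ne_zero.2 hz.2)) (norm_ne_zero_iff.2 hz.1),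
      norm_sub_rev]

end DiscH

open DiscH in
theorem sDiscH : SDiscOf := by
  intro hP R hR
  have hc := cont_hU hR
  have ion : ∀ (c : ℂ) (f : ℂ → ℝ), ContinuousOn f (closedBall c R) →
      IntegrableOn f (ball c R) := fun c f hf =>
    (hf.integrableOn_compact (isCompact_closedBall c R)).mono_set ball_subset_closedBall
  refine ⟨fun c a => ⟨hP.2.1 c a R, ?_⟩, fun c g hg h0 => ?_, fun c g => int_poly hP c R _ g rfl,
    hc, fun a => ⟨fun h => ?_, fun h => ?_, fun h h' => ?_⟩, ?_, ?_⟩
  · rw [hP.1 _ c R hR (hP.2.1 c a R)]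
    refine radial hR (a - c) _ fun ρ hρ => ?_
    rw [norm_sub_rev a c, ← circleAverage_log_norm_sub_const_eq_log_radius_add_posLog hρ.ne']
    simp only [norm_sub_rev a]
  · have i1 : IntegrableOn (fun z => log ‖g z‖) (ball c R) :=
      ion c _ (hg.continuousOn.norm.log fun z hz => norm_ne_zero_iff.2 (h0 z hz))
    refine ⟨i1, ?_⟩
    have e : Set.EqOn (fun ρ => ρ * circleAverage (fun z => log ‖g z‖) c ρ)
        (fun ρ => ρ * log ‖g c‖) (Set.uIcc 0 R) := by
      intro ρ hρ
      rw [Set.uIcc_of_le hR.le] at hρ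
      have hs : closedBall c |ρ| ⊆ closedBall c R :=
        closedBall_subset_closedBall (by rw [abs_of_nonneg hρ.1]; exact hρ.2)
      simp only [(hg.mono hs).circleAverage_log_norm_of_ne_zero fun u hu => h0 u (hs hu)]
    rw [hP.1 _ c R hR i1, intervalIntegral.integral_congr e, int_lin]
    ring
  · unfold hU
    split_ifs with h1
    · rw [le_antisymm h1 h, div_self (by positivity)]
      ring
    · rfl
  · unfold hU
    split_ifs with h1
    · have ha := norm_pos_iff.2 h
      have := log_le_sub_one_of_pos (show 0 < ‖a‖ ^ 2 / R ^ 2 by positivity)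
      rw [log_div (by positivity) (by positivity), log_pow, log_pow] at this
      push_cast at this
      linarith
    · exact le_rfl
  · unfold hU
    rw [if_pos (by linarith)]
    have ha := norm_pos_iff.2 h
    have h1 := log_le_log ha h'
    rw [log_div hR.ne' two_ne_zero] at h1
    have h2 := log_two_gt_d9
    have h3 : 0 ≤ ‖a‖ ^ 2 / R ^ 2 := by positivity
    linarith
  · have e : Set.EqOn (fun ρ => ρ * circleAverage (hU R) 0 ρ)
        (fun ρ => ρ * (log R - 1 / 2) + ρ ^ 3 * (1 / (2 * R ^ 2))) (Set.uIcc 0 R) := by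
      intro ρ hρ
      rw [Set.uIcc_of_le hR.le] at hρ
      have : circleAverage (hU R) 0 ρ = log R + (ρ ^ 2 / R ^ 2 - 1) / 2 := by
        refine circleAverage_const_on_circle fun x hx => ?_
        rw [mem_sphere_zero_iff_norm, abs_of_nonneg hρ.1] at hx
        unfold hU
        rw [hx, if_pos hρ.2]
      simp only [this]
      field_simp
      ring
    rw [hP.1 _ 0 R hR (ion 0 _ hc.continuousOn), intervalIntegral.integral_congr e,
      intervalIntegral.integral_add (by apply Continuous.intervalIntegrable; fun_prop)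
        (by apply Continuous.intervalIntegrable; fun_prop), int_lin,
      intervalIntegral.integral_mul_const, integral_pow]
    field_simp
    ring
  · rw [hP.1 _ 0 R hR (ion 0 _ (by fun_prop))]
    refine radial hR 1 _ fun ρ hρ => ?_
    have : circleAverage (fun z : ℂ => log⁺ ‖z‖) 0 ρ = log⁺ ρ := by
      refine circleAverage_const_on_circle fun x hx => ?_
      rw [mem_sphere_zero_iff_norm, abs_of_nonneg hρ.le] at hx
      rw [hx]
    rw [this, norm_one, mul_one, ← posLog_sub_posLog_inv]
    ring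

end Pool.Agent.MP_670f9a_nt.GL
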