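import Pool.Agent.MP_670f9a_nt.H83.SpecG

/-!
A polynomial with many complex factors has a complex factor of small bidegree.
-/

namespace Pool.Agent.MP_670f9a_nt.GL

open Polynomial Finset
open Pool.Agent.MP_670f9a_nt.NP (toC)

namespace DivRA

theorem irr_factor {G F : ℂ[X][X]} (hG : G ≠ 0) (hF : F ∣ G) (hu : ¬ IsUnit F) :
    ∃ F₀ : ℂ[X][X], Irreducible F₀ ∧ F₀ ∣ F ∧ F₀ ∣ G ∧ F₀.natDegree ≤ F.natDegree := by
  have hF0 : F ≠ 0 := ne_zero_of_dvd_ne_zero hG hF
  obtain ⟨F₀, hi, hd⟩ := WfDvdMonoid.exists_irreducible_factor hu hF0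
  exact ⟨F₀, hi, hd, hd.trans hF, natDegree_le_of_dvd hd hF0⟩

theorem sw_dvd {F G : ℂ[X][X]} (h : F ∣ G) : sw F ∣ sw G := by
  obtain ⟨H, rfl⟩ := h
  exact ⟨sw H, by simp only [sw, map_mul]⟩

end DivRA

open DivRA

theorem sDivROf : SDivROf := by
  intro hFam hSw P hI hN
  obtain ⟨hsw, hdeg, -, hrest⟩ := hSw P
  obtain ⟨hI', hN', -, hd⟩ := hrest hI hN
  have he : 1 ≤ (sw P).natDegree := ((hSw (sw P)).2.2.2 hI' hN').2.2.2
  have h0 : toC P ≠ 0 := by
    intro h
    rw [h, natDegree_zero] at hdeg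
    omega
  refine ⟨?_, ?_⟩
  · rintro s hs ⟨F, hu, hp⟩
    have hdv : ∀ i, F i ∣ toC P := fun i => hp ▸ dvd_prod_of_mem F (mem_univ i)
    have hne : ∀ i, F i ≠ 0 := fun i => ne_zero_of_dvd_ne_zero h0 (hdv i)
    have hnon : (univ : Finset (Fin s)).Nonempty := ⟨⟨0, hs⟩, mem_univ _⟩
    obtain ⟨i, -, hi⟩ := exists_min_image univ (fun i => (F i).natDegree) hnon
    obtain ⟨F₀, hirr, -, hG, hle⟩ := irr_factor h0 (hdv i) (hu i)
    have h1 : 1 ≤ F₀.natDegree := (hFam P F₀ hI hirr hG).2.2.1 hd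
    refine ⟨F i, hdv i, h1.trans hle, ?_⟩
    have hsum : ∑ j, (F j).natDegree = P.natDegree := by
      rw [← hdeg, ← hp, natDegree_prod _ _ fun j _ => hne j]
    have hmin : s * (F i).natDegree ≤ ∑ j, (F j).natDegree := by
      have := card_nsmul_le_sum univ (fun j => (F j).natDegree) (F i).natDegree hi
      simpa using this
    rw [hsum] at hmin
    exact_mod_cast hmin
  · rintro s hs ⟨F, hF, h1, hsF⟩
    have hu : ¬ IsUnit F := fun h => by
      have := natDegree_eq_zero_of_isUnit h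
      omega
    obtain ⟨F₀, hirr, -, hG, hle⟩ := irr_factor h0 hF hu
    obtain ⟨hfam, hmul, -, he₀⟩ := hFam P F₀ hI hirr hG
    have hkey : s * (sw F₀).natDegree ≤ (sw P).natDegree := by
      have hd' : (0 : ℝ) < P.natDegree := by exact_mod_cast hd
      have hmul' : (F₀.natDegree : ℝ) * (sw P).natDegree = (sw F₀).natDegree * P.natDegree := by
        exact_mod_cast hmul
      have hle' : (F₀.natDegree : ℝ) ≤ F.natDegree := by exact_mod_cast hle
      have h2 : s * F₀.natDegree ≤ P.natDegree :=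
        (mul_le_mul_of_nonneg_left hle' hs.le).trans hsF
      have h3 : (0 : ℝ) ≤ (sw P).natDegree := Nat.cast_nonneg _
      refine le_of_mul_le_mul_right ?_ hd'
      calc s * (sw F₀).natDegree * P.natDegree = s * F₀.natDegree * (sw P).natDegree := by
            rw [mul_assoc, ← hmul', mul_assoc]
        _ ≤ P.natDegree * (sw P).natDegree := mul_le_mul_of_nonneg_right h2 h3
        _ = (sw P).natDegree * P.natDegree := mul_comm _ _
    exact ⟨⟨sw F₀, hsw ▸ sw_dvd hG, he₀ he, hkey⟩, _, _, hfam, hkey⟩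

end Pool.Agent.MP_670f9a_nt.GL
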