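import Pool.Agent.MP_670f9a_nt.H83.Spec

/-! The error term is small at one of the dyadic scales. -/

namespace Pool.Agent.MP_670f9a_nt.GL

open Polynomial Real Finset MeasureTheory

namespace ErrA

variable {α : Type} [MeasurableSpace α]

theorem meas {q : α → ℝ} (hq : Measurable q) (a b : ℝ) : MeasurableSet {p | a < q p ∧ q p ≤ b} :=
  (measurableSet_lt measurable_const hq).inter (measurableSet_le hq measurable_const)

/-- the integral over a large annulus is the sum over the dyadic annuli -/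
theorem split (μ : Measure α) {q : α → ℝ} (hq : Measurable q) (f : α → ℝ) (a : ℕ → ℝ)
    (ha : Antitone a) (J : ℕ) (h : IntegrableOn f {p | a J < q p ∧ q p ≤ a 0} μ) :
    ∫ p in {p | a J < q p ∧ q p ≤ a 0}, f p ∂μ
      = ∑ i ∈ range J, ∫ p in {p | a (i + 1) < q p ∧ q p ≤ a i}, f p ∂μ := by
  induction J with
  | zero =>
    have : {p | a 0 < q p ∧ q p ≤ a 0} = ∅ :=
      Set.eq_empty_of_forall_notMem fun p hp => hp.1.not_ge hp.2
    simp [this]
  | succ J ih =>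
    have h1 := ha (Nat.le_succ J)
    have h2 := ha (Nat.zero_le J)
    have e : {p | a (J + 1) < q p ∧ q p ≤ a 0}
        = {p | a J < q p ∧ q p ≤ a 0} ∪ {p | a (J + 1) < q p ∧ q p ≤ a J} := by
      ext p
      simp only [Set.mem_union, Set.mem_ofPred_eq]
      constructor
      · rintro ⟨b1, b2⟩
        rcases lt_or_ge (a J) (q p) with b | b
        exacts [Or.inl ⟨b, b2⟩, Or.inr ⟨b1, b⟩]
      · rintro (⟨b1, b2⟩ | ⟨b1, b2⟩)
        exacts [⟨h1.trans_lt b1, b2⟩, ⟨b1, b2.trans h2⟩]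
    rw [e] at h ⊢
    rw [setIntegral_union (Set.disjoint_left.2 fun p b b' => b.1.not_ge b'.2) (meas hq _ _)
      h.left_of_union h.right_of_union, ih h.left_of_union, sum_range_succ]

/-- one dyadic annulus carries at most the mean -/
theorem pig (μ : Measure α) {q : α → ℝ} (hq : Measurable q) (f : α → ℝ) (a : ℕ → ℝ)
    (ha : Antitone a) (J : ℕ) (hJ : 1 ≤ J) (M : ℝ)
    (h : IntegrableOn f {p | a J < q p ∧ q p ≤ a 0} μ)
    (hM : ∫ p in {p | a J < q p ∧ q p ≤ a 0}, f p ∂μ ≤ M) :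
    ∃ i < J, IntegrableOn f {p | a (i + 1) < q p ∧ q p ≤ a i} μ ∧
      ∫ p in {p | a (i + 1) < q p ∧ q p ≤ a i}, f p ∂μ ≤ M / J := by
  have hJ0 : (J : ℝ) ≠ 0 := by positivity
  rw [split μ hq f a ha J h] at hM
  obtain ⟨i, hi, hle⟩ := exists_le_of_sum_le (s := range J) (g := fun _ => M / J)
    (nonempty_range_iff.2 (by omega)) (hM.trans (by
      rw [sum_const, card_range, nsmul_eq_mul, mul_div_cancel₀ _ hJ0]))
  have hi' := mem_range.1 hi
  exact ⟨i, hi', h.mono_set fun p hp => ⟨(ha hi').trans_lt hp.1, hp.2.trans (ha i.zero_le)⟩, hle⟩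

/-- the pointwise bound on an annulus -/
theorem pt {o z S q t Γ : ℝ} (ht : 0 < t) (hq : 0 < q) (hq' : q ≤ t ^ 2) (hS : 0 ≤ S)
    (ho : |o| ≤ Γ * (2 / t ^ 2)) :
    |o * (z * √S)| ≤ √(z ^ 2 / √q ^ 3) * √(4 * Γ ^ 2 / t * S) := by
  have h1 : 0 < √q := sqrt_pos.2 hq
  have h2 : √q ≤ t := sqrt_le_iff.2 ⟨ht.le, hq'⟩
  have h3 : o ^ 2 ≤ 4 * Γ ^ 2 / t / √q ^ 3 := by
    have a1 : o ^ 2 ≤ (Γ * (2 / t ^ 2)) ^ 2 := sq_le_sq' (abs_le.1 ho).1 (abs_le.1 ho).2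
    have a2 : (Γ * (2 / t ^ 2)) ^ 2 = 4 * Γ ^ 2 / t / t ^ 3 := by
      field_simp
      ring
    rw [a2] at a1
    exact a1.trans (by gcongr)
  rw [← sqrt_mul (by positivity)]
  refine abs_le_sqrt ?_
  rw [mul_pow, mul_pow, sq_sqrt hS]
  calc o ^ 2 * (z ^ 2 * S) ≤ 4 * Γ ^ 2 / t / √q ^ 3 * (z ^ 2 * S) := by gcongr
    _ = _ := by ring

end ErrA

theorem sErrOf : SErrOf := by
  rintro - hP ⟨⟨-, -, -, g1, g2, Γ, g3⟩, -⟩ ⟨hR, hR'⟩ hA ⟨C, hC, hT⟩
  refine ⟨√(C * (32 * π * Γ ^ 2)), sqrt_nonneg _, fun Q B t₀ J hQ h0 hJ => ?_⟩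
  obtain ⟨-, -, -, -, -, mq, mS, -, mz, -, mo, -⟩ := hR Q
  have hD : 0 ≤ DD Q := zero_le_one.trans (hR' Q B hQ).1
  have hS : ∀ p, 0 ≤ SS Q p := fun p => by
    unfold SS
    positivity
  have hdec : ∀ {i j : ℕ}, i ≤ j → t₀ / 2 ^ j ≤ t₀ / 2 ^ i := fun h =>
    div_le_div_of_nonneg_left h0.le (by positivity) (pow_le_pow_right₀ one_le_two h)
  have e0 : t₀ / 2 ^ 0 = t₀ := by simp
  obtain ⟨T1, T2⟩ := hT Q B (t₀ / 2 ^ J) (t₀ / 2 ^ 0) hQ (by positivity) (hdec J.zero_le)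
  obtain ⟨i, hi, I1, I2⟩ := ErrA.pig (mu Q) mq _ (fun i => (t₀ / 2 ^ i) ^ 2)
    (fun i j h => pow_le_pow_left₀ (by positivity) (hdec h) 2) J hJ _ T1 T2
  have e1 : (t₀ / 2 ^ (i + 1)) ^ 2 = (t₀ / 2 ^ i) ^ 2 / 4 := by
    rw [pow_succ 2 i, ← div_div]
    ring
  simp only [e1] at I1 I2
  refine ⟨t₀ / 2 ^ i, hdec hi.le, (hdec i.zero_le).trans e0.le, ?_⟩
  have ht : 0 < t₀ / 2 ^ i := by positivity
  generalize t₀ / 2 ^ i = t at ht I1 I2 ⊢
  have ht2 : 0 < t ^ 2 := by positivity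
  obtain ⟨A1, A2⟩ := hA Q B t hQ ht
  have m1 := ErrA.meas mq (t ^ 2 / 4) (t ^ 2)
  have m2 : MeasurableSet {p | qq Q p ≤ t ^ 2} := measurableSet_le mq measurable_const
  obtain ⟨c1, c2⟩ := hP.2.2.2.2.2 (mu Q) (fun p => om Q t p * (‖zz Q p‖ * √(SS Q p))) _ _
    ((mo t).1.mul (mz.norm.mul mS.sqrt)).aestronglyMeasurable
    ((integrable_indicator_iff m1).2 I1)
    ((integrable_indicator_iff m2).2 (A1.const_mul (4 * Γ ^ 2 / t))) (.of_forall fun p => by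
      refine ⟨Set.indicator_nonneg (fun _ _ => by positivity) p,
        Set.indicator_nonneg (fun x _ => mul_nonneg (by positivity) (hS x)) p, ?_⟩
      by_cases hp : t ^ 2 / 4 < qq Q p ∧ qq Q p ≤ t ^ 2
      · rw [Set.indicator_of_mem (s := {p | t ^ 2 / 4 < qq Q p ∧ qq Q p ≤ t ^ 2}) hp,
          Set.indicator_of_mem (s := {p | qq Q p ≤ t ^ 2}) hp.2]
        refine ErrA.pt ht (by linarith [hp.1]) hp.2 (hS p) ?_
        have := g3 (qq Q p / t ^ 2)
        rw [om, abs_mul, abs_of_nonneg (by linarith), abs_of_nonneg (by positivity)]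
        exact mul_le_mul_of_nonneg_right (by linarith) (by positivity)
      · have : deriv gam (qq Q p / t ^ 2) = 0 := by
          rcases not_and_or.1 hp with h | h
          · exact (g1 _ (by rw [div_le_iff₀ ht2]; linarith [not_lt.1 h])).2
          · exact (g2 _ (by rw [le_div_iff₀ ht2]; linarith [not_le.1 h])).2
        rw [om, this, neg_zero, zero_mul, zero_mul, abs_zero]
        positivity)
  refine ⟨c1, (le_abs_self _).trans (c2.trans ?_)⟩
  rw [integral_indicator m1, integral_indicator m2, integral_const_mul]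
  have b1 : 4 * Γ ^ 2 / t * ∫ p in {p | qq Q p ≤ t ^ 2}, SS Q p ∂mu Q
      ≤ 32 * π * Γ ^ 2 * DD Q := by
    refine (mul_le_mul_of_nonneg_left A2 (by positivity)).trans (le_of_eq ?_)
    field_simp
    ring
  refine (mul_le_mul (sqrt_le_sqrt I2) (sqrt_le_sqrt b1) (sqrt_nonneg _) (sqrt_nonneg _)).trans
    (le_of_eq ?_)
  rw [sqrt_div (mul_nonneg hC hD), div_mul_eq_mul_div, ← sqrt_mul (mul_nonneg hC hD),
    show C * DD Q * (32 * π * Γ ^ 2 * DD Q) = C * (32 * π * Γ ^ 2) * DD Q ^ 2 by ring,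
    sqrt_mul (by positivity), sqrt_sq hD]

end Pool.Agent.MP_670f9a_nt.GL
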