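import Pool.Agent.MP_670f9a_nt.H83.Spec

/-! Integrals of potentials against the Laplacian of a test function. -/

set_option autoImplicit false

namespace Pool.Agent.MP_670f9a_nt.GL

open Polynomial Real MeasureTheory Metric Filter

namespace EvalA

theorem fubini (hP : SPol) (hF : SFund) {T : Type} [MeasurableSpace T] (ν : Measure T)
    [IsFiniteMeasure ν] {γ : T → ℂ} (hγ : Measurable γ) {R : ℝ} (hR : ∀ᵐ t ∂ν, ‖γ t‖ ≤ R)
    {ψ : ℂ → ℝ} (h1 : ContDiff ℝ 2 ψ) (h2 : HasCompactSupport ψ) :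
    ∫ z, (∫ t, log ‖z - γ t‖ ∂ν) * lap ψ z = 2 * π * ∫ t, ψ (γ t) ∂ν := by
  obtain ⟨hc, h0, -, -, -, hA⟩ := hF ψ h1 h2
  have hs : HasCompactSupport (lap ψ) := HasCompactSupport.intro h2 h0
  obtain ⟨M, hM⟩ := hc.bounded_above_of_compact_support hs
  obtain ⟨S, hS⟩ := h2.isCompact.isBounded.subset_ball 0
  have hg : Integrable ((ball (0 : ℂ) (S + R)).indicator fun u => ‖log ‖0 - u‖‖) :=
    (integrable_indicator_iff measurableSet_ball).2 (hP.2.1 0 0 (S + R)).norm
  have hm : AEStronglyMeasurable (fun p : ℂ × T => log ‖p.1 - γ p.2‖ * lap ψ p.1)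
      ((volume : Measure ℂ).prod ν) :=
    (((measurable_fst.sub (hγ.comp measurable_snd)).norm.log).mul
      (hc.measurable.comp measurable_fst)).aestronglyMeasurable
  have hi : Integrable (fun p : ℂ × T => log ‖p.1 - γ p.2‖ * lap ψ p.1)
      ((volume : Measure ℂ).prod ν) := by
    refine (integrable_prod_iff' hm).2 ⟨ae_of_all _ fun t => (hA (γ t)).1, ?_⟩
    refine Integrable.of_bound hm.norm.prod_swap.integral_prod_right'
      (M * ∫ u, (ball (0 : ℂ) (S + R)).indicator (fun u => ‖log ‖0 - u‖‖) u) ?_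
    filter_upwards [hR] with t ht
    rw [Real.norm_of_nonneg (integral_nonneg fun _ => norm_nonneg _),
      ← integral_sub_right_eq_self ((ball (0 : ℂ) (S + R)).indicator fun u => ‖log ‖0 - u‖‖) (γ t),
      ← integral_const_mul]
    refine integral_mono (hA (γ t)).1.norm ((hg.comp_sub_right (γ t)).const_mul M) fun z => ?_
    by_cases hz : z ∈ tsupport ψ
    · have h3 : z - γ t ∈ ball (0 : ℂ) (S + R) := by
        rw [mem_ball_zero_iff]
        linarith [norm_sub_le z (γ t), mem_ball_zero_iff.1 (hS hz)]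
      simp only [Set.indicator_of_mem h3, zero_sub, norm_neg, norm_mul]
      rw [mul_comm]
      exact mul_le_mul_of_nonneg_right (hM z) (norm_nonneg _)
    · simp only [h0 z hz, mul_zero, norm_zero]
      exact mul_nonneg ((norm_nonneg _).trans (hM 0))
        (Set.indicator_nonneg (fun _ _ => norm_nonneg _) _)
  simp only [← integral_mul_const]
  rw [integral_integral_swap hi, ← integral_const_mul]
  exact integral_congr_ae (ae_of_all _ fun t => (hA (γ t)).2)

theorem plane (hM : SMu) (hA : SAdm) {Q : ℂ[X][X]} {B : Finset ℂ} {φ : ℂ × ℂ → ℝ} (hG : Good Q B)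
    (hT : Test Q B φ) {f : ℂ → ℝ} (hf : Continuous f) :
    ∫ p, f p.1 * Lap Q φ p ∂mu Q = ∫ x, f x * lap (fs Q φ) x := by
  obtain ⟨-, -, -, h1, -, -, -, h2⟩ := (hA Q B hG).2.2.2 φ hT
  rw [((hM Q B hG).2.2.2.2.1 _
    (h2 (fun p => f p.1) (hf.comp continuous_fst).continuousOn)).2]
  refine integral_congr_ae ?_
  filter_upwards [compl_mem_ae_iff.2 (B.finite_toSet.measure_zero volume)] with x hx
  rw [h1 x hx, fs, fs, ← Multiset.sum_map_mul_left]

end EvalA

open EvalA

theorem sEvalOf : SEvalOf := by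
  intro hC hM hG hK hP hF hD hA Q B φ R g T hR
  obtain ⟨-, h1, h2, -, h3, -, -, h4⟩ := (hA Q B g).2.2.2 φ T
  refine ⟨?_, ?_, ?_⟩
  · have hp : (π * R ^ 2) ≠ 0 := by positivity
    have : IsFiniteMeasure ((volume : Measure ℂ).restrict (ball 0 R)) :=
      isFiniteMeasure_restrict.2 measure_ball_lt_top.ne
    have e := fubini hP hF (volume.restrict (ball 0 R)) measurable_id (R := R)
      (ae_restrict_of_forall_mem measurableSet_ball fun z hz => (mem_ball_zero_iff.1 hz).le) h1 h2
    simp only [id, fun z => ((hD R hR).1 0 z).2, sub_zero, mul_assoc, integral_const_mul] at e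
    rw [plane hM hA g T (hD R hR).2.2.2.1, mul_left_comm, eq_inv_mul_iff_mul_eq₀ hp]
    simpa only [mul_assoc] using e
  · have hp : (2 * π) ≠ 0 := by positivity
    have e := fubini hP hF (volume.restrict (Set.Ioc 0 (2 * π))) (measurable_circleMap 0 1) (R := 1)
      (ae_of_all _ fun t => by simp) h1 h2
    have e1 : ∀ z : ℂ, ∫ t in Set.Ioc 0 (2 * π), log ‖z - circleMap 0 1 t‖ =
        2 * π * log⁺ ‖z‖ := fun z => by
      rw [← circleAverage_log_norm_sub_const_eq_posLog, circleAverage_def, smul_eq_mul,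
        mul_inv_cancel_left₀ hp, intervalIntegral.integral_of_le two_pi_pos.le]
      simp only [norm_sub_rev]
    simp only [e1, mul_assoc (2 * π), integral_const_mul] at e
    rw [plane hM hA g T (f := fun z => log⁺ ‖z‖) (continuous_posLog.comp continuous_norm), Mx,
      circleAverage_def, smul_eq_mul, mul_inv_cancel_left₀ hp,
      intervalIntegral.integral_of_le two_pi_pos.le]
    exact mul_left_cancel₀ hp e
  · obtain ⟨hφ, K, k1, k2, k3⟩ := T
    have c1 := fun p (hp : Reg Q B p) (w : ℂ) =>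
      (((hC.2.2 Q B g).2.1 p hp).2.2 φ w).2 (hφ p hp.1)
    have G := fun w : ℂ => hG Q B K (fun p => φ p * D Q w φ p) g k1 k2
      (fun p hp => ((hφ p hp.1).of_le (by norm_num)).mul (c1 p hp w))
      (fun p _ h => by rw [k3 p h, zero_mul]) w
    have i1 := h4 φ fun p hp => (hφ p hp).continuousAt.continuousWithinAt
    rw [eq_neg_iff_add_eq_zero, ← integral_add i1 h3, ← add_zero (0 : ℝ)]
    nth_rw 1 [← (G 1).2, ← (G Complex.I).2]
    rw [← integral_add (G 1).1 (G Complex.I).1]
    refine integral_congr_ae ?_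
    filter_upwards [(hM Q B g).2.2.1] with p hp
    have d := fun w : ℂ => (hK.1 Q p w).1 φ (D Q w φ)
      ((hφ p hp.1).differentiableAt (by norm_num)) ((c1 p hp w).differentiableAt (by norm_num))
    rw [d, d, Lap, gr]
    ring

end Pool.Agent.MP_670f9a_nt.GL
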