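import Pool.Agent.MP_670f9a_nt.H83.Spec

/-! Cutting a function off near the bad fibres. -/

set_option autoImplicit false

namespace Pool.Agent.MP_670f9a_nt.GL

open Polynomial Real Finset MeasureTheory Metric Filter
open scoped Topology

namespace ExtA

theorem l1 {t : ℝ} (ht : 0 < t) (x y u v : ℝ) :
    |x * u + y * v| ≤ t * (x ^ 2 + y ^ 2) + t⁻¹ * (u ^ 2 + v ^ 2) := by
  have h : t * (x ^ 2 + y ^ 2) + t⁻¹ * (u ^ 2 + v ^ 2) =
      t⁻¹ * (t ^ 2 * (x ^ 2 + y ^ 2) + (u ^ 2 + v ^ 2)) := by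
    field_simp
  rw [h, le_inv_mul_iff₀ ht, ← abs_of_pos ht, ← abs_mul, abs_of_pos ht, abs_le]
  constructor
  · nlinarith [sq_nonneg (t * x + u), sq_nonneg (t * y + v), sq_nonneg (t * x), sq_nonneg (t * y),
      sq_nonneg u, sq_nonneg v]
  · nlinarith [sq_nonneg (t * x - u), sq_nonneg (t * y - v), sq_nonneg (t * x), sq_nonneg (t * y),
      sq_nonneg u, sq_nonneg v]

theorem l2 {t : ℝ} (ht : 0 < t) (a b u v : ℝ) :
    (a + u) * (a + u) + (b + v) * (b + v) ≤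
      (1 + t) * (a * a + b * b) + (1 + t⁻¹) * (u ^ 2 + v ^ 2) := by
  have h : ∀ a u : ℝ, 2 * (a * u) ≤ t * (a * a) + t⁻¹ * u ^ 2 := fun a u => by
    have e : t * (a * a) + t⁻¹ * u ^ 2 = t⁻¹ * (t ^ 2 * (a * a) + u ^ 2) := by field_simp
    rw [e, le_inv_mul_iff₀ ht]
    nlinarith [sq_nonneg (t * a - u)]
  nlinarith [h a u, h b v]

theorem l3 {e v M I : ℝ} (a b c d : ℝ) (hv : |v| ≤ M) (hI : (1 - e) ^ 2 * (a * a + b * b) ≤ I) :
    (v * c + e * a - a) ^ 2 + (v * d + e * b - b) ^ 2 ≤ 2 * I + 2 * M ^ 2 * (c ^ 2 + d ^ 2) := by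
  have h : v ^ 2 ≤ M ^ 2 := by
    rw [← sq_abs v]
    exact pow_le_pow_left₀ (abs_nonneg _) hv 2
  have h' := mul_le_mul_of_nonneg_right h (show 0 ≤ c ^ 2 + d ^ 2 by positivity)
  nlinarith [sq_nonneg (v * c + (1 - e) * a), sq_nonneg (v * d + (1 - e) * b)]

/-- The points above a neighbourhood of `B`. -/
def U (B : Finset ℂ) (r : ℝ) : Set (ℂ × ℂ) := {p : ℂ × ℂ | ∀ b ∈ B, r ≤ ‖p.1 - b‖}ᶜ

theorem U_meas (B : Finset ℂ) (r : ℝ) : MeasurableSet (U B r) := by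
  have h : {p : ℂ × ℂ | ∀ b ∈ B, r ≤ ‖p.1 - b‖} = ⋂ b ∈ B, {p : ℂ × ℂ | r ≤ ‖p.1 - b‖} := by
    ext p
    simp
  rw [U, h]
  exact (isClosed_biInter fun b _ =>
    isClosed_le continuous_const (by fun_prop)).measurableSet.compl

theorem small {μ : Measure (ℂ × ℂ)} (B : Finset ℂ) (hB : ∀ᵐ p ∂μ, p.1 ∉ B) {g : ℂ × ℂ → ℝ}
    (hg : Integrable g μ) :
    Tendsto (fun r => ∫ p, (U B r).indicator g p ∂μ) (𝓝[>] 0) (𝓝 0) := by
  have h0 : ∀ p : ℂ × ℂ, p.1 ∉ B → ∀ᶠ r in 𝓝[>] (0 : ℝ), 0 = (U B r).indicator g p := fun p hp => by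
    have h1 : ∀ᶠ r in 𝓝[>] (0 : ℝ), ∀ b ∈ B, r ≤ ‖p.1 - b‖ := by
      refine (eventually_all_finset B).2 fun b hb => nhdsWithin_le_nhds (eventually_le_nhds ?_)
      exact norm_pos_iff.2 (sub_ne_zero.2 fun e : p.1 = b => hp (e ▸ hb))
    exact h1.mono fun r hr => (Set.indicator_of_notMem (s := U B r) (fun z => z hr) g).symm
  have h := tendsto_integral_filter_of_dominated_convergence (μ := μ) (l := 𝓝[>] (0 : ℝ))
    (F := fun r => (U B r).indicator g) (f := fun _ => 0) (fun p => ‖g p‖)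
    (.of_forall fun r => hg.1.indicator (U_meas B r))
    (.of_forall fun r => .of_forall fun p => norm_indicator_le_norm_self _ _) hg.norm
    (hB.mono fun p hp => tendsto_const_nhds.congr' (h0 p hp))
  rwa [integral_zero] at h

theorem test {Q : ℂ[X][X]} {B : Finset ℂ} {φ : ℂ × ℂ → ℝ} {K : Set ℂ} {η : ℂ → ℝ} {ρ : ℝ}
    (hK : IsCompact K) (h1 : ∀ p, Reg Q B p → ContDiffAt ℝ 2 φ p)
    (h2 : ∀ p : ℂ × ℂ, p.1 ∉ B → p.1 ∉ K → φ p = 0) (hρ : 0 < ρ) (hη : ContDiff ℝ 2 η)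
    (h0 : ∀ b ∈ B, ∀ z ∈ ball b ρ, η z = 0) : Test Q B fun p => φ p * η p.1 := by
  refine ⟨fun p hp => ?_, K \ ⋃ b ∈ B, ball b ρ,
    hK.diff (isOpen_biUnion fun _ _ => isOpen_ball), ?_, fun p hp => ?_⟩
  · by_cases h : p.1 ∈ B
    · refine (contDiffAt_const (c := (0 : ℝ))).congr_of_eventuallyEq ?_
      filter_upwards [continuous_fst.continuousAt (ball_mem_nhds p.1 hρ)] with q hq
      rw [h0 _ h _ hq, mul_zero]
    · exact (h1 p ⟨hp, h⟩).mul (hη.contDiffAt.comp p contDiffAt_fst)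
  · exact Set.disjoint_left.2 fun z hz hb =>
      hz.2 (Set.mem_biUnion hb (mem_ball_self hρ))
  · beta_reduce
    by_cases h : p.1 ∈ B
    · rw [h0 _ h _ (mem_ball_self hρ), mul_zero]
    · by_cases h' : p.1 ∈ K
      · obtain ⟨b, hb, hz⟩ := Set.mem_iUnion₂.1 (not_not.1 fun z => hp ⟨h', z⟩)
        rw [h0 b hb _ hz, mul_zero]
      · rw [h2 p h h', zero_mul]

end ExtA

open ExtA in
theorem sExtOf : SExtOf := by
  intro hC hM hCa _ hCut Q B φ ζ W K M hG hK hφ h0 hg hW hζ hf hoff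
  obtain ⟨-, -, hae, -, -, -, -, -, hfst⟩ := hM Q B hG
  have hD := (hC.2.1 Q).2.2.2.2.2
  have hm : ∀ F, Measurable fun p => D Q (ζ p) F p := fun F => by
    simp only [fun p => (hD F).2 (ζ p) p]
    exact ((Complex.measurable_re.comp hζ).mul ((hD F).1 _)).add
      ((Complex.measurable_im.comp hζ).mul ((hD F).1 _))
  have hf' := (integrable_indicator_iff hW).2 hf
  obtain ⟨f, hf0⟩ : ∃ f, f = W.indicator fun p => ‖ζ p‖ ^ 2 := ⟨_, rfl⟩
  rw [← hf0] at hf'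
  have hfp : ∀ p, 0 ≤ f p := fun p => hf0 ▸ Set.indicator_nonneg (fun _ _ => by positivity) p
  have hfW : ∀ p ∈ W, f p = (ζ p).re ^ 2 + (ζ p).im ^ 2 := fun p hp => by
    rw [hf0, Set.indicator_of_mem hp, Complex.sq_norm, Complex.normSq_apply]
    ring
  have hgp : ∀ F p, 0 ≤ gr Q F F p := fun F p => add_nonneg (mul_self_nonneg _) (mul_self_nonneg _)
  have hI : Integrable (fun p => D Q (ζ p) φ p) (mu Q) := by
    refine (hf'.add hg).mono' (hm φ).aestronglyMeasurable (hae.mono fun p hp => ?_)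
    rw [Real.norm_eq_abs, Pi.add_apply]
    by_cases h : p ∈ W
    · rw [(hD φ).2, hfW p h]
      refine (l1 one_pos _ _ _ _).trans (le_of_eq ?_)
      rw [gr]
      ring
    · rw [(hoff p hp h).2, abs_zero]
      exact add_nonneg (hfp p) (hgp φ p)
  refine ⟨hI, fun δ hδ => ?_⟩
  have a1 : 0 ≤ ∫ p, f p ∂mu Q := integral_nonneg hfp
  have a2 : 0 ≤ ∫ p, gr Q φ φ p ∂mu Q := integral_nonneg (hgp φ)
  obtain ⟨t, ht, ht'⟩ : ∃ t : ℝ, 0 < t ∧
      t * (∫ p, f p ∂mu Q + ∫ p, gr Q φ φ p ∂mu Q + 1) = δ / 2 :=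
    ⟨δ / 2 / (∫ p, f p ∂mu Q + ∫ p, gr Q φ φ p ∂mu Q + 1), by positivity,
      div_mul_cancel₀ _ (by positivity)⟩
  have hti : 0 < t⁻¹ := inv_pos.2 ht
  have hlim : Tendsto (fun r : ℝ => (1 + t⁻¹) * (2 * ∫ p, (U B r).indicator (gr Q φ φ) p ∂mu Q +
      2 * M ^ 2 * (Q.natDegree * r))) (𝓝[>] 0) (𝓝 ((1 + t⁻¹) * (2 * 0 + 2 * M ^ 2 *
        (Q.natDegree * 0)))) :=
    (((small B (hae.mono fun p hp => hp.2) hg).const_mul _).add
      (((tendsto_id.mono_left nhdsWithin_le_nhds).const_mul _).const_mul _)).const_mul _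
  simp only [mul_zero, add_zero] at hlim
  obtain ⟨r, ⟨hr1, hr2⟩, hr⟩ := (((hlim.eventually (eventually_le_nhds (half_pos hδ))).and
    (nhdsWithin_le_nhds (eventually_le_nhds hδ))).and self_mem_nhdsWithin).exists
  obtain ⟨η, ρ, hρ, hη, hη1, hη0, hη2, hh, hh'⟩ := hCut B r hr
  obtain ⟨G, hG0⟩ : ∃ G : ℂ × ℂ → ℝ, G = fun p => 2 * (U B r).indicator (gr Q φ φ) p +
      2 * M ^ 2 * (fderiv ℝ η p.1 1 ^ 2 + fderiv ℝ η p.1 Complex.I ^ 2) := ⟨_, rfl⟩
  have b1 := (hg.indicator (U_meas B r)).const_mul 2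
  have b2 := (hfst _ hh).1.const_mul (2 * M ^ 2)
  have hGi : Integrable G (mu Q) := hG0 ▸ b1.add b2
  have hGs : (1 + t⁻¹) * ∫ p, G p ∂mu Q ≤ δ / 2 := by
    refine le_trans ?_ hr1
    rw [hG0, integral_add b1 b2, integral_const_mul, integral_const_mul, (hfst _ hh).2]
    gcongr
  have hGp : ∀ p, 0 ≤ G p := fun p => by
    rw [hG0]
    have := Set.indicator_nonneg (s := U B r) (fun p _ => hgp φ p) p
    positivity
  have a3 : 0 ≤ ∫ p, G p ∂mu Q := integral_nonneg hGp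
  have hd : ∀ p, Reg Q B p → ∀ w, D Q w (fun q => φ q * η q.1) p =
      φ p * fderiv ℝ η p.1 w + η p.1 * D Q w φ p := fun p hp w => by
    have c1 := hη.differentiable (by norm_num)
    rw [(hCa.1 Q p w).1 φ (fun q => η q.1) ((hφ p hp).1.differentiableAt (by norm_num))
      ((c1 p.1).comp p differentiableAt_fst), (hCa.1 Q p w).2.2.2.2.1 η (c1 _)]
  have hN : ∀ p, Reg Q B p → (D Q 1 (fun q => φ q * η q.1) p - D Q 1 φ p) ^ 2 +
      (D Q Complex.I (fun q => φ q * η q.1) p - D Q Complex.I φ p) ^ 2 ≤ G p := fun p hp => by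
    rw [hd p hp, hd p hp, hG0]
    refine l3 _ _ _ _ (hφ p hp).2 ?_
    by_cases h : p ∈ U B r
    · rw [Set.indicator_of_mem h]
      refine mul_le_of_le_one_left (hgp φ p) ?_
      nlinarith [(hη1 p.1).1, (hη1 p.1).2]
    · rw [Set.indicator_of_notMem h, hη2 p.1 (not_not.1 h)]
      simp
  refine ⟨η, hη.continuous, hη1, fun z hz => hη2 z fun b hb => hr2.trans (hz b hb),
    test hK (fun p hp => (hφ p hp).1) h0 hρ hη hη0, ?_, ?_⟩
  · have c1 := (hf'.const_mul t).add (hGi.const_mul t⁻¹)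
    have c2 : ∀ᵐ p ∂mu Q, ‖D Q (ζ p) (fun q => φ q * η q.1) p - D Q (ζ p) φ p‖ ≤
        t * f p + t⁻¹ * G p := hae.mono fun p hp => by
      rw [Real.norm_eq_abs]
      by_cases h : p ∈ W
      · rw [(hD φ).2, (hD _).2 (ζ p), hfW p h, add_sub_add_comm, ← mul_sub, ← mul_sub]
        refine (l1 ht _ _ _ _).trans ?_
        gcongr
        exact hN p hp
      · rw [hd p hp, (hoff p hp h).2, (hoff p hp h).1]
        have := hfp p
        have := hGp p
        simp only [zero_mul, mul_zero, add_zero, sub_zero, abs_zero]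
        positivity
    have c3 := c1.mono' ((hm _).sub (hm φ)).aestronglyMeasurable c2
    have c4 : Integrable (fun p => D Q (ζ p) (fun q => φ q * η q.1) p) (mu Q) :=
      (c3.add hI).congr (.of_forall fun p => sub_add_cancel _ _)
    rw [← integral_sub c4 hI, ← Real.norm_eq_abs]
    refine (norm_integral_le_of_norm_le c1 c2).trans ?_
    simp only [Pi.add_apply]
    rw [integral_add (hf'.const_mul t) (hGi.const_mul t⁻¹), integral_const_mul, integral_const_mul]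
    nlinarith [mul_nonneg ht.le a2]
  · have c1 := hg.const_mul (1 + t)
    have c2 := hGi.const_mul (1 + t⁻¹)
    refine (integral_mono_of_nonneg (.of_forall (hgp _)) (c1.add c2)
      (hae.mono fun p hp => ?_)).trans ?_
    · have c3 := l2 ht (D Q 1 φ p) (D Q Complex.I φ p)
        (D Q 1 (fun q => φ q * η q.1) p - D Q 1 φ p)
        (D Q Complex.I (fun q => φ q * η q.1) p - D Q Complex.I φ p)
      simp only [add_sub_cancel] at c3
      refine c3.trans (add_le_add le_rfl ?_)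
      exact mul_le_mul_of_nonneg_left (hN p hp) (by positivity)
    · simp only [Pi.add_apply]
      rw [integral_add c1 c2, integral_const_mul, integral_const_mul]
      nlinarith [mul_nonneg ht.le a1]

end Pool.Agent.MP_670f9a_nt.GL
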