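import Pool.Agent.MP_670f9a_nt.H83.SpecG

/-! The conjugates of a geometric component. -/

set_option autoImplicit false

namespace Pool.Agent.MP_670f9a_nt.GL

open Polynomial Finset
open Pool.Agent.MP_670f9a_nt.NP (toC)

namespace FamA

theorem nd {F G : ℂ[X][X]} (h : Associated F G) : F.natDegree = G.natDegree :=
  natDegree_eq_of_degree_eq (degree_eq_degree_of_associated h)

theorem nd_sw {F G : ℂ[X][X]} (h : Associated F G) : (sw F).natDegree = (sw G).natDegree :=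
  nd (h.map (Bivariate.swap (R := ℂ)))

theorem ne_zero {P : ℤ[X][X]} (h : Irr P) : P ≠ 0 := by
  rintro rfl
  exact h.ne_zero (Polynomial.map_zero _)

theorem toC_ne {P : ℤ[X][X]} (h : P ≠ 0) : toC P ≠ 0 :=
  (Polynomial.map_ne_zero_iff (Polynomial.map_injective _ (Int.castRingHom ℂ).injective_int)).2 h

end FamA

open FamA in
theorem sFamOf : SFamOf := by
  intro h1 h2 htr hcp hsw P F hP hF hd
  have P0 := ne_zero hP
  obtain ⟨K, Q, fd, gal, ass, dv⟩ := h1 P F P0 hF hd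
  have nu : ¬IsUnit Q := fun h =>
    (ass.symm.irreducible hF).not_isUnit (h.map (mapRingHom (mapRingHom (algebraMap K ℂ))))
  obtain ⟨hdv, t, q, t1, q0, pr⟩ := h2 P K Q hP nu dv
  have q0' : (q : ℂ) ≠ 0 := Rat.cast_ne_zero.2 q0
  have C0 := toC_ne P0
  have S0 : sw (toC P) ≠ 0 := fun h => C0 ((Bivariate.swap (R := ℂ)).map_eq_zero_iff.1 h)
  obtain ⟨c1, c2, -⟩ := hcp.2.2 _ _ _ t q C0 q0' pr
  obtain ⟨c4, -⟩ := hcp.2.2 _ _ _ t q S0 q0' c2
  have dd : ∀ σ : K →+* ℂ, (mp σ Q).natDegree = Q.natDegree := fun σ => (htr.1 K _ Q).1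
  have de : ∀ σ : K →+* ℂ, (sw (mp σ Q)).natDegree = (sw Q).natDegree := fun σ => by
    rw [(htr.1 K _ Q).2, (htr.1 K _ _).1]
  have d1 : F.natDegree = Q.natDegree := (nd ass).symm.trans (dd _)
  have e1 : (sw F).natDegree = (sw Q).natDegree := (nd_sw ass).symm.trans (de _)
  simp only [dd, de, sum_const, card_univ, smul_eq_mul] at c1 c4
  rw [(hsw P).2.1] at c1
  rw [← (hsw P).1, (hsw (sw P)).2.1] at c4
  have n0 : 0 < Fintype.card (K ≃ₐ[ℚ] K) := Fintype.card_pos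
  rw [d1, e1]
  refine ⟨⟨K ≃ₐ[ℚ] K, inferInstance, fun g => mp (emb K g) Q, t, q, t1, q0',
    fun g => ⟨hdv g, dd _, de _⟩, pr⟩, ?_, fun h => ?_, fun h => ?_⟩
  · refine Nat.eq_of_mul_eq_mul_left (Nat.mul_pos n0 t1) ?_
    calc Fintype.card (K ≃ₐ[ℚ] K) * t * (Q.natDegree * (sw P).natDegree)
        = (Fintype.card (K ≃ₐ[ℚ] K) * Q.natDegree) * (t * (sw P).natDegree) := by ring
      _ = (t * P.natDegree) * (Fintype.card (K ≃ₐ[ℚ] K) * (sw Q).natDegree) := by rw [c1, c4]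
      _ = _ := by ring
  · exact Nat.pos_of_ne_zero fun h0 => by
      rw [h0] at c1; exact (Nat.mul_pos t1 h).ne c1
  · exact Nat.pos_of_ne_zero fun h0 => by
      rw [h0] at c4; exact (Nat.mul_pos t1 h).ne c4

end Pool.Agent.MP_670f9a_nt.GL
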