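import Pool.Agent.MP_670f9a_nt.H83.Spec

/-! Moving the points of a fibre one at a time. -/

namespace Pool.Agent.MP_670f9a_nt.GL

open Polynomial Real Finset MeasureTheory Metric Filter
open scoped Topology

namespace FibMoveA

theorem ind {ι α : Type} [Fintype ι] [DecidableEq ι] (q₀ : ι → α) (P : α → Prop)
    (F : (ι → α) → ℝ) (N : (ι → α) → Prop) (G : ι → ℝ) (Y : α → ℝ) (h0 : ∀ σ, P (q₀ σ))
    (hN : N q₀) (step : ∀ q σ, q σ = q₀ σ → N q → ∃ a, P a ∧ N (Function.update q σ a) ∧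
      F q + G σ ≤ F (Function.update q σ a) + Y a) :
    ∃ q, (∀ σ, P (q σ)) ∧ N q ∧ F q₀ + ∑ σ, G σ ≤ F q + ∑ σ, Y (q σ) := by
  have key : ∀ s : Finset ι, ∃ q, (∀ σ, P (q σ)) ∧ N q ∧ (∀ σ ∉ s, q σ = q₀ σ) ∧
      F q₀ + ∑ σ ∈ s, G σ ≤ F q + ∑ σ ∈ s, Y (q σ) := by
    intro s
    induction s using Finset.induction_on with
    | empty => exact ⟨q₀, h0, hN, fun _ _ => rfl, by simp⟩
    | insert σ s hσ ih =>
      obtain ⟨q, h1, h2, h3, h4⟩ := ih
      obtain ⟨a, a1, a2, a3⟩ := step q σ (h3 σ hσ) h2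
      refine ⟨Function.update q σ a, fun τ => ?_, a2, fun τ hτ => ?_, ?_⟩
      · by_cases e : τ = σ
        · rw [e, Function.update_self]
          exact a1
        · rw [Function.update_of_ne e]
          exact h1 τ
      · rw [mem_insert, not_or] at hτ
        rw [Function.update_of_ne hτ.1, h3 τ hτ.2]
      · have e : ∑ τ ∈ s, Y (Function.update q σ a τ) = ∑ τ ∈ s, Y (q τ) :=
          sum_congr rfl fun τ hτ => by rw [Function.update_of_ne (ne_of_mem_of_not_mem hτ hσ)]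
        rw [sum_insert hσ, sum_insert hσ, Function.update_self, e]
        linarith
  obtain ⟨q, h1, h2, -, h4⟩ := key univ
  exact ⟨q, h1, h2, h4⟩

theorem lap_zero {f : ℂ → ℝ} {z : ℂ} (h : f =ᶠ[𝓝 z] fun _ => 0) : lap f z = 0 := by
  have e : ∀ w : ℂ, (fun u => fderiv ℝ f u w) =ᶠ[𝓝 z] fun _ => 0 := fun w =>
    (h.fderiv (𝕜 := ℝ)).mono fun u hu => by simp [hu]
  simp [lap, (e 1).fderiv_eq, (e Complex.I).fderiv_eq]

end FibMoveA

open FibMoveA Classical in
theorem sFibMoveOf : SFibMoveOf := by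
  intro hCh _ hMu hCa hDi hMv hAd hAm Q B c r y Φ Y k p hG hr hS hΦ hΦ0 hΦb hY hp hD
  obtain ⟨ch1, -, ch3⟩ := hCh.2.2 Q B hG
  have hc : c ∈ ball c (2 * r) := mem_ball_self (by linarith)
  have hsub : closedBall c (r / 4) ⊆ ball c (2 * r) := closedBall_subset_ball (by linarith)
  have hsub' : ball c r ⊆ ball c (2 * r) := ball_subset_ball (by linarith)
  have hon : ∀ σ, ∀ z ∈ ball c (2 * r), On Q (z, y σ z) := fun σ z hz =>
    (ch1 z (hS.2 z hz).1 _).1 (by
      rw [(hS.2 z hz).2]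
      exact Multiset.mem_map.2 ⟨σ, mem_univ σ, rfl⟩)
  have hinj : ∀ z ∈ ball c (2 * r), Function.Injective fun σ => y σ z := fun z hz a b e => by
    have h := (hG.2 z (hS.2 z hz).1).2
    rw [(hS.2 z hz).2] at h
    exact Multiset.inj_on_of_nodup_map h a (mem_univ a) b (mem_univ b) e
  have hfs : ∀ (F : ℂ × ℂ → ℝ), ∀ z ∈ ball c (2 * r), fs Q F z = ∑ σ, F (z, y σ z) :=
    fun F z hz => by
      rw [fs, (hS.2 z hz).2, Multiset.map_map]
      rfl
  have hout : ∀ z ∉ ball c (2 * r), (closedBall c (r / 4))ᶜ ∈ 𝓝 z := fun z hz =>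
    isClosed_closedBall.isOpen_compl.mem_nhds fun h => hz (hsub h)
  have hin : ∀ σ, ∀ z ∈ ball c (2 * r), ContDiffAt ℝ 2 (fun u => Φ (u, y σ u)) z ∧
      lap (fun u => Φ (u, y σ u)) z = Lap Q Φ (z, y σ z) := fun σ z hz =>
    ((ch3 (y σ) z (hS.2 z hz).1 (hS.1 σ z hz)
      (mem_of_superset (isOpen_ball.mem_nhds hz) (hon σ))).2.2 Φ).2.2 (hΦ _ (hon σ z hz))
  have hz0 : ∀ σ, ∀ z ∉ ball c (2 * r), (fun u => Φ (u, y σ u)) =ᶠ[𝓝 z] fun _ => 0 :=
    fun σ z hz => mem_of_superset (hout z hz) fun u hu => hΦ0 _ hu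
  have hts : ∀ σ, tsupport (fun u => Φ (u, y σ u)) ⊆ closedBall c (r / 4) := fun σ =>
    closure_minimal (fun u hu => by_contra fun h => hu (hΦ0 _ h)) isClosed_closedBall
  have mv := fun σ (f : ℂ → ℂ) (Z : Finset ℂ) h1 h2 h3 =>
    hMv c r f Z (fun u => Φ (u, y σ u)) (fun u => Y (u, y σ u)) hr h1 h2 h3
      (contDiff_iff_contDiffAt.2 fun z => by
        by_cases hz : z ∈ ball c (2 * r)
        · exact (hin σ z hz).1
        · exact contDiffAt_const.congr_of_eventuallyEq (hz0 σ z hz))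
      ((hts σ).trans (closedBall_subset_ball (by linarith)))
      (fun z => by
        by_cases hz : z ∈ ball c (2 * r)
        · exact (hΦb _ ⟨hon σ z hz, (hS.2 z hz).1⟩).1
        · rw [hΦ0 _ fun h => hz (hsub h)]
          norm_num)
      (fun z => by
        by_cases hz : z ∈ ball c (2 * r)
        · rw [(hin σ z hz).2]
          exact (hΦb _ ⟨hon σ z hz, (hS.2 z hz).1⟩).2
        · rw [lap_zero (hz0 σ z hz), abs_zero]
          positivity)
      (hY.comp (continuousOn_id.prodMk (hS.1 σ).continuousOn) (hon σ))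
  have hi := fun σ => mv σ (fun _ => 1) ∅ analyticOnNhd_const one_ne_zero (by simp)
  have i1 : ∫ z in ball c r, fs Q Y z = ∑ σ, ∫ z in ball c r, Y (z, y σ z) := by
    rw [← integral_finsetSum _ fun σ _ => (hi σ).1]
    exact setIntegral_congr_fun measurableSet_ball fun z hz => hfs Y z (hsub' hz)
  have i2 : ∫ q, Y q * Lap Q Φ q ∂mu Q =
      ∑ σ, ∫ z, Y (z, y σ z) * lap (fun u => Φ (u, y σ u)) z := by
    have hT : Test Q B Φ := ⟨hΦ, _, isCompact_closedBall c (r / 4),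
      Set.disjoint_left.2 fun z hz => (hS.2 z (hsub hz)).1, hΦ0⟩
    rw [((hMu Q B hG).2.2.2.2.1 _ (((hAm Q B hG).2.2.2 Φ hT).2.2.2.2.2.2.2 Y hY)).2,
      ← integral_finsetSum _ fun σ _ => (hi σ).2.1]
    congr 1
    funext z
    by_cases hz : z ∈ ball c (2 * r)
    · rw [hfs _ z hz]
      exact sum_congr rfl fun σ _ => by rw [(hin σ z hz).2]
    · rw [sum_eq_zero fun σ _ => by rw [lap_zero (hz0 σ z hz), mul_zero]]
      refine Multiset.sum_eq_zero fun t ht => ?_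
      obtain ⟨v, -, rfl⟩ := Multiset.mem_map.1 ht
      have : ∀ᶠ q in 𝓝 (z, v), Φ q = 0 :=
        mem_of_superset (continuous_fst.continuousAt.preimage_mem_nhds (hout z hz)) hΦ0
      exact mul_eq_zero_of_right _ ((hCa.1 Q (z, v) 1).2.2.2.1 Φ this).2
  obtain ⟨ad1, ad2, -, -, ad5⟩ := hAd.1 k Q.natDegree p
  obtain ⟨v1, v2⟩ := hAd.2.2.1 _ _ (hinj c hc)
  have hx : ∀ i, ‖(p i).1 - c‖ ≠ 0 := fun i => norm_ne_zero_iff.2 (sub_ne_zero.2 (hp i).2)
  have n0 := ad1 c fun σ => y σ c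
  have n1 : ∏ i, ‖(p i).1 - c‖ ≠ 0 := prod_ne_zero_iff.2 fun i _ => hx i
  have n2 := mul_ne_zero (norm_ne_zero_iff.2 v1) n1
  have l0 : log ‖Dt (k + 1) Q.natDegree (addF (fun σ => (c, y σ c)) p)‖ =
      lv Q c + ∑ i, log ‖(p i).1 - c‖ + log ‖Dt k Q.natDegree p‖ := by
    rw [n0, log_mul n2 (norm_ne_zero_iff.2 hD), log_mul (norm_ne_zero_iff.2 v1) n1,
      log_prod fun i _ => hx i, v2, lv, (hS.2 c hc).2]
    simp only [Multiset.map_map]
    rfl
  obtain ⟨q, q1, q2, q3⟩ := ind (fun σ => (c, y σ c)) (fun a => On Q a ∧ a.1 ∈ ball c r)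
    (fun q => log ‖Dt (k + 1) Q.natDegree (addF q p)‖)
    (fun q => Dt (k + 1) Q.natDegree (addF q p) ≠ 0)
    (fun σ => ∑ i with (p i).1 ∈ ball c (2 * r) ∧ (p i).2 = y σ (p i).1,
        (hU r ((p i).1 - c) - log ‖(p i).1 - c‖ - Φ (p i)) +
      ((π * r ^ 2)⁻¹ * (∫ z in ball c r, Y (z, y σ z)) -
        (2 * π)⁻¹ * ∫ z, Y (z, y σ z) * lap (fun u => Φ (u, y σ u)) z)) Y
    (fun σ => ⟨hon σ c hc, mem_ball_self hr⟩)
    (norm_ne_zero_iff.1 (n0 ▸ mul_ne_zero n2 (norm_ne_zero_iff.2 hD))) (fun q σ h1 h2 => by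
      obtain ⟨z, z1, z2, z3⟩ := (mv σ (fun z => Dt (k + 1) Q.natDegree
          (Function.update (addF q p) (0, σ) (z, y σ z)))
        (image (fun i => (p i).1) {i | (p i).1 ∈ ball c (2 * r) ∧ (p i).2 = y σ (p i).1})
        ((hAd.1 (k + 1) _ (addF q p)).2.2.1 _ _ _ (hS.1 σ))
        (by rwa [← ad5, ← h1, Function.update_eq_self]) (fun a ha => by
          obtain ⟨i, hi, rfl⟩ := mem_image.1 ha
          rw [mem_filter] at hi
          refine ⟨hi.2.1, by_contra fun h => ?_⟩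
          have e : ((0 : Fin (k + 1 + 1)), σ) = (i.1.succ, i.2) :=
            (hAd.1 (k + 1) _ _).2.1 h (by
              rw [Function.update_self, Function.update_of_ne fun e =>
                Fin.succ_ne_zero _ (congrArg Prod.fst e), ← hi.2.2]
              rfl)
          exact Fin.succ_ne_zero _ (congrArg Prod.fst e).symm)).2.2
      refine ⟨(z, y σ z), ⟨hon σ z (hsub' z1), z1⟩, by rwa [ad5], ?_⟩
      rw [sum_image fun i hi j hj e => ad2 hD (Prod.ext e (by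
        rw [(mem_filter.1 hi).2.2, (mem_filter.1 hj).2.2]
        exact congrArg (y σ) e)), ← ad5, ← ad5, ← h1, Function.update_eq_self, add_assoc,
        sum_congr rfl fun i hi => by rw [← (mem_filter.1 hi).2.2]] at z3
      exact z3)
  refine ⟨q, q1, q2, le_trans (le_of_eq ?_) q3⟩
  have s1 : ∑ σ, ∑ i with (p i).1 ∈ ball c (2 * r) ∧ (p i).2 = y σ (p i).1,
      (hU r ((p i).1 - c) - log ‖(p i).1 - c‖ - Φ (p i)) =
      ∑ i, (hU r ((p i).1 - c) - log ‖(p i).1 - c‖ - Φ (p i)) := by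
    simp only [sum_filter]
    rw [sum_comm]
    refine sum_congr rfl fun i _ => ?_
    by_cases hz : (p i).1 ∈ ball c (2 * r)
    · have h := (ch1 _ (hS.2 _ hz).1 (p i).2).2 (hp i).1
      rw [(hS.2 _ hz).2] at h
      obtain ⟨σ, -, e⟩ := Multiset.mem_map.1 h
      rw [sum_eq_single σ (fun τ _ hτ => if_neg fun h => hτ (hinj _ hz (h.2.symm.trans e.symm)))
        (fun h => absurd (mem_univ σ) h), if_pos ⟨hz, e.symm⟩]
    · rw [sum_eq_zero fun σ _ => if_neg fun h => hz h.1, hΦ0 _ fun h => hz (hsub h),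
        ((hDi r hr).2.2.2.2.1 _).1 (by
          rw [mem_ball_iff_norm, not_lt] at hz
          linarith)]
      simp
  rw [l0, sum_add_distrib, s1, i1, i2]
  simp only [sum_sub_distrib, ← mul_sum]
  ring

end Pool.Agent.MP_670f9a_nt.GL
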