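import Pool.Agent.MP_670f9a_nt.H83.SpecG

/-! The last step with a small energy of the Gauss map. -/

namespace Pool.Agent.MP_670f9a_nt.GL

open Polynomial Real MeasureTheory
open scoped ComplexConjugate

namespace FinalFA

theorem num {D m t g ε C E s I₀ I₁ I₂ I₃ I₄ : ℝ} (hD : 1 ≤ D) (hm : 0 ≤ m) (ht : 0 < t)
    (hg : 0 ≤ g) (hC : 0 ≤ C) (hε : 0 < ε) (e1 : ε * (1000 * (C + 1)) = 1) (t1 : t * g ≤ ε ^ 2)
    (m1 : 320 * m ≤ ε ^ 2 * t) (m2 : 320 * (m * g) ≤ ε ^ 2) (hE : 0 ≤ E) (hs : 100 * (E + 1) ≤ s)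
    (h0 : 4 * π * D * (1 - 4 * m / t) ≤ I₀)
    (h1 : I₁ ≤ C * (D * √(t * g) + √(40 * π * D * m * D * (g + 1 / t))))
    (h2 : I₂ ≤ C * (D * √(t * g) + √(40 * π * D * m * D * (g + 1 / t))))
    (h3 : I₃ ≤ C * (D * √(t * g) + √(40 * π * D * m * D * (g + 1 / t))))
    (h4 : I₄ ≤ E * D / s) (h : 1 / 200 * I₀ ≤ I₁ + I₂ + I₃ + I₄) : False := by
  have p1 := pi_gt_three
  have p2 := pi_le_four
  have D0 : 0 ≤ D := by linarith
  have a0 : 0 ≤ m / t := div_nonneg hm ht.le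
  have a0' : 0 ≤ m * g := mul_nonneg hm hg
  have a1 : 320 * (m / t) ≤ ε ^ 2 := by
    rw [← mul_div_assoc, div_le_iff₀ ht]
    exact m1
  have a2 : C * ε ≤ 1 / 1000 := by linarith
  have a3 : ε ≤ 1 / 1000 := by linarith [mul_nonneg hC hε.le]
  have a4 : ε ^ 2 ≤ 1 := pow_le_one₀ hε.le (by linarith)
  have a5 : √(t * g) ≤ ε := sqrt_le_iff.2 ⟨hε.le, t1⟩
  have a6 : √(40 * π * D * m * D * (g + 1 / t)) ≤ D * ε := by
    refine sqrt_le_iff.2 ⟨by positivity, ?_⟩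
    rw [show 40 * π * D * m * D * (g + 1 / t) = D ^ 2 * (40 * π * (m * g + m / t)) by ring,
      mul_pow]
    refine mul_le_mul_of_nonneg_left ?_ (by positivity)
    linarith [mul_le_mul_of_nonneg_right p2 (add_nonneg a0' a0)]
  have a7 : C * (D * √(t * g) + √(40 * π * D * m * D * (g + 1 / t))) ≤ D / 500 := by
    have b1 := mul_le_mul_of_nonneg_left
      (add_le_add (mul_le_mul_of_nonneg_left a5 D0) a6) hC
    linarith [mul_le_mul_of_nonneg_left a2 D0]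
  have a8 : E * D / s ≤ D / 100 := by
    rw [div_le_iff₀ (by linarith)]
    linarith [mul_le_mul_of_nonneg_left hs D0]
  have a9 : 4 * π * D * (1 / 2) ≤ 4 * π * D * (1 - 4 * m / t) :=
    mul_le_mul_of_nonneg_left (by rw [mul_div_assoc]; linarith) (by positivity)
  linarith [mul_le_mul_of_nonneg_right p1.le D0]

end FinalFA

theorem sFinalFOf : SFinalFOf := by
  rintro hMu hG hR ⟨Cv, v0, hV⟩ ⟨Ce, e0, hE⟩ hM ⟨C, c0, hO⟩
  obtain ⟨ε, hε, e1⟩ : ∃ ε : ℝ, 0 < ε ∧ ε * (1000 * (C + 1)) = 1 :=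
    ⟨(1000 * (C + 1))⁻¹, by positivity, inv_mul_cancel₀ (by positivity)⟩
  obtain ⟨J, hJ⟩ := exists_nat_ge ((100 * (Cv * Ce + 1)) ^ 2)
  have q0 : 0 ≤ Cv * Ce := mul_nonneg v0 e0
  have J1 : 1 ≤ J := by
    have : (1 : ℝ) ≤ J := le_trans (one_le_pow₀ (by linarith)) hJ
    exact_mod_cast this
  have a3 : ε ≤ 1 := by linarith [mul_nonneg c0 hε.le]
  refine ⟨ε ^ 2 * (ε ^ 2 / 10 ^ 5 / 2 ^ J) / 320, by positivity,
    fun Q B m kap l₁ l₂ s hT m0 hA k1 k2 l1 l2 l3 l4 f1 f2 f3 hs hB => ?_⟩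
  by_contra hc
  have hc' := (not_le.1 hc).le
  obtain ⟨t, t1, t2, i4, b4⟩ := hE Q B (ε ^ 2 * s / 10 ^ 5) J hT (by positivity) J1
  have ht : 0 < t := lt_of_lt_of_le (by positivity) t1
  have g0 : 0 ≤ 10 ^ 5 / s := by positivity
  obtain ⟨hD, hP⟩ := hR.2 Q B hT
  have M0 : 0 ≤ 40 * π * DD Q * m := by
    have : 0 ≤ DD Q := by linarith
    positivity
  obtain ⟨i0, b0⟩ := hM Q B m t hT hA ht
  obtain ⟨i1, b1⟩ := hO Q B _ 1 0 t _ hT M0 (by norm_num) (by norm_num) f1 ht g0 hB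
  obtain ⟨i2, b2⟩ := hO Q B _ l₁ kap t _ hT M0 (abs_le.2 ⟨by linarith, by linarith⟩)
    (abs_le.2 ⟨by linarith, by linarith⟩) f2 ht g0 hB
  obtain ⟨i3, b3⟩ := hO Q B _ l₂ (-kap) t _ hT M0 (abs_le.2 ⟨by linarith, by linarith⟩)
    (abs_le.2 ⟨by linarith, by linarith⟩) f3 ht g0 hB
  refine FinalFA.num (s := √J) hD m0 ht g0 c0 hε e1 ?_ ?_ ?_ q0 (le_sqrt_of_sq_le hJ) b0 b1 b2 b3
    (I₄ := Cv * ∫ p, om Q t p * (‖zz Q p‖ * √(SS Q p)) ∂mu Q) ?_ ?_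
  · refine (mul_le_mul_of_nonneg_right t2 g0).trans (le_of_eq ?_)
    field_simp
  · have e : ε ^ 2 * (ε ^ 2 * s / 10 ^ 5 / 2 ^ J)
        = 320 * (ε ^ 2 * (ε ^ 2 / 10 ^ 5 / 2 ^ J) / 320 * s) := by ring
    linarith [mul_le_mul_of_nonneg_left t1 (sq_nonneg ε)]
  · have e : ε ^ 2 * (ε ^ 2 / 10 ^ 5 / 2 ^ J) / 320 * s * (10 ^ 5 / s)
        = ε ^ 2 * (ε ^ 2 / 2 ^ J) / 320 := by field_simp
    have e2 : ε ^ 2 / 2 ^ J ≤ 1 :=
      div_le_one_of_le₀ ((pow_le_one₀ hε.le a3).trans (one_le_pow₀ one_le_two)) (by positivity)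
    linarith [mul_le_mul_of_nonneg_right hc' g0, mul_le_mul_of_nonneg_left e2 (sq_nonneg ε)]
  · refine (mul_le_mul_of_nonneg_left b4 v0).trans (le_of_eq ?_)
    ring
  · rw [← integral_const_mul, ← integral_const_mul, ← integral_add' i1 i2,
      ← integral_add' (i1.add i2) i3, ← integral_add' ((i1.add i2).add i3) (i4.const_mul Cv)]
    refine integral_mono_ae (i0.const_mul _) (((i1.add i2).add i3).add (i4.const_mul Cv)) ?_
    filter_upwards [(hMu Q B hT.1).2.2.1] with p hp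
    obtain ⟨Γ, hΓ⟩ := hG.1.2.2.2.2.2
    have o0 : 0 ≤ om Q t p := mul_nonneg (neg_nonneg.2 (hΓ _).2) (by positivity)
    have h := mul_le_mul_of_nonneg_left
      (hV (la Q p) (lb Q p) kap l₁ l₂ (da Q p) (gm Q p) k1 k2 l1 l2 l3 l4) o0
    rw [← (hP p hp).2.1] at h
    simp only [Pi.add_apply, uu, psi, Th, zz, SS]
    linarith

end Pool.Agent.MP_670f9a_nt.GL
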