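import Pool.Agent.MP_670f9a_nt.H83.Spec

/-! Row First: the index inequality in first order form. -/

namespace Pool.Agent.MP_670f9a_nt.GL

open Polynomial Real MeasureTheory
open scoped ComplexConjugate

namespace FirstA

theorem mx_mul (Q : ℂ[X][X]) (a : ℝ) (φ : ℂ × ℂ → ℝ) : Mx Q (fun p => a * φ p) = a * Mx Q φ := by
  have : fs Q (fun p => a * φ p) = fun x => a • fs Q φ x :=
    funext fun x => Multiset.sum_map_mul_left
  rw [Mx, this, circleAverage_fun_smul, smul_eq_mul, Mx]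

end FirstA

open FirstA

theorem sFirstOf : SFirstOf := by
  intro hC hK hA hG hV Q B m hT _ hI φ hφ
  obtain ⟨c1, c2, c3, c4⟩ := hV Q B φ hT hφ
  obtain ⟨g1, -, -, B', g2⟩ := hT
  have hd : (0 : ℝ) < Q.natDegree := Nat.cast_pos.2 g1.1
  have he : (0 : ℝ) < (sw Q).natDegree := Nat.cast_pos.2 g2.1
  have hl := fun p w => (((hC.2.1 Q).2.2.2.2.2 φ).2 w p)
  have e1 : ∀ p, D Q (conj (psi Q 1 0 p)) φ p =
      (sw Q).natDegree * D Q (conj (sg (log ‖p.1‖) / p.1)) φ p -
        Q.natDegree * D Q (conj (sg (log ‖p.2‖) * (sl Q p / p.2))) φ p := fun p => by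
    have : psi Q 1 0 p = (sw Q).natDegree * (sg (log ‖p.1‖) / p.1) -
        Q.natDegree * (sg (log ‖p.2‖) * (sl Q p / p.2)) := by
      rw [psi, psi0, zero_mul, zero_add, la, lb, (hG.2.2 _).2.2 _ hd, (hG.2.2 _).2.2 _ he, da, db]
      push_cast
      ring
    rw [this, hl p (conj _), hl p (conj (_ / _)), hl p (conj (_ * _))]
    generalize (sg (log ‖p.1‖) / p.1 : ℂ) = u, (sg (log ‖p.2‖) * (sl Q p / p.2) : ℂ) = v
    simp
    ring
  have e2 : ∀ a : ℝ, ∫ p, gr Q (fun q => a * φ q) (fun q => a * φ q) p ∂mu Q =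
      a ^ 2 * ∫ p, gr Q φ φ p ∂mu Q := fun a => by
    rw [← integral_const_mul]
    refine congrArg _ (funext fun p => ?_)
    rw [gr, gr, (hK.1 Q p 1).2.2.1, (hK.1 Q p Complex.I).2.2.1]
    ring
  have h1 := discrim_le_zero (a := (sw Q).natDegree * ((∫ p, gr Q φ φ p ∂mu Q) / (4 * π)))
    (b := -((sw Q).natDegree * Mx Q φ - Q.natDegree * My Q φ)) (c := Q.natDegree * m) fun a => by
      have := hI _ (((hA Q B g1).2.2.2 φ hφ).2.2.2.2.2.1 a)
      rw [e2, mx_mul, My, mx_mul, ← My, mul_div_assoc] at this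
      linarith
  simp only [e1]
  rw [integral_sub (c1.const_mul _) (c3.const_mul _), integral_const_mul, integral_const_mul, c2, c4,
    DD]
  rw [discrim] at h1
  generalize ∫ p, gr Q φ φ p ∂mu Q = E at h1
  have h2 : E = E / (4 * π) * (4 * π) := (div_mul_cancel₀ _ (by positivity)).symm
  rw [h2]
  linarith [mul_le_mul_of_nonneg_left h1 (show 0 ≤ 16 * π ^ 2 by positivity)]

end Pool.Agent.MP_670f9a_nt.GL
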