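import Pool.Agent.MP_670f9a_nt.H83.Spec

/-! Sums over the fibres of a plane curve. -/

namespace Pool.Agent.MP_670f9a_nt.GL

open Polynomial Finset Metric Filter
open scoped Topology

namespace FsA

theorem lap_sum {n : ℕ} (g : ℂ → ℝ) (f : Fin n → ℂ → ℝ) (x : ℂ) (hf : ∀ σ, ContDiffAt ℝ 2 (f σ) x)
    (e : ∀ᶠ z in 𝓝 x, g z = ∑ σ, f σ z) : lap g x = ∑ σ, lap (f σ) x := by
  have h1 : ∀ w : ℂ, fderiv ℝ (fun u => fderiv ℝ g u w) x w =
      ∑ σ, fderiv ℝ (fun u => fderiv ℝ (f σ) u w) x w := fun w => by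
    have h2 : (fun u => fderiv ℝ g u w) =ᶠ[𝓝 x] fun u => ∑ σ, fderiv ℝ (f σ) u w := by
      filter_upwards [e.eventually_nhds,
        eventually_all.2 fun σ => (hf σ).eventually (by simp)] with u h3 h4
      rw [EventuallyEq.fderiv_eq h3, fderiv_fun_sum fun σ _ => (h4 σ).differentiableAt (by simp),
        ContinuousLinearMap.sum_apply]
    rw [h2.fderiv_eq, fderiv_fun_sum fun σ _ => ?_, ContinuousLinearMap.sum_apply]
    exact (((hf σ).fderiv_right (m := 1) (by norm_num)).clm_apply contDiffAt_const).differentiableAt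
      (by simp)
  simp only [lap, h1, sum_add_distrib]

theorem loc (hL : SLoc) (hC : SChart) {Q : ℂ[X][X]} {B : Finset ℂ} (hQ : Good Q B) {x : ℂ}
    (hx : x ∉ B) : ∃ y : Fin Q.natDegree → ℂ → ℂ, (∀ σ, AnalyticAt ℂ (y σ) x) ∧
      (∀ σ, ∀ᶠ u in 𝓝 x, u ∉ B ∧ On Q (u, y σ u)) ∧ (∀ v, v ∈ fib Q x ↔ ∃ σ, y σ x = v) ∧
      ∀ F, ∀ᶠ z in 𝓝 x, fs Q F z = ∑ σ, F (z, y σ z) := by
  obtain ⟨r, hr, h⟩ := hL Q B {x} hQ isCompact_singleton (by simpa using hx)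
  obtain ⟨y, h1, h2⟩ := h x rfl
  refine ⟨y, fun σ => h1 σ x (mem_ball_self hr), fun σ => ?_, fun v => ?_, fun F => ?_⟩
  · filter_upwards [ball_mem_nhds x hr] with u hu
    refine ⟨(h2 u hu).1, ((hC.2.2 Q B hQ).1 u (h2 u hu).1 _).1 ?_⟩
    rw [(h2 u hu).2]
    exact Multiset.mem_map_of_mem _ (mem_univ_val σ)
  · simp [(h2 x (mem_ball_self hr)).2]
  · filter_upwards [ball_mem_nhds x hr] with u hu
    rw [fs, (h2 u hu).2, Multiset.map_map]
    rfl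

end FsA

open FsA

theorem sFsOf : SFsOf := by
  intro hL hC Q B hQ
  obtain ⟨c1, -, c3⟩ := hC.2.2 Q B hQ
  refine ⟨fun K hK hB => ?_, fun F p U hp hU hF h0 w => ?_, fun F x hx => ?_⟩
  · obtain ⟨r, hr, h⟩ := hL Q B K hQ hK hB
    choose! y hy using h
    obtain ⟨t, t1, t2, t3⟩ := finite_cover_balls_of_compact hK (half_pos hr)
    have sub : ∀ c : ℂ, closedBall c (r / 2) ⊆ ball c r := fun c =>
      closedBall_subset_ball (half_lt_self hr)
    refine IsCompact.of_isClosed_subset (s := ⋃ c ∈ t, ⋃ σ, (fun z => (z, y c σ z)) ''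
      closedBall c (r / 2)) (t2.isCompact_biUnion fun c hc => isCompact_iUnion fun σ =>
        (isCompact_closedBall c _).image_of_continuousOn (continuousOn_id.prodMk
          (((hy c (t1 hc)).1 σ).continuousOn.mono (sub c))))
      ((hC.2.1 Q).2.2.1.inter (hK.isClosed.preimage continuous_fst)) ?_
    rintro ⟨x, v⟩ ⟨h1, h2⟩
    obtain ⟨c, hc, h3⟩ := Set.mem_iUnion₂.1 (t3 h2)
    have h4 := ball_subset_closedBall h3
    obtain ⟨h5, h6⟩ := (hy c (t1 hc)).2 x (sub c h4)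
    have h7 := (c1 x h5 v).2 h1
    rw [h6] at h7
    obtain ⟨σ, -, rfl⟩ := Multiset.mem_map.1 h7
    exact Set.mem_iUnion₂.2 ⟨c, hc, Set.mem_iUnion.2 ⟨σ, x, h4, rfl⟩⟩
  · obtain ⟨x, v⟩ := p
    obtain ⟨y, y1, y2, y3, -⟩ := loc hL hC hQ (x := x) hp.2
    obtain ⟨σ, rfl⟩ := (y3 v).1 ((c1 x hp.2 v).2 hp.1)
    have h1 : (fun u => F (u, y σ u)) =ᶠ[𝓝 x] fun _ => 0 := by
      filter_upwards [y2 σ, hU] with u h2 h3
      exact h0 _ ⟨h2.2, h2.1⟩ h3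
    rw [← ((c3 (y σ) x hp.2 (y1 σ) ((y2 σ).mono fun _ h => h.2)).2.2 F).1 hF w, h1.fderiv_eq]
    simp
  · obtain ⟨y, y1, y2, y3, y4⟩ := loc hL hC hQ hx
    have c4 := fun σ => (c3 (y σ) x hx (y1 σ) ((y2 σ).mono fun _ h => h.2)).2.2 F
    have m : ∀ σ, y σ x ∈ fib Q x := fun σ => (y3 _).2 ⟨σ, rfl⟩
    refine ⟨fun h => ?_, fun h => ⟨?_, fun w => ?_⟩, fun h => ⟨?_, ?_⟩⟩
    · refine ContinuousAt.congr (tendsto_finsetSum _ fun σ _ => ?_) (EventuallyEq.symm (y4 F))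
      exact (h _ (m σ)).tendsto.comp (tendsto_nhdsWithin_iff.2
        ⟨continuousAt_id.prodMk (y1 σ).continuousAt, (y2 σ).mono fun _ h => h.2⟩)
    · exact (ContDiffAt.sum fun σ _ => (c4 σ).2.1 (h _ (m σ))).congr_of_eventuallyEq (y4 F)
    · rw [EventuallyEq.fderiv_eq (y4 F), (y4 _).self_of_nhds,
        fderiv_fun_sum fun σ _ => ((c4 σ).2.1 (h _ (m σ))).differentiableAt (by simp),
        ContinuousLinearMap.sum_apply]
      exact sum_congr rfl fun σ _ => (c4 σ).1 ((h _ (m σ)).differentiableAt (by simp)) w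
    · exact (ContDiffAt.sum fun σ _ => ((c4 σ).2.2 (h _ (m σ))).1).congr_of_eventuallyEq (y4 F)
    · rw [lap_sum _ (fun σ u => F (u, y σ u)) x (fun σ => ((c4 σ).2.2 (h _ (m σ))).1) (y4 F),
        (y4 _).self_of_nhds]
      exact sum_congr rfl fun σ _ => ((c4 σ).2.2 (h _ (m σ))).2

end Pool.Agent.MP_670f9a_nt.GL
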