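import Pool.Agent.MP_670f9a_nt.H83.Spec

/-!
The logarithm is the fundamental solution of the Laplacian of the plane.
-/

namespace Pool.Agent.MP_670f9a_nt.GL

open Real MeasureTheory Metric Filter
open scoped Topology

namespace FundA

/-- The directional derivative. -/
noncomputable def dd (v : ℂ) (f : ℂ → ℝ) (z : ℂ) : ℝ := fderiv ℝ f z v

theorem lap_eq (f : ℂ → ℝ) :
    lap f = fun z => dd 1 (dd 1 f) z + dd Complex.I (dd Complex.I f) z := rfl

theorem dd_cd1 {f : ℂ → ℝ} (hf : ContDiff ℝ 2 f) (v : ℂ) : ContDiff ℝ 1 (dd v f) :=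
  (hf.fderiv_right (m := 1) (by norm_num)).clm_apply contDiff_const

theorem dd_cont {f : ℂ → ℝ} (hf : ContDiff ℝ 1 f) (v : ℂ) : Continuous (dd v f) :=
  (hf.continuous_fderiv (by norm_num)).clm_apply continuous_const

theorem dd_cs {f : ℂ → ℝ} (hf : HasCompactSupport f) (v : ℂ) : HasCompactSupport (dd v f) :=
  hf.fderiv_apply ℝ v

theorem dd_ts (f : ℂ → ℝ) (v : ℂ) : tsupport (dd v f) ⊆ tsupport f :=
  tsupport_fderiv_apply_subset ℝ v

theorem int_mul {u g : ℂ → ℝ} (hu : Continuous u) (hg : Continuous g)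
    (hs : HasCompactSupport g) : Integrable fun z => u z * g z :=
  (hu.mul hg).integrable_of_hasCompactSupport hs.mul_left

theorem ibp {u g : ℂ → ℝ} (hu : ContDiff ℝ 1 u) (hg : ContDiff ℝ 1 g) (hs : HasCompactSupport g)
    (v : ℂ) : ∫ z, u z * dd v g z = -∫ z, dd v u z * g z :=
  integral_mul_fderiv_eq_neg_fderiv_mul_of_integrable
    (int_mul (dd_cont hu v) hg.continuous hs) (int_mul hu.continuous (dd_cont hg v) (dd_cs hs v))
    (int_mul hu.continuous hg.continuous hs) (fun _ _ => hu.differentiable (by norm_num) _)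
    fun _ _ => hg.differentiable (by norm_num) _

theorem lap_cont {f : ℂ → ℝ} (hf : ContDiff ℝ 2 f) : Continuous (lap f) :=
  (dd_cont (dd_cd1 hf _) _).add (dd_cont (dd_cd1 hf _) _)

theorem lap_cs {f : ℂ → ℝ} (hs : HasCompactSupport f) : HasCompactSupport (lap f) :=
  (dd_cs (dd_cs hs 1) 1).add (dd_cs (dd_cs hs Complex.I) Complex.I)

theorem lap_zero {f : ℂ → ℝ} {z : ℂ} (hz : z ∉ tsupport f) : lap f z = 0 := by
  have e : ∀ v, dd v (dd v f) z = 0 := fun v =>
    image_eq_zero_of_notMem_tsupport fun h => hz (dd_ts f v (dd_ts _ v h))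
  simp only [lap_eq, e, add_zero]

theorem green {u ψ : ℂ → ℝ} (hu : ContDiff ℝ 2 u) (hψ : ContDiff ℝ 2 ψ)
    (hs : HasCompactSupport ψ) : ∫ z, u z * lap ψ z = ∫ z, lap u z * ψ z := by
  have hu1 : ContDiff ℝ 1 u := hu.of_le (by norm_num)
  have hψ1 : ContDiff ℝ 1 ψ := hψ.of_le (by norm_num)
  have key : ∀ v, ∫ z, u z * dd v (dd v ψ) z = ∫ z, dd v (dd v u) z * ψ z := fun v => by
    rw [ibp hu1 (dd_cd1 hψ v) (dd_cs hs v), ibp (dd_cd1 hu v) hψ1 hs, neg_neg]
  have i1 := fun v => int_mul hu.continuous (dd_cont (dd_cd1 hψ v) v) (dd_cs (dd_cs hs v) v)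
  have i2 := fun v => int_mul (dd_cont (dd_cd1 hu v) v) hψ.continuous hs
  simp only [lap_eq, mul_add, add_mul]
  rw [integral_add (i1 1) (i1 Complex.I), integral_add (i2 1) (i2 Complex.I), key, key]

theorem int_dd {ψ : ℂ → ℝ} (hψ : ContDiff ℝ 1 ψ) (hs : HasCompactSupport ψ) (v : ℂ) :
    ∫ z, dd v ψ z = 0 := by
  have h := ibp (u := fun _ => 1) contDiff_const hψ hs v
  simpa [dd] using h

/-- The regularised square of the distance. -/
def qq (a : ℂ) (e : ℝ) (z : ℂ) : ℝ := (z.re - a.re) ^ 2 + (z.im - a.im) ^ 2 + e ^ 2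

theorem qq_eq (a : ℂ) (e : ℝ) (z : ℂ) : qq a e z = ‖z - a‖ ^ 2 + e ^ 2 := by
  rw [qq, Complex.sq_norm, Complex.normSq_apply, Complex.sub_re, Complex.sub_im]
  ring

theorem qq_pos (a : ℂ) {e : ℝ} (he : 0 < e) (z : ℂ) : 0 < qq a e z := by
  unfold qq
  positivity

theorem re_d (c : ℝ) (z : ℂ) : HasFDerivAt (fun u : ℂ => u.re - c) Complex.reCLM z :=
  Complex.reCLM.hasFDerivAt.sub_const c

theorem im_d (c : ℝ) (z : ℂ) : HasFDerivAt (fun u : ℂ => u.im - c) Complex.imCLM z :=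
  Complex.imCLM.hasFDerivAt.sub_const c

theorem qq_d (a : ℂ) (e : ℝ) (z : ℂ) : HasFDerivAt (qq a e)
    ((2 * (z.re - a.re)) • Complex.reCLM + (2 * (z.im - a.im)) • Complex.imCLM) z := by
  have h := (((re_d a.re z).pow 2).add ((im_d a.im z).pow 2)).add_const (e ^ 2)
  refine h.congr_fderiv ?_
  ext
  simp

theorem qq_cd (a : ℂ) (e : ℝ) : ContDiff ℝ 2 (qq a e) :=
  (((Complex.reCLM.contDiff.sub contDiff_const).pow 2).add
    ((Complex.imCLM.contDiff.sub contDiff_const).pow 2)).add contDiff_const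

/-- The regularised logarithm. -/
noncomputable def LL (a : ℂ) (e : ℝ) (z : ℂ) : ℝ := 1 / 2 * log (qq a e z)

theorem LL_cd (a : ℂ) {e : ℝ} (he : 0 < e) : ContDiff ℝ 2 (LL a e) :=
  contDiff_const.mul ((qq_cd a e).log fun z => (qq_pos a he z).ne')

theorem LL_dd (a : ℂ) {e : ℝ} (he : 0 < e) (v : ℂ) : dd v (LL a e) = fun z =>
    ((z.re - a.re) * v.re + (z.im - a.im) * v.im) * (qq a e z)⁻¹ := by
  funext z
  have h := ((qq_d a e z).log (qq_pos a he z).ne').const_mul (1 / 2)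
  unfold dd
  rw [show LL a e = fun y => 1 / 2 * log (qq a e y) from rfl, h.fderiv]
  simp
  ring

theorem LL_lap (a : ℂ) {e : ℝ} (he : 0 < e) (z : ℂ) :
    lap (LL a e) z = 2 * e ^ 2 / qq a e z ^ 2 := by
  have hq := (qq_pos a he z).ne'
  have hi : HasFDerivAt (fun u => (qq a e u)⁻¹) ((-(qq a e z ^ 2)⁻¹) •
      ((2 * (z.re - a.re)) • Complex.reCLM + (2 * (z.im - a.im)) • Complex.imCLM)) z :=
    (hasDerivAt_inv hq).comp_hasFDerivAt z (qq_d a e z)
  have key : ∀ v : ℂ, dd v (dd v (LL a e)) z = (v.re ^ 2 + v.im ^ 2) * (qq a e z)⁻¹ -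
      2 * ((z.re - a.re) * v.re + (z.im - a.im) * v.im) ^ 2 * (qq a e z ^ 2)⁻¹ := fun v => by
    have h := (((re_d a.re z).mul_const v.re).add ((im_d a.im z).mul_const v.im)).mul hi
    rw [LL_dd a he]
    unfold dd
    rw [show (fun z : ℂ => ((z.re - a.re) * v.re + (z.im - a.im) * v.im) * (qq a e z)⁻¹) =
      ((fun y : ℂ => (y.re - a.re) * v.re) + fun y : ℂ => (y.im - a.im) * v.im) *
        fun u => (qq a e u)⁻¹ from rfl, h.fderiv]
    simp
    ring
  simp only [lap_eq, key]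
  simp
  field_simp
  unfold qq
  ring

theorem scale (a : ℂ) {e : ℝ} (he : 0 < e) (ψ : ℂ → ℝ) :
    ∫ z, lap (LL a e) z * ψ z = ∫ w : ℂ, 2 * (1 / (1 + ‖w‖ ^ 2) ^ 2) * ψ (a + e • w) := by
  have h1 := Measure.integral_comp_smul (volume : Measure ℂ)
    (fun z => lap (LL a e) (a + z) * ψ (a + z)) e
  rw [integral_add_left_eq_self (fun z => lap (LL a e) z * ψ z) a, Complex.finrank_real_complex,
    abs_of_pos (by positivity), smul_eq_mul, eq_inv_mul_iff_mul_eq₀ (by positivity),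
    ← integral_const_mul] at h1
  rw [← h1]
  refine integral_congr_ae (Eventually.of_forall fun w => ?_)
  simp only [LL_lap a he, qq_eq, add_sub_cancel_left, norm_smul, Real.norm_of_nonneg he.le]
  field_simp
  ring

theorem lim_right (hI : Integrable (fun z : ℂ => 1 / (1 + ‖z‖ ^ 2) ^ 2))
    (hπ : ∫ z : ℂ, 1 / (1 + ‖z‖ ^ 2) ^ 2 = π) {ψ : ℂ → ℝ} (hψ : Continuous ψ)
    (hs : HasCompactSupport ψ) (a : ℂ) :
    Tendsto (fun e : ℝ => ∫ w : ℂ, 2 * (1 / (1 + ‖w‖ ^ 2) ^ 2) * ψ (a + e • w)) (𝓝[>] 0)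
      (𝓝 (2 * π * ψ a)) := by
  obtain ⟨M, hM⟩ := hs.exists_bound_of_continuous hψ
  have e : 2 * π * ψ a = ∫ w : ℂ, 2 * (1 / (1 + ‖w‖ ^ 2) ^ 2) * ψ a := by
    rw [integral_mul_const, integral_const_mul, hπ]
  rw [e]
  refine tendsto_integral_filter_of_dominated_convergence
    (fun w => 2 * (1 / (1 + ‖w‖ ^ 2) ^ 2) * M) (Eventually.of_forall fun e => ?_)
    (Eventually.of_forall fun e => Eventually.of_forall fun w => ?_)
    ((hI.const_mul 2).mul_const M) (Eventually.of_forall fun w => ?_)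
  · exact (hI.const_mul 2).1.mul (hψ.comp (by fun_prop)).aestronglyMeasurable
  · rw [norm_mul, Real.norm_of_nonneg (by positivity)]
    exact mul_le_mul_of_nonneg_left (hM _) (by positivity)
  · refine Tendsto.const_mul _ (tendsto_nhdsWithin_of_tendsto_nhds ?_)
    have hc : Continuous fun e : ℝ => ψ (a + e • w) := hψ.comp (by fun_prop)
    simpa using hc.tendsto 0

theorem int_log (hL : ∀ (c a : ℂ) (R : ℝ), IntegrableOn (fun z => log ‖a - z‖) (ball c R))
    {g : ℂ → ℝ} (hg : Continuous g) (hs : HasCompactSupport g) (a : ℂ) :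
    Integrable fun z => log ‖z - a‖ * g z := by
  obtain ⟨M, hM⟩ := hs.exists_bound_of_continuous hg
  obtain ⟨R, hR⟩ := hs.isCompact.isBounded.subset_ball 0
  have h1 : IntegrableOn (fun z => log ‖z - a‖ * g z) (ball 0 R) := by
    have h := hL 0 a R
    simp only [norm_sub_rev a] at h
    exact Integrable.mul_bdd h hg.aestronglyMeasurable (Eventually.of_forall hM)
  refine h1.integrable_of_forall_notMem_eq_zero fun z hz => ?_
  rw [image_eq_zero_of_notMem_tsupport fun h => hz (hR h), mul_zero]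

theorem LL_le {a z : ℂ} (hz : z ≠ a) {e : ℝ} (he : 0 < e) (he' : e ≤ 1) :
    |LL a e z| ≤ abs (log ‖z - a‖) + ‖z - a‖ ^ 2 := by
  have h0 : 0 < ‖z - a‖ := norm_pos_iff.mpr (sub_ne_zero.mpr hz)
  have h1 : log ‖z - a‖ ≤ LL a e z := by
    have := Real.log_le_log (pow_pos h0 2) (show ‖z - a‖ ^ 2 ≤ qq a e z by
      rw [qq_eq]; nlinarith)
    rw [Real.log_pow] at this
    unfold LL
    push_cast at this
    linarith
  have h2 : LL a e z ≤ ‖z - a‖ ^ 2 := by
    have := Real.log_le_sub_one_of_pos (qq_pos a he z)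
    unfold LL
    rw [qq_eq] at this ⊢
    nlinarith [sq_nonneg ‖z - a‖]
  rw [abs_le]
  constructor
  · linarith [neg_abs_le (log ‖z - a‖), sq_nonneg ‖z - a‖]
  · linarith [abs_nonneg (log ‖z - a‖)]

theorem lim_left {g : ℂ → ℝ} (hg : Continuous g) (hs : HasCompactSupport g) (a : ℂ)
    (hI : Integrable fun z => log ‖z - a‖ * g z) :
    Tendsto (fun e : ℝ => ∫ z, LL a e z * g z) (𝓝[>] 0) (𝓝 (∫ z, log ‖z - a‖ * g z)) := by
  have hne : ∀ᵐ z : ℂ, z ≠ a := compl_mem_ae_iff.mpr (measure_singleton a)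
  have h2 : Integrable fun z => ‖z - a‖ ^ 2 * g z := int_mul (by fun_prop) hg hs
  refine tendsto_integral_filter_of_dominated_convergence
    (fun z => ‖log ‖z - a‖ * g z‖ + ‖‖z - a‖ ^ 2 * g z‖) ?_ ?_ (hI.norm.add h2.norm) ?_
  · filter_upwards [self_mem_nhdsWithin] with e he
    exact ((LL_cd a he).continuous.mul hg).aestronglyMeasurable
  · filter_upwards [Ioc_mem_nhdsGT one_pos] with e he
    filter_upwards [hne] with z hz
    rw [norm_mul, norm_mul, norm_mul, ← add_mul, Real.norm_of_nonneg (sq_nonneg _)]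
    exact mul_le_mul_of_nonneg_right (LL_le hz he.1 he.2) (norm_nonneg _)
  · filter_upwards [hne] with z hz
    have h0 : 0 < ‖z - a‖ := norm_pos_iff.mpr (sub_ne_zero.mpr hz)
    refine Tendsto.mul_const _ (tendsto_nhdsWithin_of_tendsto_nhds ?_)
    have hc : ContinuousAt (fun e : ℝ => 1 / 2 * log (‖z - a‖ ^ 2 + e ^ 2)) 0 :=
      continuousAt_const.mul (ContinuousAt.log (by fun_prop) (by positivity))
    have e0 : 1 / 2 * log (‖z - a‖ ^ 2 + 0 ^ 2) = log ‖z - a‖ := by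
      rw [zero_pow two_ne_zero, add_zero, Real.log_pow]
      push_cast
      ring
    simp only [LL, qq_eq]
    rw [← e0]
    exact hc

end FundA

open FundA in
theorem sFundOf : SFundOf := by
  intro hP ψ hψ hs
  obtain ⟨-, hL, -, ⟨hI, hπ⟩, -⟩ := hP
  have hc := lap_cont hψ
  have hls := lap_cs hs
  refine ⟨hc, fun z hz => lap_zero hz, hc.integrable_of_hasCompactSupport hls, ?_,
    fun w => int_dd (hψ.of_le (by norm_num)) hs w, fun a => ⟨int_log hL hc hls a, ?_⟩⟩
  · have i := fun v => (dd_cont (dd_cd1 hψ v) v).integrable_of_hasCompactSupport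
      (μ := volume) (dd_cs (dd_cs hs v) v)
    simp only [lap_eq]
    rw [integral_add (i 1) (i Complex.I), int_dd (dd_cd1 hψ _) (dd_cs hs _),
      int_dd (dd_cd1 hψ _) (dd_cs hs _), add_zero]
  · refine tendsto_nhds_unique (lim_left hc hls a (int_log hL hc hls a))
      ((lim_right hI hπ hψ.continuous hs a).congr' ?_)
    filter_upwards [self_mem_nhdsWithin] with e he
    rw [green (LL_cd a he) hψ hs, scale a he]

end Pool.Agent.MP_670f9a_nt.GL
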