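import Pool.Agent.MP_670f9a_nt.H83.Spec

/-! The cut-off function, the sign and the function on the sphere. -/

namespace Pool.Agent.MP_670f9a_nt.GL

open Real

namespace GamA

theorem sg_abs (x : ℝ) : |sg x| ≤ 1 := by
  unfold sg
  split_ifs <;> simp

theorem gam_cd : ContDiff ℝ 2 gam :=
  contDiff_const.sub (smoothTransition.contDiff.comp (by fun_prop))

theorem gam_mem (s : ℝ) : 0 ≤ gam s ∧ gam s ≤ 1 :=
  ⟨sub_nonneg.2 (smoothTransition.le_one _), sub_le_self _ (smoothTransition.nonneg _)⟩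

theorem gam_anti : Antitone gam := fun _ _ h =>
  sub_le_sub_left (smoothTransition.monotone (by linarith)) 1

theorem gam_lo (s : ℝ) (h : s ≤ 1 / 4) : gam s = 1 ∧ deriv gam s = 0 := by
  have e : gam s = 1 := by rw [gam, smoothTransition.zero_of_nonpos (by linarith), sub_zero]
  exact ⟨e, IsLocalMax.deriv_eq_zero (.of_forall fun t => e ▸ (gam_mem t).2)⟩

theorem gam_hi (s : ℝ) (h : 1 ≤ s) : gam s = 0 ∧ deriv gam s = 0 := by
  have e : gam s = 0 := by rw [gam, smoothTransition.one_of_one_le (by linarith), sub_self]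
  exact ⟨e, IsLocalMin.deriv_eq_zero (.of_forall fun t => e ▸ (gam_mem t).1)⟩

theorem th_eq (lam kap : ℝ) : th0 lam kap =
    fun g => (lam ^ 2 - kap ^ 2 + 1 - 2 * kap * g.re) * (1 + ‖g‖ ^ 2)⁻¹ - 1 := by
  funext g
  have : 1 + ‖g‖ ^ 2 ≠ 0 := by positivity
  rw [th0]
  field_simp
  simp only [Complex.sq_norm, Complex.normSq_apply, Complex.add_re, Complex.add_im,
    Complex.ofReal_re, Complex.ofReal_im]
  ring

theorem th_der (lam kap : ℝ) (g w : ℂ) : fderiv ℝ (th0 lam kap) g w =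
    (-(2 * kap * w.re) * (1 + ‖g‖ ^ 2) - (lam ^ 2 - kap ^ 2 + 1 - 2 * kap * g.re) *
      (2 * inner ℝ g w)) / (1 + ‖g‖ ^ 2) ^ 2 := by
  have h0 : 1 + ‖g‖ ^ 2 ≠ 0 := by positivity
  have h1 := ((Complex.reCLM.hasFDerivAt (x := g)).const_mul (2 * kap)).const_sub
    (lam ^ 2 - kap ^ 2 + 1)
  have h2 := (hasDerivAt_inv h0).comp_hasFDerivAt g
    ((hasStrictFDerivAt_norm_sq g).hasFDerivAt.const_add 1)
  have h3 := ((h1.mul h2).sub_const 1).fderiv
  rw [th_eq]
  refine (DFunLike.congr_fun h3 w).trans ?_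
  simp only [add_apply, smul_apply, neg_apply, Complex.reCLM_apply, innerSL_apply_apply, smul_eq_mul,
    nsmul_eq_mul, Function.comp_apply, Nat.cast_ofNat]
  field_simp
  ring

end GamA

open GamA in
theorem sGamOf : SGamOf := by
  refine ⟨⟨gam_cd, gam_mem, gam_anti, gam_lo, gam_hi, ?_⟩, ?_,
    fun x => ⟨sg_abs x, ?_, fun c hc => ?_⟩⟩
  · obtain ⟨C, hC⟩ := (isCompact_Icc (a := (1 / 4 : ℝ)) (b := 1)).exists_bound_of_continuousOn
      (gam_cd.continuous_deriv (by norm_num)).continuousOn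
    refine ⟨|C|, fun s => ⟨?_, gam_anti.deriv_nonpos⟩⟩
    rcases le_total s (1 / 4) with h | h
    · simp [(gam_lo s h).2]
    rcases le_total 1 s with h' | h'
    · simp [(gam_hi s h').2]
    exact neg_le_of_abs_le ((hC s ⟨h, h'⟩).trans (le_abs_self C))
  · exact Measurable.ite measurableSet_Ioi measurable_const
      (Measurable.ite measurableSet_Iio measurable_const measurable_const)
  · unfold sg
    split_ifs with h h'
    · rw [one_mul, abs_of_pos h]
    · rw [neg_one_mul, abs_of_neg h']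
    · rw [zero_mul, le_antisymm (not_lt.1 h) (not_lt.1 h'), abs_zero]
  · have e : c * x < 0 ↔ x < 0 := by rw [← not_le, ← not_le, mul_nonneg_iff_of_pos_left hc]
    simp only [sg, mul_pos_iff_of_pos_left hc, e]

open GamA in
theorem sThetaOf : SThetaOf := by
  intro lam kap hl hk
  have l2 : lam ^ 2 ≤ 9 := by nlinarith [abs_nonneg lam, sq_abs lam]
  have k2 : kap ^ 2 ≤ 4 := by nlinarith [abs_nonneg kap, sq_abs kap]
  refine ⟨⟨?_, fun g => ⟨?_, fun w => ?_⟩⟩, fun a b a' b' => ?_⟩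
  · rw [th_eq]
    exact ((contDiff_const.sub (contDiff_const.mul Complex.reCLM.contDiff)).mul
      ((contDiff_const.add (contDiff_norm_sq ℝ)).inv fun g => by positivity)).sub contDiff_const
  · have h0 : 0 < 1 + ‖g‖ ^ 2 := by positivity
    have h1 : ‖kap + g‖ ≤ 2 + ‖g‖ := norm_add_le_of_le (by simpa using hk) le_rfl
    rw [th0, abs_div, abs_of_pos h0, div_le_iff₀ h0, abs_le]
    have := pow_le_pow_left₀ (norm_nonneg _) h1 2
    constructor <;> nlinarith [sq_nonneg lam, sq_nonneg ‖kap + g‖, sq_nonneg (‖g‖ - 2)]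
  · have h0 : 0 < 1 + ‖g‖ ^ 2 := by positivity
    have a1 : |2 * kap * w.re| ≤ 4 * ‖w‖ := by
      rw [abs_mul, abs_mul, abs_two]
      exact mul_le_mul (by linarith) (Complex.abs_re_le_norm w) (abs_nonneg _) (by norm_num)
    have a2 : |2 * kap * g.re| ≤ 4 * ‖g‖ := by
      rw [abs_mul, abs_mul, abs_two]
      exact mul_le_mul (by linarith) (Complex.abs_re_le_norm g) (abs_nonneg _) (by norm_num)
    have a3 : |lam ^ 2 - kap ^ 2 + 1 - 2 * kap * g.re| ≤ 10 + 4 * ‖g‖ :=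
      (abs_sub _ _).trans (add_le_add (abs_le.2 ⟨by nlinarith, by nlinarith⟩) a2)
    have a4 := mul_le_mul a3 (abs_real_inner_le_norm g w) (abs_nonneg _) (by positivity)
    rw [th_der, abs_div, abs_of_pos (pow_pos h0 2), div_le_div_iff₀ (pow_pos h0 2) h0,
      sq (1 + ‖g‖ ^ 2), ← mul_assoc (50 * ‖w‖)]
    refine mul_le_mul_of_nonneg_right ((abs_sub _ _).trans ?_) h0.le
    rw [abs_mul, abs_mul, abs_mul 2, abs_neg, abs_of_pos h0, abs_two]
    nlinarith [mul_le_mul_of_nonneg_right a1 h0.le, mul_nonneg (norm_nonneg w) (sq_nonneg (‖g‖ - 1)),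
      norm_nonneg w, mul_nonneg (norm_nonneg w) (sq_nonneg ‖g‖)]
  · have s : ∀ (x : ℝ) (z : ℂ), ‖sg x * z‖ ≤ ‖z‖ := fun x z => by
      rw [norm_mul, Complex.norm_real]
      exact mul_le_of_le_one_left (norm_nonneg _) (sg_abs x)
    have m : ∀ x c : ℝ, |x| ≤ c → ‖x * a'‖ ≤ c * ‖a'‖ := fun x c h => by
      rw [norm_mul, Complex.norm_real]
      exact mul_le_mul_of_nonneg_right h (norm_nonneg _)
    have h := pow_le_pow_left₀ (norm_nonneg _) (norm_sub_le_of_le ((s a _).trans (m lam 3 hl))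
      ((s (kap * a + b) _).trans (norm_add_le_of_le (m kap 2 hk) (le_refl ‖b'‖)))) 2
    refine h.trans ?_
    nlinarith [sq_nonneg (‖a'‖ - 5 * ‖b'‖), sq_nonneg ‖a'‖, sq_nonneg ‖b'‖]

end Pool.Agent.MP_670f9a_nt.GL
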