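import Pool.Agent.MP_670f9a_nt.H83.Spec

/-!
The energy of the test function built from the Gauss map.
-/

namespace Pool.Agent.MP_670f9a_nt.GL

open Polynomial Real Finset MeasureTheory Metric Filter
open scoped ENNReal ComplexConjugate Topology

namespace GaussA

theorem tsum_le {α : Type} (P : α → Prop) (Φ : α → ℝ≥0∞) (c : ℝ≥0∞) (N : ℝ)
    (hΦ : ∀ p, P p → Φ p = c) (hN : ∀ S : Finset α, (∀ p ∈ S, P p) → (S.card : ℝ) ≤ N) :
    ∑' p : {p : α // P p}, Φ p ≤ ENNReal.ofReal N * c := by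
  classical
  rw [ENNReal.tsum_eq_iSup_sum]
  refine iSup_le fun S => ?_
  have h1 : ∑ p ∈ S, Φ (p : α) = (S.card : ℝ≥0∞) * c := by
    rw [Finset.sum_congr rfl fun p _ => hΦ p.1 p.2, Finset.sum_const, nsmul_eq_mul]
  have h2 := hN (S.map (Function.Embedding.subtype P)) (by
    intro p hp
    obtain ⟨q, -, rfl⟩ := Finset.mem_map.1 hp
    exact q.2)
  rw [Finset.card_map] at h2
  rw [h1]
  refine mul_le_mul_left ?_ c
  rw [← ENNReal.ofReal_natCast]
  exact ENNReal.ofReal_le_ofReal h2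

theorem sq_le (a b x s : ℝ) (hs : 0 < s) (ha : |a| ≤ 50 * x / s) (hb : |b| ≤ 50 * x / s) :
    a * a + b * b ≤ 5000 * (1 / s ^ 2 * x ^ 2) := by
  have h1 : a * a ≤ (50 * x / s) ^ 2 := by
    rw [← abs_mul_abs_self a, sq]
    exact mul_le_mul ha ha (abs_nonneg _) ((abs_nonneg _).trans ha)
  have h2 : b * b ≤ (50 * x / s) ^ 2 := by
    rw [← abs_mul_abs_self b, sq]
    exact mul_le_mul hb hb (abs_nonneg _) ((abs_nonneg _).trans hb)
  have h3 : (50 * x / s) ^ 2 = 2500 * (1 / s ^ 2 * x ^ 2) := by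
    field_simp
    ring
  linarith

end GaussA

theorem sGaussOf : SGaussOf := by
  intro hChart hMu hCalc hPol hArea hBez hRho hTheta Q B lam kap hT hlam hkap
  have hG : Good Q B := hT.1
  obtain ⟨⟨hc2, hth⟩, -⟩ := hTheta lam kap hlam hkap
  obtain ⟨hDD, hreg⟩ := hRho.2 Q B hT
  have hgm : ∀ p, Reg Q B p → AnalyticAt ℂ (gm Q) p := fun p hp => (hreg p hp).1
  have hmeas : Measurable (gm Q) := (hRho.1 Q).2.2.2.2.1
  obtain ⟨T, hTc⟩ := hBez Q B hT
  obtain ⟨hint, hπ⟩ := hPol.2.2.2.1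
  have hae : ∀ᵐ p ∂mu Q, Reg Q B p := (hMu Q B hG).2.2.1
  have hDm : ∀ w, Measurable (D Q w (Th Q lam kap)) :=
    ((hChart.2.1 Q).2.2.2.2.2 (Th Q lam kap)).1
  have hgrm : Measurable (gr Q (Th Q lam kap) (Th Q lam kap)) :=
    ((hDm 1).mul (hDm 1)).add ((hDm Complex.I).mul (hDm Complex.I))
  have hnn : ∀ p, 0 ≤ gr Q (Th Q lam kap) (Th Q lam kap) p := fun p =>
    ((hCalc.1 Q p 1).2.2.2.2.2.2.2 (Th Q lam kap)).1
  have hpt : ∀ p, Reg Q B p → gr Q (Th Q lam kap) (Th Q lam kap) p ≤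
      5000 * (1 / (1 + ‖gm Q p‖ ^ 2) ^ 2 * ‖dC Q (gm Q) p‖ ^ 2) := by
    intro p hp
    have hD : ∀ w : ℂ, ‖w‖ = 1 →
        |D Q w (Th Q lam kap) p| ≤ 50 * ‖dC Q (gm Q) p‖ / (1 + ‖gm Q p‖ ^ 2) := by
      intro w hw
      have h1 := (hCalc.1 Q p w).2.2.2.2.2.2.1 (gm Q) (th0 lam kap) (hgm p hp).differentiableAt
        (hc2.differentiable (by norm_num) _)
      have h2 := (hth (gm Q p)).2 (dC Q (gm Q) p * w)
      rw [norm_mul, hw, mul_one, ← h1] at h2
      exact h2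
    exact GaussA.sq_le _ _ _ _ (by positivity) (hD 1 norm_one) (hD Complex.I Complex.norm_I)
  have hΦm : Measurable fun p : ℂ × ℂ => ENNReal.ofReal (1 / (1 + ‖gm Q p‖ ^ 2) ^ 2) :=
    ENNReal.measurable_ofReal.comp
      (measurable_const.div ((measurable_const.add (hmeas.norm.pow_const 2)).pow_const 2))
  have hA := hArea Q B (gm Q) _ hG hgm hΦm
  have hTae : ∀ᵐ w : ℂ, w ∉ T := T.finite_toSet.countable.ae_notMem _
  have hB : ∫⁻ w, ∑' p : {p : ℂ × ℂ // Reg Q B p ∧ gm Q p = w ∧ dC Q (gm Q) p ≠ 0},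
      ENNReal.ofReal (1 / (1 + ‖gm Q p‖ ^ 2) ^ 2) ≤ ENNReal.ofReal (2 * DD Q * π) := by
    calc _ ≤ ∫⁻ w : ℂ, ENNReal.ofReal (2 * DD Q) * ENNReal.ofReal (1 / (1 + ‖w‖ ^ 2) ^ 2) := by
          refine lintegral_mono_ae (hTae.mono fun w hw => ?_)
          refine GaussA.tsum_le (fun p : ℂ × ℂ => Reg Q B p ∧ gm Q p = w ∧ dC Q (gm Q) p ≠ 0)
            (fun p => ENNReal.ofReal (1 / (1 + ‖gm Q p‖ ^ 2) ^ 2)) _ _ ?_ ?_
          · intro p hp
            simp only [hp.2.1]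
          · intro S hS
            exact hTc w hw S fun p hp => ⟨(hS p hp).1, (hS p hp).2.1⟩
      _ = ENNReal.ofReal (2 * DD Q) * ENNReal.ofReal π := by
          rw [lintegral_const_mul' _ _ ENNReal.ofReal_ne_top, ← hπ,
            ofReal_integral_eq_lintegral_ofReal hint (Eventually.of_forall fun w => by positivity)]
      _ = ENNReal.ofReal (2 * DD Q * π) := by
          rw [← ENNReal.ofReal_mul (by linarith)]
  have hL : ∫⁻ p, ENNReal.ofReal (gr Q (Th Q lam kap) (Th Q lam kap) p) ∂mu Q ≤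
      ENNReal.ofReal (10 ^ 5 * DD Q) := by
    calc _ ≤ ∫⁻ p, ENNReal.ofReal 5000 * (ENNReal.ofReal (1 / (1 + ‖gm Q p‖ ^ 2) ^ 2) *
            ENNReal.ofReal (‖dC Q (gm Q) p‖ ^ 2)) ∂mu Q := by
          refine lintegral_mono_ae (hae.mono fun p hp => ?_)
          rw [← ENNReal.ofReal_mul (by positivity), ← ENNReal.ofReal_mul (by norm_num)]
          exact ENNReal.ofReal_le_ofReal (hpt p hp)
      _ ≤ ENNReal.ofReal 5000 * ENNReal.ofReal (2 * DD Q * π) := by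
          rw [lintegral_const_mul' _ _ ENNReal.ofReal_ne_top, hA]
          exact mul_le_mul_right hB _
      _ ≤ ENNReal.ofReal (10 ^ 5 * DD Q) := by
          rw [← ENNReal.ofReal_mul (by norm_num)]
          refine ENNReal.ofReal_le_ofReal ?_
          have := Real.pi_le_four
          nlinarith
  refine ⟨fun p hp => ?_, ⟨hgrm.aestronglyMeasurable, ?_⟩, ?_⟩
  · have h1 : ContDiffAt ℝ 2 (gm Q) p := ((hgm p hp).contDiffAt (n := 2)).restrict_scalars ℝ
    exact hc2.contDiffAt.comp p h1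
  · rw [hasFiniteIntegral_iff_ofReal (Eventually.of_forall hnn)]
    exact hL.trans_lt ENNReal.ofReal_lt_top
  · rw [integral_eq_lintegral_of_nonneg_ae (Eventually.of_forall hnn) hgrm.aestronglyMeasurable]
    exact ENNReal.toReal_le_of_le_ofReal (by positivity) hL

end Pool.Agent.MP_670f9a_nt.GL
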