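import Pool.Agent.MP_670f9a_nt.H83.Spec

/-! Sums over the geometric components. -/

namespace Pool.Agent.MP_670f9a_nt.GL

open Polynomial Real Finset MeasureTheory Metric Filter

namespace SumA

theorem ne0 {P : ℂ[X][X]} {B : Finset ℂ} (h : Good P B) :
    P ≠ 0 ∧ ∀ x ∉ B, P.map (evalRingHom x) ≠ 0 := by
  refine ⟨fun e => ?_, fun x hx e => ?_⟩
  · have := h.1
    simp [e] at this
  · have := (h.2 x hx).1
    rw [fib, e, roots_zero, Multiset.card_zero] at this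
    have := h.1
    omega

theorem avg {ι : Type} [Fintype ι] (f : ι → ℂ → ℝ) (g : ℂ → ℝ) (t : ℝ) (B : Finset ℂ)
    (hf : ∀ i, CircleIntegrable (f i) 0 1) (h : ∀ x ∉ B, ∑ i, f i x = t * g x) :
    ∑ i, circleAverage (f i) 0 1 = t * circleAverage g 0 1 := by
  rw [← circleAverage_fun_sum fun i _ => hf i, ← smul_eq_mul, ← circleAverage_fun_smul]
  refine circleAverage_congr_codiscreteWithin ?_ one_ne_zero
  filter_upwards [compl_finite_mem_codiscreteWithin B.finite_toSet] with x hx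
  exact h x hx

theorem swd {P Q : ℂ[X][X]} (h : Q ∣ P) : sw Q ∣ sw P := by
  obtain ⟨R, rfl⟩ := h
  exact ⟨sw R, by simp only [sw, map_mul]⟩

end SumA

open SumA in
theorem sSumOf : SSumOf := by
  rintro ⟨-, -, ch⟩ hM hA ⟨c1, c2, c3⟩ ι _ P Q t q B B' φ hP hP' hφ hq hQ e
  have g1 := fun i => c1 P (Q i) B hP (hQ i).1 (hQ i).2.1
  have g2 : ∀ i, Good (sw (Q i)) B' := fun i =>
    (c1 (sw P) (sw (Q i)) B' hP' (swd (hQ i).1) (hQ i).2.2).1
  have g3 := fun i => c2 (Q i) B B' φ (g1 i).1 (g2 i) ((g1 i).2.1 φ hφ)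
  obtain ⟨-, e', -, s1⟩ := c3 ι P Q t q (ne0 hP).1 hq e
  obtain ⟨-, -, -, s2⟩ := c3 ι (sw P) (fun i => sw (Q i)) t q (ne0 hP').1 hq e'
  have a1 := avg (fun i => fs (Q i) φ) (fs P φ) t B (fun i => (g3 i).1)
    fun x hx => s1 x ((ne0 hP).2 x hx) φ
  have a2 := avg (fun i => fs (sw (Q i)) fun p => φ p.swap) (fs (sw P) fun p => φ p.swap) t B'
    (fun i => (g3 i).2) fun x hx => s2 x ((ne0 hP').2 x hx) fun p => φ p.swap
  simp only [My, Mx]
  refine ⟨g2, a1, a2, ?_⟩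
  have i1 := fun i => (hM (Q i) B (g1 i).1).2.2.2.2.1 _
    ((hA (Q i) B (g1 i).1).2.2.2 φ ((g1 i).2.1 φ hφ)).2.2.2.2.1
  rw [((hM P B hP).2.2.2.2.1 _ ((hA P B hP).2.2.2 φ hφ).2.2.2.2.1).2,
    sum_congr rfl fun i _ => (i1 i).2, ← integral_finsetSum _ fun i _ => (i1 i).1,
    ← integral_const_mul]
  refine integral_congr_ae ?_
  filter_upwards [B.finite_toSet.countable.ae_notMem volume] with x hx
  rw [← s1 x ((ne0 hP).2 x hx)]
  refine sum_congr rfl fun i _ => congrArg Multiset.sum (Multiset.map_congr rfl fun y hy => ?_)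
  simp only [gr, D, (g1 i).2.2 (x, y) ⟨((ch (Q i) B (g1 i).1).1 x hx y).1 hy, hx⟩]

end Pool.Agent.MP_670f9a_nt.GL
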