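import Pool.Agent.MP_670f9a_nt.H83.SpecG
import Pool.Agent.MP_670f9a_nt.GL.Sum

/-! The energy of the functions of the Gauss map, component by component. -/

namespace Pool.Agent.MP_670f9a_nt.GL

open Polynomial Real Finset MeasureTheory Metric Filter
open scoped Topology

namespace GaussFA

theorem reg {P Q : ℂ[X][X]} {B : Finset ℂ} (h : Q ∣ P) {p : ℂ × ℂ} (hp : Reg Q B p) :
    Reg P B p := by
  obtain ⟨R, rfl⟩ := h
  refine ⟨?_, hp.2⟩
  rw [On, evalEval_mul, show Q.evalEval p.1 p.2 = 0 from hp.1, zero_mul]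

theorem dd (hL : SLoc) (hC : SChart) {P Q : ℂ[X][X]} {B : Finset ℂ} (gP : Good P B)
    (gQ : Good Q B) (h : Q ∣ P) {F G : ℂ × ℂ → ℝ} (e : ∀ p, Reg Q B p → F p = G p) {x y : ℂ}
    (hp : Reg Q B (x, y)) (hF : DifferentiableAt ℝ F (x, y)) (hG : DifferentiableAt ℝ G (x, y))
    (w : ℂ) : D Q w F (x, y) = D P w G (x, y) := by
  obtain ⟨-, -, ch⟩ := hC
  obtain ⟨r, r0, hr⟩ := hL Q B {x} gQ isCompact_singleton (Set.disjoint_singleton_left.2 hp.2)
  obtain ⟨v, v1, v2⟩ := hr x rfl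
  have hy := ((ch Q B gQ).1 x hp.2 y).2 hp.1
  rw [(v2 x (mem_ball_self r0)).2] at hy
  obtain ⟨σ, -, rfl⟩ := Multiset.mem_map.1 hy
  have ev : ∀ᶠ u in 𝓝 x, Reg Q B (u, v σ u) := by
    filter_upwards [ball_mem_nhds x r0] with u hu
    refine ⟨((ch Q B gQ).1 u (v2 u hu).1 _).1 ?_, (v2 u hu).1⟩
    rw [(v2 u hu).2]
    exact Multiset.mem_map.2 ⟨σ, mem_univ σ, rfl⟩
  have an := v1 σ x (mem_ball_self r0)
  rw [← (((ch Q B gQ).2.2 (v σ) x hp.2 an (ev.mono fun _ hu => hu.1)).2.2 F).1 hF w,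
    ← (((ch P B gP).2.2 (v σ) x hp.2 an (ev.mono fun _ hu => (reg h hu).1)).2.2 G).1 hG w,
    Filter.EventuallyEq.fderiv_eq (ev.mono fun u hu => e _ hu)]

end GaussFA

open SumA GaussFA in
theorem sGaussFOf : SGaussFOf := by
  rintro hL hC hM - ⟨c1, -, c3⟩ - - hG P B d₁ e₁ hT ⟨ι, _, Q, t, q, ht, hq, hQ, e⟩ lam kap hl hk
  obtain ⟨hP, h0, hy, B', hP'⟩ := id hT
  obtain ⟨n1, e', -, s1⟩ := c3 ι P Q t q (ne0 hP).1 hq e
  obtain ⟨n2, -, -, -⟩ := c3 ι (sw P) (fun i => sw (Q i)) t q (ne0 hP').1 hq e'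
  simp only [(hQ _).2.1, (hQ _).2.2, sum_const, card_univ, smul_eq_mul] at n1 n2
  have d0 := hP.1
  have e0 := hP'.1
  have d1 : 1 ≤ d₁ := Nat.pos_of_ne_zero fun h => by
    rw [h] at n1
    exact (Nat.mul_pos ht d0).ne n1
  have e1 : 1 ≤ e₁ := Nat.pos_of_ne_zero fun h => by
    rw [h] at n2
    exact (Nat.mul_pos ht e0).ne n2
  have ra : (d₁ : ℂ) / e₁ = P.natDegree / (sw P).natDegree := by
    rw [div_eq_div_iff (Nat.cast_ne_zero.2 (by omega)) (Nat.cast_ne_zero.2 (by omega))]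
    have : t * (d₁ * (sw P).natDegree) = t * (P.natDegree * e₁) := by
      rw [mul_left_comm, ← n2, ← mul_assoc t, ← n1]
      ring
    exact_mod_cast Nat.eq_of_mul_eq_mul_left ht this
  have g1 := fun i => c1 P (Q i) B hP (hQ i).1 ((hQ i).2.1 ▸ d1)
  have g2 : ∀ i, Tor (Q i) B := fun i => ⟨(g1 i).1, h0, fun p hp => hy p (reg (hQ i).1 hp), B',
    (c1 (sw P) (sw (Q i)) B' hP' (swd (hQ i).1) ((hQ i).2.2 ▸ e1)).1⟩
  have g3 := fun i => hG (Q i) B lam kap (g2 i) hl hk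
  have g4 := hG P B lam kap hT hl hk
  have i1 := fun i => (hM (Q i) B (g1 i).1).2.2.2.2.1 _ (g3 i).2.1
  have key : ∑ i, ∫ p, gr (Q i) (Th (Q i) lam kap) (Th (Q i) lam kap) p ∂mu (Q i) =
      t * ∫ p, gr P (Th P lam kap) (Th P lam kap) p ∂mu P := by
    rw [((hM P B hP).2.2.2.2.1 _ g4.2.1).2, sum_congr rfl fun i _ => (i1 i).2,
      ← integral_finsetSum _ fun i _ => (i1 i).1, ← integral_const_mul]
    refine integral_congr_ae ?_
    filter_upwards [B.finite_toSet.countable.ae_notMem volume] with x hx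
    rw [← s1 x ((ne0 hP).2 x hx)]
    refine sum_congr rfl fun i _ => congrArg Multiset.sum (Multiset.map_congr rfl fun y hy => ?_)
    have hp : Reg (Q i) B (x, y) := ⟨((hC.2.2 (Q i) B (g1 i).1).1 x hx y).1 hy, hx⟩
    have := dd hL hC hP (g1 i).1 (hQ i).1 (F := Th (Q i) lam kap) (G := Th P lam kap)
      (fun p hp => by rw [Th, Th, gm, gm, (g1 i).2.2 p hp, (hQ i).2.1, (hQ i).2.2, ra]) hp
      (((g3 i).1 _ hp).differentiableAt two_ne_zero)
      ((g4.1 _ (reg (hQ i).1 hp)).differentiableAt two_ne_zero)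
    simp only [gr, this]
  have b := sum_le_sum fun i (_ : i ∈ univ) => (g3 i).2.2
  simp only [key, DD, (hQ _).2.1, (hQ _).2.2, sum_const, card_univ, nsmul_eq_mul] at b
  have n3 : (Fintype.card ι : ℝ) * d₁ = t * P.natDegree := by exact_mod_cast n1
  have t0 : (0 : ℝ) < t := by exact_mod_cast ht
  have e2 : ((sw P).natDegree : ℝ) ≠ 0 := Nat.cast_ne_zero.2 (by omega)
  refine le_of_mul_le_mul_left (b.trans_eq ?_) t0
  rw [DD, mul_comm (P.natDegree : ℝ), ← mul_assoc (_ / _), div_mul_cancel₀ _ e2]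
  linear_combination (10 ^ 5 * e₁ : ℝ) * n3

end Pool.Agent.MP_670f9a_nt.GL
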