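import Pool.Agent.MP_670f9a_nt.H83.Spec

/-! The integral of a derivative along the curve vanishes. -/

namespace Pool.Agent.MP_670f9a_nt.GL

open Polynomial MeasureTheory Filter
open scoped Topology

namespace GreenA

theorem plane {g : ℂ → ℝ} (hg : ContDiff ℝ 1 g) (hs : HasCompactSupport g) (w : ℂ) :
    ∫ z, fderiv ℝ g z w = 0 := by
  have i1 : Integrable fun z => fderiv ℝ g z w :=
    ((hg.continuous_fderiv one_ne_zero).clm_apply continuous_const).integrable_of_hasCompactSupport
      (hs.fderiv_apply ℝ w)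
  have i2 : Integrable g := hg.continuous.integrable_of_hasCompactSupport hs
  have := integral_mul_fderiv_eq_neg_fderiv_mul_of_integrable (μ := volume)
    (f := fun _ : ℂ => (1 : ℝ)) (g := g) (v := w) (by simp) (by simpa using i1) (by simpa using i2)
    (fun x _ => differentiableAt_const _) (fun x _ => hg.differentiable one_ne_zero x)
  simpa using this

end GreenA

open GreenA in
theorem sGreenOf : SGreenOf := by
  intro hC hF hM Q B K F hG hK hKB h1 h0 w
  obtain ⟨c1, c2, -⟩ := hC.2.2 Q B hG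
  obtain ⟨-, f2, f3⟩ := hF Q B hG
  obtain ⟨-, -, -, -, m1, -, -, m2, -⟩ := hM Q B hG
  have hKo := hK.isClosed.isOpen_compl
  have hBo : IsOpen (B : Set ℂ)ᶜ := B.finite_toSet.isClosed.isOpen_compl
  have hi : Integrable (D Q w F) (mu Q) :=
    m2 _ K (fun p hp => (((c2 p hp).2.2 F w).1 (h1 p hp)).continuousWithinAt) hK hKB
      fun p hp hpK => f2 F p Kᶜ hp (hKo.mem_nhds hpK) ((h1 p hp).differentiableAt one_ne_zero) h0 w
  have hr : ∀ x ∉ B, ∀ y ∈ fib Q x, Reg Q B (x, y) := fun x hx y hy => ⟨(c1 x hx y).1 hy, hx⟩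
  have e1 : ∀ x ∉ B, K.indicator (fs Q F) =ᶠ[𝓝 x] fs Q F := by
    intro x hx
    filter_upwards [hBo.mem_nhds hx] with u hu
    by_cases h : u ∈ K
    · exact Set.indicator_of_mem h _
    · rw [Set.indicator_of_notMem h, fs]
      refine (Multiset.sum_eq_zero fun a ha => ?_).symm
      obtain ⟨y, hy, rfl⟩ := Multiset.mem_map.1 ha
      exact h0 _ (hr u hu y hy) h
  have hg : ContDiff ℝ 1 (K.indicator (fs Q F)) := by
    refine contDiff_iff_contDiffAt.2 fun x => ?_
    by_cases hx : x ∈ B
    · refine (contDiffAt_const (c := (0 : ℝ))).congr_of_eventuallyEq ?_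
      filter_upwards [hKo.mem_nhds fun h => Set.disjoint_left.1 hKB h hx] with u hu
      exact Set.indicator_of_notMem hu _
    · exact ((f3 F x hx).2.1 fun y hy => h1 _ (hr x hx y hy)).1.congr_of_eventuallyEq (e1 x hx)
  refine ⟨hi, ?_⟩
  rw [(m1 _ hi).2, ← plane hg (HasCompactSupport.intro hK fun x hx =>
    Set.indicator_of_notMem hx _) w]
  refine integral_congr_ae ?_
  filter_upwards [B.finite_toSet.countable.ae_notMem volume] with x hx
  rw [(e1 x hx).fderiv_eq, ((f3 F x hx).2.1 fun y hy => h1 _ (hr x hx y hy)).2 w]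

end Pool.Agent.MP_670f9a_nt.GL
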