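import Pool.Agent.MP_670f9a_nt.H83.Spec

/-! The formula of Green for the distance to the origin in logarithmic coordinates. -/

namespace Pool.Agent.MP_670f9a_nt.GL

open Polynomial Real Finset MeasureTheory Metric Filter
open scoped ENNReal ComplexConjugate Topology

theorem sGreenRhoOf : SGreenRhoOf := by
  rintro ⟨-, hc2, hc3⟩ - hMu hG ⟨hD, hL⟩ - ⟨hR1, hR2⟩ Q B φ s hT ⟨hφ, K, hK, hKB, hK0⟩ hs h0
  have hg := hT.1
  obtain ⟨-, -, hae, -, -, -, -, hint, -⟩ := hMu Q B hg
  set ρ : ℂ × ℂ → ℝ := fun p => √(qq Q p) with hρ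
  have hq : qq Q = fun p => ρ p * ρ p := funext fun p =>
    (mul_self_sqrt (by unfold qq; positivity)).symm
  have alt : ∀ p, Reg Q B p → (0 < ρ p ∧ ContDiffAt ℝ 2 ρ p) ∨ ∀ᶠ q in 𝓝 p, φ q = 0 := by
    intro p hp
    have h1 := ((hR2 Q B hT).2 p hp).2.2.2.1
    rcases lt_or_ge 0 (qq Q p) with h | h
    · exact .inl ⟨sqrt_pos.2 h, h1.sqrt h.ne'⟩
    · exact .inr ((h1.continuousAt.eventually_lt_const (h.trans_lt hs)).mono h0)
  have hz : ∀ {p} (F : ℂ × ℂ → ℝ), (∀ᶠ q in 𝓝 p, φ q = 0) →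
      (fun q => φ q * F q) =ᶠ[𝓝 p] fun _ => 0 := fun F h => h.mono fun q hq => by simp [hq]
  have hF := fun w => hG Q B K (fun q => φ q * D Q w ρ q) hg hK hKB (fun p hp => by
    rcases alt p hp with h | h
    · exact ((hφ p hp.1).of_le (by norm_num)).mul ((((hc3 Q B hg).2.1 p hp).2.2 ρ w).2 h.2)
    · exact contDiffAt_const.congr_of_eventuallyEq (hz _ h)) (fun p _ h => by simp [hK0 p h]) w
  have hI := hint (fun q => φ q * Lap Q ρ q) K (fun p hp => by
    refine ContinuousAt.continuousWithinAt ?_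
    rcases alt p hp with h | h
    · exact (hφ p hp.1).continuousAt.mul ((hL Q B p hg hp).2.2.1 ρ h.2)
    · exact continuousAt_const.congr (hz _ h).symm) hK hKB fun p _ h => by simp [hK0 p h]
  have key : ∀ p, Reg Q B p → φ p * Lap Q ρ p = φ p * (‖zz Q p‖ ^ 2 / ρ p ^ 3) ∧
      D Q 1 (fun q => φ q * D Q 1 ρ q) p + D Q Complex.I (fun q => φ q * D Q Complex.I ρ q) p
        - φ p * Lap Q ρ p = D Q (conj (uu Q p) / ρ p) φ p := by
    intro p hp
    rcases alt p hp with ⟨h1, h2⟩ | h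
    · obtain ⟨-, -, -, -, a1, a2, -⟩ := (hR2 Q B hT).2 p hp
      have a3 := (hR1 Q).2.2.2.2.2.2.2.2.2.2.2 p
      have d := h2.differentiableAt (by norm_num)
      have a4 : ∀ w, D Q w ρ p = (uu Q p * w).re / ρ p := fun w => by
        have := a1 w
        rw [hq, (hD Q p w).1 ρ ρ d d] at this
        field_simp
        linarith
      rw [hq, ((hL Q B p hg hp).1 ρ ρ h2 h2).1, gr, a4, a4] at a2
      rw [hq, Complex.sq_norm (uu Q p), Complex.normSq_apply] at a3
      have a5 : ∀ w, D Q w (fun q => φ q * D Q w ρ q) p = _ := fun w => (hD Q p w).1 φ _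
        ((hφ p hp.1).differentiableAt (by norm_num))
        (((((hc3 Q B hg).2.1 p hp).2.2 ρ w).2 h2).differentiableAt (by norm_num))
      simp only [mul_one, Complex.mul_I_re] at a2
      constructor
      · congr 1
        field_simp at a2 ⊢
        linarith
      · rw [a5, a5, a4, a4, Lap, ((hc2 Q).2.2.2.2.2 φ).2 (_ / _)]
        simp only [mul_one, Complex.mul_I_re, Complex.div_ofReal_re, Complex.div_ofReal_im,
          Complex.conj_re, Complex.conj_im]
        ring
    · have a : ∀ w F, (∀ᶠ q in 𝓝 p, F q = 0) → D Q w F p = 0 := fun w F h =>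
        ((hD Q p w).2.2.2.1 F h).1
      rw [a _ _ (hz _ h), a _ _ (hz _ h), a _ _ h, h.self_of_nhds]
      simp
  have e1 : (fun q => φ q * Lap Q ρ q) =ᵐ[mu Q] _ := hae.mono fun p hp => (key p hp).1
  refine ⟨hI.congr e1, ?_⟩
  rw [← integral_congr_ae e1, ← integral_congr_ae (hae.mono fun p hp => (key p hp).2),
    integral_sub (by exact (hF 1).1.add (hF _).1) hI, integral_add (hF 1).1 (hF _).1, (hF 1).2,
    (hF _).2]
  simp

end Pool.Agent.MP_670f9a_nt.GL
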