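import Pool.Agent.MP_670f9a_nt.H83.Spec

/-! The index inequality from the two bounds for the determinant. -/

set_option autoImplicit false

namespace Pool.Agent.MP_670f9a_nt.GL

open Polynomial Real Finset MeasureTheory Filter
open Pool.Agent.MP_670f9a_nt.NP (m2 toC)

namespace HIA

theorem My_mul (Q : ℂ[X][X]) (a : ℝ) (φ : ℂ × ℂ → ℝ) : My Q (fun p => a * φ p) = a * My Q φ := by
  unfold My Mx
  rw [← smul_eq_mul a, ← circleAverage_fun_smul]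
  congr 1
  funext x
  simp only [fs, smul_eq_mul, Multiset.sum_map_mul_left]

theorem fin {d1 e1 d e n t m X Y G : ℝ} (hd : 0 < d) (he : 0 < e) (hn : 0 < n) (ht : 0 < t)
    (h1 : n * d1 = t * d) (h2 : n * e1 = t * e)
    (h : ∀ ε : ℝ, 0 < ε → ∀ᶠ k : ℕ in atTop, (k + 1) * d1 / e1 * (k * -(t * m) + -k * (t * Y)) ≤
      -(k ^ 2 * (t * X)) + k ^ 2 * (t * G) + n * (ε * k ^ 2)) :
    e * X - d * Y ≤ d * m + e * G := by
  have h3 : d1 / e1 = d / e := by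
    rw [← mul_div_mul_left d1 e1 hn.ne', h1, h2, mul_div_mul_left _ _ ht.ne']
  refine le_of_forall_pos_le_add fun δ hδ => ?_
  obtain ⟨k, hk, k1, k2⟩ := ((h (δ * t / (2 * e * n)) (by positivity)).and
    ((eventually_gt_atTop 0).and (tendsto_natCast_atTop_atTop.eventually_ge_atTop
      (2 * (d * (m + Y)) / δ)))).exists
  have k0 : (0 : ℝ) < k := Nat.cast_pos.2 k1
  rw [div_le_iff₀ hδ] at k2
  have h4 := mul_le_mul_of_nonneg_left hk (by positivity : 0 ≤ e / (t * k))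
  have a1 : e / (t * k) * ((k + 1) * d1 / e1 * (k * -(t * m) + -k * (t * Y))) =
      -((k + 1) * (d * (m + Y))) := by
    rw [mul_div_assoc, h3]; field_simp; ring
  have a2 : e / (t * k) * (-(k ^ 2 * (t * X)) + k ^ 2 * (t * G) + n * (δ * t / (2 * e * n) * k ^ 2)) =
      k * (e * G - e * X + δ / 2) := by
    field_simp; ring
  rw [a1, a2] at h4
  exact le_of_mul_le_mul_left (by linarith) k0

theorem ub (h : SUB) {Q : ℂ[X][X]} {B : Finset ℂ} {φ : ℂ × ℂ → ℝ} {ε : ℝ} {d : ℕ} (hg : Good Q B)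
    (ht : Test Q B φ) (hε : 0 < ε) (hd : Q.natDegree = d) : ∀ᶠ k : ℕ in atTop,
    ∀ p : Fin ((k + 1) * d) → ℂ × ℂ, (∀ i, On Q (p i) ∧ ‖(p i).2‖ = 1) →
      Dt k d (fun i => p (finProdFinEquiv i)) ≠ 0 →
      log ‖Dt k d fun i => p (finProdFinEquiv i)‖ + ∑ j, (-k * φ (p j) - k * log⁺ ‖(p j).1‖) ≤
        -(k ^ 2 * Mx Q φ) + k ^ 2 * ((∫ p, gr Q φ φ p ∂mu Q) / (4 * π)) + ε * k ^ 2 := by
  subst hd
  obtain ⟨k₀, hk⟩ := h Q B φ ε hg ht hε
  filter_upwards [eventually_ge_atTop k₀] with k k1 p hp h0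
  have := hk k k1 _ (fun i => hp _) h0
  have e : ∑ j, (-k * φ (p j) - k * log⁺ ‖(p j).1‖) = -∑ i : Fin (k + 1) × Fin Q.natDegree,
      k * (log⁺ ‖(p (finProdFinEquiv i)).1‖ + φ (p (finProdFinEquiv i))) := by
    rw [← sum_neg_distrib, ← finProdFinEquiv.sum_comp]
    exact sum_congr rfl fun i _ => by ring
  linarith

theorem pts (hc : SChart) (ha : SAddF) {Q : ℂ[X][X]} {B : Finset ℂ} {d : ℕ} (hg : Good Q B)
    (hd : Q.natDegree = d) (k : ℕ) : ∃ p : Fin ((k + 1) * d) → ℂ × ℂ, (∀ j, On Q (p j)) ∧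
      Dt k d (fun i => p (finProdFinEquiv i)) ≠ 0 := by
  let x := B.finite_toSet.infinite_compl.natEmbedding
  have hx : ∀ b : ℕ, (x b).1 ∉ B := fun b => (x b).2
  choose y hy hy' using fun b : Fin (k + 1) =>
    ha.2.2.2 d _ ((hg.2 _ (hx b)).1.trans hd) (hg.2 _ (hx b)).2
  refine ⟨fun j => ((x (finProdFinEquiv.symm j).1).1, y (finProdFinEquiv.symm j).1
    (finProdFinEquiv.symm j).2), fun j => ((hc.2.2 Q B hg).1 _ (hx _) _).1 ?_, ?_⟩
  · rw [hy']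
    exact Multiset.mem_map_of_mem _ (Finset.mem_univ_val _)
  · simp only [Equiv.symm_apply_apply]
    exact ha.2.1 k d (fun b => (x b).1) y
      (fun b b' h => Fin.val_injective (x.injective (Subtype.val_injective h))) hy

end HIA

open HIA in
theorem sHIOf : SHIOf := by
  intro hc ha had hub h1 h2 h3 htr hlb hcp hs hsw P B B' hP gP gP' φ hφ
  obtain ⟨K, Q, fd, gal, irr, dv⟩ := h1 P ((hsw P).2.1 ▸ gP.1)
  have nu : ¬IsUnit Q := fun h =>
    irr.not_isUnit (h.map (mapRingHom (mapRingHom (algebraMap K ℂ))))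
  have Q0 : Q ≠ 0 := fun h => irr.ne_zero (by simp [mp, h])
  obtain ⟨hdv, t, q, t1, q0, pr⟩ := h2 P K Q hP nu dv
  have q0' : (q : ℂ) ≠ 0 := Rat.cast_ne_zero.2 q0
  have nz : ∀ {F : ℂ[X][X]}, 1 ≤ F.natDegree → F ≠ 0 := fun h e => by simp [e] at h
  obtain ⟨c1, c2, c3, -⟩ := hcp.2.2 _ _ _ t q (nz gP.1) q0' pr
  obtain ⟨c4, -⟩ := hcp.2.2 _ _ _ t q (nz gP'.1) q0' c2
  have dd : ∀ g, (mp (emb K g) Q).natDegree = Q.natDegree := fun g => (htr.1 K _ Q).1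
  have de : ∀ g, (sw (mp (emb K g) Q)).natDegree = (sw Q).natDegree := fun g => by
    rw [(htr.1 K _ Q).2, (htr.1 K _ _).1]
  simp only [dd, de, sum_const, card_univ, smul_eq_mul] at c1 c4
  have d1 : 1 ≤ Q.natDegree := Nat.pos_of_ne_zero fun h => by
    rw [h] at c1; exact (Nat.mul_pos t1 gP.1).ne c1
  have e1 : 1 ≤ (sw Q).natDegree := Nat.pos_of_ne_zero fun h => by
    rw [h] at c4; exact (Nat.mul_pos t1 gP'.1).ne c4
  obtain ⟨s1, s2, s3, s4⟩ := hs _ _ _ t q B B' φ gP gP' hφ q0'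
    (fun g => ⟨hdv g, (dd g).symm ▸ d1, (de g).symm ▸ e1⟩) pr
  have gQ := fun g => hcp.1 _ _ B gP (hdv g) ((dd g).symm ▸ d1)
  have i0 : emb K 1 = algebraMap K ℂ := RingHom.ext fun _ => rfl
  refine fin (d1 := Q.natDegree) (e1 := (sw Q).natDegree) (n := Fintype.card (K ≃ₐ[ℚ] K)) (t := t)
    (Nat.cast_pos.2 gP.1) (Nat.cast_pos.2 gP'.1) (Nat.cast_pos.2 Fintype.card_pos)
    (Nat.cast_pos.2 t1) (by exact_mod_cast c1) (by exact_mod_cast c4) fun ε hε => ?_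
  filter_upwards [eventually_all.2 fun g => ub hub (gQ g).1 ((gQ g).2.1 φ hφ) hε (dd g)] with k hk
  obtain ⟨G, G1, G2, G3⟩ := htr.2.2.2 K Q k Q.natDegree
  obtain ⟨p, hp, p0, hl⟩ := hlb K _ (emb K) 1 Q (log ‖(q : ℂ)‖) (i0 ▸ irr) e1
    (h3 P K Q t q Q0 q0 pr) _ G k 0 (fun p => -k * φ p) G1 G2
    (by simpa only [G3] using pts hc ha (gQ 1).1 (dd 1) k) fun g =>
      (hcp.2.1 _ B B' _ (gQ g).1 (s1 g)
        (((had _ B (gQ g).1).2.2.2 φ ((gQ g).2.1 φ hφ)).2.2.2.2.2.1 (-k))).2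
  simp only [G3] at p0 hl
  have h5 := hl.trans (sum_le_sum fun g _ => hk g (p g) (hp g) (p0 g))
  simp only [My_mul, sum_add_distrib, sum_neg_distrib, ← mul_sum, ← sum_div, s2, s3, s4, c3,
    sum_const, card_univ, nsmul_eq_mul] at h5
  push_cast at h5
  refine le_of_eq_of_le ?_ (h5.trans_eq ?_) <;> ring

end Pool.Agent.MP_670f9a_nt.GL
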