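import Pool.Agent.MP_670f9a_nt.H83.Spec

/-! Row Had: a weighted bound for the determinant of monomials. -/

namespace Pool.Agent.MP_670f9a_nt.GL

open Real Finset

namespace HadA

theorem exU {ι : Type} [DecidableEq ι] (ρ : ι → ℝ) (h : ∀ i, 0 < ρ i) (s : Finset ι) :
    ∃ U : ℕ → ℝ, (∀ b, 0 < U b) ∧
      (∀ b ≤ s.card, ∀ t : ℝ, 0 ≤ t → t ^ b * U b ≤ ∏ i ∈ s, max t (ρ i)) ∧
      2 * ∑ b ∈ range (s.card + 1), log (U b) =
        ∑ i ∈ s, ∑ j ∈ s, log (max (ρ i) (ρ j)) + ∑ i ∈ s, log (ρ i) := by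
  induction s using Finset.induction_on_max_value ρ with
  | empty => exact ⟨fun _ => 1, fun _ => one_pos, fun b hb t _ => by simp_all, by simp⟩
  | insert a s ha hm ih =>
    obtain ⟨U, h1, h2, h3⟩ := ih
    refine ⟨fun b => if b ≤ s.card then U b * ρ a else 1, fun b => ?_, fun b hb t ht => ?_, ?_⟩ <;>
      beta_reduce
    · split_ifs
      · exact mul_pos (h1 b) (h a)
      · exact one_pos
    · split_ifs with e
      · rw [prod_insert ha, ← mul_assoc, mul_comm (max _ _)]
        exact mul_le_mul (h2 b e t ht) (le_max_right _ _) (h a).le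
          (prod_nonneg fun i _ => ht.trans (le_max_left _ _))
      · rw [mul_one, show b = (insert a s).card by rw [card_insert_of_notMem ha] at hb ⊢; omega,
          ← prod_const]
        exact prod_le_prod (fun _ _ => ht) fun _ _ => le_max_left _ _
    · rw [card_insert_of_notMem ha, sum_range_succ, if_neg (Nat.not_succ_le_self _), log_one,
        sum_congr rfl fun b hb => by
          rw [if_pos (Nat.lt_succ_iff.1 (mem_range.1 hb)), log_mul (h1 b).ne' (h a).ne']]
      simp only [sum_insert ha, sum_add_distrib, max_self]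
      rw [sum_congr rfl fun j hj => congrArg log (max_eq_left (hm j hj)),
        sum_congr rfl fun j hj => congrArg log (max_eq_right (hm j hj))]
      simp only [sum_const, card_range, nsmul_eq_mul]
      push_cast
      linarith

theorem det_le {ι : Type} [Fintype ι] [DecidableEq ι] (M : Matrix ι ι ℂ) (w u : ι → ℝ)
    (h : ∀ i j, ‖M i j‖ ≤ w i / u j) :
    ‖M.det‖ ≤ (Fintype.card ι).factorial * ((∏ i, w i) / ∏ j, u j) := by
  rw [Matrix.det_apply', ← Fintype.card_perm, ← nsmul_eq_mul, ← card_univ]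
  refine (norm_sum_le _ _).trans (sum_le_card_nsmul _ _ _ fun σ _ => ?_)
  rw [norm_mul, Complex.norm_intCast, ← Int.cast_abs, Equiv.Perm.sign_abs, Int.cast_one, one_mul,
    norm_prod, ← Equiv.prod_comp σ w, ← prod_div_distrib]
  exact prod_le_prod (fun _ _ => norm_nonneg _) fun i _ => h _ _

end HadA

open HadA

theorem sHadOf : SHadOf := by
  intro k d p ρ hρ h0
  obtain ⟨U, h1, h2, h3⟩ := exU ρ hρ univ
  rw [card_univ, Fintype.card_fin] at h2 h3
  have a1 : ∀ i, 0 < max 1 ‖(p i).2‖ := fun i => lt_max_of_lt_left one_pos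
  have a2 : ∀ i b, 0 < max ‖(p i).1‖ (ρ b) := fun i b => lt_max_of_lt_right (hρ b)
  have a3 : ∀ i, 0 < max 1 ‖(p i).2‖ ^ d * ∏ b, max ‖(p i).1‖ (ρ b) := fun i =>
    mul_pos (pow_pos (a1 i) d) (prod_pos fun b _ => a2 i b)
  have h4 : ‖Dt k d p‖ ≤ _ := det_le _ (fun i => max 1 ‖(p i).2‖ ^ d * ∏ b, max ‖(p i).1‖ (ρ b))
    (fun j => U j.1) fun i j => by
      rw [Matrix.of_apply, norm_mul, norm_pow, norm_pow, le_div_iff₀ (h1 _), mul_right_comm,
        mul_comm]
      exact mul_le_mul ((pow_le_pow_left₀ (norm_nonneg _) (le_max_right _ _) _).trans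
        (pow_le_pow_right₀ (le_max_left _ _) j.2.2.le))
        (h2 _ (Nat.lt_succ_iff.1 j.1.2) _ (norm_nonneg _))
        (mul_nonneg (by positivity) (h1 _).le) (pow_pos (a1 i) d).le
  rw [Fintype.card_prod, Fintype.card_fin, Fintype.card_fin] at h4
  generalize (k + 1) * d = N at h4
  have a4 : (0 : ℝ) < N.factorial := Nat.cast_pos.2 N.factorial_pos
  have a5 : log N.factorial ≤ N * log N := by
    rw [← log_pow]
    exact log_le_log a4 (by exact_mod_cast N.factorial_le_pow)
  have h5 := log_le_log (norm_pos_iff.2 h0) h4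
  have b1 := prod_pos fun i (_ : i ∈ univ) => a3 i
  have b2 := prod_pos fun (j : Fin (k + 1) × Fin d) (_ : j ∈ univ) => h1 j.1
  rw [log_mul a4.ne' (div_pos b1 b2).ne', log_div b1.ne' b2.ne', log_prod fun i _ => (a3 i).ne',
    log_prod fun j _ => (h1 _).ne', Fintype.sum_prod_type (f := fun j : Fin (k + 1) × Fin d =>
      log (U j.1)), sum_congr rfl fun i _ => by
        rw [log_mul (pow_pos (a1 i) d).ne' (prod_pos fun b _ => a2 i b).ne', log_pow,
          log_prod fun b _ => (a2 i b).ne', ← posLog_eq_log_max_one (norm_nonneg _)]] at h5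
  simp only [sum_const, card_univ, Fintype.card_fin, nsmul_eq_mul, ← mul_sum] at h5
  rw [Fin.sum_univ_eq_sum_range (fun b => log (U b))] at h5
  rw [← h3]
  linarith

end Pool.Agent.MP_670f9a_nt.GL
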