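import Pool.Agent.MP_670f9a_nt.H83.Spec

/-! Row HadR: the radial form of the bound for the determinant. -/

set_option autoImplicit false

namespace Pool.Agent.MP_670f9a_nt.GL

open Real Finset

namespace HadRA

/-- the antiderivative -/
noncomputable def H (s u : ℝ) : ℝ := u * log (max s u) - max s u + s

theorem H_le (s : ℝ) {u : ℝ} (hu : 0 ≤ u) : H s (u + 1) - H s u ≤ log (max s (u + 1)) := by
  have h1 : max s u ≤ max s (u + 1) := max_le_max le_rfl (by linarith)
  have h2 : u ≤ max s u := le_max_right _ _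
  unfold H
  generalize max s u = A at *
  generalize max s (u + 1) = B at *
  rcases hu.eq_or_lt with rfl | h
  · linarith
  · have a0 : 0 < A := h.trans_le h2
    have h3 := log_le_sub_one_of_pos (div_pos (a0.trans_le h1) a0)
    rw [log_div (a0.trans_le h1).ne' a0.ne', div_sub_one a0.ne', le_div_iff₀ a0] at h3
    nlinarith [log_le_log a0 h1]

theorem le_H {s u : ℝ} (hu : 0 < u) : log (max s u) ≤ H s (u + 1) - H s u := by
  have a0 : 0 < max s u := hu.trans_le (le_max_right _ _)
  unfold H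
  rcases le_total (u + 1) s with h | h
  · rw [max_eq_left h, max_eq_left (by linarith)]
    linarith
  · rw [max_eq_right h]
    have b0 : 0 < u + 1 := by linarith
    have h3 := log_le_sub_one_of_pos (div_pos a0 b0)
    rw [log_div a0.ne' b0.ne', div_sub_one b0.ne', le_div_iff₀ b0] at h3
    linarith

theorem sum_bd {s : ℝ} (hs : 0 ≤ s) (m : ℕ) : H s m ≤ ∑ b ∈ range m, log (max s (b + 1)) ∧
    ∑ b ∈ range m, log (max s (b + 1)) ≤ H s (m + 1) - H s 1 := by
  induction m with
  | zero => simp [H, hs]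
  | succ m ih =>
    rw [sum_range_succ]
    push_cast
    exact ⟨by linarith [ih.1, H_le s m.cast_nonneg],
      by linarith [ih.2, le_H (s := s) (u := m + 1) (by positivity)]⟩

theorem sum_up {s : ℝ} (hs : 0 ≤ s) {j : ℕ} (hj : 1 ≤ j) :
    ∑ b ∈ range j, log (max s (b + 1)) ≤ H s j + (1 + log j) := by
  obtain ⟨m, rfl⟩ := Nat.exists_eq_add_of_le' hj
  have h1 := (sum_bd hs m).2
  have m0 : (0 : ℝ) ≤ m := m.cast_nonneg
  have a1 : 1 ≤ max s 1 := le_max_right _ _
  have h2 : log (max s (m + 1)) ≤ log (m + 1) + log (max s 1) := by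
    rw [← log_mul (by positivity) (by positivity)]
    exact log_le_log (by positivity)
      (max_le (by nlinarith [le_max_left s 1]) (le_mul_of_one_le_right (by positivity) a1))
  have h3 : max s 1 ≤ s + 1 := max_le (by linarith) (by linarith)
  rw [sum_range_succ]
  push_cast
  rw [H.eq_1 s 1] at h1
  linarith

/-- the radii -/
noncomputable def rh (R : ℝ) (j : ℕ) (b : Fin j) : ℝ := R * √(((b : ℕ) + 1) / j)

theorem key {R : ℝ} (hR : 0 < R) {j : ℕ} (hj : 1 ≤ j) (a : ℂ) :
    j * hU R a ≤ ∑ b, log (max ‖a‖ (rh R j b)) ∧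
    ∑ b, log (max ‖a‖ (rh R j b)) ≤ j * hU R a + (1 + log j) / 2 := by
  have j0 : (0 : ℝ) < j := by exact_mod_cast hj
  obtain ⟨s, hs⟩ : ∃ s : ℝ, s = j * (‖a‖ ^ 2 / R ^ 2) := ⟨_, rfl⟩
  have s0 : 0 ≤ s := by rw [hs]; positivity
  have e0 : ‖a‖ = R * √(s / j) := by
    rw [hs, mul_div_cancel_left₀ _ j0.ne', ← div_pow, sqrt_sq (by positivity),
      mul_div_cancel₀ _ hR.ne']
  have e1 : ∀ u : ℝ, 0 < u → log (R * √(u / j)) = log R + (log u - log j) / 2 := fun u hu => by
    rw [log_mul hR.ne' (by positivity), log_sqrt (by positivity), log_div hu.ne' j0.ne']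
  have e2 : ∑ b, log (max ‖a‖ (rh R j b)) =
      j * (log R - log j / 2) + (∑ b ∈ range j, log (max s (b + 1))) / 2 := by
    rw [← Fin.sum_univ_eq_sum_range (fun b => log (max s (b + 1))), sum_div, ← nsmul_eq_mul,
      ← Fin.sum_const, ← sum_add_distrib]
    refine sum_congr rfl fun b _ => ?_
    rw [e0, rh, ← mul_max_of_nonneg _ _ hR.le, ← sqrt_monotone.map_max,
      max_div_div_right j0.le, e1 _ (by positivity)]
    ring
  have e3 : j * hU R a = j * (log R - log j / 2) + H s j / 2 := by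
    unfold hU H
    split_ifs with h
    · have : s ≤ j := by
        rw [hs]
        exact mul_le_of_le_one_right j0.le ((div_le_one (by positivity)).2 (by gcongr))
      rw [max_eq_right this, hs]
      ring
    · have : (j : ℝ) ≤ s := by
        rw [hs]
        exact le_mul_of_one_le_right j0.le ((one_le_div (by positivity)).2
          (by gcongr; exact (not_le.1 h).le))
      rw [max_eq_left this, e0, e1 _ (j0.trans_le this)]
      ring
  rw [e2, e3]
  exact ⟨by linarith [(sum_bd s0 j).1], by linarith [sum_up s0 hj]⟩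

theorem rh_pos {R : ℝ} (hR : 0 < R) {j : ℕ} (b : Fin j) : 0 < rh R j b := by
  have : (0 : ℝ) < j := by exact_mod_cast b.pos
  unfold rh
  positivity

theorem sum_hU {R : ℝ} (hR : 0 < R) {j : ℕ} (hj : 1 ≤ j) :
    j * (log R - 1 / 4) ≤ ∑ b, hU R (rh R j b) := by
  have j0 : (0 : ℝ) < j := by exact_mod_cast hj
  have e : ∀ b : Fin j, hU R (rh R j b) = log R - 1 / 2 + ((b : ℕ) + 1) / (2 * j) := fun b => by
    have h1 : ((b : ℕ) : ℝ) + 1 ≤ j := by exact_mod_cast b.2
    rw [hU, Complex.norm_real, Real.norm_of_nonneg (rh_pos hR b).le, rh,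
      if_pos (mul_le_of_le_one_right hR.le (sqrt_le_one.2 ((div_le_one j0).2 h1))), mul_pow,
      sq_sqrt (by positivity)]
    field_simp
    ring
  have e2 : ∀ m : ℕ, ∑ b ∈ range m, ((b : ℝ) + 1) = m * (m + 1) / 2 := fun m => by
    induction m with
    | zero => simp
    | succ m ih => rw [sum_range_succ, ih]; push_cast; ring
  simp only [e]
  rw [sum_add_distrib, ← sum_div, Fin.sum_univ_eq_sum_range (fun b => (b : ℝ) + 1), e2, sum_const,
    card_univ, Fintype.card_fin, nsmul_eq_mul]
  have : (j : ℝ) * (j + 1) / 2 / (2 * j) = (j + 1) / 4 := by field_simp; ring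
  rw [this]
  linarith

end HadRA

open HadRA in
theorem sHadROf : SHadROf := by
  intro h n k j d R p hn hj hR hD
  subst hn
  have R0 : 0 < R := one_pos.trans_le hR
  have h1 := h (k + j) d p (Fin.append (fun _ => 1) (rh R j)) (fun b => by
    refine Fin.addCases (fun _ => ?_) (fun b => ?_) b
    · rw [Fin.append_left]; exact one_pos
    · rw [Fin.append_right]; exact rh_pos R0 b) hD
  simp only [Fin.sum_univ_add, Fin.append_left, Fin.append_right, max_self, log_one,
    sum_const_zero, zero_add, sum_const, card_univ, Fintype.card_fin, nsmul_eq_mul,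
    sum_add_distrib, max_comm (rh R j _) 1, ← mul_sum] at h1
  have h2 := (key R0 hj 1).1
  have h3 := (key R0 hj 0).1
  have h4 : ∑ b, j * hU R (rh R j b) ≤ ∑ b, ∑ b', log (max (rh R j b) (rh R j b')) :=
    sum_le_sum fun b _ => by
      simpa only [Complex.norm_real, Real.norm_of_nonneg (rh_pos R0 b).le] using
        (key R0 hj (rh R j b)).1
  have h5 : ∑ i, ∑ b, log (max ‖(p i).1‖ (rh R j b)) ≤
      ∑ i, (j * hU R (p i).1 + (1 + log j) / 2) := sum_le_sum fun i _ => (key R0 hj _).2
  rw [← mul_sum] at h4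
  rw [norm_one] at h2
  simp only [norm_zero, max_eq_right (rh_pos R0 _).le, hU, R0.le, if_true, zero_pow two_ne_zero,
    zero_div] at h3
  simp only [sum_add_distrib, sum_const, card_univ, Fintype.card_prod, Fintype.card_fin,
    nsmul_eq_mul, posLog_eq_log_max_one (norm_nonneg (p _).1), max_comm 1 ‖(p _).1‖, ← mul_sum] at h5 ⊢
  have h6 := mul_le_mul_of_nonneg_left (sum_hU R0 hj) (j.cast_nonneg (α := ℝ))
  have h7 : 0 ≤ (j : ℝ) * log R := mul_nonneg j.cast_nonneg (log_nonneg hR)
  have h8 : (((k + j + 1) * d : ℕ) : ℝ) * log j ≤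
      ((k + j + 1) * d : ℕ) * log ((k + j + 1) * d : ℕ) := by
    rcases d.eq_zero_or_pos with rfl | hd
    · simp
    · gcongr
      nlinarith
  have h9 : (d : ℝ) * j ≤ ((k + j + 1) * d : ℕ) := by exact_mod_cast (by nlinarith : d * j ≤ _)
  have h10 := log_natCast_nonneg j
  have h11 := mul_le_mul_of_nonneg_left h2 (k.cast_nonneg (α := ℝ))
  have d0 : (0 : ℝ) ≤ d := d.cast_nonneg
  have h12 := mul_le_mul_of_nonneg_left (show j ^ 2 * (log R - 1 / 4) + 2 * (j * k * hU R 1) - j / 2 ≤
    k * ∑ b, log (max 1 (rh R j b)) + (k * ∑ b, log (max 1 (rh R j b)) +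
      ∑ b, ∑ b', log (max (rh R j b) (rh R j b'))) + ∑ b, log (rh R j b) by linarith) d0
  linarith [mul_nonneg (((k + j + 1) * d : ℕ).cast_nonneg (α := ℝ)) h10,
    ((k + j + 1) * d : ℕ).cast_nonneg (α := ℝ)]

end Pool.Agent.MP_670f9a_nt.GL
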