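import Pool.Agent.MP_670f9a_nt.H83.Spec

/-! A harmonic function is orthogonal to the Laplacian of a test function. -/

namespace Pool.Agent.MP_670f9a_nt.GL

open Real MeasureTheory Metric Filter
open scoped Topology

namespace HarmA

theorem intg {a b : ℂ → ℝ} {K : Set ℂ} (hK : IsCompact K) (ha : ∀ x ∈ K, ContinuousAt a x)
    (hb : Continuous b) (hs : tsupport b ⊆ K) : Integrable fun x => a x * b x := by
  have h1 : ContinuousOn (fun x => a x * b x) K := fun x hx =>
    ((ha x hx).mul hb.continuousAt).continuousWithinAt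
  refine (integrableOn_iff_integrable_of_support_subset (s := K) fun x hx => ?_).1
    (h1.integrableOn_compact hK)
  exact hs (subset_tsupport _ fun e => hx (by simp [e]))

theorem d1 {h : ℂ → ℝ} {x : ℂ} {n m : ℕ} (hh : ContDiffAt ℝ n h x) (hm : m + 1 ≤ n) (v : ℂ) :
    ContDiffAt ℝ m (fun u => fderiv ℝ h u v) x :=
  (hh.fderiv_right (m := m) (by exact_mod_cast hm)).clm_apply contDiffAt_const

theorem dir {h ψ : ℂ → ℝ} (hψ : ContDiff ℝ 2 ψ) (hK : IsCompact (tsupport ψ))
    (hh : ∀ x ∈ tsupport ψ, ContDiffAt ℝ 2 h x) (v : ℂ) :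
    Integrable (fun x => h x * fderiv ℝ (fun u => fderiv ℝ ψ u v) x v) ∧
    Integrable (fun x => fderiv ℝ (fun u => fderiv ℝ h u v) x v * ψ x) ∧
    ∫ x, h x * fderiv ℝ (fun u => fderiv ℝ ψ u v) x v =
      ∫ x, fderiv ℝ (fun u => fderiv ℝ h u v) x v * ψ x := by
  have p1 : ∀ x, ContDiffAt ℝ (1 : ℕ) (fun u => fderiv ℝ ψ u v) x := fun x =>
    d1 (n := 2) hψ.contDiffAt le_rfl v
  have c1 : Continuous fun u => fderiv ℝ ψ u v :=
    continuous_iff_continuousAt.2 fun x => (p1 x).continuousAt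
  have c2 : Continuous fun x => fderiv ℝ (fun u => fderiv ℝ ψ u v) x v :=
    continuous_iff_continuousAt.2 fun x => (d1 (m := 0) (p1 x) le_rfl v).continuousAt
  have s1 : tsupport (fun u => fderiv ℝ ψ u v) ⊆ tsupport ψ := tsupport_fderiv_apply_subset ℝ v
  have s2 : tsupport (fun x => fderiv ℝ (fun u => fderiv ℝ ψ u v) x v) ⊆ tsupport ψ :=
    (tsupport_fderiv_apply_subset ℝ v).trans s1
  have q1 : ∀ x ∈ tsupport ψ, ContDiffAt ℝ (1 : ℕ) (fun u => fderiv ℝ h u v) x := fun x hx =>
    d1 (n := 2) (hh x hx) le_rfl v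
  have i1 := intg hK (fun x hx => (hh x hx).continuousAt) c2 s2
  have i2 := intg hK (fun x hx => (hh x hx).continuousAt) c1 s1
  have i3 := intg hK (fun x hx => (q1 x hx).continuousAt) c1 s1
  have i4 := intg hK (fun x hx => (q1 x hx).continuousAt) hψ.continuous subset_rfl
  have i5 := intg hK (fun x hx => (d1 (m := 0) (q1 x hx) le_rfl v).continuousAt) hψ.continuous
    subset_rfl
  refine ⟨i1, i5, ?_⟩
  rw [integral_mul_fderiv_eq_neg_fderiv_mul_of_integrable i3 i1 i2
      (fun x hx => (hh x (s1 hx)).differentiableAt (by norm_num))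
      (fun x _ => (p1 x).differentiableAt (by norm_num)),
    integral_mul_fderiv_eq_neg_fderiv_mul_of_integrable i5 i3 i4
      (fun x hx => (q1 x hx).differentiableAt (by norm_num))
      (fun x _ => hψ.differentiable (by norm_num) x), neg_neg]

theorem lap_zero {h : ℂ → ℝ} {x : ℂ} (hh : InnerProductSpace.HarmonicAt h x) : lap h x = 0 := by
  have d : DifferentiableAt ℝ (fderiv ℝ h) x :=
    (hh.1.fderiv_right (m := 1) (by norm_num)).differentiableAt (by norm_num)
  have e : ∀ v : ℂ, fderiv ℝ (fun u => fderiv ℝ h u v) x v = iteratedFDeriv ℝ 2 h x ![v, v] := by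
    intro v
    rw [iteratedFDeriv_two_apply, fderiv_clm_apply d (differentiableAt_const v)]
    simp
  have := hh.2.self_of_nhds
  rw [InnerProductSpace.laplacian_eq_iteratedFDeriv_complexPlane] at this
  rw [lap, e, e]
  exact this

end HarmA

open HarmA in
theorem sHarmOf : SHarmOf := by
  intro _ ψ g c r hψ hs hg h0
  have hK : IsCompact (tsupport ψ) :=
    (isCompact_closedBall c r).of_isClosed_subset (isClosed_tsupport ψ)
      (hs.trans ball_subset_closedBall)
  have hh : ∀ x ∈ tsupport ψ, InnerProductSpace.HarmonicAt (fun z => log ‖g z‖) x := fun x hx =>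
    (hg x (hs hx)).harmonicAt_log_norm (h0 x (hs hx))
  obtain ⟨a1, a2, a3⟩ := dir hψ hK (fun x hx => (hh x hx).1) 1
  obtain ⟨b1, b2, b3⟩ := dir hψ hK (fun x hx => (hh x hx).1) Complex.I
  simp only [lap, mul_add]
  refine ⟨a1.add b1, ?_⟩
  rw [integral_add a1 b1, a3, b3, ← integral_add a2 b2]
  refine integral_eq_zero_of_ae (Eventually.of_forall fun x => ?_)
  by_cases hx : x ∈ tsupport ψ
  · have := lap_zero (hh x hx)
    simp only [lap] at this
    simp only [← add_mul, this, zero_mul, Pi.zero_apply]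
  · simp [image_eq_zero_of_notMem_tsupport hx]

end Pool.Agent.MP_670f9a_nt.GL
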