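import Pool.Agent.MP_670f9a_nt.H83.Spec

/-! Iterating the step. -/

set_option autoImplicit false

namespace Pool.Agent.MP_670f9a_nt.GL

open Finset Real

theorem sIterOf : SIterOf := by
  intro hA Q h W E C₀ hS hW j
  induction j with
  | zero =>
    intro k p _ hp
    refine ⟨k, p, rfl, hp, le_of_eq ?_⟩
    simp only [Nat.cast_zero, zero_mul, range_zero, sum_empty, sum_sub_distrib, sum_add_distrib,
      sum_const_zero]
    ring
  | succ j ih =>
    intro k p ho hp
    obtain ⟨q, h1, h2, h3⟩ := hS k p _ ho hp (hW j)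
    obtain ⟨n, p', rfl, h4, h5⟩ := ih (k + 1) (addF q p) (by
      rintro ⟨a, b⟩
      induction a using Fin.cases with
      | zero => exact h1 b
      | succ a => exact ho (a, b)) h2
    refine ⟨_, p', by omega, h4, le_trans ?_ h5⟩
    rw [(hA.1 k _ p).2.2.2.1 q fun a => j * h a - W a - Q.natDegree * log⁺ ‖a.2‖, sum_range_succ]
    have : ∑ i, (((j + 1 : ℕ) : ℝ) * h (p i) - W (p i) - Q.natDegree * log⁺ ‖(p i).2‖) =
        ∑ i, (j * h (p i) - W (p i) - Q.natDegree * log⁺ ‖(p i).2‖) + ∑ i, h (p i) := by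
      rw [← sum_add_distrib]
      exact sum_congr rfl fun i _ => by push_cast; ring
    rw [this]
    push_cast
    linarith

end Pool.Agent.MP_670f9a_nt.GL
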