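import Pool.Agent.MP_670f9a_nt.H83.Spec

/-! Row JM: the formula of Jensen against a perturbed uniform probability on a disc. -/

namespace Pool.Agent.MP_670f9a_nt.GL

open Real Finset MeasureTheory Metric Filter
open scoped Topology

namespace JMA

lemma one {U : Set ℂ} (hU : IsOpen U) (hc : IsPreconnected U) {g : ℂ → ℂ} {c a : ℂ}
    (hg : AnalyticOnNhd ℂ g U) (h1 : c ∈ U) (h2 : g c ≠ 0) (ha : a ∈ U) :
    ∃ (n : ℕ) (g' : ℂ → ℂ), AnalyticOnNhd ℂ g' U ∧ g' a ≠ 0 ∧ ∀ z, g z = (z - a) ^ n * g' z := by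
  obtain ⟨p, hp⟩ := hg a ha
  have p0 : p ≠ 0 := fun h =>
    h2 (hg.eqOn_zero_of_preconnected_of_eventuallyEq_zero hc ha (hp.locally_zero_iff.2 h) h1)
  have k : ∀ n : ℕ, DifferentiableOn ℂ ((Function.swap dslope a)^[n] g) U := fun n => by
    induction n with
    | zero => exact hg.differentiableOn
    | succ n ih =>
      rw [Function.iterate_succ_apply']
      exact (Complex.differentiableOn_dslope (hU.mem_nhds ha)).2 ih
  exact ⟨p.order, _, (k _).analyticOnNhd hU, hp.iterate_dslope_fslope_ne_zero p0,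
    hp.eq_pow_order_mul_iterate_dslope⟩

lemma fac {U : Set ℂ} (hU : IsOpen U) (hc : IsPreconnected U) {f : ℂ → ℂ} {c : ℂ}
    (hf : AnalyticOnNhd ℂ f U) (h1 : c ∈ U) (h2 : f c ≠ 0) (S : Finset ℂ) (hS : ∀ a ∈ S, a ∈ U) :
    ∃ (n : ℂ → ℕ) (g : ℂ → ℂ), AnalyticOnNhd ℂ g U ∧ (∀ a ∈ S, g a ≠ 0) ∧
      ∀ z, f z = (∏ a ∈ S, (z - a) ^ n a) * g z := by
  classical
  induction S using Finset.induction_on with
  | empty => exact ⟨0, f, hf, by simp, by simp⟩
  | insert a S ha ih =>
    obtain ⟨n, g, g1, g2, g3⟩ := ih fun b hb => hS b (mem_insert_of_mem hb)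
    obtain ⟨k, g', k1, k2, k3⟩ := one hU hc g1 h1 (right_ne_zero_of_mul (g3 c ▸ h2))
      (hS a (mem_insert_self _ _))
    refine ⟨Function.update n a k, g', k1, fun b hb => ?_, fun z => ?_⟩
    · rcases mem_insert.1 hb with rfl | hb
      · exact k2
      · exact right_ne_zero_of_mul (k3 b ▸ g2 b hb)
    · have e : ∏ b ∈ S, (z - b) ^ Function.update n a k b = ∏ b ∈ S, (z - b) ^ n b :=
        prod_congr rfl fun b hb => by rw [Function.update_of_ne (ne_of_mem_of_not_mem hb ha)]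
      rw [prod_insert ha, Function.update_self, g3, k3, e]
      ring

lemma part {c : ℂ} {r x y : ℝ} {ψ L : ℂ → ℝ} (hr : 0 < r) (h1 : IntegrableOn L (ball c r))
    (e1 : ∫ z in ball c r, L z = π * r ^ 2 * x) (h2 : Integrable fun z => L z * lap ψ z)
    (e2 : ∫ z, L z * lap ψ z = 2 * π * y) :
    Integrable (fun z => L z * wt c r ψ z) ∧ ∫ z, L z * wt c r ψ z = x - y := by
  have e : (fun z => L z * wt c r ψ z) = fun z =>
      (ball c r).indicator L z * (π * r ^ 2)⁻¹ - L z * lap ψ z / (2 * π) := funext fun z => by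
    by_cases hz : z ∈ ball c r
    · simp only [wt, Set.indicator_of_mem hz]
      ring
    · simp only [wt, Set.indicator_of_notMem hz]
      ring
  have i1 := ((integrable_indicator_iff measurableSet_ball).2 h1).mul_const (π * r ^ 2)⁻¹
  have i2 := h2.div_const (2 * π)
  rw [e]
  refine ⟨i1.sub i2, ?_⟩
  rw [integral_sub i1 i2, integral_mul_const, integral_div, integral_indicator measurableSet_ball,
    e1, e2]
  field_simp

end JMA

theorem sJMOf : SJMOf := by
  classical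
  intro hF hH hD c r f Z ψ hr hf hc hZ hψ hs hb
  obtain ⟨d1, d2, -, -, d5, -⟩ := hD r hr
  have sub : closedBall c r ⊆ ball c (2 * r) := closedBall_subset_ball (by linarith)
  have sub' : ball c (r / 2) ⊆ ball c r := ball_subset_ball (by linarith)
  obtain ⟨-, f2, -, -, -, f6⟩ := hF ψ hψ
    ((isCompact_closedBall c (r / 2)).of_isClosed_subset (isClosed_tsupport ψ)
      (hs.trans ball_subset_closedBall))
  have fin : (closedBall c r \ {z | f z ≠ 0}).Finite :=
    (isCompact_closedBall c r).finite_sdiff_of_mem_codiscreteWithin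
      (((hf.mono sub).eqOn_zero_or_eventually_ne_zero_of_preconnected
        (convex_closedBall c r).isPreconnected).resolve_left
          fun h => hc (h (mem_closedBall_self hr.le)))
  have hS : ∀ a ∈ fin.toFinset ∪ Z, a ∈ ball c (2 * r) ∧ f a = 0 := fun a ha =>
    (mem_union.1 ha).elim (fun h => ⟨sub (fin.mem_toFinset.1 h).1,
      not_not.1 (fin.mem_toFinset.1 h).2⟩) (hZ a)
  obtain ⟨n, g, g1, g2, g3⟩ := JMA.fac isOpen_ball (convex_ball c (2 * r)).isPreconnected hf
    (mem_ball_self (by linarith)) hc _ fun a ha => (hS a ha).1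
  have g4 : ∀ z ∈ closedBall c r, g z ≠ 0 := fun z hz h => g2 z (mem_union_left _
    (fin.mem_toFinset.2 ⟨hz, not_not.2 (by rw [g3, h, mul_zero])⟩)) h
  have hZS : Z ⊆ fin.toFinset ∪ Z := subset_union_right
  generalize fin.toFinset ∪ Z = S at hS g2 g3 hZS
  have lg : ∀ z, z ∉ S → g z ≠ 0 → log ‖f z‖ = ∑ a ∈ S, n a * log ‖z - a‖ + log ‖g z‖ :=
    fun z hz h => by
      have k : ∀ a ∈ S, ‖z - a‖ ^ n a ≠ 0 := fun a ha =>
        pow_ne_zero _ (norm_ne_zero_iff.2 (sub_ne_zero.2 (ne_of_mem_of_not_mem ha hz).symm))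
      simp only [g3, norm_mul, norm_prod, norm_pow]
      rw [log_mul (prod_ne_zero_iff.2 k) (norm_ne_zero_iff.2 h), log_prod k]
      simp only [log_pow]
  have p1 : ∀ a, Integrable (fun z => log ‖z - a‖ * wt c r ψ z) ∧
      ∫ z, log ‖z - a‖ * wt c r ψ z = hU r (a - c) - ψ a := fun a =>
    JMA.part hr (by simpa only [norm_sub_rev a] using (d1 c a).1)
      (by simpa only [norm_sub_rev a] using (d1 c a).2) (f6 a).1 (f6 a).2
  obtain ⟨q1, q2⟩ := d2 c g (g1.mono sub) g4
  obtain ⟨q3, q4⟩ := hH ψ g c r hψ (hs.trans sub') (g1.mono (ball_subset_closedBall.trans sub))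
    fun z hz => g4 z (ball_subset_closedBall hz)
  obtain ⟨p2, p3⟩ := JMA.part (y := 0) hr q1 q2 q3 (by rw [q4, mul_zero])
  have e : (fun z => log ‖f z‖ * wt c r ψ z) =ᵐ[volume] fun z =>
      ∑ a ∈ S, n a * (log ‖z - a‖ * wt c r ψ z) + log ‖g z‖ * wt c r ψ z := by
    filter_upwards [S.countable_toSet.ae_notMem volume] with z hz
    by_cases h : z ∈ ball c r
    · rw [lg z hz (g4 z (ball_subset_closedBall h)), add_mul, sum_mul]
      simp only [mul_assoc]
    · simp [wt, Set.indicator_of_notMem h, f2 z fun k => h (sub' (hs k))]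
  have i1 := integrable_finsetSum S fun a _ => (p1 a).1.const_mul (n a : ℝ)
  refine ⟨(i1.add p2).congr e.symm, ?_⟩
  have c0 : ∀ a ∈ S, a - c ≠ 0 := fun a ha h => hc (sub_eq_zero.1 h ▸ (hS a ha).2)
  rw [integral_congr_ae e, integral_add i1 p2, p3,
    integral_finsetSum S fun a _ => (p1 a).1.const_mul (n a : ℝ),
    lg c (fun h => c0 c h (sub_self c)) (g4 c (mem_closedBall_self hr.le))]
  simp only [integral_const_mul, fun a => (p1 a).2]
  have P : ∀ a ∈ S, 0 ≤ hU r (a - c) - log ‖a - c‖ - ψ a := fun a ha => by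
    by_cases h : a ∈ tsupport ψ
    · have := (d5 (a - c)).2.2 (c0 a ha) (mem_ball_iff_norm.1 (hs h)).le
      linarith [(abs_le.1 (hb a)).2]
    · rw [image_eq_zero_of_notMem_tsupport h]
      linarith [(d5 (a - c)).2.1 (c0 a ha)]
  have k : ∑ a ∈ Z, (hU r (a - c) - log ‖a - c‖ - ψ a) ≤
      ∑ a ∈ S, n a * (hU r (a - c) - log ‖a - c‖ - ψ a) := by
    refine (sum_le_sum_of_subset_of_nonneg hZS fun a ha _ => P a ha).trans
      (sum_le_sum fun a ha => le_mul_of_one_le_left (P a ha) ?_)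
    have := (hS a ha).2
    rw [g3, mul_eq_zero, or_iff_left (g2 a ha), prod_eq_zero_iff] at this
    obtain ⟨b, -, hb⟩ := this
    obtain ⟨b1, b2⟩ := pow_eq_zero_iff'.1 hb
    rw [sub_eq_zero.1 b1]
    exact_mod_cast Nat.one_le_iff_ne_zero.2 b2
  have k' : ∑ a ∈ S, n a * (hU r (a - c) - log ‖a - c‖ - ψ a) =
      ∑ a ∈ S, n a * (hU r (a - c) - ψ a) - ∑ a ∈ S, n a * log ‖c - a‖ := by
    rw [← sum_sub_distrib]
    exact sum_congr rfl fun a _ => by rw [norm_sub_rev c]; ring
  linarith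

end Pool.Agent.MP_670f9a_nt.GL
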