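import Pool.Agent.MP_670f9a_nt.H83.Spec

/-!
An integrable lower bound for the logarithm of the Vandermonde determinant of a fibre.
-/

namespace Pool.Agent.MP_670f9a_nt.GL

open Polynomial Real Finset MeasureTheory Metric

namespace JunkA

theorem log_prod (s : Multiset ℂ) (g : ℂ → ℂ) (h : ∀ y ∈ s, g y ≠ 0) :
    log ‖(s.map g).prod‖ = (s.map fun y => log ‖g y‖).sum := by
  induction s using Multiset.induction_on with
  | empty => simp
  | cons a s ih =>
    have h1 : ∀ y ∈ s, g y ≠ 0 := fun y hy => h y (Multiset.mem_cons_of_mem hy)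
    have h2 : (s.map g).prod ≠ 0 := Multiset.prod_ne_zero fun h0 => by
      obtain ⟨y, hy, e⟩ := Multiset.mem_map.mp h0
      exact h1 y hy e
    rw [Multiset.map_cons, Multiset.prod_cons, norm_mul, log_mul (norm_ne_zero_iff.mpr
      (h a (Multiset.mem_cons_self _ _))) (norm_ne_zero_iff.mpr h2), ih h1, Multiset.map_cons,
      Multiset.sum_cons]

theorem log_res (f : ℂ[X]) (h0 : f ≠ 0) (hn : f.roots.Nodup) :
    log ‖resultant f (derivative f) f.natDegree f.natDegree‖ = 2 * f.natDegree * log ‖f.leadingCoeff‖ +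
      (f.roots.map fun y => (f.roots.map fun y' => log ‖y - y'‖).sum).sum := by
  classical
  have ha : f.leadingCoeff ≠ 0 := leadingCoeff_ne_zero.mpr h0
  have hs := IsAlgClosed.splits f
  have hne : ∀ y, ∀ y' ∈ f.roots.erase y, y - y' ≠ 0 := fun y y' hy' =>
    sub_ne_zero.mpr (hn.mem_erase_iff.mp hy').1.symm
  have hd : ∀ y ∈ f.roots, (derivative f).eval y =
      f.leadingCoeff * ((f.roots.erase y).map fun y' => y - y').prod := by
    intro y hy
    rw [← eval_multiset_prod_X_sub_C_derivative hy]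
    conv_lhs => rw [hs.eq_prod_roots]
    rw [derivative_C_mul, eval_mul, eval_C]
  have hp : ∀ y, ((f.roots.erase y).map fun y' => y - y').prod ≠ 0 := fun y =>
    Multiset.prod_ne_zero fun h => by
      obtain ⟨y', hy', e⟩ := Multiset.mem_map.mp h
      exact hne y y' hy' e
  have hd0 : ∀ y ∈ f.roots, (derivative f).eval y ≠ 0 := fun y hy => by
    rw [hd y hy]
    exact mul_ne_zero ha (hp y)
  have hl : ∀ y ∈ f.roots, log ‖(derivative f).eval y‖ =
      log ‖f.leadingCoeff‖ + (f.roots.map fun y' => log ‖y - y'‖).sum := by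
    intro y hy
    rw [hd y hy, norm_mul, log_mul (norm_ne_zero_iff.mpr ha) (norm_ne_zero_iff.mpr (hp y)),
      log_prod _ _ (hne y)]
    conv_rhs => rw [← Multiset.cons_erase hy]
    simp
  have hq : (f.roots.map (derivative f).eval).prod ≠ 0 := Multiset.prod_ne_zero fun h => by
    obtain ⟨y, hy, e⟩ := Multiset.mem_map.mp h
    exact hd0 y hy e
  rw [resultant_eq_prod_eval f _ _ ((natDegree_derivative_le f).trans (Nat.sub_le _ _)) hs, norm_mul,
    log_mul (norm_ne_zero_iff.mpr (pow_ne_zero _ ha)) (norm_ne_zero_iff.mpr hq), norm_pow, Real.log_pow,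
    log_prod _ _ hd0, Multiset.map_congr rfl hl, Multiset.sum_map_add, Multiset.map_const',
    Multiset.sum_replicate, ← hs.natDegree_eq_card_roots, nsmul_eq_mul]
  ring

end JunkA

theorem sJunkOf : SJunkOf := by
  intro hD Q B R hG hR
  obtain ⟨M, hM⟩ := (isCompact_closedBall (0 : ℂ) R).exists_bound_of_continuousOn
    (f := fun x => ∑ j ∈ range (Q.natDegree + 1), ‖(Q.coeff j).eval x‖) (by fun_prop)
  refine ⟨fun x => 1 / 2 * log ‖(resultant Q (derivative Q) Q.natDegree Q.natDegree).eval x‖ -
    Q.natDegree * log M, ?_, fun x hx hxR => ?_⟩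
  · exact (((hD R hR).2.2.1 0 _).const_mul _).sub (integrableOn_const measure_ball_lt_top.ne)
  · obtain ⟨hc, hn⟩ := hG.2 x hx
    unfold lv fs
    unfold fib at hc hn ⊢
    have hdeg : (Q.map (evalRingHom x)).natDegree = Q.natDegree :=
      le_antisymm natDegree_map_le (hc ▸ card_roots' _)
    have h0 : Q.map (evalRingHom x) ≠ 0 := fun h => by
      have := hG.1
      rw [h, natDegree_zero] at hdeg
      omega
    have e1 := JunkA.log_res _ h0 hn
    rw [hdeg, derivative_map, resultant_map_map, coe_evalRingHom] at e1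
    have e2 := logMahlerMeasure_eq_log_leadingCoeff_add_sum_log_roots (Q.map (evalRingHom x))
    have e3 : (Q.map (evalRingHom x)).logMahlerMeasure ≤ log M := by
      rw [logMahlerMeasure_eq_log_MahlerMeasure]
      refine log_le_log (mahlerMeasure_pos_of_ne_zero h0) ((mahlerMeasure_le_sum_norm_coeff _).trans ?_)
      rw [sum_over_range _ fun _ => norm_zero, hdeg]
      simp only [coeff_map, coe_evalRingHom]
      exact (le_abs_self _).trans (hM x (mem_closedBall_zero_iff.mpr hxR.le))
    have e4 := mul_le_mul_of_nonneg_left e3 (Nat.cast_nonneg Q.natDegree : (0 : ℝ) ≤ _)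
    rw [e2] at e4
    simp only [e1]
    linarith

end Pool.Agent.MP_670f9a_nt.GL
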