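import Pool.Agent.MP_670f9a_nt.H83.Spec

/-! The arithmetic lower bound, by induction on the number of points. -/

namespace Pool.Agent.MP_670f9a_nt.GL

open Polynomial Real Finset
open Pool.Agent.MP_670f9a_nt.NP (m2)

namespace LBA

theorem fs_mul (Q : ℂ[X][X]) (a : ℝ) (F : ℂ × ℂ → ℝ) : fs Q (fun p => a * F p) = a • fs Q F := by
  ext x
  simp only [fs, Multiset.sum_map_mul_left, Pi.smul_apply, smul_eq_mul]

theorem my_mul (Q : ℂ[X][X]) (a : ℝ) (F : ℂ × ℂ → ℝ) : My Q (fun p => a * F p) = a * My Q F := by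
  unfold My Mx
  rw [fs_mul, circleAverage_smul, smul_eq_mul]

theorem lead {R S : Type} [CommRing R] [CommRing S] (f : R →+* S) (P : R[X]) (T : ℕ)
    (h0 : f (P.coeff T) ≠ 0) (h : ∀ j, T < j → f (P.coeff j) = 0) :
    P.map f ≠ 0 ∧ (P.map f).leadingCoeff = f (P.coeff T) := by
  have h1 : (P.map f).coeff T ≠ 0 := by rwa [coeff_map]
  have h2 : (P.map f).natDegree = T := le_antisymm
    (natDegree_le_iff_coeff_eq_zero.2 fun j hj => by rw [coeff_map, h j hj])
    (le_natDegree_of_ne_zero h1)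
  exact ⟨fun e => h1 (by rw [e, coeff_zero]), by rw [leadingCoeff, h2, coeff_map]⟩

end LBA

open LBA in
theorem sLBOf : SLBOf := by
  intro _ hR hT hN hP K _ ι _ σ i₀ Q κ hirr he hκ l
  have hd : ∀ s : K →+* ℂ, (sw (mp s Q)).natDegree = (sw Q).natDegree := fun s => by
    rw [(hT.1 K s Q).2, (hT.1 K s (sw Q)).1]
  induction l with
  | zero =>
    rintro G k E Y - hE ⟨p, -, hp⟩ -
    have e : ∀ (s : K →+* ℂ) (p : Fin 0 → ℂ × ℂ), ev s p G = s (G.coeff 0) := fun s p => by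
      conv_lhs => rw [MvPolynomial.eq_C_of_isEmpty G]
      simp [ev]
    have h0 : G.coeff 0 ≠ 0 := fun h => hp (by rw [e, h, map_zero])
    refine ⟨fun _ => Fin.elim0, fun _ j => j.elim0, fun i => by rwa [e, _root_.map_ne_zero], ?_⟩
    simpa [e] using hκ _ E h0 (hE 0)
  | succ l ih =>
    rintro G k E Y hk hE ⟨p, hp, hp0⟩ hY
    obtain ⟨R, hR1, hR2⟩ := hR K l Q G k E he hk hE
    obtain ⟨H, hH⟩ := hT.2.2.1 K l (σ i₀) (Fin.tail p) G
    obtain ⟨ξ, hξ, hξ'⟩ := hN (mp (σ i₀) Q) H hirr (by rwa [hd]) ⟨p 0, hp 0, by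
      rw [hH]
      rwa [Fin.cons_self_tail p]⟩
    rw [hd] at hξ
    have h1 : R.map (ev (σ i₀) (Fin.tail p)) ≠ 0 := fun h => by
      have h2 := hR2 (σ i₀) (Fin.tail p) ξ hξ
      rw [h, eval_zero, norm_zero] at h2
      refine mul_ne_zero (pow_ne_zero _ (norm_ne_zero_iff.2 (leadingCoeff_ne_zero.2 fun h3 => ?_)))
        (Multiset.prod_ne_zero fun h3 => ?_) h2.symm
      · rw [fib, h3, roots_zero, Multiset.card_zero] at hξ
        omega
      · obtain ⟨x, hx, h4⟩ := Multiset.mem_map.1 h3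
        exact hξ' x hx (by rw [hH, norm_eq_zero.1 h4])
    classical
    let A : ℕ → Prop := fun j => ∃ p' : Fin l → ℂ × ℂ, (∀ i, On (mp (σ i₀) Q) (p' i)) ∧
      ev (σ i₀) p' (R.coeff j) ≠ 0
    have hA : A (Nat.findGreatest A R.natDegree) :=
      Nat.findGreatest_spec (natDegree_map_le (f := ev (σ i₀) (Fin.tail p)))
        ⟨Fin.tail p, fun i => hp i.succ, by
          rw [← coeff_map]
          exact leadingCoeff_ne_zero.2 h1⟩
    have hA' : ∀ j, Nat.findGreatest A R.natDegree < j → ∀ i (p' : Fin l → ℂ × ℂ),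
        (∀ a, On (mp (σ i) Q) (p' a)) → ev (σ i) p' (R.coeff j) = 0 := fun j hj i => by
      refine hT.2.1 K l (σ i₀) (σ i) Q _ fun p' hp' => ?_
      by_cases h : j ≤ R.natDegree
      · by_contra h'
        exact Nat.findGreatest_is_greatest hj h ⟨p', hp', h'⟩
      · rw [coeff_eq_zero_of_natDegree_lt (not_le.1 h), map_zero]
    generalize Nat.findGreatest A R.natDegree = T at hA hA'
    obtain ⟨p', h2, h3, h4⟩ := ih (R.coeff T) _ _ (fun q => (sw Q).natDegree * Y q) (hR1 T).1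
      (hR1 T).2 hA fun i => by
        rw [fs_mul]
        exact (hY i).const_smul
    have h5 := fun i => lead (ev (σ i) (p' i)) R T (h3 i) fun j hj =>
      hA' j hj i (p' i) fun a => (h2 i a).1
    choose q q1 q2 q3 q4 using fun i => hP (mp (σ i) Q) _
      (fun q => ev (σ i) (Fin.cons q (p' i)) G) k Y (by rwa [hd]) (h5 i).1 (hY i)
      fun ξ hξ => hR2 (σ i) (p' i) ξ (by rwa [hd] at hξ)
    refine ⟨fun i => Fin.cons (q i) (p' i), fun i j => Fin.cases ⟨q1 i, q2 i⟩ (h2 i) j, q3, ?_⟩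
    simp only [hd, fun i => (h5 i).2] at q4
    have h6 := sum_le_sum fun i (_ : i ∈ univ) => q4 i
    have he' : (0 : ℝ) < (sw Q).natDegree := by exact_mod_cast he
    simp only [my_mul, Nat.cast_mul, Nat.cast_add, mul_assoc, ← mul_sub, ← mul_sum] at h4
    rw [← mul_add, ← mul_assoc, div_mul_cancel₀ _ he'.ne'] at h4
    refine le_of_mul_le_mul_left ?_ he'
    rw [mul_add, ← mul_assoc _ (_ / _), mul_div_cancel₀ _ he'.ne']
    simp only [Fin.sum_univ_succ, Fin.cons_zero, Fin.cons_succ, sum_add_distrib, sum_sub_distrib,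
      ← mul_sum] at h4 h6 ⊢
    push_cast
    linarith

end Pool.Agent.MP_670f9a_nt.GL

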