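import Pool.Agent.MP_670f9a_nt.H83.Spec

/-! Holomorphic roots above small discs. -/

namespace Pool.Agent.MP_670f9a_nt.GL

open Polynomial Finset Metric Filter
open scoped Topology ContDiff

namespace LocA

theorem cd (Q : ℂ[X][X]) :
    ContDiff ℂ ω fun p : ℂ × ℂ => (Q.map (evalRingHom p.1)).eval p.2 := by
  induction Q using Polynomial.induction_on' with
  | add p q hp hq =>
    simp only [Polynomial.map_add, eval_add]
    exact hp.add hq
  | monomial n a =>
    simp only [map_monomial, eval_monomial, coe_evalRingHom]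
    exact ((a.contDiff_aeval ω).comp contDiff_fst).mul (contDiff_snd.pow n)

theorem branch (Q : ℂ[X][X]) {x y : ℂ} (h : (derivative (Q.map (evalRingHom x))).eval y ≠ 0) :
    ∃ v : ℂ → ℂ, AnalyticAt ℂ v x ∧ v x = y ∧
      ∀ᶠ z in 𝓝 x, (Q.map (evalRingHom z)).eval (v z) = (Q.map (evalRingHom x)).eval y := by
  have c := (cd Q).contDiffAt (x := (x, y))
  have n : (ω : ℕ∞ω) ≠ 0 := by simp
  have a := (c.differentiableAt n).hasFDerivAt.comp y (hasFDerivAt_prodMk_right x y)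
  have e := a.unique ((Q.map (evalRingHom x)).hasDerivAt y).hasFDerivAt
  have i : (fderiv ℂ (fun p : ℂ × ℂ => (Q.map (evalRingHom p.1)).eval p.2) (x, y) ∘L
      .inr ℂ ℂ ℂ).IsInvertible := by
    rw [e]
    exact ⟨ContinuousLinearEquiv.unitsEquivAut ℂ (Units.mk0 _ h), by ext; simp⟩
  exact ⟨c.implicitFunction n i, (c.contDiffAt_implicitFunction n i).analyticAt,
    c.implicitFunction_apply_self n i, c.eventually_apply_implicitFunction n i⟩

theorem ne0 {Q : ℂ[X][X]} {B : Finset ℂ} (h : Good Q B) {x : ℂ} (hx : x ∉ B) :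
    Q.map (evalRingHom x) ≠ 0 := fun e => by
  have := (h.2 x hx).1
  rw [fib, e, roots_zero, Multiset.card_zero] at this
  exact absurd h.1 (by omega)

theorem loc {Q : ℂ[X][X]} {B : Finset ℂ} (h : Good Q B) {x : ℂ} (hx : x ∉ B) :
    ∃ r : ℝ, 0 < r ∧ ∃ y, Sheets Q B x r y := by
  classical
  obtain ⟨h1, h2⟩ := h.2 x hx
  let e := Finset.equivFinOfCardEq (s := ⟨fib Q x, h2⟩) h1
  have hr : ∀ σ, (Q.map (evalRingHom x)).IsRoot (e.symm σ) := fun σ =>
    isRoot_of_mem_roots (e.symm σ).2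
  have hd : ∀ σ, (derivative (Q.map (evalRingHom x))).eval (e.symm σ : ℂ) ≠ 0 := fun σ k => by
    have a := (one_lt_rootMultiplicity_iff_isRoot (ne0 h hx)).2 ⟨hr σ, k⟩
    rw [← count_roots] at a
    exact absurd (Multiset.nodup_iff_count_le_one.1 h2 _) (not_le.2 a)
  choose v v1 v2 v3 using fun σ => branch Q (hd σ)
  have a1 : ∀ᶠ z in 𝓝 x, ∀ σ, AnalyticAt ℂ (v σ) z :=
    eventually_all.2 fun σ => (v1 σ).eventually_analyticAt
  have a2 := eventually_all.2 v3
  have a3 : ∀ᶠ z in 𝓝 x, ∀ σ τ, v σ z = v τ z → σ = τ :=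
    eventually_all.2 fun σ => eventually_all.2 fun τ => by
      by_cases k : σ = τ
      · exact Eventually.of_forall fun _ _ => k
      · have : v σ x - v τ x ≠ 0 := by
          rw [v2, v2, sub_ne_zero]
          exact fun j => k (e.symm.injective (Subtype.ext j))
        filter_upwards [((v1 σ).continuousAt.sub (v1 τ).continuousAt).eventually_ne this]
          with z hz j using absurd (sub_eq_zero.2 j) hz
  have a4 : ∀ᶠ z in 𝓝 x, z ∉ B := B.finite_toSet.isClosed.isOpen_compl.mem_nhds hx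
  obtain ⟨r, r0, hb⟩ := Metric.eventually_nhds_iff_ball.1 (a1.and (a2.and (a3.and a4)))
  refine ⟨r, r0, v, fun σ z hz => (hb z hz).1 σ, fun z hz => ?_⟩
  obtain ⟨-, b2, b3, b4⟩ := hb z hz
  refine ⟨b4, (Multiset.eq_of_le_of_card_le ((Multiset.le_iff_subset
    (univ.nodup.map fun σ τ => b3 σ τ)).2 fun y hy => ?_) ?_).symm⟩
  · obtain ⟨σ, -, rfl⟩ := Multiset.mem_map.1 hy
    exact (mem_roots (ne0 h b4)).2 ((b2 σ).trans (hr σ))
  · simp [(h.2 z b4).1]

end LocA

open LocA in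
theorem sLocOf : SLocOf := by
  intro Q B K h hK hd
  choose r r0 y hy using fun c : K => loc h (x := c) fun k => Set.disjoint_left.1 hd c.2 k
  obtain ⟨δ, δ0, hδ⟩ := lebesgue_number_lemma_of_metric hK (c := fun c : K => ball c.1 (r c))
    (fun _ => isOpen_ball) fun c hc => Set.mem_iUnion.2 ⟨⟨c, hc⟩, mem_ball_self (r0 _)⟩
  refine ⟨δ, δ0, fun c hc => ?_⟩
  obtain ⟨i, hi⟩ := hδ c hc
  exact ⟨y i, fun σ => ((hy i).1 σ).mono hi, fun z hz => (hy i).2 z (hi hz)⟩

end Pool.Agent.MP_670f9a_nt.GL
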