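import Pool.Agent.MP_670f9a_nt.H83.Spec

/-! The mass carried by the annulus at one scale. -/

namespace Pool.Agent.MP_670f9a_nt.GL

open Polynomial Real Finset MeasureTheory Metric Filter
open scoped ENNReal ComplexConjugate Topology

namespace MassA

theorem avg_mono {f g : ℂ → ℝ} (B : Finset ℂ) (hf : CircleIntegrable f 0 1)
    (hg : CircleIntegrable g 0 1) (h : ∀ x ∉ B, ‖x‖ = 1 → f x ≤ g x) :
    circleAverage f 0 1 ≤ circleAverage g 0 1 := by
  classical
  have e : g =ᶠ[codiscreteWithin (sphere (0 : ℂ) |1|)] fun x => if x ∈ B then f x else g x := by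
    filter_upwards [compl_finite_mem_codiscreteWithin B.finite_toSet] with x hx
    rw [if_neg (by simpa using hx)]
  rw [circleAverage_congr_codiscreteWithin e one_ne_zero]
  refine circleAverage_mono hf (hg.congr_codiscreteWithin e) fun x hx => ?_
  split_ifs with hB
  · exact le_rfl
  · exact h x hB (by simpa using hx)

theorem gam_ge (hG : SGam) (s : ℝ) : 1 - 2 * |s| ≤ gam (s ^ 2) := by
  obtain ⟨⟨-, h0, -, h1, -⟩, -⟩ := hG
  have := abs_nonneg s
  rcases le_total |s| (1 / 2) with h | h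
  · rw [(h1 _ (by nlinarith [sq_abs s])).1]
    linarith
  · linarith [(h0 (s ^ 2)).1]

theorem low (hG : SGam) {Q : ℂ[X][X]} {B : Finset ℂ} (hQ : Good Q B) {t : ℝ} (ht : 0 < t) {x : ℂ}
    (hx : x ∉ B) (h1 : ‖x‖ = 1) :
    Q.natDegree - 2 * Q.natDegree / t * fs Q (fun p => |log ‖p.2‖|) x ≤ fs Q (cut Q t) x := by
  have k : ∀ y : ℂ, 1 - 2 * Q.natDegree / t * |log ‖y‖| ≤ cut Q t (x, y) := fun y => by
    have := gam_ge hG (Q.natDegree * log ‖y‖ / t)
    rw [abs_div, abs_mul, abs_of_pos ht, Nat.abs_cast, div_pow] at this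
    simp only [cut, qq, la, lb, h1, log_one, mul_zero, zero_pow two_ne_zero, zero_add]
    refine le_trans (le_of_eq ?_) this
    ring
  refine le_trans (le_of_eq ?_) (Multiset.sum_map_le_sum_map _ _ fun y _ => k y)
  rw [Multiset.sum_map_sub, Multiset.sum_map_mul_left, Multiset.map_const', Multiset.sum_replicate,
    (hQ.2 x hx).1, nsmul_eq_mul, mul_one, fs]

end MassA

open MassA in
theorem sMassOf : SMassOf := by
  intro _ hMu _ hG hR hA hX Q B m t hT hAx ht
  obtain ⟨mla, -, mda, -, -, mqq, -, muu, -, -, mom, huz⟩ := hR.1 Q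
  obtain ⟨hD, hReg⟩ := hR.2 Q B hT
  have hQ := hT.1
  obtain ⟨⟨-, -, -, -, g1, Γ, gΓ⟩, msg, gs⟩ := id hG
  have Γ0 : 0 ≤ Γ := by linarith [(gΓ 0).1, (gΓ 0).2]
  have e0 : (sw Q).natDegree ≠ 0 := fun h => by
    rw [DD, h] at hD
    norm_num at hD
  have e1 : (1 : ℝ) ≤ (sw Q).natDegree := by exact_mod_cast Nat.one_le_iff_ne_zero.2 e0
  have hint : Integrable (fun p => om Q t p * (uu Q p * conj (sg (la Q p) * da Q p)).re)
      (mu Q) := by
    have hS : MeasurableSet {p | qq Q p ≤ t ^ 2} := measurableSet_le mqq measurable_const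
    refine (((integrable_indicator_iff hS).2 (hA Q B t hT ht).1).const_mul (2 * Γ / t)).mono'
      ((mom t).1.mul (Complex.measurable_re.comp (muu.mul (Complex.continuous_conj.measurable.comp
        ((Complex.measurable_ofReal.comp (msg.comp mla)).mul mda))))).aestronglyMeasurable
      (ae_of_all _ fun p => ?_)
    by_cases hp : qq Q p ≤ t ^ 2
    · rw [Set.indicator_of_mem (by exact hp), norm_mul]
      have a1 : ‖om Q t p‖ ≤ Γ * (2 / t ^ 2) := by
        rw [om, norm_mul, Real.norm_of_nonneg (neg_nonneg.2 (gΓ _).2),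
          Real.norm_of_nonneg (by positivity)]
        exact mul_le_mul_of_nonneg_right (neg_le.2 (gΓ _).1) (by positivity)
      have S0 : 0 ≤ SS Q p := by unfold SS; positivity
      have a2 : ‖uu Q p‖ ^ 2 ≤ t ^ 2 * SS Q p := by
        nlinarith [huz p, sq_nonneg ‖zz Q p‖, mul_le_mul_of_nonneg_right hp S0]
      have a3 : ‖da Q p‖ ^ 2 ≤ SS Q p := le_add_of_nonneg_right (sq_nonneg _)
      have a4 : ‖uu Q p‖ * ‖da Q p‖ ≤ t * SS Q p := by
        refine (pow_le_pow_iff_left₀ (by positivity) (by positivity) two_ne_zero).1 ?_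
        rw [mul_pow, mul_pow, sq (SS Q p), ← mul_assoc]
        exact mul_le_mul a2 a3 (sq_nonneg _) (by positivity)
      have a5 : ‖(uu Q p * conj (sg (la Q p) * da Q p)).re‖ ≤ t * SS Q p := by
        refine (Complex.abs_re_le_norm _).trans (le_trans ?_ a4)
        rw [norm_mul, Complex.norm_conj, norm_mul, Complex.norm_real]
        exact mul_le_mul_of_nonneg_left (mul_le_of_le_one_left (norm_nonneg _) (gs _).1)
          (norm_nonneg _)
      refine (mul_le_mul a1 a5 (norm_nonneg _) (by positivity)).trans_eq ?_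
      field_simp
    · rw [Set.indicator_of_notMem (by exact hp), om,
        (g1 _ ((one_le_div (by positivity)).2 (not_le.1 hp).le)).2]
      simp
  have hae : (fun p => om Q t p * (uu Q p * conj (sg (la Q p) * da Q p)).re) =ᵐ[mu Q]
      fun p => -((sw Q).natDegree : ℝ) * D Q (conj (sg (log ‖p.1‖) / p.1)) (cut Q t) p := by
    filter_upwards [(hMu Q B hQ).2.2.1] with p hp
    rw [((hReg p hp).2.2.2.2.2.2.2 t).2, la, (gs _).2.2 _ (by linarith), da,
      show uu Q p * conj (sg (log ‖p.1‖) * ((sw Q).natDegree / p.1) : ℂ) =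
        (((sw Q).natDegree : ℝ) : ℂ) * (uu Q p * conj (sg (log ‖p.1‖) / p.1 : ℂ)) by
        simp only [map_mul, map_div₀, map_natCast, Complex.ofReal_natCast]
        ring, Complex.re_ofReal_mul]
    ring
  refine ⟨hint, ?_⟩
  have hint' : Integrable (fun p => D Q (conj (sg (log ‖p.1‖) / p.1)) (cut Q t) p) (mu Q) :=
    (integrable_const_mul_iff (c := -((sw Q).natDegree : ℝ)) (IsUnit.mk0 _ (by linarith)) _).1
      (hint.congr hae)
  obtain ⟨ci, hI⟩ := hX Q B (cut Q t) (exp (-t)) (exp t) hQ (exp_pos _)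
    (fun p hp _ => ((hReg p hp).2.2.2.2.2.2.2 t).1.of_le (by norm_num))
    (fun p _ h0 h => by
      have n0 : 0 < ‖p.1‖ := norm_pos_iff.2 h0
      have l : t ^ 2 ≤ log ‖p.1‖ ^ 2 := by
        rcases h with h | h
        · have := (log_lt_iff_lt_exp n0).2 h
          nlinarith
        · have := (lt_log_iff_exp_lt n0).2 h
          nlinarith
      refine (g1 _ ((one_le_div (by positivity)).2 (l.trans ?_))).1
      rw [qq, la, mul_pow]
      exact le_add_of_le_of_nonneg (le_mul_of_one_le_left (sq_nonneg _) (one_le_pow₀ e1))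
        (sq_nonneg _)) hint'
  have c2 : CircleIntegrable (fun x => 2 * Q.natDegree / t * fs Q (fun p => |log ‖p.2‖|) x) 0 1 :=
    hAx.1.const_smul (a := 2 * (Q.natDegree : ℝ) / t)
  have hm := avg_mono B ((circleIntegrable_const (Q.natDegree : ℝ) 0 1).sub c2) ci
    fun x hx h1 => low hG hQ ht hx h1
  rw [circleAverage_sub (circleIntegrable_const _ 0 1) c2, circleAverage_const,
    show circleAverage (fun x => 2 * Q.natDegree / t * fs Q (fun p => |log ‖p.2‖|) x) 0 1 =
      2 * Q.natDegree / t * Mx Q fun p => |log ‖p.2‖| from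
      circleAverage_fun_smul (a := 2 * (Q.natDegree : ℝ) / t)] at hm
  have h2 := mul_le_mul_of_nonneg_left hAx.2 (show 0 ≤ 2 * (Q.natDegree : ℝ) / t by positivity)
  rw [integral_congr_ae hae, integral_const_mul, hI]
  calc 4 * π * DD Q * (1 - 4 * m / t)
      = 4 * π * (sw Q).natDegree * (Q.natDegree - 2 * Q.natDegree / t * (2 * m)) := by
        rw [DD]; ring
    _ ≤ 4 * π * (sw Q).natDegree * Mx Q (cut Q t) :=
        mul_le_mul_of_nonneg_left (le_trans (by linarith) hm) (by positivity)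
    _ = _ := by ring

end Pool.Agent.MP_670f9a_nt.GL
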