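import Pool.Agent.MP_670f9a_nt.H83.Spec

/-! Row Move: a point where the mean inequality is attained. -/

namespace Pool.Agent.MP_670f9a_nt.GL

open Real Finset MeasureTheory Metric Filter

namespace MoveA

theorem vol (c : ℂ) {r : ℝ} (hr : 0 < r) : (volume : Measure ℂ).real (ball c r) = π * r ^ 2 := by
  rw [Measure.real, Complex.volume_ball, ENNReal.toReal_mul, ENNReal.toReal_pow,
    ENNReal.toReal_ofReal hr.le, mul_comm]
  rfl

theorem pick {w g : ℂ → ℝ} {S : Set ℂ} {L : ℝ} (h0 : ∀ z, 0 ≤ w z) (hw : Integrable w)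
    (h1 : ∫ z, w z = 1) (hg : Integrable fun z => g z * w z) (hL : L ≤ ∫ z, g z * w z)
    (hS : ∀ᵐ z, w z ≠ 0 → z ∈ S) : ∃ z ∈ S, L ≤ g z := by
  by_contra hn
  push Not at hn
  have hi : Integrable fun z => L * w z - g z * w z := (hw.const_mul L).sub hg
  have h2 : 0 ≤ᵐ[volume] fun z => L * w z - g z * w z := by
    filter_upwards [hS] with z hz
    by_cases e : w z = 0
    · simp [e]
    · have := mul_nonneg (sub_nonneg.2 (hn z (hz e)).le) (h0 z)
      simpa [sub_mul] using this
  have h3 : ∫ z, (L * w z - g z * w z) = 0 := by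
    refine le_antisymm ?_ (integral_nonneg_of_ae h2)
    rw [integral_sub (hw.const_mul L) hg, integral_const_mul, h1]
    linarith
  rw [integral_eq_zero_iff_of_nonneg_ae h2 hi] at h3
  have h4 : w =ᵐ[volume] 0 := by
    filter_upwards [hS, h3] with z hz e
    by_contra e'
    have h5 : (L - g z) * w z = 0 := by simpa [sub_mul] using e
    exact mul_ne_zero (sub_pos.2 (hn z (hz e'))).ne' e' h5
  rw [integral_congr_ae h4] at h1
  simp at h1

theorem ae_ne {c : ℂ} {R : ℝ} {f : ℂ → ℂ} (hR : 0 < R) (hf : AnalyticOnNhd ℂ f (ball c R))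
    (hc : f c ≠ 0) : ∀ᵐ z, z ∈ ball c R → f z ≠ 0 := by
  rw [← ae_restrict_iff' measurableSet_ball]
  rcases hf.eqOn_zero_or_eventually_ne_zero_of_preconnected (convex_ball c R).isPreconnected with
    h | h
  · exact absurd (h (mem_ball_self hR)) hc
  · exact ae_restrict_le_codiscreteWithin measurableSet_ball h

end MoveA

open MoveA in
theorem sMoveOf : SMoveOf := by
  intro hF hJ c r f Z ψ Y hr hf hc hZ hψ hs hb hl hY
  obtain ⟨l1, l2, l3, l4, -, -⟩ := hF ψ hψ
    ((isCompact_closedBall c (r / 2)).of_isClosed_subset (isClosed_tsupport ψ)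
      (hs.trans ball_subset_closedBall))
  obtain ⟨j1, j2⟩ := hJ c r f Z ψ hr hf hc hZ hψ hs hb
  have hsub : closedBall c r ⊆ ball c (2 * r) := closedBall_subset_ball (by linarith)
  have hz : ∀ z, z ∉ ball c r → lap ψ z = 0 := fun z h =>
    l2 z fun h' => h (ball_subset_ball (by linarith) (hs h'))
  have y1 : IntegrableOn Y (ball c r) :=
    ((hY.mono hsub).integrableOn_compact (isCompact_closedBall c r)).mono_set
      ball_subset_closedBall
  have y2 : Integrable fun z => Y z * lap ψ z := by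
    rw [← integrableOn_iff_integrable_of_support_subset (s := closedBall c r)]
    · exact ((hY.mono hsub).mul l1.continuousOn).integrableOn_compact (isCompact_closedBall c r)
    · intro z h
      by_contra h'
      exact h (by simp [hz z fun e => h' (ball_subset_closedBall e)])
  refine ⟨y1, y2, ?_⟩
  have hp : 0 < π * r ^ 2 := by positivity
  have i1 : Integrable ((ball c r).indicator fun _ => (π * r ^ 2)⁻¹) :=
    (integrableOn_const measure_ball_lt_top.ne).integrable_indicator measurableSet_ball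
  have w1 : Integrable (wt c r ψ) := i1.sub (l3.div_const _)
  have w2 : ∫ z, wt c r ψ z = 1 := by
    unfold wt
    rw [integral_sub i1 (l3.div_const _), integral_div, l4, integral_indicator_const _
      measurableSet_ball, vol c hr, smul_eq_mul, mul_inv_cancel₀ hp.ne', zero_div, sub_zero]
  have w3 : ∀ z, z ∉ ball c r → wt c r ψ z = 0 := fun z h => by
    rw [wt, Set.indicator_of_notMem h, hz z h]; simp
  have w4 : ∀ z, 0 ≤ wt c r ψ z := fun z => by
    by_cases h : z ∈ ball c r
    · rw [wt, Set.indicator_of_mem h, sub_nonneg, div_le_iff₀ (by positivity)]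
      refine ((le_abs_self _).trans (hl z)).trans (le_of_eq ?_)
      field_simp
    · exact (w3 z h).ge
  have e1 : (fun z => Y z * wt c r ψ z) = fun z =>
      (π * r ^ 2)⁻¹ * (ball c r).indicator Y z - (2 * π)⁻¹ * (Y z * lap ψ z) := by
    ext z
    by_cases h : z ∈ ball c r
    · rw [wt, Set.indicator_of_mem h, Set.indicator_of_mem h]; ring
    · rw [wt, Set.indicator_of_notMem h, Set.indicator_of_notMem h]; ring
  have i2 := (y1.integrable_indicator measurableSet_ball).const_mul (π * r ^ 2)⁻¹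
  have i3 := y2.const_mul (2 * π)⁻¹
  have y3 : Integrable fun z => Y z * wt c r ψ z := e1 ▸ i2.sub i3
  have y4 : ∫ z, Y z * wt c r ψ z =
      (π * r ^ 2)⁻¹ * (∫ u in ball c r, Y u) - (2 * π)⁻¹ * ∫ u, Y u * lap ψ u := by
    rw [e1, integral_sub i2 i3, integral_const_mul, integral_const_mul,
      integral_indicator measurableSet_ball]
  have e2 : (fun z => (log ‖f z‖ + Y z) * wt c r ψ z) =
      fun z => log ‖f z‖ * wt c r ψ z + Y z * wt c r ψ z := by ext z; ring
  obtain ⟨z, h1, h2⟩ := pick (g := fun z => log ‖f z‖ + Y z) (S := {z | z ∈ ball c r ∧ f z ≠ 0})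
    w4 w1 w2 (e2 ▸ j1.add y3)
    (L := log ‖f c‖ + ∑ a ∈ Z, (hU r (a - c) - log ‖a - c‖ - ψ a) +
      ((π * r ^ 2)⁻¹ * (∫ u in ball c r, Y u) - (2 * π)⁻¹ * ∫ u, Y u * lap ψ u))
    (by rw [e2, integral_add j1 y3, y4]; linarith)
    (by
      filter_upwards [ae_ne (by linarith) hf hc] with z h e
      have h3 : z ∈ ball c r := by_contra fun h' => e (w3 z h')
      exact ⟨h3, h (hsub (ball_subset_closedBall h3))⟩)
  exact ⟨z, h1.1, h1.2, h2⟩

end Pool.Agent.MP_670f9a_nt.GL
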