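import Pool.Agent.MP_670f9a_nt.H83.Spec

/-! The area measure of the first coordinate on the curve. -/

namespace Pool.Agent.MP_670f9a_nt.GL

open Polynomial Finset MeasureTheory Metric Filter
open scoped ENNReal Topology

namespace MuA

theorem sel (hL : SLoc) (Q : ℂ[X][X]) (B : Finset ℂ) (hG : Good Q B) :
    ∃ y : Fin Q.natDegree → ℂ → ℂ, (∀ σ, Measurable (y σ)) ∧
      ∀ x ∉ B, fib Q x = univ.val.map fun σ => y σ x := by
  classical
  have h1 : ∀ c : ℂ, ∃ (r : ℝ) (y : Fin Q.natDegree → ℂ → ℂ), c ∉ B → 0 < r ∧ Sheets Q B c r y := by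
    intro c
    by_cases hc : c ∈ B
    · exact ⟨0, fun _ _ => 0, fun h => absurd hc h⟩
    · obtain ⟨r, hr, H⟩ := hL Q B {c} hG isCompact_singleton (by simpa using hc)
      obtain ⟨y, hy⟩ := H c rfl
      exact ⟨r, y, fun _ => ⟨hr, hy⟩⟩
  choose r y H using h1
  obtain ⟨t, ht, tc, hcov⟩ := TopologicalSpace.countable_cover_nhdsWithin
    (s := {c : ℂ | c ∉ B}) (f := fun c => ball c (r c))
    fun c hc => mem_nhdsWithin_of_mem_nhds (ball_mem_nhds c (H c hc).1)
  obtain ⟨x0, hx0⟩ := Infinite.exists_notMem_finset B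
  have tn : t.Nonempty := by
    obtain ⟨c, hc, -⟩ := Set.mem_iUnion₂.1 (hcov hx0)
    exact ⟨c, hc⟩
  obtain ⟨c, rfl⟩ := tc.exists_eq_range tn
  have hc : ∀ n, c n ∉ B := fun n => ht ⟨n, rfl⟩
  have hp : ∀ x : ℂ, ∃ n, x ∈ (B : Set ℂ) ∪ ball (c n) (r (c n)) := by
    intro x
    by_cases hx : x ∈ B
    · exact ⟨0, Or.inl hx⟩
    · obtain ⟨_, ⟨n, rfl⟩, h⟩ := Set.mem_iUnion₂.1 (hcov hx)
      exact ⟨n, Or.inr h⟩
  refine ⟨fun σ x => (ball (c (Nat.find (hp x))) (r (c (Nat.find (hp x))))).piecewise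
    (y (c (Nat.find (hp x))) σ) 0 x, fun σ => ?_, fun x hx => ?_⟩
  · exact Measurable.find (f := fun n => (ball (c n) (r (c n))).piecewise (y (c n) σ) 0)
      (p := fun n x => x ∈ (B : Set ℂ) ∪ ball (c n) (r (c n)))
      (fun n => ContinuousOn.measurable_piecewise ((H _ (hc n)).2.1 σ).continuousOn
        continuousOn_const measurableSet_ball)
      (fun n => B.measurableSet.union measurableSet_ball) hp
  · have h := (Nat.find_spec (hp x)).resolve_left hx
    simp only [Set.piecewise_eq_of_mem _ _ _ h]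
    exact ((H _ (hc _)).2.2 x h).2

theorem aeB (B : Finset ℂ) : ∀ᵐ x : ℂ, x ∉ B :=
  B.finite_toSet.countable.ae_notMem volume

theorem mu_eq (Q : ℂ[X][X]) (B : Finset ℂ) (y : Fin Q.natDegree → ℂ → ℂ)
    (hm : ∀ σ, Measurable (y σ)) (hy : ∀ x ∉ B, fib Q x = univ.val.map fun σ => y σ x) :
    mu Q = ∑ σ, Measure.map (fun x => (x, y σ x)) volume := by
  have e : mu Q = (volume : Measure ℂ).bind fun x => ∑ σ, Measure.dirac (x, y σ x) := by
    unfold mu
    refine Measure.bind_congr_right ?_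
    filter_upwards [aeB B] with x hx
    rw [hy x hx, Multiset.map_map]
    rfl
  have hg : ∀ σ, Measurable fun x => (x, y σ x) := fun σ => measurable_id.prodMk (hm σ)
  have hd : ∀ σ, Measurable fun x => Measure.dirac (x, y σ x) := fun σ =>
    Measure.measurable_dirac.comp (hg σ)
  rw [e]
  ext s hs
  rw [Measure.bind_apply hs (Finset.measurable_sum _ fun σ _ => hd σ).aemeasurable]
  simp only [Measure.coe_finsetSum, Finset.sum_apply]
  rw [lintegral_finsetSum (f := fun σ x => Measure.dirac (x, y σ x) s) _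
    fun σ _ => (Measure.measurable_coe hs).comp (hd σ)]
  refine Finset.sum_congr rfl fun σ _ => ?_
  rw [← Measure.bind_dirac_eq_map _ (hg σ), Measure.bind_apply hs (hd σ).aemeasurable]

end MuA

open MuA in
theorem sMuOf : SMuOf := by
  intro hL hC hF Q B hG
  obtain ⟨y, hm, hy⟩ := sel hL Q B hG
  have e := mu_eq Q B y hm hy
  have hg : ∀ σ, Measurable fun x => (x, y σ x) := fun σ => measurable_id.prodMk (hm σ)
  have hp : ∀ σ, MeasurePreserving Prod.fst (Measure.map (fun x => (x, y σ x)) volume)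
      (volume : Measure ℂ) := fun σ =>
    ⟨measurable_fst, by rw [Measure.map_map measurable_fst (hg σ)]; exact Measure.map_id⟩
  have h2 : MeasurableSet {p | Reg Q B p} :=
    (hC.2.1 Q).2.2.1.measurableSet.inter (measurable_fst B.measurableSet.compl)
  have h3 : ∀ᵐ p ∂mu Q, Reg Q B p := by
    rw [e, ← Measure.sum_fintype, Measure.ae_sum_iff]
    intro σ
    rw [ae_map_iff (hg σ).aemeasurable h2]
    filter_upwards [aeB B] with x hx
    refine ⟨((hC.2.2 Q B hG).1 x hx _).1 ?_, hx⟩
    rw [hy x hx]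
    exact Multiset.mem_map_of_mem _ (Finset.mem_univ σ)
  have h6 : ∀ F : ℂ × ℂ → ℝ, ContinuousOn F {p | Reg Q B p} → AEStronglyMeasurable F (mu Q) := by
    intro F h
    have := h.aestronglyMeasurable (μ := mu Q) h2
    rwa [Measure.restrict_eq_self_of_ae_mem (s := {p | Reg Q B p}) h3] at this
  have h9 : ∀ f : ℂ → ℝ, Integrable f → Integrable (fun p : ℂ × ℂ => f p.1) (mu Q) ∧
      ∫ p, f p.1 ∂mu Q = Q.natDegree * ∫ x, f x := by
    intro f hf
    have a : ∀ σ, Integrable (fun p : ℂ × ℂ => f p.1) (Measure.map (fun x => (x, y σ x)) volume) :=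
      fun σ => (hp σ).integrable_comp_of_integrable hf
    rw [e]
    refine ⟨integrable_finsetSum_measure.2 fun σ _ => a σ, ?_⟩
    rw [integral_finsetSum_measure fun σ _ => a σ,
      Finset.sum_congr rfl fun σ _ => integral_map (hg σ).aemeasurable (a σ).1]
    simp
  have h7 : ∀ (F : ℂ × ℂ → ℝ) (K : Set ℂ) (M : ℝ), AEStronglyMeasurable F (mu Q) → IsCompact K →
      (∀ p, Reg Q B p → p.1 ∈ K → |F p| ≤ M) → (∀ p, Reg Q B p → p.1 ∉ K → F p = 0) →
      Integrable F (mu Q) := by
    intro F K M a hK b c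
    have i : Integrable (K.indicator fun _ : ℂ => M) :=
      (integrable_indicator_iff hK.measurableSet).2 (integrableOn_const hK.measure_lt_top.ne)
    refine (h9 _ i).1.mono' a ?_
    filter_upwards [h3] with p hp
    by_cases h : p.1 ∈ K
    · rw [Set.indicator_of_mem h]
      exact b p hp h
    · rw [Set.indicator_of_notMem h, c p hp h, norm_zero]
  refine ⟨?_, h2, h3, fun F hFm => ?_, fun F hFi => ?_, h6, h7, fun F K a hK hd c => ?_, h9⟩
  · rw [e, ← Measure.sum_fintype]
    have : ∀ σ, SigmaFinite (Measure.map (fun x => (x, y σ x)) (volume : Measure ℂ)) := fun σ =>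
      SigmaFinite.of_map _ measurable_fst.aemeasurable (by rw [(hp σ).map_eq]; infer_instance)
    infer_instance
  · have a : (fun x => ∑ σ, F (x, y σ x)) =ᵐ[volume]
        fun x => ((fib Q x).map fun y => F (x, y)).sum := by
      filter_upwards [aeB B] with x hx
      rw [hy x hx, Multiset.map_map]
      rfl
    refine ⟨(Finset.measurable_sum _ fun σ _ => hFm.comp (hg σ)).aemeasurable.congr a, ?_⟩
    rw [e, lintegral_finsetSum_measure, ← lintegral_congr_ae a,
      lintegral_finsetSum (f := fun σ x => F (x, y σ x)) _ fun σ _ => hFm.comp (hg σ)]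
    exact Finset.sum_congr rfl fun σ _ => lintegral_map hFm (hg σ)
  · have a : (fun x => ∑ σ, F (x, y σ x)) =ᵐ[volume] fs Q F := by
      filter_upwards [aeB B] with x hx
      rw [fs, hy x hx, Multiset.map_map]
      rfl
    rw [e] at hFi ⊢
    have b := fun σ => integrable_finsetSum_measure.1 hFi σ (Finset.mem_univ σ)
    have c : ∀ σ, Integrable fun x => F (x, y σ x) := fun σ => (b σ).comp_measurable (hg σ)
    refine ⟨(integrable_finsetSum _ fun σ _ => c σ).congr a, ?_⟩
    rw [integral_finsetSum_measure fun σ _ => b σ, ← integral_congr_ae a,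
      integral_finsetSum _ fun σ _ => c σ]
    exact Finset.sum_congr rfl fun σ _ => integral_map (hg σ).aemeasurable (b σ).1
  · obtain ⟨M, hM⟩ := ((hF Q B hG).1 K hK hd).exists_bound_of_continuousOn
      (a.mono fun p hp => ⟨hp.1, fun h => Set.disjoint_left.1 hd hp.2 h⟩)
    exact h7 F K M (h6 F a) hK (fun p hp h => hM p ⟨hp.1, h⟩) c

end Pool.Agent.MP_670f9a_nt.GL
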