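import Pool.Agent.MP_670f9a_nt.H83.Spec

/-!
A polynomial that does not vanish identically on an irreducible curve has no zero on a
generic full fibre.
-/

namespace Pool.Agent.MP_670f9a_nt.GL

open Polynomial

namespace NonvanA

theorem evalEval_sw (P : ℂ[X][X]) (x y : ℂ) : (sw P).evalEval x y = P.evalEval y x := by
  have h := Bivariate.aevalAeval_swap (R := ℂ) x y P
  rw [coe_aevalAeval_eq_evalEval, coe_aevalAeval_eq_evalEval] at h
  exact h

theorem exists_comb (P G : ℂ[X][X]) (hP : Irreducible P) (hd : 1 ≤ P.natDegree)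
    (hG : ¬ P ∣ G) : ∃ (A B : ℂ[X][X]) (r : ℂ[X]), r ≠ 0 ∧ P * A + G * B = C r := by
  have hprim : P.IsPrimitive := hP.isPrimitive (by omega)
  obtain ⟨K, _, _, _⟩ : ∃ (K : Type) (_ : Field K) (_ : Algebra ℂ[X] K), IsFractionRing ℂ[X] K :=
    ⟨FractionRing ℂ[X], inferInstance, inferInstance, inferInstance⟩
  have hinj : Function.Injective (algebraMap ℂ[X] K) := IsFractionRing.injective _ _
  have hirr : Irreducible (P.map (algebraMap ℂ[X] K)) :=
    (hprim.irreducible_iff_irreducible_map_fraction_map (K := K)).1 hP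
  have hnd : ¬ P.map (algebraMap ℂ[X] K) ∣ G.map (algebraMap ℂ[X] K) := fun h =>
    hG (hprim.dvd_of_fraction_map_dvd_fraction_map h)
  have hco : IsCoprime (P.map (algebraMap ℂ[X] K)) (G.map (algebraMap ℂ[X] K)) :=
    (hirr.coprime_iff_not_dvd).2 hnd
  have hres := resultant_ne_zero _ _ hco
  rw [natDegree_map_eq_of_injective hinj, natDegree_map_eq_of_injective hinj,
    resultant_map_map] at hres
  obtain ⟨A, B, -, -, hAB⟩ := exists_mul_add_mul_eq_C_resultant P G le_rfl le_rfl
    (Or.inl (by omega))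
  exact ⟨A, B, _, fun h => hres (by rw [h, map_zero]), hAB⟩

end NonvanA

open NonvanA in
theorem sNonvanOf : SNonvanOf := by
  intro Q H hQ hd hp
  obtain ⟨p, hpQ, hpH⟩ := hp
  have hP : Irreducible (sw Q) := (MulEquiv.irreducible_iff (Bivariate.swap (R := ℂ))).2 hQ
  have hG : ¬ sw Q ∣ sw H := by
    rintro ⟨T, hT⟩
    apply hpH
    rw [← evalEval_sw H p.2 p.1, hT, evalEval_mul, evalEval_sw, show Q.evalEval p.1 p.2 = 0 from hpQ,
      zero_mul]
  obtain ⟨A, B, r, hr, hAB⟩ := exists_comb (sw Q) (sw H) hP hd hG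
  have hlc : (sw Q).leadingCoeff ≠ 0 := leadingCoeff_ne_zero.2 hP.ne_zero
  obtain ⟨ξ, hξ⟩ : ∃ ξ : ℂ, (r * (sw Q).leadingCoeff).eval ξ ≠ 0 := by
    by_contra hno
    push Not at hno
    exact mul_ne_zero hr hlc (Polynomial.funext (by simpa using hno))
  rw [eval_mul, mul_ne_zero_iff] at hξ
  have hdeg : ((sw Q).map (evalRingHom ξ)).natDegree = (sw Q).natDegree :=
    natDegree_map_of_leadingCoeff_ne_zero _ (by simpa using hξ.2)
  refine ⟨ξ, ?_, fun x hx => ?_⟩
  · rw [fib, ← hdeg]
    exact (IsAlgClosed.splits _).natDegree_eq_card_roots.symm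
  · have hx0 : (sw Q).evalEval ξ x = 0 := by
      have := (mem_roots'.1 hx).2
      rwa [IsRoot.def, map_evalRingHom_eval] at this
    intro hH
    have h := congrArg (evalEval ξ x) hAB
    rw [evalEval_add, evalEval_mul, evalEval_mul, hx0, evalEval_sw, hH, evalEval_C] at h
    exact hξ.1 (by simpa using h.symm)

end Pool.Agent.MP_670f9a_nt.GL
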