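import Pool.Agent.MP_670f9a_nt.H83.Spec

/-! One application of the index inequality to the test function. -/

namespace Pool.Agent.MP_670f9a_nt.GL

open Polynomial Real Finset MeasureTheory Metric Filter
open scoped ENNReal ComplexConjugate Topology

namespace OneA

theorem cont_ev (Q : ℂ[X][X]) : Continuous fun p : ℂ × ℂ => Q.evalEval p.1 p.2 := by
  induction Q using Polynomial.induction_on' with
  | add p q hp hq => simp only [evalEval_add]; exact hp.add hq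
  | monomial n a =>
    simp only [← C_mul_X_pow_eq_monomial, evalEval_mul, evalEval_C, evalEval_pow, evalEval_X]
    exact (a.continuous.comp continuous_fst).mul (continuous_snd.pow n)

theorem meas_sl (Q : ℂ[X][X]) : Measurable (sl Q) :=
  (((cont_ev (derivative (sw Q))).comp continuous_swap).measurable.neg).div
    (cont_ev (derivative Q)).measurable

theorem meas_D (Q : ℂ[X][X]) (F : ℂ × ℂ → ℝ) {ζ : ℂ × ℂ → ℂ} (hζ : Measurable ζ) :
    Measurable fun p => D Q (ζ p) F p := by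
  have h1 : Measurable fun p : ℂ × ℂ => (fderiv ℝ F p, (ζ p, sl Q p * ζ p)) :=
    (measurable_fderiv ℝ F).prodMk (hζ.prodMk ((meas_sl Q).mul hζ))
  exact (isBoundedBilinearMap_apply (𝕜 := ℝ) (E := ℂ × ℂ) (F := ℝ)).continuous.measurable.comp h1

theorem meas_gr (Q : ℂ[X][X]) (F : ℂ × ℂ → ℝ) : Measurable (gr Q F F) :=
  ((meas_D Q F measurable_const).mul (meas_D Q F measurable_const)).add
    ((meas_D Q F measurable_const).mul (meas_D Q F measurable_const))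

theorem alg {θ c o a b : ℝ} {u : ℂ} (hθ : |θ| ≤ 10) (h0 : 0 ≤ c) (h1 : c ≤ 1) :
    (θ * -(o * (u * 1).re) + c * a) * (θ * -(o * (u * 1).re) + c * a) +
      (θ * -(o * (u * Complex.I).re) + c * b) * (θ * -(o * (u * Complex.I).re) + c * b) ≤
      200 * (o ^ 2 * ‖u‖ ^ 2) + 2 * (a * a + b * b) := by
  have hu : ‖u‖ ^ 2 = u.re ^ 2 + u.im ^ 2 := by
    rw [Complex.sq_norm, Complex.normSq_apply]; ring
  have h2 : θ ^ 2 ≤ 100 := by nlinarith [abs_le.1 hθ]
  have h3 : c ^ 2 ≤ 1 := by nlinarith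
  simp only [mul_one, Complex.mul_re, Complex.I_re, Complex.I_im, mul_zero, zero_sub]
  rw [hu]
  nlinarith [sq_nonneg (θ * (o * u.re) + c * a), sq_nonneg (θ * (o * u.im) - c * b),
    mul_le_mul_of_nonneg_right h2 (sq_nonneg (o * u.re)),
    mul_le_mul_of_nonneg_right h2 (sq_nonneg (o * u.im)),
    mul_le_mul_of_nonneg_right h3 (sq_nonneg a), mul_le_mul_of_nonneg_right h3 (sq_nonneg b)]

theorem om_bd {Γ g t q S : ℝ} {u : ℂ} (ht : 0 < t) (h1 : -Γ ≤ g) (h2 : g ≤ 0) (hS : 0 ≤ S)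
    (hq : q ≤ t ^ 2) (hu : ‖u‖ ^ 2 ≤ q * S) :
    (-g * (2 / t ^ 2)) ^ 2 * ‖u‖ ^ 2 ≤ 4 * Γ ^ 2 / t ^ 2 * S := by
  have h3 : g ^ 2 ≤ Γ ^ 2 := by nlinarith
  have h4 : ‖u‖ ^ 2 ≤ t ^ 2 * S := hu.trans (mul_le_mul_of_nonneg_right hq hS)
  calc (-g * (2 / t ^ 2)) ^ 2 * ‖u‖ ^ 2 = g ^ 2 * ((2 / t ^ 2) ^ 2 * ‖u‖ ^ 2) := by ring
    _ ≤ Γ ^ 2 * ((2 / t ^ 2) ^ 2 * (t ^ 2 * S)) := by gcongr
    _ = 4 * Γ ^ 2 / t ^ 2 * S := by field_simp; ring

theorem fin {A A' X E M N t C : ℝ} (hM : 0 ≤ M) (hN : 1 ≤ N) (ht : 0 < t) (ht1 : t ≤ 1)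
    (hC : 0 ≤ C) (hE : E ≤ C * N / t) (h1 : |A' - A| ≤ N * √t) (h2 : A' ^ 2 ≤ M * (E + N * √t))
    (hX : |X| ≤ √(30 * (8 * π * t * N)) * √(10 ^ 5 * N)) :
    X - A ≤ (√(240 * π * 10 ^ 5) + 1 + √(C + 1)) * (N * √t + √(M * N / t)) := by
  have s1 : √t ≤ 1 := sqrt_le_one.2 ht1
  have s0 : 0 ≤ √t := sqrt_nonneg t
  have e1 : N * √t ≤ N / t := by
    rw [le_div_iff₀ ht]
    have : √t * t ≤ 1 := mul_le_one₀ s1 ht.le ht1
    nlinarith
  have e2 : A' ^ 2 ≤ (C + 1) * (M * N / t) := by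
    refine h2.trans ?_
    have : E + N * √t ≤ (C + 1) * (N / t) := by
      rw [mul_div_assoc] at hE; linarith
    calc M * (E + N * √t) ≤ M * ((C + 1) * (N / t)) := by gcongr
      _ = (C + 1) * (M * N / t) := by ring
  have e3 : |A'| ≤ √(C + 1) * √(M * N / t) := by
    rw [← sqrt_mul (by linarith)]; exact abs_le_sqrt e2
  have e4 : √(30 * (8 * π * t * N)) * √(10 ^ 5 * N) = √(240 * π * 10 ^ 5) * (N * √t) := by
    rw [← sqrt_mul (by positivity), show 30 * (8 * π * t * N) * (10 ^ 5 * N) =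
      240 * π * 10 ^ 5 * (N ^ 2 * t) by ring, sqrt_mul (by positivity) (N ^ 2 * t),
      sqrt_mul (sq_nonneg N), sqrt_sq (by linarith)]
  rw [e4] at hX
  have p1 : 0 ≤ N * √t := by positivity
  have p2 := sqrt_nonneg (M * N / t)
  have p3 := sqrt_nonneg (240 * π * 10 ^ 5)
  have p4 := sqrt_nonneg (C + 1)
  generalize √(240 * π * 10 ^ 5) = a at *
  generalize √(C + 1) = b at *
  generalize √(M * N / t) = c at *
  generalize N * √t = d at *
  nlinarith [(abs_le.1 hX).2, (abs_le.1 h1).2, (abs_le.1 e3).1, mul_nonneg p3 p2, mul_nonneg p4 p1]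

end OneA

theorem sOneOf : SOneOf := by
  intro hMu hCa hPo hGa hRh hTh hGs hAr hEx
  obtain ⟨⟨-, g01, -, -, gz, Γ, hΓ⟩, -⟩ := hGa
  refine ⟨√(240 * π * 10 ^ 5) + 1 + √(6400 * π * Γ ^ 2 + 2 * 10 ^ 5 + 1), by positivity, ?_⟩
  intro Q B M lam kap t hT hM hl hk hF ht ht1
  obtain ⟨-, -, hae, -⟩ := hMu Q B hT.1
  obtain ⟨-, -, -, -, -, mq, mS, mu', -, mp, mo, huz⟩ := hRh.1 Q
  obtain ⟨hD, hR⟩ := hRh.2 Q B hT
  obtain ⟨⟨-, hθ⟩, hψ⟩ := hTh lam kap hl hk
  obtain ⟨cΘ, iΘ, eΘ⟩ := hGs Q B lam kap hT hl hk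
  obtain ⟨iS, eS⟩ := hAr Q B t hT ht
  set W : Set (ℂ × ℂ) := {p | qq Q p ≤ t ^ 2} with hW
  have mW : MeasurableSet W := measurableSet_le mq measurable_const
  have t2 : 0 < t ^ 2 := by positivity
  have S0 : ∀ p, 0 ≤ SS Q p := fun p => by unfold SS; positivity
  have off : ∀ p, p ∉ W → cut Q t p = 0 ∧ om Q t p = 0 := fun p hp => by
    have h := gz (qq Q p / t ^ 2) ((one_le_div t2).2 (not_le.1 hp).le)
    exact ⟨h.1, by unfold om; rw [h.2, neg_zero, zero_mul]⟩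
  have c01 : ∀ p, 0 ≤ cut Q t p ∧ cut Q t p ≤ 1 := fun p => g01 _
  have bΘ : ∀ p, |Th Q lam kap p| ≤ 10 := fun p => (hθ _).1
  set φ : ℂ × ℂ → ℝ := fun p => Th Q lam kap p * cut Q t p with hφ
  have dφ : ∀ p, Reg Q B p → ∀ w, D Q w φ p = Th Q lam kap p * -(om Q t p * (uu Q p * w).re) +
      cut Q t p * D Q w (Th Q lam kap) p := fun p hp w => by
    obtain ⟨-, -, -, -, -, -, -, hc⟩ := hR p hp
    rw [← (hc t).2 w]
    exact (hCa.1 Q p w).1 _ _ ((cΘ p hp).differentiableAt (by norm_num))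
      ((hc t).1.differentiableAt (by norm_num))
  have iI : Integrable (W.indicator (SS Q)) (mu Q) := (integrable_indicator_iff mW).2 iS
  have eI : ∫ p, W.indicator (SS Q) p ∂mu Q ≤ 8 * π * t * DD Q := by
    rw [integral_indicator mW]; exact eS
  have bφ : ∀ p, Reg Q B p → gr Q φ φ p ≤ 800 * Γ ^ 2 / t ^ 2 * W.indicator (SS Q) p +
      2 * gr Q (Th Q lam kap) (Th Q lam kap) p := fun p hp => by
    have h1 : om Q t p ^ 2 * ‖uu Q p‖ ^ 2 ≤ 4 * Γ ^ 2 / t ^ 2 * W.indicator (SS Q) p := by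
      by_cases hp' : p ∈ W
      · rw [Set.indicator_of_mem hp']
        exact OneA.om_bd ht (hΓ _).1 (hΓ _).2 (S0 p) hp'
          (by rw [← huz p]; nlinarith [sq_nonneg ‖zz Q p‖])
      · rw [Set.indicator_of_notMem hp', (off p hp').2]; simp
    have h2 := OneA.alg (o := om Q t p) (u := uu Q p) (a := D Q 1 (Th Q lam kap) p)
      (b := D Q Complex.I (Th Q lam kap) p) (bΘ p) (c01 p).1 (c01 p).2
    unfold gr
    rw [dφ p hp, dφ p hp]
    have h3 : 800 * Γ ^ 2 / t ^ 2 * W.indicator (SS Q) p =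
      200 * (4 * Γ ^ 2 / t ^ 2 * W.indicator (SS Q) p) := by ring
    linarith
  have iG := (iI.const_mul (800 * Γ ^ 2 / t ^ 2)).add (iΘ.const_mul 2)
  have g0 : ∀ F p, 0 ≤ gr Q F F p := fun F p => ((hCa.1 Q p 0).2.2.2.2.2.2.2 F).1
  have iφ : Integrable (gr Q φ φ) (mu Q) :=
    iG.mono' (OneA.meas_gr Q φ).aestronglyMeasurable (hae.mono fun p hp => by
      rw [Real.norm_of_nonneg (g0 φ p)]; exact bφ p hp)
  have eφ : ∫ p, gr Q φ φ p ∂mu Q ≤ (6400 * π * Γ ^ 2 + 2 * 10 ^ 5) * DD Q / t := by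
    refine (integral_mono_ae iφ iG (hae.mono bφ)).trans ?_
    simp only [Pi.add_apply]
    rw [integral_add (iI.const_mul _) (iΘ.const_mul 2), integral_const_mul, integral_const_mul]
    have h1 : 800 * Γ ^ 2 / t ^ 2 * ∫ p, W.indicator (SS Q) p ∂mu Q ≤
        800 * Γ ^ 2 / t ^ 2 * (8 * π * t * DD Q) := by gcongr
    have h2 : 800 * Γ ^ 2 / t ^ 2 * (8 * π * t * DD Q) = 6400 * π * Γ ^ 2 * (DD Q / t) := by
      field_simp; ring
    have h3 : DD Q ≤ DD Q / t := by rw [le_div_iff₀ ht]; nlinarith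
    rw [mul_div_assoc (6400 * π * Γ ^ 2 + 2 * 10 ^ 5), add_mul]
    linarith
  have mζ : Measurable fun p => conj (psi Q lam kap p) :=
    Complex.continuous_conj.measurable.comp (mp lam kap).1
  have bζ : ∀ p, ‖conj (psi Q lam kap p)‖ ^ 2 ≤ 30 * SS Q p := fun p => by
    rw [Complex.norm_conj]; exact hψ _ _ _ _
  have e1 : (1 : ℝ) ≤ (sw Q).natDegree := by
    obtain ⟨B', hB'⟩ := hT.2.2.2
    exact_mod_cast hB'.1
  obtain ⟨iA, hδ⟩ := hEx Q B φ (fun p => conj (psi Q lam kap p)) W (closedBall 0 (exp t)) 10 hT.1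
    (isCompact_closedBall _ _)
    (fun p hp => ⟨(cΘ p hp).mul ((hR p hp).2.2.2.2.2.2.2 t).1, by
      rw [hφ, abs_mul, abs_of_nonneg (c01 p).1]
      nlinarith [bΘ p, c01 p, abs_nonneg (Th Q lam kap p)]⟩)
    (fun p _ hp => by
      have h1 : exp t < ‖p.1‖ := by simpa using hp
      have h2 : t < log ‖p.1‖ := (lt_log_iff_exp_lt ((exp_pos t).trans h1)).2 h1
      have h3 : t < la Q p := by unfold la; nlinarith
      have h4 : p ∉ W := fun h => by
        have h5 : qq Q p ≤ t ^ 2 := h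
        unfold qq at h5
        nlinarith [sq_nonneg (lb Q p)]
      simp only [hφ, (off p h4).1, mul_zero])
    iφ mW mζ
    (Integrable.mono' (iS.const_mul 30) (mζ.norm.pow_const 2).aestronglyMeasurable
      (ae_of_all _ fun p => by rw [Real.norm_of_nonneg (sq_nonneg _)]; exact bζ p))
    (fun p hp hp' => ⟨by simp only [hφ, (off p hp').1, mul_zero], fun w => by
      rw [dφ p hp, (off p hp').1, (off p hp').2]; simp⟩)
  obtain ⟨η, -, -, -, hTe, h1, h2⟩ := hδ (DD Q * √t) (by have := sqrt_pos.2 ht; positivity)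
  have h3 := (hF _ hTe).trans (mul_le_mul_of_nonneg_left h2 hM)
  obtain ⟨iX, eX⟩ := hPo.2.2.2.2.2 (mu Q)
    (fun p => cut Q t p * D Q (conj (psi Q lam kap p)) (Th Q lam kap) p)
    (fun p => 30 * W.indicator (SS Q) p) (gr Q (Th Q lam kap) (Th Q lam kap))
    ((mo t).2.mul (OneA.meas_D Q _ mζ)).aestronglyMeasurable (iI.const_mul 30) iΘ
    (ae_of_all _ fun p => ⟨mul_nonneg (by norm_num) (Set.indicator_nonneg (fun p _ => S0 p) p),
      g0 _ p, by
        by_cases hp' : p ∈ W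
        · rw [Set.indicator_of_mem hp', abs_mul, abs_of_nonneg (c01 p).1]
          have a1 := ((hCa.1 Q p (conj (psi Q lam kap p))).2.2.2.2.2.2.2 (Th Q lam kap)).2
          have a2 : ‖conj (psi Q lam kap p)‖ ≤ √(30 * SS Q p) := le_sqrt_of_sq_le (bζ p)
          exact (mul_le_of_le_one_left (abs_nonneg _) (c01 p).2).trans
            (a1.trans (mul_le_mul_of_nonneg_right a2 (sqrt_nonneg _)))
        · rw [(off p hp').1, zero_mul, abs_zero]; positivity⟩)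
  have key : (fun p => om Q t p * (Th Q lam kap p * (uu Q p * conj (psi Q lam kap p)).re)) =ᵐ[mu Q]
      fun p => cut Q t p * D Q (conj (psi Q lam kap p)) (Th Q lam kap) p -
        D Q (conj (psi Q lam kap p)) φ p := hae.mono fun p hp => by
    simp only [dφ p hp]; ring
  refine ⟨(iX.sub iA).congr key.symm, ?_⟩
  rw [integral_congr_ae key, integral_sub iX iA]
  refine OneA.fin hM hD ht ht1 (by positivity) eφ h1 h3 (eX.trans ?_)
  rw [integral_const_mul]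
  gcongr

end Pool.Agent.MP_670f9a_nt.GL
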