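import Pool.Agent.MP_670f9a_nt.H83.SpecG
import Pool.Agent.MP_670f9a_nt.GL.One

/-! One application of the index inequality, with a given bound for the energy. -/

namespace Pool.Agent.MP_670f9a_nt.GL

open Polynomial Real Finset MeasureTheory Metric Filter
open scoped ENNReal ComplexConjugate Topology

namespace OneFA

theorem fin {A A' X E M N t C g δ : ℝ} (hM : 0 ≤ M) (hN : 1 ≤ N) (ht : 0 < t) (hg : 0 ≤ g)
    (hC : 0 ≤ C) (hE : E ≤ C * (N / t) + 2 * (g * N)) (hδ : δ ≤ N / t) (h1 : |A' - A| ≤ δ)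
    (h2 : A' ^ 2 ≤ M * (E + δ)) (hX : |X| ≤ √(30 * (8 * π * t * N)) * √(g * N)) :
    X - A ≤ (√(240 * π) + √(C + 3)) * (N * √(t * g) + √(M * N * (g + 1 / t))) + δ := by
  have n0 : 0 ≤ N / t := by positivity
  have n1 : 0 ≤ g * N := by positivity
  have e2 : A' ^ 2 ≤ (C + 3) * (M * N * (g + 1 / t)) := by
    refine h2.trans ?_
    have : E + δ ≤ (C + 3) * (g * N + N / t) := by nlinarith [mul_nonneg hC n1]
    calc M * (E + δ) ≤ M * ((C + 3) * (g * N + N / t)) := by gcongr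
      _ = (C + 3) * (M * N * (g + 1 / t)) := by ring
  have e3 : |A'| ≤ √(C + 3) * √(M * N * (g + 1 / t)) := by
    rw [← sqrt_mul (by linarith)]; exact abs_le_sqrt e2
  have e4 : √(30 * (8 * π * t * N)) * √(g * N) = √(240 * π) * (N * √(t * g)) := by
    rw [← sqrt_mul (by positivity), show 30 * (8 * π * t * N) * (g * N) =
      240 * π * (N ^ 2 * (t * g)) by ring, sqrt_mul (by positivity) (N ^ 2 * (t * g)),
      sqrt_mul (sq_nonneg N), sqrt_sq (by linarith)]
  rw [e4] at hX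
  have p1 : 0 ≤ N * √(t * g) := by positivity
  have p2 := sqrt_nonneg (M * N * (g + 1 / t))
  have p3 := sqrt_nonneg (240 * π)
  have p4 := sqrt_nonneg (C + 3)
  generalize √(240 * π) = a at *
  generalize √(C + 3) = b at *
  generalize √(M * N * (g + 1 / t)) = c at *
  generalize N * √(t * g) = d at *
  nlinarith [(abs_le.1 hX).2, (abs_le.1 h1).2, (abs_le.1 e3).1, mul_nonneg p3 p2, mul_nonneg p4 p1]

end OneFA

theorem sOneFOf : SOneFOf := by
  intro hMu hCa hPo hGa hRh hTh hGs hAr hEx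
  obtain ⟨⟨-, g01, -, -, gz, Γ, hΓ⟩, -⟩ := hGa
  refine ⟨√(240 * π) + √(6400 * π * Γ ^ 2 + 3), by positivity, ?_⟩
  intro Q B M lam kap t g hT hM hl hk hF ht hg hB
  obtain ⟨-, -, hae, -⟩ := hMu Q B hT.1
  obtain ⟨-, -, -, -, -, mq, mS, mu', -, mp, mo, huz⟩ := hRh.1 Q
  obtain ⟨hD, hR⟩ := hRh.2 Q B hT
  obtain ⟨⟨-, hθ⟩, hψ⟩ := hTh lam kap hl hk
  obtain ⟨cΘ, iΘ, -⟩ := hGs Q B lam kap hT hl hk
  have eΘ := hB lam kap hl hk
  obtain ⟨iS, eS⟩ := hAr Q B t hT ht
  set W : Set (ℂ × ℂ) := {p | qq Q p ≤ t ^ 2} with hW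
  have mW : MeasurableSet W := measurableSet_le mq measurable_const
  have t2 : 0 < t ^ 2 := by positivity
  have S0 : ∀ p, 0 ≤ SS Q p := fun p => by unfold SS; positivity
  have off : ∀ p, p ∉ W → cut Q t p = 0 ∧ om Q t p = 0 := fun p hp => by
    have h := gz (qq Q p / t ^ 2) ((one_le_div t2).2 (not_le.1 hp).le)
    exact ⟨h.1, by unfold om; rw [h.2, neg_zero, zero_mul]⟩
  have c01 : ∀ p, 0 ≤ cut Q t p ∧ cut Q t p ≤ 1 := fun p => g01 _
  have bΘ : ∀ p, |Th Q lam kap p| ≤ 10 := fun p => (hθ _).1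
  set φ : ℂ × ℂ → ℝ := fun p => Th Q lam kap p * cut Q t p with hφ
  have dφ : ∀ p, Reg Q B p → ∀ w, D Q w φ p = Th Q lam kap p * -(om Q t p * (uu Q p * w).re) +
      cut Q t p * D Q w (Th Q lam kap) p := fun p hp w => by
    obtain ⟨-, -, -, -, -, -, -, hc⟩ := hR p hp
    rw [← (hc t).2 w]
    exact (hCa.1 Q p w).1 _ _ ((cΘ p hp).differentiableAt (by norm_num))
      ((hc t).1.differentiableAt (by norm_num))
  have iI : Integrable (W.indicator (SS Q)) (mu Q) := (integrable_indicator_iff mW).2 iS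
  have eI : ∫ p, W.indicator (SS Q) p ∂mu Q ≤ 8 * π * t * DD Q := by
    rw [integral_indicator mW]; exact eS
  have bφ : ∀ p, Reg Q B p → gr Q φ φ p ≤ 800 * Γ ^ 2 / t ^ 2 * W.indicator (SS Q) p +
      2 * gr Q (Th Q lam kap) (Th Q lam kap) p := fun p hp => by
    have h1 : om Q t p ^ 2 * ‖uu Q p‖ ^ 2 ≤ 4 * Γ ^ 2 / t ^ 2 * W.indicator (SS Q) p := by
      by_cases hp' : p ∈ W
      · rw [Set.indicator_of_mem hp']
        exact OneA.om_bd ht (hΓ _).1 (hΓ _).2 (S0 p) hp'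
          (by rw [← huz p]; nlinarith [sq_nonneg ‖zz Q p‖])
      · rw [Set.indicator_of_notMem hp', (off p hp').2]; simp
    have h2 := OneA.alg (o := om Q t p) (u := uu Q p) (a := D Q 1 (Th Q lam kap) p)
      (b := D Q Complex.I (Th Q lam kap) p) (bΘ p) (c01 p).1 (c01 p).2
    unfold gr
    rw [dφ p hp, dφ p hp]
    have h3 : 800 * Γ ^ 2 / t ^ 2 * W.indicator (SS Q) p =
      200 * (4 * Γ ^ 2 / t ^ 2 * W.indicator (SS Q) p) := by ring
    linarith
  have iG := (iI.const_mul (800 * Γ ^ 2 / t ^ 2)).add (iΘ.const_mul 2)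
  have g0 : ∀ F p, 0 ≤ gr Q F F p := fun F p => ((hCa.1 Q p 0).2.2.2.2.2.2.2 F).1
  have iφ : Integrable (gr Q φ φ) (mu Q) :=
    iG.mono' (OneA.meas_gr Q φ).aestronglyMeasurable (hae.mono fun p hp => by
      rw [Real.norm_of_nonneg (g0 φ p)]; exact bφ p hp)
  have eφ : ∫ p, gr Q φ φ p ∂mu Q ≤ 6400 * π * Γ ^ 2 * (DD Q / t) + 2 * (g * DD Q) := by
    refine (integral_mono_ae iφ iG (hae.mono bφ)).trans ?_
    simp only [Pi.add_apply]
    rw [integral_add (iI.const_mul _) (iΘ.const_mul 2), integral_const_mul, integral_const_mul]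
    have h1 : 800 * Γ ^ 2 / t ^ 2 * ∫ p, W.indicator (SS Q) p ∂mu Q ≤
        800 * Γ ^ 2 / t ^ 2 * (8 * π * t * DD Q) := by gcongr
    have h2 : 800 * Γ ^ 2 / t ^ 2 * (8 * π * t * DD Q) = 6400 * π * Γ ^ 2 * (DD Q / t) := by
      field_simp; ring
    linarith
  have mζ : Measurable fun p => conj (psi Q lam kap p) :=
    Complex.continuous_conj.measurable.comp (mp lam kap).1
  have bζ : ∀ p, ‖conj (psi Q lam kap p)‖ ^ 2 ≤ 30 * SS Q p := fun p => by
    rw [Complex.norm_conj]; exact hψ _ _ _ _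
  have e1 : (1 : ℝ) ≤ (sw Q).natDegree := by
    obtain ⟨B', hB'⟩ := hT.2.2.2
    exact_mod_cast hB'.1
  obtain ⟨iA, hδ⟩ := hEx Q B φ (fun p => conj (psi Q lam kap p)) W (closedBall 0 (exp t)) 10 hT.1
    (isCompact_closedBall _ _)
    (fun p hp => ⟨(cΘ p hp).mul ((hR p hp).2.2.2.2.2.2.2 t).1, by
      rw [hφ, abs_mul, abs_of_nonneg (c01 p).1]
      nlinarith [bΘ p, c01 p, abs_nonneg (Th Q lam kap p)]⟩)
    (fun p _ hp => by
      have h1 : exp t < ‖p.1‖ := by simpa using hp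
      have h2 : t < log ‖p.1‖ := (lt_log_iff_exp_lt ((exp_pos t).trans h1)).2 h1
      have h3 : t < la Q p := by unfold la; nlinarith
      have h4 : p ∉ W := fun h => by
        have h5 : qq Q p ≤ t ^ 2 := h
        unfold qq at h5
        nlinarith [sq_nonneg (lb Q p)]
      simp only [hφ, (off p h4).1, mul_zero])
    iφ mW mζ
    (Integrable.mono' (iS.const_mul 30) (mζ.norm.pow_const 2).aestronglyMeasurable
      (ae_of_all _ fun p => by rw [Real.norm_of_nonneg (sq_nonneg _)]; exact bζ p))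
    (fun p hp hp' => ⟨by simp only [hφ, (off p hp').1, mul_zero], fun w => by
      rw [dφ p hp, (off p hp').1, (off p hp').2]; simp⟩)
  obtain ⟨iX, eX⟩ := hPo.2.2.2.2.2 (mu Q)
    (fun p => cut Q t p * D Q (conj (psi Q lam kap p)) (Th Q lam kap) p)
    (fun p => 30 * W.indicator (SS Q) p) (gr Q (Th Q lam kap) (Th Q lam kap))
    ((mo t).2.mul (OneA.meas_D Q _ mζ)).aestronglyMeasurable (iI.const_mul 30) iΘ
    (ae_of_all _ fun p => ⟨mul_nonneg (by norm_num) (Set.indicator_nonneg (fun p _ => S0 p) p),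
      g0 _ p, by
        by_cases hp' : p ∈ W
        · rw [Set.indicator_of_mem hp', abs_mul, abs_of_nonneg (c01 p).1]
          have a1 := ((hCa.1 Q p (conj (psi Q lam kap p))).2.2.2.2.2.2.2 (Th Q lam kap)).2
          have a2 : ‖conj (psi Q lam kap p)‖ ≤ √(30 * SS Q p) := le_sqrt_of_sq_le (bζ p)
          exact (mul_le_of_le_one_left (abs_nonneg _) (c01 p).2).trans
            (a1.trans (mul_le_mul_of_nonneg_right a2 (sqrt_nonneg _)))
        · rw [(off p hp').1, zero_mul, abs_zero]; positivity⟩)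
  have key : (fun p => om Q t p * (Th Q lam kap p * (uu Q p * conj (psi Q lam kap p)).re)) =ᵐ[mu Q]
      fun p => cut Q t p * D Q (conj (psi Q lam kap p)) (Th Q lam kap) p -
        D Q (conj (psi Q lam kap p)) φ p := hae.mono fun p hp => by
    simp only [dφ p hp]; ring
  refine ⟨(iX.sub iA).congr key.symm, ?_⟩
  rw [integral_congr_ae key, integral_sub iX iA]
  refine le_of_forall_pos_le_add fun ε hε => ?_
  obtain ⟨η, -, -, -, hTe, h1, h2⟩ := hδ (min ε (DD Q / t)) (lt_min hε (by positivity))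
  have h3 := (hF _ hTe).trans (mul_le_mul_of_nonneg_left h2 hM)
  refine (OneFA.fin hM hD ht hg (by positivity) eφ (min_le_right _ _) h1 h3 (eX.trans ?_)).trans
    (add_le_add le_rfl (min_le_left _ _))
  rw [integral_const_mul]
  gcongr

end Pool.Agent.MP_670f9a_nt.GL
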