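import Pool.Agent.MP_670f9a_nt.H83.Spec
import Pool.Agent.MP_670f9a_nt.H30.Fub

/-! Choice of a point of the curve above the unit circle. -/

namespace Pool.Agent.MP_670f9a_nt.GL

open Polynomial Real MeasureTheory
open Pool.Agent.MP_670f9a_nt.NP (Phi Psi m2)

namespace PickA

theorem sw_eval (Q : ℂ[X][X]) (x y : ℂ) :
    ((sw Q).map (evalRingHom y)).eval x = Q.evalEval x y := by
  rw [map_evalRingHom_eval]
  have h := Bivariate.aevalAeval_swap y x Q
  rwa [coe_aevalAeval_eq_evalEval, coe_aevalAeval_eq_evalEval] at h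

theorem exists_ge (T : ℂ → ℝ) (hT : CircleIntegrable T 0 1) (w : ℂ[X]) (hw : w ≠ 0) :
    ∃ ξ : ℂ, ‖ξ‖ = 1 ∧ w.eval ξ ≠ 0 ∧ circleAverage T 0 1 ≤ T ξ := by
  have h1 : (circleMap 0 1 ⁻¹' {z | w.IsRoot z}).Countable :=
    (finite_setOfPred_isRoot hw).countable.preimage_circleMap 0 one_ne_zero
  have h2 : H30.mu.real Set.univ = 2 * π := by
    simp [H30.mu, Measure.real, pi_pos.le]
  have h0 : H30.mu ≠ 0 := fun e => by
    rw [e] at h2
    simp at h2
  obtain ⟨θ, h3, h4⟩ := exists_notMem_null_average_le h0 ((H30.int_iff T).1 hT)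
    (h1.measure_zero H30.mu)
  refine ⟨circleMap 0 1 θ, by simp, h3, ?_⟩
  rwa [H30.avg_eq, ← h2, ← average_eq]

end PickA

theorem sPickOf : SPickOf := by
  intro Q r g k Y he hr hY hres
  have hs : sw Q ≠ 0 := fun e => by simp [e] at he
  have hQ : Q ≠ 0 := fun e => hs (by simp [e, sw])
  obtain ⟨-, hP, hm, -⟩ := H30.sFub Q hQ
  have hL : CircleIntegrable (fun ξ => log ‖r.eval ξ‖) 0 1 :=
    (circleIntegrable_def _ _ _).2 r.intervalIntegrable_mahlerMeasure
  have hk : CircleIntegrable (fun ξ => (k : ℝ) • Psi Q ξ) 0 1 := hP.const_fun_smul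
  obtain ⟨ξ, h1, h2, h3⟩ := PickA.exists_ge
    (fun ξ => log ‖r.eval ξ‖ - (k : ℝ) • Psi Q ξ + fs (sw Q) (fun p => Y p.swap) ξ)
    ((hL.sub hk).add hY) (r * (sw Q).leadingCoeff) (mul_ne_zero hr (leadingCoeff_ne_zero.2 hs))
  rw [circleAverage_fun_add (f₁ := fun ξ => log ‖r.eval ξ‖ - (k : ℝ) • Psi Q ξ) (hL.sub hk) hY,
    circleAverage_fun_sub hL hk, circleAverage_fun_smul, hm] at h3
  rw [eval_mul, mul_ne_zero_iff] at h2
  have hc : (fib (sw Q) ξ).card = (sw Q).natDegree :=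
    (natDegree_map_of_leadingCoeff_ne_zero (evalRingHom ξ) h2.2) ▸
      IsAlgClosed.card_roots_eq_natDegree
  have hl : ((sw Q).map (evalRingHom ξ)).leadingCoeff ≠ 0 := by
    rw [leadingCoeff_map_of_leadingCoeff_ne_zero (evalRingHom ξ) h2.2]
    exact h2.2
  have h4 := hres ξ hc
  have h5 : ∀ t ∈ (fib (sw Q) ξ).map fun x => ‖g (x, ξ)‖, t ≠ 0 := fun t ht e => by
    rw [Multiset.prod_eq_zero (e ▸ ht), mul_zero, norm_eq_zero] at h4
    exact h2.1 h4
  have h6 : Psi Q ξ = log ‖((sw Q).map (evalRingHom ξ)).leadingCoeff‖ +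
      ((fib (sw Q) ξ).map fun x => log⁺ ‖x‖).sum := by
    rw [fib, ← logMahlerMeasure_eq_log_leadingCoeff_add_sum_log_roots, logMahlerMeasure_def]
    simp only [PickA.sw_eval]
    rfl
  have h7 : log ‖r.leadingCoeff‖ ≤ circleAverage (fun ξ => log ‖r.eval ξ‖) 0 1 := by
    rw [← logMahlerMeasure_def, logMahlerMeasure_eq_log_MahlerMeasure]
    exact log_le_log (norm_pos_iff.2 (leadingCoeff_ne_zero.2 hr)) r.leadingCoeff_le_mahlerMeasure
  obtain ⟨x, hx, hmax⟩ := Finset.exists_max_image (fib (sw Q) ξ).toFinset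
    (fun x => log ‖g (x, ξ)‖ + (Y (x, ξ) - k * log⁺ ‖x‖))
    (Multiset.toFinset_nonempty.2 fun e => by simp [← hc, e] at he)
  rw [Multiset.mem_toFinset] at hx
  have h8 := Multiset.sum_le_card_nsmul ((fib (sw Q) ξ).map fun x =>
    log ‖g (x, ξ)‖ + (Y (x, ξ) - k * log⁺ ‖x‖)) _ fun t ht => by
      obtain ⟨x', hx', rfl⟩ := Multiset.mem_map.1 ht
      exact hmax x' (Multiset.mem_toFinset.2 hx')
  refine ⟨(x, ξ), ?_, h1, fun e => h5 _ (Multiset.mem_map_of_mem _ hx) (by rw [e, norm_zero]), ?_⟩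
  · rw [On, ← PickA.sw_eval]
    exact (mem_roots'.1 hx).2
  · rw [Multiset.card_map, hc, nsmul_eq_mul, Multiset.sum_map_add, Multiset.sum_map_sub,
      Multiset.sum_map_mul_left] at h8
    rw [h4, h6, log_mul (pow_ne_zero _ (norm_ne_zero_iff.2 hl)) (Multiset.prod_ne_zero fun e =>
      h5 0 e rfl), log_pow, log_multiset_prod h5, Multiset.map_map] at h3
    simp only [smul_eq_mul, fs, Function.comp_def, Prod.swap_prod_mk] at h3
    simp only [My, Mx]
    linarith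

end Pool.Agent.MP_670f9a_nt.GL
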