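import Pool.Agent.MP_670f9a_nt.H83.Spec

/-! Row Pol: polar coordinates and the inequality of Cauchy and Schwarz. -/

namespace Pool.Agent.MP_670f9a_nt.GL

open Real MeasureTheory Metric Filter Set
open scoped ENNReal Topology

namespace PolA

theorem integrableOn_polar {g : ℂ → ℝ} (hg : Integrable g) :
    IntegrableOn (fun p : ℝ × ℝ => p.1 • g (Complex.polarCoord.symm p)) polarCoord.target := by
  have h1 : Integrable (g ∘ Complex.measurableEquivRealProd.symm) :=
    ((Complex.volume_preserving_equiv_real_prod.symm).integrable_comp_emb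
      Complex.measurableEquivRealProd.symm.measurableEmbedding).mpr hg
  have h2 := (integrableOn_image_iff_integrableOn_abs_det_fderiv_smul volume
    polarCoord.open_target.measurableSet
    (fun p _ => (hasFDerivAt_polarCoord_symm p).hasFDerivWithinAt) polarCoord.symm.injOn
    (g ∘ Complex.measurableEquivRealProd.symm)).mp h1.integrableOn
  refine h2.congr_fun (fun p hp => ?_) polarCoord.open_target.measurableSet
  simp only [det_fderivPolarCoordSymm, Function.comp_apply]
  rw [abs_of_pos hp.1]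
  rfl

theorem avg_eq (f : ℂ → ℝ) (c : ℂ) (ρ : ℝ) :
    ∫ θ in Ioo (-π) π, f (c + Complex.polarCoord.symm (ρ, θ)) = 2 * π * circleAverage f c ρ := by
  rw [circleAverage_eq_integral_add (-π),
    intervalIntegral.integral_comp_add_right (fun θ => f (circleMap c ρ θ)), smul_eq_mul,
    ← mul_assoc, mul_inv_cancel₀ (by positivity), one_mul, zero_add,
    show 2 * π + -π = π by ring, intervalIntegral.integral_of_le (by linarith [pi_pos]),
    integral_Ioc_eq_integral_Ioo]
  congr 1
  funext θ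
  rw [Complex.polarCoord_symm_apply, circleMap, Complex.exp_mul_I]
  simp

theorem item1 (f : ℂ → ℝ) (c : ℂ) (R : ℝ) (hR : 0 < R) (hf : IntegrableOn f (ball c R)) :
    ∫ z in ball c R, f z = 2 * π * ∫ ρ in (0 : ℝ)..R, ρ * circleAverage f c ρ := by
  have h1 : Integrable ((ball c R).indicator f) :=
    (integrable_indicator_iff measurableSet_ball).mpr hf
  have h2 : Integrable (fun z => (ball c R).indicator f (c + z)) := h1.comp_add_left c
  rw [← integral_indicator measurableSet_ball, ← integral_add_left_eq_self _ c,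
    ← Complex.integral_comp_polarCoord_symm]
  have h3 := integrableOn_polar h2
  rw [polarCoord_target] at h3 ⊢
  rw [Measure.volume_eq_prod] at h3 ⊢
  rw [setIntegral_prod _ h3]
  have h4 : ∀ ρ ∈ Ioi (0 : ℝ), ∫ θ in Ioo (-π) π,
      (ρ, θ).1 • (ball c R).indicator f (c + Complex.polarCoord.symm (ρ, θ)) =
      (Iio R).indicator (fun ρ => 2 * π * (ρ * circleAverage f c ρ)) ρ := by
    intro ρ hρ
    have hm : ∀ θ : ℝ, c + Complex.polarCoord.symm (ρ, θ) ∈ ball c R ↔ ρ < R := by
      intro θ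
      rw [mem_ball_iff_norm, add_sub_cancel_left, Complex.norm_polarCoord_symm, abs_of_pos hρ]
    by_cases h : ρ < R
    · rw [indicator_of_mem (show ρ ∈ Iio R from h)]
      simp only [fun θ => indicator_of_mem ((hm θ).mpr h) f, smul_eq_mul]
      rw [integral_const_mul, avg_eq]
      ring
    · rw [indicator_of_notMem (show ρ ∉ Iio R from h)]
      simp only [fun θ => indicator_of_notMem (fun h' => h ((hm θ).mp h')) f, smul_zero,
        integral_zero]
  rw [setIntegral_congr_fun measurableSet_Ioi h4, setIntegral_indicator measurableSet_Iio,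
    Ioi_inter_Iio, integral_const_mul, intervalIntegral.integral_of_le hR.le,
    integral_Ioc_eq_integral_Ioo]

theorem item2 (c a : ℂ) (R : ℝ) : IntegrableOn (fun z => log ‖a - z‖) (ball c R) := by
  have h1 : IntegrableOn (fun z : ℂ => log ‖z‖) (ball 0 (R + ‖a - c‖)) := by
    rw [integrableOn_fun_norm_addHaar (μ := volume) (f := log)]
    simp only [Complex.finrank_real_complex, smul_eq_mul, Nat.add_one_sub_one, pow_one]
    exact (continuous_mul_log.integrableOn_Icc).mono_set Ioo_subset_Icc_self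
  have h2 := ((Measure.measurePreserving_sub_left volume a).integrableOn_comp_preimage
    (MeasurableEquiv.subLeft a).measurableEmbedding).mpr h1
  refine h2.mono_set (fun z hz => ?_)
  rw [mem_preimage, mem_ball_zero_iff]
  rw [mem_ball_iff_norm'] at hz
  calc ‖a - z‖ = ‖(c - z) + (a - c)‖ := by congr 1; ring
    _ ≤ ‖c - z‖ + ‖a - c‖ := norm_add_le _ _
    _ < R + ‖a - c‖ := by linarith

theorem item3 (F : ℝ → ℝ≥0∞) (hF : Measurable F) :
    ∫⁻ z : ℂ, F ‖z‖ = ∫⁻ ρ in Ioi (0 : ℝ), ENNReal.ofReal (2 * π * ρ) * F ρ := by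
  rw [← Complex.lintegral_comp_polarCoord_symm]
  have h1 : ∀ p ∈ polarCoord.target, ENNReal.ofReal p.1 • F ‖Complex.polarCoord.symm p‖ =
      ENNReal.ofReal p.1 * F p.1 := by
    intro p hp
    rw [Complex.norm_polarCoord_symm, abs_of_pos hp.1, smul_eq_mul]
  rw [setLIntegral_congr_fun polarCoord.open_target.measurableSet h1, polarCoord_target,
    Measure.volume_eq_prod, setLIntegral_prod _ (by fun_prop)]
  refine setLIntegral_congr_fun measurableSet_Ioi (fun ρ _ => ?_)
  simp only
  rw [setLIntegral_const, Real.volume_Ioo, ENNReal.ofReal_mul (by positivity),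
    show π - -π = 2 * π by ring]
  ring

theorem radial (f : ℝ → ℝ) : ∫ z : ℂ, f ‖z‖ = 2 * π * ∫ y in Ioi (0 : ℝ), y * f y := by
  rw [integral_fun_norm_addHaar (μ := volume) f]
  simp only [Complex.finrank_real_complex, smul_eq_mul, Nat.add_one_sub_one, pow_one,
    nsmul_eq_mul, Measure.real, Complex.volume_ball]
  simp [mul_assoc]

theorem radial_int (f : ℝ → ℝ) (h : IntegrableOn (fun y => y * f y) (Ioi 0)) :
    Integrable (fun z : ℂ => f ‖z‖) := by
  rw [integrable_fun_norm_addHaar (μ := volume) (f := f)]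
  simpa only [Complex.finrank_real_complex, smul_eq_mul, Nat.add_one_sub_one, pow_one] using h

theorem item4 :
    Integrable (fun z : ℂ => 1 / (1 + ‖z‖ ^ 2) ^ 2) ∧ ∫ z : ℂ, 1 / (1 + ‖z‖ ^ 2) ^ 2 = π := by
  have hd : ∀ y ∈ Ici (0 : ℝ), HasDerivAt (fun y : ℝ => -(1 / 2) * (1 + y ^ 2)⁻¹)
      (y * (1 / (1 + y ^ 2) ^ 2)) y := by
    intro y _
    have h0 : (1 + y ^ 2) ≠ 0 := by positivity
    have h1 : HasDerivAt (fun y : ℝ => 1 + y ^ 2) (2 * y) y := by
      simpa using (hasDerivAt_pow 2 y).const_add 1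
    refine ((h1.fun_inv h0).const_mul (-(1 / 2))).congr_deriv ?_
    field_simp
  have hn : ∀ y ∈ Ioi (0 : ℝ), 0 ≤ y * (1 / (1 + y ^ 2) ^ 2) := fun y hy => by
    have : 0 < y := hy
    positivity
  have ht : Tendsto (fun y : ℝ => -(1 / 2) * (1 + y ^ 2)⁻¹) atTop (𝓝 (-(1 / 2) * 0)) :=
    (tendsto_inv_atTop_zero.comp
      (tendsto_atTop_add_const_left _ 1 (tendsto_pow_atTop two_ne_zero))).const_mul _
  refine ⟨radial_int (fun y => 1 / (1 + y ^ 2) ^ 2) (integrableOn_Ioi_deriv_of_nonneg' hd hn ht),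
    ?_⟩
  rw [radial (fun y => 1 / (1 + y ^ 2) ^ 2), integral_Ioi_of_hasDerivAt_of_nonneg' hd hn ht]
  norm_num
  ring

theorem item5 (s : ℝ) (hs : 0 < s) :
    IntegrableOn (fun z : ℂ => 1 / ‖z‖ ^ 2) {z | |log ‖z‖| ≤ s} ∧
      ∫ z in {z : ℂ | |log ‖z‖| ≤ s}, 1 / ‖z‖ ^ 2 = 4 * π * s := by
  have hm : MeasurableSet {z : ℂ | |log ‖z‖| ≤ s} :=
    measurableSet_le (by fun_prop) measurable_const
  have he : {z : ℂ | |log ‖z‖| ≤ s}.indicator (fun z : ℂ => 1 / ‖z‖ ^ 2) =
      fun z : ℂ => {y : ℝ | |log y| ≤ s}.indicator (fun y => 1 / y ^ 2) ‖z‖ := by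
    funext z
    simp only [indicator, mem_ofPred_eq]
  have hle : exp (-s) ≤ exp s := exp_le_exp.mpr (by linarith)
  have hI : ∀ y ∈ Ioi (0 : ℝ), y * {y : ℝ | |log y| ≤ s}.indicator (fun y => 1 / y ^ 2) y =
      (Icc (exp (-s)) (exp s)).indicator (fun y => y⁻¹) y := by
    intro y hy
    have hy0 : 0 < y := hy
    have hiff : y ∈ {y : ℝ | |log y| ≤ s} ↔ y ∈ Icc (exp (-s)) (exp s) := by
      rw [mem_ofPred_eq, abs_le, mem_Icc, le_log_iff_exp_le hy0, log_le_iff_le_exp hy0]
    by_cases h : y ∈ Icc (exp (-s)) (exp s)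
    · rw [indicator_of_mem h, indicator_of_mem (hiff.mpr h)]
      field_simp
    · rw [indicator_of_notMem h, indicator_of_notMem (fun h' => h (hiff.mp h')), mul_zero]
  have hsub : Icc (exp (-s)) (exp s) ⊆ Ioi 0 := fun y hy => lt_of_lt_of_le (exp_pos _) hy.1
  have hc : ContinuousOn (fun y : ℝ => y⁻¹) (Icc (exp (-s)) (exp s)) :=
    continuousOn_inv₀.mono (fun y hy => ne_of_gt (hsub hy))
  constructor
  · rw [← integrable_indicator_iff hm, he]
    apply radial_int
    rw [integrableOn_congr_fun hI measurableSet_Ioi]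
    exact ((integrable_indicator_iff measurableSet_Icc).mpr hc.integrableOn_Icc).integrableOn
  · rw [← integral_indicator hm, he, radial, setIntegral_congr_fun measurableSet_Ioi hI,
      setIntegral_indicator measurableSet_Icc, inter_eq_self_of_subset_right hsub,
      integral_Icc_eq_integral_Ioc, ← intervalIntegral.integral_of_le hle,
      integral_inv_of_pos (exp_pos _) (exp_pos _), log_div (exp_ne_zero _) (exp_ne_zero _),
      log_exp, log_exp]
    ring

theorem item6 (μ : Measure (ℂ × ℂ)) (F f g : ℂ × ℂ → ℝ) (hF : AEStronglyMeasurable F μ)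
    (hf : Integrable f μ) (hg : Integrable g μ)
    (h : ∀ᵐ p ∂μ, 0 ≤ f p ∧ 0 ≤ g p ∧ |F p| ≤ √(f p) * √(g p)) :
    Integrable F μ ∧ |∫ p, F p ∂μ| ≤ √(∫ p, f p ∂μ) * √(∫ p, g p ∂μ) := by
  have hp : ∀ t : ℝ, ∀ᵐ p ∂μ, 2 * t * |F p| ≤ t * t * f p + g p := by
    intro t
    filter_upwards [h] with p ⟨h1, h2, h3⟩
    have h4 := sq_sqrt h1
    have h5 := sq_sqrt h2
    have h6 := abs_nonneg (F p)
    rcases le_total 0 t with ht | ht
    · have h7 : 2 * t * |F p| ≤ 2 * t * (√(f p) * √(g p)) :=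
        mul_le_mul_of_nonneg_left h3 (by positivity)
      nlinarith [sq_nonneg (t * √(f p) - √(g p))]
    · nlinarith [mul_nonneg (mul_self_nonneg t) h1]
  have hi : Integrable F μ := by
    refine Integrable.mono' (hf.add hg) hF ?_
    filter_upwards [hp 1] with p h1
    have h6 := abs_nonneg (F p)
    rw [Real.norm_eq_abs, Pi.add_apply]
    linarith
  refine ⟨hi, ?_⟩
  have hI : 0 ≤ ∫ p, f p ∂μ := integral_nonneg_of_ae (h.mono fun p hp => hp.1)
  have hq : ∀ t : ℝ, 0 ≤ (∫ p, f p ∂μ) * (t * t) + (-2 * ∫ p, |F p| ∂μ) * t + ∫ p, g p ∂μ := by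
    intro t
    have h1 := integral_mono_ae (hi.abs.const_mul (2 * t)) ((hf.const_mul (t * t)).add hg) (hp t)
    simp only [Pi.add_apply] at h1
    rw [integral_add (hf.const_mul (t * t)) hg, integral_const_mul, integral_const_mul] at h1
    linarith
  have hd := discrim_le_zero hq
  rw [discrim] at hd
  refine abs_integral_le_integral_abs.trans ?_
  rw [← sqrt_mul hI]
  apply le_sqrt_of_sq_le
  nlinarith

end PolA

theorem sPolOf : SPolOf :=
  ⟨PolA.item1, PolA.item2, PolA.item3, PolA.item4, PolA.item5, PolA.item6⟩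

end Pool.Agent.MP_670f9a_nt.GL
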