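import Pool.Agent.MP_670f9a_nt.H83.Spec

/-! The radial derivative in polar coordinates. -/

namespace Pool.Agent.MP_670f9a_nt.GL

open Real MeasureTheory Filter Set
open scoped ENNReal ComplexConjugate Topology

namespace PolarA

theorem intg {g : ℂ → ℝ} (hm : Measurable g) (hg : Integrable g) :
    Integrable (fun p : ℝ × ℝ => p.1 • g (Complex.polarCoord.symm p))
      ((volume.restrict (Ioi 0)).prod (volume.restrict (Ioo (-π) π))) := by
  rw [Measure.prod_restrict]
  have m : Measurable fun p : ℝ × ℝ => Complex.polarCoord.symm p := by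
    simp only [Complex.polarCoord_symm_apply]
    fun_prop
  refine ⟨(measurable_fst.smul (hm.comp m)).aestronglyMeasurable, ?_⟩
  have e := Complex.lintegral_comp_polarCoord_symm fun z => ‖g z‖ₑ
  refine lt_of_eq_of_lt (Eq.trans ?_ e) hg.2
  refine setLIntegral_congr_fun (measurableSet_Ioi.prod measurableSet_Ioo) fun p hp => ?_
  dsimp only
  rw [enorm_smul, Real.enorm_eq_ofReal (le_of_lt hp.1), smul_eq_mul]

theorem ray {φ φ' : ℝ → ℝ} {r₁ r₂ : ℝ} (h0 : 0 < r₁) (hd : ∀ ρ, 0 < ρ → HasDerivAt φ (φ' ρ) ρ)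
    (hz : ∀ ρ, 0 < ρ → ρ < r₁ ∨ r₂ < ρ → φ ρ = 0)
    (hi : IntegrableOn (fun ρ => sg (log ρ) * φ' ρ) (Ioi 0)) :
    ∫ ρ in Ioi 0, sg (log ρ) * φ' ρ = -2 * φ 1 := by
  have e1 : EqOn (fun ρ => sg (log ρ) * φ' ρ) φ' (Ioi 1) := fun ρ hρ => by
    simp [sg, log_pos hρ]
  have e2 : EqOn (fun ρ => sg (log ρ) * φ' ρ) (fun ρ => -φ' ρ) (Ioo 0 1) := fun ρ hρ => by
    have := log_neg hρ.1 hρ.2
    simp [sg, this, this.not_gt]
  have i1 := hi.mono_set (Ioi_subset_Ioi zero_le_one)
  have i2 := hi.mono_set (show Ioc (0 : ℝ) 1 ⊆ Ioi 0 from Ioc_subset_Ioi_self)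
  have i3 : IntervalIntegrable (fun ρ => -φ' ρ) volume 0 1 :=
    (intervalIntegrable_iff_integrableOn_Ioo_of_le zero_le_one).2
      ((i2.mono_set Ioo_subset_Ioc_self).congr_fun e2 measurableSet_Ioo)
  have t1 : Tendsto φ atTop (𝓝 0) := tendsto_const_nhds.congr' <| by
    filter_upwards [eventually_gt_atTop 0, eventually_gt_atTop r₂] with ρ a b
    exact (hz ρ a (Or.inr b)).symm
  have t2 : Tendsto (fun ρ => -φ ρ) (𝓝[>] 0) (𝓝 0) := tendsto_const_nhds.congr' <| by
    filter_upwards [Ioo_mem_nhdsGT h0] with ρ a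
    rw [hz ρ a.1 (Or.inl a.2), neg_zero]
  rw [← Ioc_union_Ioi_eq_Ioi zero_le_one, setIntegral_union (Ioc_disjoint_Ioi le_rfl)
    measurableSet_Ioi i2 i1, setIntegral_congr_fun measurableSet_Ioi e1,
    integral_Ioi_of_hasDerivAt_of_tendsto' (fun ρ h => hd ρ (zero_lt_one.trans_le h))
      (i1.congr_fun e1 measurableSet_Ioi) t1, integral_Ioc_eq_integral_Ioo,
    setIntegral_congr_fun measurableSet_Ioo e2, ← integral_Ioc_eq_integral_Ioo,
    ← intervalIntegral.integral_of_le zero_le_one,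
    intervalIntegral.integral_eq_sub_of_hasDerivAt_of_tendsto zero_lt_one
      (fun ρ h => (hd ρ h.1).neg) i3 t2
      ((hd 1 one_pos).neg.continuousAt.tendsto.mono_left nhdsWithin_le_nhds)]
  simp only [Pi.neg_apply]
  ring

end PolarA

open PolarA in
theorem sPolarOf : SPolarOf := by
  intro f B r₁ r₂ h0 _ hf hz hi
  have hm : Measurable fun z : ℂ => fderiv ℝ f z (conj (sg (log ‖z‖) / z)) := by
    have ms : Measurable sg := Measurable.ite (measurableSet_lt measurable_const measurable_id)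
      measurable_const (Measurable.ite (measurableSet_lt measurable_id measurable_const)
        measurable_const measurable_const)
    have mw : Measurable fun z : ℂ => conj ((sg (log ‖z‖) : ℂ) / z) :=
      Complex.continuous_conj.measurable.comp ((Complex.measurable_ofReal.comp
        (ms.comp (measurable_log.comp measurable_norm))).div measurable_id)
    have e : ∀ z w : ℂ, fderiv ℝ f z w = w.re * fderiv ℝ f z 1 + w.im * fderiv ℝ f z Complex.I :=
      fun z w => by
        rw [← smul_eq_mul, ← smul_eq_mul, ← map_smul, ← map_smul, ← map_add]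
        simp
    simp only [fun z => e z (conj (sg (log ‖z‖) / z))]
    exact ((Complex.measurable_re.comp mw).mul (measurable_fderiv_apply_const ℝ f 1)).add
      ((Complex.measurable_im.comp mw).mul (measurable_fderiv_apply_const ℝ f Complex.I))
  have I := intg hm hi
  have key : ∀ᵐ θ ∂volume.restrict (Ioo (-π) π), ∫ ρ in Ioi 0, (fun p : ℝ × ℝ =>
      p.1 • (fun z : ℂ => fderiv ℝ f z (conj (sg (log ‖z‖) / z))) (Complex.polarCoord.symm p))
      (ρ, θ) = -2 * f (circleMap 0 1 θ) := by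
    filter_upwards [I.prod_left_ae, ae_restrict_mem measurableSet_Ioo, ae_restrict_of_ae
      ((B.finite_toSet.image Complex.arg).countable.ae_notMem volume)] with θ i hθ hB
    obtain ⟨e, he⟩ : ∃ e : ℂ, e = Complex.cos θ + Complex.sin θ * Complex.I := ⟨_, rfl⟩
    have n1 : ‖e‖ = 1 := by rw [he]; exact Complex.norm_cos_add_sin_mul_I θ
    have e0 : e ≠ 0 := norm_ne_zero_iff.1 (by rw [n1]; exact one_ne_zero)
    have nb : ∀ ρ : ℝ, 0 < ρ → (ρ : ℂ) * e ∉ B := fun ρ h hb => hB ⟨_, hb, by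
      rw [he]; exact Complex.arg_mul_cos_add_sin_mul_I h ⟨hθ.1, hθ.2.le⟩⟩
    have nr : ∀ ρ : ℝ, 0 < ρ → ‖(ρ : ℂ) * e‖ = ρ := fun ρ h => by
      rw [norm_mul, n1, mul_one, Complex.norm_real, Real.norm_of_nonneg h.le]
    have eq : EqOn (fun ρ : ℝ => (fun p : ℝ × ℝ => p.1 • (fun z : ℂ =>
        fderiv ℝ f z (conj (sg (log ‖z‖) / z))) (Complex.polarCoord.symm p)) (ρ, θ))
        (fun ρ => sg (log ρ) * fderiv ℝ f (ρ * e) e) (Ioi 0) := fun ρ hρ => by
      have r0 : (ρ : ℂ) ≠ 0 := Complex.ofReal_ne_zero.2 (ne_of_gt hρ)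
      have c : conj e = e⁻¹ := by rw [Complex.inv_def, Complex.normSq_eq_norm_sq, n1]; simp
      simp only [Complex.polarCoord_symm_apply, Complex.ofReal_cos, Complex.ofReal_sin, ← he]
      have v : ρ • conj ((sg (log ρ) : ℂ) / (ρ * e)) = sg (log ρ) • e := by
        simp only [map_div₀, map_mul, Complex.conj_ofReal, c, Complex.real_smul]
        field_simp
      rw [nr ρ hρ, ← map_smul, v, map_smul, smul_eq_mul]
    rw [setIntegral_congr_fun measurableSet_Ioi eq, ray (φ := fun ρ : ℝ => f (ρ * e)) (r₂ := r₂) h0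
      (fun ρ h => ?_) (fun ρ h h' => hz _ (nb ρ h) (by rwa [nr ρ h]))
      (IntegrableOn.congr_fun i eq measurableSet_Ioi)]
    · simp [circleMap, Complex.exp_mul_I, he]
    · have := ((hf _ (nb ρ h)).differentiableAt one_ne_zero).hasFDerivAt.comp_hasDerivAt ρ
        (Complex.ofRealCLM.hasDerivAt.mul_const e)
      simp only [Complex.ofRealCLM_apply, Complex.ofReal_one, one_mul] at this
      exact this
  have per : Function.Periodic (fun θ => f (circleMap 0 1 θ)) (2 * π) := fun θ => by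
    simp [periodic_circleMap 0 1 θ]
  have pl : -π ≤ π := by linarith [pi_pos]
  have J : IntervalIntegrable (fun θ => f (circleMap 0 1 θ)) volume (-π) (-π + 2 * π) := by
    rw [show -π + 2 * π = π by ring, intervalIntegrable_iff_integrableOn_Ioo_of_le pl]
    refine ((I.integral_prod_right.congr key).const_mul (-1 / 2)).congr (ae_of_all _ fun θ => ?_)
    ring
  refine ⟨by simpa [CircleIntegrable] using (per.intervalIntegrable_iff (t₂ := 0)).1 J, ?_⟩
  have K := per.intervalIntegral_add_eq (-π) 0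
  rw [show -π + 2 * π = π by ring, zero_add] at K
  rw [← Complex.integral_comp_polarCoord_symm]
  change ∫ p in Ioi 0 ×ˢ Ioo (-π) π, _ ∂((volume : Measure ℝ).prod volume) = _
  rw [← Measure.prod_restrict, integral_prod_symm _ I, integral_congr_ae key, integral_const_mul,
    ← integral_Ioc_eq_integral_Ioo, ← intervalIntegral.integral_of_le pl, K, circleAverage_def,
    smul_eq_mul]
  field_simp
  ring

end Pool.Agent.MP_670f9a_nt.GL
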