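import Pool.Agent.MP_670f9a_nt.H83.Spec

/-! Elimination of one point by a resultant. -/

set_option autoImplicit false

namespace Pool.Agent.MP_670f9a_nt.GL

open Polynomial Finset

namespace ResMvA

/-- A filtration of a ring by two degrees. -/
structure Fl {R : Type} [CommRing R] (P : ℕ → ℕ → R → Prop) : Prop where
  zero : ∀ n E, P n E 0
  one : P 0 0 1
  add : ∀ {n E a b}, P n E a → P n E b → P n E (a + b)
  neg : ∀ {n E a}, P n E a → P n E (-a)
  mul : ∀ {n E n' E' a b}, P n E a → P n' E' b → P (n + n') (E + E') (a * b)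

section

variable {R : Type} [CommRing R] {P : ℕ → ℕ → R → Prop}

theorem Fl.sum (h : Fl P) {ι : Type} {n E : ℕ} (s : Finset ι) (f : ι → R)
    (hf : ∀ i ∈ s, P n E (f i)) : P n E (∑ i ∈ s, f i) :=
  sum_induction f (P n E) (fun _ _ => h.add) (h.zero n E) hf

theorem Fl.prod (h : Fl P) {ι : Type} (n E : ι → ℕ) (s : Finset ι) (f : ι → R)
    (hf : ∀ i, P (n i) (E i) (f i)) : P (∑ i ∈ s, n i) (∑ i ∈ s, E i) (∏ i ∈ s, f i) := by
  classical
  induction s using Finset.induction_on with
  | empty => simpa using h.one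
  | insert a s ha ih =>
    rw [sum_insert ha, sum_insert ha, prod_insert ha]
    exact h.mul (hf a) ih

theorem Fl.ite (h : Fl P) {n E : ℕ} {a : R} (c : Prop) [Decidable c] (ha : P n E a) :
    P n E (if c then a else 0) := by
  split_ifs
  exacts [ha, h.zero n E]

theorem Fl.poly (h : Fl P) : Fl fun n E (f : R[X]) => ∀ j, P n E (f.coeff j) where
  zero n E j := h.zero n E
  one j := by rw [coeff_one]; exact h.ite _ h.one
  add ha hb j := by rw [coeff_add]; exact h.add (ha j) (hb j)
  neg ha j := by rw [coeff_neg]; exact h.neg (ha j)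
  mul ha hb j := by rw [coeff_mul]; exact h.sum _ _ fun x _ => h.mul (ha _) (hb _)

theorem Fl.mv (h : Fl P) {σ τ : Type} (v : τ → σ) : Fl fun n E (f : MvPolynomial σ R) =>
    (∀ i, f.degreeOf (v i) ≤ n) ∧ ∀ m, P 0 E (f.coeff m) := by
  classical
  refine ⟨fun n E => ⟨fun i => by simp, fun m => h.zero 0 E⟩, ⟨fun i => ?_, fun m => ?_⟩,
    fun ha hb => ⟨fun i => (MvPolynomial.degreeOf_add_le _ _ _).trans (max_le (ha.1 i) (hb.1 i)),
      fun m => ?_⟩, fun ha => ⟨fun i => (MvPolynomial.degreeOf_neg _ _).trans_le (ha.1 i),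
      fun m => ?_⟩, fun ha hb => ⟨fun i => (MvPolynomial.degreeOf_mul_le _ _ _).trans
      (add_le_add (ha.1 i) (hb.1 i)), fun m => ?_⟩⟩
  · exact (MvPolynomial.degreeOf_one _).le
  · rw [MvPolynomial.coeff_one]; exact h.ite _ h.one
  · rw [MvPolynomial.coeff_add]; exact h.add (ha.2 m) (hb.2 m)
  · rw [MvPolynomial.coeff_neg]; exact h.neg (ha.2 m)
  · rw [MvPolynomial.coeff_mul]; exact h.sum _ _ fun x _ => h.mul (ha.2 _) (hb.2 _)

theorem Fl.res (h : Fl P) {f g : R[X]} {k E : ℕ} (e : ℕ) (hf : ∀ j, P 0 1 (f.coeff j))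
    (hg : ∀ j, P k E (g.coeff j)) : P (e * k) (k + e * E) (resultant f g e k) := by
  rw [resultant, Matrix.det_apply]
  refine h.sum _ _ fun σ _ => ?_
  have h1 := h.prod (fun j : Fin (e + k) => j.addCases (fun _ => k) fun _ => 0)
    (fun j : Fin (e + k) => j.addCases (fun _ => E) fun _ => 1) univ
    (fun j => sylvester f g e k (σ j) j) fun j => by
      refine j.addCases (motive := fun j' : Fin (e + k) => P (j'.addCases (fun _ => k) fun _ => 0)
        (j'.addCases (fun _ => E) fun _ => 1) (sylvester f g e k (σ j) j')) (fun a => ?_) fun a => ?_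
      · simp only [sylvester, Matrix.of_apply, Fin.addCases_left]
        exact h.ite _ (hg _)
      · simp only [sylvester, Matrix.of_apply, Fin.addCases_right]
        exact h.ite _ (hf _)
  simp only [Fin.sum_univ_add, Fin.addCases_left, Fin.addCases_right, sum_const, card_univ,
    Fintype.card_fin, smul_eq_mul, mul_zero, add_zero, mul_one] at h1
  rw [add_comm] at h1
  rcases Int.units_eq_one_or (Equiv.Perm.sign σ) with e1 | e1 <;> rw [e1]
  · rwa [one_smul]
  · rw [Units.neg_smul, one_smul]; exact h.neg h1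

theorem coeff_sw (Q : R[X][X]) (a b : ℕ) : ((sw Q).coeff a).coeff b = (Q.coeff b).coeff a := by
  unfold sw
  induction Q using Polynomial.induction_on' with
  | add p q hp hq => simp only [map_add, coeff_add, hp, hq]
  | monomial n f =>
    induction f using Polynomial.induction_on' with
    | add p q hp hq => simp only [map_add, coeff_add, hp, hq]
    | monomial m r =>
      rw [Bivariate.swap_monomial_monomial, coeff_monomial, coeff_monomial]
      split_ifs <;> simp [coeff_monomial, *]

end

variable {K : Type} [Field K]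

theorem int0 (Q : K[X][X]) : Fl fun _ E γ => Int0 Q E γ where
  zero _ E V t _ := by rw [mul_zero]; exact V.zero_mem
  one V t _ := by rw [pow_zero, one_mul]; exact V.one_mem
  add ha hb V t h := by rw [mul_add]; exact V.add_mem _ _ (ha V t h) (hb V t h)
  neg ha V t h := by rw [mul_neg]; exact V.neg_mem _ (ha V t h)
  mul ha hb V t h := by
    rw [pow_add, mul_mul_mul_comm]; exact V.mul_mem _ _ (ha V t h) (hb V t h)

/-- The exponents of the other variables. -/
noncomputable def tl {l : ℕ} (m : Fin (l + 1) ⊕ Fin (l + 1) →₀ ℕ) : Fin l ⊕ Fin l →₀ ℕ :=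
  Finsupp.equivFunOnFinite.symm fun v => m (Sum.map Fin.succ Fin.succ v)

/-- A polynomial in the first point. -/
noncomputable def th {l : ℕ} (G : MvPolynomial (Fin (l + 1) ⊕ Fin (l + 1)) K) :
    (MvPolynomial (Fin l ⊕ Fin l) K)[X][X] :=
  ∑ m ∈ G.support, monomial (m (Sum.inl 0))
    (monomial (m (Sum.inr 0)) (MvPolynomial.monomial (tl m) (G.coeff m)))

theorem th_eval {l : ℕ} (G : MvPolynomial (Fin (l + 1) ⊕ Fin (l + 1)) K) (σ : K →+* ℂ)
    (p : Fin l → ℂ × ℂ) (x ξ : ℂ) :
    ((th G).map ((evalRingHom ξ).comp (mapRingHom (ev σ p)))).eval x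
      = ev σ (Fin.cons (x, ξ) p) G := by
  conv_rhs => rw [G.as_sum, map_sum]
  rw [th, Polynomial.map_sum, eval_finsetSum]
  refine sum_congr rfl fun m _ => ?_
  rw [map_monomial, eval_monomial, RingHom.comp_apply, coe_mapRingHom, map_monomial,
    coe_evalRingHom, eval_monomial, ev, ev, MvPolynomial.eval₂Hom_monomial,
    MvPolynomial.eval₂Hom_monomial, Finsupp.prod_fintype _ _ fun _ => pow_zero _,
    Finsupp.prod_fintype _ _ fun _ => pow_zero _, Fintype.prod_sum_type, Fintype.prod_sum_type,
    Fin.prod_univ_succ, Fin.prod_univ_succ]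
  simp only [tl, Finsupp.equivFunOnFinite_symm_apply_apply, Sum.elim_inl, Sum.elim_inr,
    Fin.cons_zero, Fin.cons_succ, Sum.map_inl, Sum.map_inr]
  ring

end ResMvA

open ResMvA in
theorem sResMvOf : SResMvOf := by
  classical
  intro K _ l Q G k E _ hk hE
  have hA := (int0 Q).mv (Sum.inl : Fin l → Fin l ⊕ Fin l)
  have hm : ∀ m ∈ G.support, ∀ i, m (Sum.inl i) ≤ k := fun m hm i =>
    (MvPolynomial.monomial_le_degreeOf _ hm).trans (hk i)
  refine ⟨resultant ((sw Q).map (mapRingHom MvPolynomial.C)) (th G) (sw Q).natDegree k,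
    hA.poly.res _ (fun i j => ?_) (hA.poly.poly.sum _ _ fun m h i => ?_), fun σ p ξ hc => ?_⟩
  · rw [coeff_map, coe_mapRingHom, coeff_map, coeff_sw]
    refine ⟨fun i => (MvPolynomial.degreeOf_C _ _).le, fun m => ?_⟩
    rw [MvPolynomial.coeff_C]
    exact (int0 Q).ite (n := 0) _ fun V t h => by rw [pow_one]; exact h _ _
  · rw [coeff_monomial]
    refine hA.poly.ite _ fun j => ?_
    rw [coeff_monomial]
    refine hA.ite _ ⟨fun i => ?_, fun m' => ?_⟩
    · refine MvPolynomial.degreeOf_le_iff.2 fun m' hm' => ?_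
      rw [mem_singleton.1 (MvPolynomial.support_monomial_subset hm')]
      exact hm m h i.succ
    · rw [MvPolynomial.coeff_monomial]
      exact (int0 Q).ite (n := 0) _ (hE m)
  · have e1 : sw (mp σ Q) = mp σ (sw Q) := by
      ext a b
      simp only [coeff_sw, mp, coeff_map, coe_mapRingHom]
    have e2 : ((sw Q).map (mapRingHom MvPolynomial.C)).map
        ((evalRingHom ξ).comp (mapRingHom (ev σ p))) = (sw (mp σ Q)).map (evalRingHom ξ) := by
      rw [e1, mp, Polynomial.map_map, Polynomial.map_map, RingHom.comp_assoc, mapRingHom_comp, ev,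
        MvPolynomial.eval₂Hom_comp_C]
    have e3 : ((sw (mp σ Q)).map (evalRingHom ξ)).natDegree = (sw Q).natDegree := by
      refine le_antisymm (natDegree_map_le.trans ?_) (hc ▸ card_roots' _)
      rw [e1]; exact natDegree_map_le
    have e4 : (th G).natDegree ≤ k :=
      natDegree_sum_le_of_forall_le _ _ fun m h => (natDegree_monomial_le _).trans (hm m h 0)
    have e5 := resultant_map_map ((sw Q).map (mapRingHom MvPolynomial.C)) (th G) (sw Q).natDegree k
      ((evalRingHom ξ).comp (mapRingHom (ev σ p)))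
    rw [e2, ← e3, resultant_eq_prod_eval _ _ _ (natDegree_map_le.trans e4) (IsAlgClosed.splits _),
      e3] at e5
    refine (congrArg norm e5.symm).trans ?_
    rw [norm_mul, norm_pow, fib]
    congr 1
    refine (map_multiset_prod (normHom : ℂ →*₀ ℝ) _).trans ?_
    rw [Multiset.map_map]
    exact congrArg _ (Multiset.map_congr rfl fun x _ => congrArg norm (th_eval G σ p x ξ))

end Pool.Agent.MP_670f9a_nt.GL
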