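import Pool.Agent.MP_670f9a_nt.H83.Spec

/-! The scaled logarithms on the curve: measurability and first and second derivatives. -/

set_option autoImplicit false

namespace Pool.Agent.MP_670f9a_nt.GL

open Polynomial Real Filter
open scoped Topology

namespace RhoA

theorem hasL {z : ℂ} (hz : z ≠ 0) : ∃ L : ℂ →L[ℝ] ℝ,
    HasFDerivAt (fun u : ℂ => log ‖u‖) L z ∧ ∀ w, L w = (w / z).re := by
  have h0 : ‖z‖ ^ 2 ≠ 0 := pow_ne_zero 2 (norm_ne_zero_iff.2 hz)
  have h1 := (((hasFDerivAt_id (𝕜 := ℝ) z).norm_sq).log h0).const_mul (1 / 2 : ℝ)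
  have e : (fun u : ℂ => log ‖u‖) = fun u : ℂ => 1 / 2 * log (‖id u‖ ^ 2) := by
    funext u
    rw [Real.log_pow]
    simp
  refine ⟨_, e ▸ h1, fun w => ?_⟩
  have h2 : Complex.normSq z ≠ 0 := by rwa [← Complex.sq_norm]
  simp [Complex.div_re, Complex.sq_norm]
  field_simp

theorem cdL {z : ℂ} (hz : z ≠ 0) : ContDiffAt ℝ 2 (fun u : ℂ => log ‖u‖) z :=
  (contDiffAt_id.norm ℝ hz).log (norm_ne_zero_iff.2 hz)

theorem cd_la (Q : ℂ[X][X]) {p : ℂ × ℂ} (h : p.1 ≠ 0) : ContDiffAt ℝ 2 (la Q) p :=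
  contDiffAt_const.mul ((cdL h).comp p contDiffAt_fst)

theorem cd_lb (Q : ℂ[X][X]) {p : ℂ × ℂ} (h : p.2 ≠ 0) : ContDiffAt ℝ 2 (lb Q) p :=
  contDiffAt_const.mul ((cdL h).comp p contDiffAt_snd)

theorem D_la (Q : ℂ[X][X]) {p : ℂ × ℂ} (h : p.1 ≠ 0) (w : ℂ) :
    D Q w (la Q) p = (da Q p * w).re := by
  obtain ⟨L, h1, h2⟩ := hasL h
  have h3 : HasFDerivAt (la Q) _ p :=
    (h1.comp p (hasFDerivAt_fst (𝕜 := ℝ) (p := p))).const_mul ((sw Q).natDegree : ℝ)
  have e : da Q p * w = (((sw Q).natDegree : ℝ) : ℂ) * (w / p.1) := by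
    rw [da]; push_cast; ring
  rw [D, h3.fderiv, e, Complex.re_ofReal_mul, ← h2]
  simp

theorem D_lb (Q : ℂ[X][X]) {p : ℂ × ℂ} (h : p.2 ≠ 0) (w : ℂ) :
    D Q w (lb Q) p = (db Q p * w).re := by
  obtain ⟨L, h1, h2⟩ := hasL h
  have h3 : HasFDerivAt (lb Q) _ p :=
    (h1.comp p (hasFDerivAt_snd (𝕜 := ℝ) (p := p))).const_mul (Q.natDegree : ℝ)
  have e : db Q p * w = ((Q.natDegree : ℝ) : ℂ) * (sl Q p * w / p.2) := by
    rw [db]; push_cast; ring
  rw [D, h3.fderiv, e, Complex.re_ofReal_mul, ← h2]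
  simp

theorem D_qq (Q : ℂ[X][X]) {p : ℂ × ℂ} (h : p.1 ≠ 0) (h' : p.2 ≠ 0) (w : ℂ) :
    D Q w (qq Q) p = 2 * (uu Q p * w).re := by
  have h1 := ((cd_la Q h).differentiableAt (by norm_num)).hasFDerivAt
  have h2 := ((cd_lb Q h').differentiableAt (by norm_num)).hasFDerivAt
  have h3 : HasFDerivAt (qq Q) _ p := (h1.pow 2).add (h2.pow 2)
  have e1 := D_la Q h w
  have e2 := D_lb Q h' w
  rw [D] at e1 e2
  rw [D, h3.fderiv, uu, add_mul, mul_assoc, mul_assoc, Complex.add_re, Complex.re_ofReal_mul,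
    Complex.re_ofReal_mul, ← e1, ← e2]
  simp
  ring

/-- a function whose gradient is holomorphic is harmonic -/
theorem harm (hC : SCalc) (Q : ℂ[X][X]) {F : ℂ × ℂ → ℝ} {f : ℂ × ℂ → ℂ} {p : ℂ × ℂ}
    (hf : DifferentiableAt ℂ f p) (h : ∀ᶠ q in 𝓝 p, ∀ w, D Q w F q = (f q * w).re) :
    Lap Q F p = 0 := by
  have key : ∀ w, D Q w (D Q w F) p = (dC Q f p * w * w).re := fun w => by
    have h1 : D Q w F =ᶠ[𝓝 p] fun q => (f q * w).re := h.mono fun q hq => hq w
    have h2 := (hC.1 Q p w).2.2.2.2.2.1 (fun q => f q * w) (hf.mul_const w)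
    have h3 : dC Q (fun q => f q * w) p = dC Q f p * w := by
      rw [dC, dC, fderiv_mul_const hf w]
      simp [mul_comm]
    rw [← h3, ← h2, D, D, h1.fderiv_eq]
  rw [Lap, key, key, mul_assoc _ Complex.I, Complex.I_mul_I]
  simp

theorem gr_eq (Q : ℂ[X][X]) {F : ℂ × ℂ → ℝ} {p : ℂ × ℂ} {c : ℂ} {a : ℝ}
    (h : ∀ w, D Q w F p = a * (c * w).re) : gr Q F F p = a ^ 2 * ‖c‖ ^ 2 := by
  rw [gr, h, h, Complex.sq_norm, Complex.normSq_apply]
  simp
  ring

end RhoA

open RhoA in
theorem sRhoOf : SRhoOf := by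
  intro hCh hC hG
  obtain ⟨⟨hg, -⟩, hsg, -⟩ := hG
  refine ⟨fun Q => ?_, fun Q B hT => ?_⟩
  · have hsl : Measurable (sl Q) := (hCh.2.1 Q).2.2.2.1
    have m1 : Measurable (la Q) := measurable_const.mul measurable_fst.norm.log
    have m2 : Measurable (lb Q) := measurable_const.mul measurable_snd.norm.log
    have m3 : Measurable (da Q) := measurable_const.div measurable_fst
    have m4 : Measurable (db Q) := measurable_const.mul (hsl.div measurable_snd)
    have m5 : Measurable (gm Q) := measurable_const.mul ((measurable_fst.mul hsl).div measurable_snd)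
    have m6 : Measurable (qq Q) := (m1.pow_const 2).add (m2.pow_const 2)
    have c1 := Complex.measurable_ofReal.comp m1
    have c2 := Complex.measurable_ofReal.comp m2
    refine ⟨m1, m2, m3, m4, m5, m6, (m3.norm.pow_const 2).add (m4.norm.pow_const 2),
      (c1.mul m3).add (c2.mul m4), (c1.mul m4).sub (c2.mul m3), fun lam kap => ⟨?_, ?_⟩,
      fun t => ⟨?_, ?_⟩, fun p => ?_⟩
    · exact ((Complex.measurable_ofReal.comp (hsg.comp m1)).mul (measurable_const.mul m3)).sub
        ((Complex.measurable_ofReal.comp (hsg.comp ((measurable_const.mul m1).add m2))).mul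
          ((measurable_const.mul m3).add m4))
    · exact (measurable_const.sub ((measurable_const.add m5).norm.pow_const 2)).div
        (measurable_const.add (m5.norm.pow_const 2))
    · exact ((measurable_deriv gam).comp (m6.div_const _)).neg.mul measurable_const
    · exact hg.continuous.measurable.comp (m6.div_const _)
    · simp only [uu, zz, qq, SS, Complex.sq_norm, Complex.normSq_apply, Complex.add_re,
        Complex.add_im, Complex.sub_re, Complex.sub_im, Complex.re_ofReal_mul,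
        Complex.im_ofReal_mul]
      ring
  · obtain ⟨hB, h0, hy, B', hB'⟩ := hT
    have d1 : (1 : ℝ) ≤ Q.natDegree := by exact_mod_cast hB.1
    have e1 : (1 : ℝ) ≤ (sw Q).natDegree := by exact_mod_cast hB'.1
    refine ⟨one_le_mul_of_one_le_of_one_le d1 e1, fun p hp => ?_⟩
    have hx : p.1 ≠ 0 := fun h => hp.2 (h ▸ h0)
    have hy' : p.2 ≠ 0 := hy p hp
    have hs : AnalyticAt ℂ (sl Q) p := ((hCh.2.2 Q B hB).2.1 p hp).2.1
    have aa : AnalyticAt ℂ (da Q) p := analyticAt_const.div analyticAt_fst hx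
    have ab : AnalyticAt ℂ (db Q) p := analyticAt_const.mul (hs.div analyticAt_snd hy')
    have ca := cd_la Q hx
    have cb := cd_lb Q hy'
    have cq : ContDiffAt ℝ 2 (qq Q) p := (ca.pow 2).add (cb.pow 2)
    have La : Lap Q (la Q) p = 0 := harm hC Q aa.differentiableAt
      ((continuous_fst.continuousAt.eventually_ne hx).mono fun q hq w => D_la Q hq w)
    have Lb : Lap Q (lb Q) p = 0 := harm hC Q ab.differentiableAt
      ((continuous_snd.continuousAt.eventually_ne hy').mono fun q hq w => D_lb Q hq w)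
    refine ⟨analyticAt_const.mul ((analyticAt_fst.mul hs).div analyticAt_snd hy'), ?_, ?_, cq,
      D_qq Q hx hy', ?_, ?_, fun t => ⟨hg.contDiffAt.comp p (cq.div_const _), fun w => ?_⟩⟩
    · have : ((sw Q).natDegree : ℂ) ≠ 0 := by
        have := hB'.1
        exact_mod_cast (by omega : (sw Q).natDegree ≠ 0)
      rw [db, gm, da]
      field_simp
    · exact ((Complex.ofRealCLM.contDiff.contDiffAt.comp p (ca.of_le (by norm_num))).mul
        (aa.contDiffAt.restrict_scalars ℝ)).add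
        ((Complex.ofRealCLM.contDiff.contDiffAt.comp p (cb.of_le (by norm_num))).mul
        (ab.contDiffAt.restrict_scalars ℝ))
    · have hL := (hC.2 Q B p hB hp).1
      have e : qq Q = fun q => la Q q * la Q q + lb Q q * lb Q q := by
        funext q; rw [qq]; ring
      rw [e, (hL _ _ (ca.mul ca) (cb.mul cb)).2, (hL _ _ ca ca).1, (hL _ _ cb cb).1, La, Lb,
        gr_eq Q (a := 1) (c := da Q p) fun w => by rw [D_la Q hx, one_mul],
        gr_eq Q (a := 1) (c := db Q p) fun w => by rw [D_lb Q hy', one_mul], SS]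
      ring
    · rw [gr_eq Q (D_qq Q hx hy')]
      norm_num
    · have h1 := (hC.1 Q p w).2.1 (fun q => qq Q q / t ^ 2) gam
        ((cq.div_const _).differentiableAt (by norm_num))
        (hg.differentiable (by norm_num)).differentiableAt
      have h2 := (hC.1 Q p w).2.2.1 (qq Q) (t ^ 2)⁻¹
      have e : (fun q => qq Q q / t ^ 2) = fun q => (t ^ 2)⁻¹ * qq Q q := by
        funext q; rw [div_eq_inv_mul]
      rw [← e, D_qq Q hx hy'] at h2
      rw [h2] at h1
      refine Eq.trans h1 ?_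
      rw [om]
      ring

end Pool.Agent.MP_670f9a_nt.GL
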