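import Pool.Agent.MP_670f9a_nt.H83.Spec

/-! The shear of a plane curve. -/

set_option autoImplicit false

namespace Pool.Agent.MP_670f9a_nt.GL

open Polynomial Real Finset
open Pool.Agent.MP_670f9a_nt.NP (Phi m2 toC)

namespace ShA

theorem sw_coeff {R : Type} [CommRing R] (Q : R[X][X]) (i j : ℕ) :
    ((sw Q).coeff i).coeff j = (Q.coeff j).coeff i := by
  unfold sw
  induction Q using Polynomial.induction_on' with
  | add p q hp hq => simp only [map_add, coeff_add, hp, hq]
  | monomial n a =>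
    rw [Bivariate.swap_monomial, coeff_mul_C, coeff_map, coeff_C_mul, coeff_X_pow, coeff_monomial]
    by_cases h : n = j
    · simp [h]
    · have h' : ¬ j = n := fun e => h e.symm
      simp [h, h']

theorem rot (f : ℂ → ℝ) (c : ℂ) (hc : ‖c‖ = 1) :
    circleAverage (fun v => f (c * v)) 0 1 = circleAverage f 0 1 := by
  rw [circleAverage_eq_integral_add (f := f) c.arg, circleAverage_def]
  congr 1
  refine intervalIntegral.integral_congr fun θ _ => ?_
  have h1 : c = Complex.exp (c.arg * Complex.I) := by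
    have := Complex.norm_mul_exp_arg_mul_I c
    rw [hc] at this
    simpa using this.symm
  show f (c * circleMap 0 1 θ) = f (circleMap 0 1 (θ + c.arg))
  congr 1
  simp only [circleMap, zero_add, Complex.ofReal_one, one_mul]
  push_cast
  rw [add_mul, Complex.exp_add, ← h1, mul_comm]

theorem exP (P : ℤ[X][X]) (hP : P ≠ 0) (n : ℕ → ℕ) : ∃ (P' : ℤ[X][X]) (v : ℕ),
    ¬ C X ∣ P' ∧ ∀ j, X ^ v * P'.coeff j = P.coeff j * X ^ n j := by
  obtain ⟨P1, hP1⟩ : ∃ P1 : ℤ[X][X], ∀ j, P1.coeff j = P.coeff j * X ^ n j := by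
    refine ⟨∑ j ∈ P.support, monomial j (P.coeff j * X ^ n j), fun j => ?_⟩
    rw [finsetSum_coeff]
    simp only [coeff_monomial]
    rw [Finset.sum_ite_eq']
    split_ifs with h
    · rfl
    · rw [notMem_support_iff.1 h, zero_mul]
  have h0 : P1 ≠ 0 := by
    intro h
    have h1 := hP1 P.natDegree
    rw [h, coeff_zero] at h1
    exact mul_ne_zero (leadingCoeff_ne_zero.2 hP) (pow_ne_zero _ X_ne_zero) h1.symm
  have hu : ¬ IsUnit (C X : ℤ[X][X]) := fun h => not_isUnit_X (isUnit_C.1 h)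
  obtain ⟨v, P', h1, h2⟩ := WfDvdMonoid.max_power_factor' h0 hu
  refine ⟨P', v, h1, fun j => ?_⟩
  rw [← hP1, h2, ← C_pow, coeff_C_mul]

theorem irr (p p' : ℚ[X][X]) (v M : ℕ) (n : ℕ → ℕ) (k N : ℤ) (hp : Irreducible p)
    (hd : p.natDegree ≠ 0) (hX : ¬ C X ∣ p')
    (h : ∀ j, X ^ v * p'.coeff j = p.coeff j * X ^ n j)
    (hn : ∀ j, p.coeff j ≠ 0 → n j ≤ M ∧ (n j : ℤ) = N - k * j) : Irreducible p' := by
  have hpp := hp.isPrimitive hd
  have hpp' : p'.IsPrimitive := by
    rw [isPrimitive_iff_isUnit_of_C_dvd]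
    intro r hr
    have hXr : ¬ X ∣ r := fun e => hX ((_root_.map_dvd C e).trans hr)
    have hc : IsCoprime (X : ℚ[X]) r := irreducible_X.coprime_iff_not_dvd.2 hXr
    refine isPrimitive_iff_isUnit_of_C_dvd.1 hpp r ?_
    rw [C_dvd_iff_dvd_coeff] at hr ⊢
    intro j
    have h1 : r ∣ p.coeff j * X ^ n j := by
      rw [← h j]; exact Dvd.dvd.mul_left (hr j) _
    exact (hc.symm.pow_right (n := n j)).dvd_of_dvd_mul_right h1
  have hK := (hpp.irreducible_iff_irreducible_map_fraction_map (K := FractionRing ℚ[X])).1 hp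
  rw [hpp'.irreducible_iff_irreducible_map_fraction_map (K := FractionRing ℚ[X])]
  obtain ⟨x, hx⟩ : ∃ x : FractionRing ℚ[X], x = algebraMap ℚ[X] _ X := ⟨_, rfl⟩
  have hx0 : x ≠ 0 := by
    rw [hx]
    exact (map_ne_zero_iff _ (IsFractionRing.injective _ _)).2 X_ne_zero
  have ha : x ^ (-k) ≠ 0 := zpow_ne_zero _ hx0
  let _ : Invertible (x ^ (-k)) := invertibleOfNonzero ha
  have h2 : p'.map (algebraMap ℚ[X] (FractionRing ℚ[X])) = C (x ^ (N - v)) *
      algEquivCMulXAddC (x ^ (-k)) 0 (p.map (algebraMap ℚ[X] (FractionRing ℚ[X]))) := by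
    ext j
    rw [algEquivCMulXAddC_apply, C_0, add_zero, ← comp_eq_aeval, coeff_C_mul, comp_C_mul_X_coeff,
      coeff_map, coeff_map]
    have h3 := congrArg (algebraMap ℚ[X] (FractionRing ℚ[X])) (h j)
    rw [map_mul, map_mul, map_pow, map_pow, ← hx] at h3
    refine mul_left_cancel₀ (pow_ne_zero v hx0) ?_
    rw [h3]
    by_cases hj : p.coeff j = 0
    · simp [hj]
    · have h4 : x ^ n j = x ^ v * (x ^ (N - v) * (x ^ (-k)) ^ j) := by
        rw [← zpow_natCast, ← zpow_natCast, ← zpow_natCast, ← zpow_mul, ← zpow_add₀ hx0,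
          ← zpow_add₀ hx0, (hn j hj).2]
        congr 1
        ring
      rw [h4]
      ring
  rw [h2, irreducible_isUnit_mul (isUnit_C.2 (IsUnit.mk0 _ (zpow_ne_zero _ hx0)))]
  exact (MulEquiv.irreducible_iff (algEquivCMulXAddC (x ^ (-k)) 0)).2 hK

theorem ev (P P' : ℤ[X][X]) (v : ℕ) (n : ℕ → ℕ) (k N : ℤ)
    (h : ∀ j, X ^ v * P'.coeff j = P.coeff j * X ^ n j)
    (hn : ∀ j, P.coeff j ≠ 0 → (n j : ℤ) = N - k * j) (x y : ℂ) (hx : x ≠ 0) :
    (toC P').evalEval x (x ^ k * y) = x ^ (N - v) * (toC P).evalEval x y := by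
  rw [← map_evalRingHom_eval, ← map_evalRingHom_eval]
  have h1 : ((toC P').map (evalRingHom x)).comp (C (x ^ k) * X) =
      C (x ^ (N - v)) * (toC P).map (evalRingHom x) := by
    ext j
    rw [comp_C_mul_X_coeff, coeff_C_mul]
    unfold toC
    simp only [coeff_map, coe_mapRingHom, coe_evalRingHom]
    have h3 := congrArg (fun q : ℤ[X] => (q.map (Int.castRingHom ℂ)).eval x) (h j)
    simp only [Polynomial.map_mul, Polynomial.map_pow, map_X, eval_mul, eval_pow, eval_X] at h3
    refine mul_left_cancel₀ (pow_ne_zero v hx) ?_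
    rw [← mul_assoc, h3]
    by_cases hj : P.coeff j = 0
    · simp [hj]
    · have h4 : x ^ n j * (x ^ k) ^ j = x ^ v * x ^ (N - v) := by
        rw [← zpow_natCast, ← zpow_natCast, ← zpow_natCast, ← zpow_mul, ← zpow_add₀ hx,
          ← zpow_add₀ hx, hn j hj]
        congr 1
        ring
      rw [mul_assoc, h4]
      ring
  have h2 := congrArg (eval y) h1
  rw [eval_comp, eval_mul, eval_mul, eval_C, eval_C, eval_X] at h2
  exact h2

end ShA

theorem sShOf : SShOf := by
  intro P k hI hN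
  obtain ⟨i₁, j₁, i₂, j₂, i₃, j₃, h1, h2, h3, hdet⟩ := hN
  have hP0 : P ≠ 0 := by
    rintro rfl
    simp at h1
  have hle : ∀ j, P.coeff j ≠ 0 → j ≤ P.natDegree := fun j hj => le_natDegree_of_ne_zero hj
  have hne : ∀ i j, (P.coeff j).coeff i ≠ 0 → P.coeff j ≠ 0 := fun i j hij e => by
    rw [e] at hij
    simp at hij
  have hd : P.natDegree ≠ 0 := by
    intro e
    have a1 := hle _ (hne _ _ h1)
    have a2 := hle _ (hne _ _ h2)
    have a3 := hle _ (hne _ _ h3)
    have b1 : j₁ = 0 := by omega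
    have b2 : j₂ = 0 := by omega
    have b3 : j₃ = 0 := by omega
    subst b1 b2 b3
    simp at hdet
  obtain ⟨n, N, hn⟩ : ∃ (n : ℕ → ℕ) (N : ℤ), ∀ j, j ≤ P.natDegree →
      n j ≤ k.natAbs * P.natDegree ∧ (n j : ℤ) = N - k * j := by
    rcases le_total 0 k with hk | hk
    · refine ⟨fun j => k.natAbs * (P.natDegree - j), k * P.natDegree, fun j hj =>
        ⟨Nat.mul_le_mul_left _ (Nat.sub_le _ _), ?_⟩⟩
      push_cast [hj]
      rw [abs_of_nonneg hk]
      ring
    · refine ⟨fun j => k.natAbs * j, 0, fun j hj => ⟨Nat.mul_le_mul_left _ hj, ?_⟩⟩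
      push_cast
      rw [abs_of_nonpos hk]
      ring
  obtain ⟨P', v, hX, h⟩ := ShA.exP P hP0 n
  have hzero : ∀ j, P'.coeff j = 0 ↔ P.coeff j = 0 := fun j => by
    constructor
    · intro e
      have := h j
      rw [e, mul_zero] at this
      exact (mul_eq_zero.1 this.symm).resolve_right (pow_ne_zero _ X_ne_zero)
    · intro e
      have := h j
      rw [e, zero_mul] at this
      exact (mul_eq_zero.1 this).resolve_left (pow_ne_zero _ X_ne_zero)
  have hev := ShA.ev P P' v n k N h fun j hj => (hn j (hle j hj)).2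
  have hinj : Function.Injective (mapRingHom (Int.castRingHom ℚ)) :=
    map_injective _ Int.cast_injective
  refine ⟨P', N - v, ?_, ?_, ?_, ?_, ?_, hev⟩
  · refine ShA.irr _ _ v (k.natAbs * P.natDegree) n k N hI ?_ ?_ ?_ ?_
    · rwa [natDegree_map_eq_of_injective hinj]
    · intro e
      apply hX
      rw [C_dvd_iff_dvd_coeff] at e ⊢
      intro j
      have e1 := e j
      rw [X_dvd_iff, coeff_map, coe_mapRingHom, coeff_map] at e1
      rw [X_dvd_iff]
      simpa using e1
    · intro j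
      have e1 := congrArg (mapRingHom (Int.castRingHom ℚ)) (h j)
      rw [map_mul, map_mul, map_pow, map_pow] at e1
      simpa [coeff_map] using e1
    · intro j hj
      refine hn j (hle j fun e => hj ?_)
      rw [coeff_map, e, map_zero]
  · have key : ∀ i j, (P.coeff j).coeff i ≠ 0 → ∃ i' : ℕ, (P'.coeff j).coeff i' ≠ 0 ∧
        (i' : ℤ) = i + N - k * j - v := by
      intro i j hij
      have e1 : (X ^ v * P'.coeff j).coeff (i + n j) ≠ 0 := by
        rw [h j, coeff_mul_X_pow]; exact hij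
      rw [coeff_X_pow_mul'] at e1
      split_ifs at e1 with e2
      · refine ⟨i + n j - v, e1, ?_⟩
        push_cast [e2]
        rw [(hn j (hle j (hne i j hij))).2]
        ring
      · exact absurd rfl e1
    obtain ⟨a₁, b₁, c₁⟩ := key _ _ h1
    obtain ⟨a₂, b₂, c₂⟩ := key _ _ h2
    obtain ⟨a₃, b₃, c₃⟩ := key _ _ h3
    refine ⟨a₁, j₁, a₂, j₂, a₃, j₃, b₁, b₂, b₃, fun e => hdet ?_⟩
    rw [c₁, c₂, c₃] at e
    linear_combination e
  · unfold m2
    refine circleAverage_congr_sphere fun x hx => ?_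
    have hx1 : ‖x‖ = 1 := by simpa using hx
    have hx0 : x ≠ 0 := by
      rintro rfl
      simp at hx1
    unfold Phi
    rw [← ShA.rot (fun v => log ‖(toC P').evalEval x v‖) (x ^ k) (by rw [norm_zpow, hx1, one_zpow])]
    congr 1
    funext y
    rw [hev x y hx0, norm_mul, norm_zpow, hx1, one_zpow, one_mul]
  · apply le_antisymm
    · rw [natDegree_le_iff_coeff_eq_zero]
      intro j hj
      exact (hzero j).2 (coeff_eq_zero_of_natDegree_lt hj)
    · rw [natDegree_le_iff_coeff_eq_zero]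
      intro j hj
      exact (hzero j).1 (coeff_eq_zero_of_natDegree_lt hj)
  · rw [natDegree_le_iff_coeff_eq_zero]
    intro i hi
    ext j
    rw [ShA.sw_coeff, coeff_zero]
    by_cases hj : P.coeff j = 0
    · rw [(hzero j).2 hj, coeff_zero]
    · have e0 := (hn j (hle j hj)).1
      have e1 : (P'.coeff j).coeff i = (X ^ v * P'.coeff j).coeff (i + v) := by
        rw [coeff_X_pow_mul]
      rw [e1, h j, coeff_mul_X_pow', if_pos (by omega), ← ShA.sw_coeff,
        coeff_eq_zero_of_natDegree_lt (p := sw P) (by omega), coeff_zero]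

end Pool.Agent.MP_670f9a_nt.GL
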