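import Pool.Agent.MP_670f9a_nt.H83.SpecG

/-! Row ShF: the shear of a divisor. -/

set_option autoImplicit false

namespace Pool.Agent.MP_670f9a_nt.GL

open Polynomial

namespace ShFA

theorem ext2 {P Q : ℂ[X][X]} (h : ∀ x y : ℂ, P.evalEval x y = Q.evalEval x y) : P = Q :=
  Polynomial.ext fun j => Polynomial.funext fun x => by
    have h1 : P.map (evalRingHom x) = Q.map (evalRingHom x) := Polynomial.funext fun y => by
      rw [map_evalRingHom_eval, map_evalRingHom_eval, h]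
    simpa [coeff_map] using congrArg (coeff · j) h1

theorem exT (k : ℤ) (P : ℂ[X][X]) (hP : P ≠ 0) : ∃ (P' : ℂ[X][X]) (β : ℤ), ¬ C X ∣ P' ∧
    P'.natDegree = P.natDegree ∧
    ∀ x y : ℂ, x ≠ 0 → P'.evalEval x (x ^ k * y) = x ^ β * P.evalEval x y := by
  obtain ⟨n, N, hn⟩ : ∃ (n : ℕ → ℕ) (N : ℤ), ∀ j, j ≤ P.natDegree → (n j : ℤ) = N - k * j := by
    refine ⟨fun j => (|k| * P.natDegree - k * j).toNat, |k| * P.natDegree, fun j hj =>
      Int.toNat_of_nonneg (sub_nonneg.2 ?_)⟩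
    exact mul_le_mul (le_abs_self k) (by exact_mod_cast hj) (by positivity) (abs_nonneg k)
  obtain ⟨P1, hP1⟩ : ∃ P1 : ℂ[X][X], ∀ j, P1.coeff j = P.coeff j * X ^ n j := by
    refine ⟨∑ j ∈ P.support, monomial j (P.coeff j * X ^ n j), fun j => ?_⟩
    rw [finsetSum_coeff]
    simp only [coeff_monomial]
    rw [Finset.sum_ite_eq']
    split_ifs with h
    · rfl
    · rw [notMem_support_iff.1 h, zero_mul]
  have hs : P1.support = P.support := by
    ext j
    simp [hP1]
  have h0 : P1 ≠ 0 := fun h => hP (by rw [← support_eq_empty, ← hs, h, support_zero])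
  obtain ⟨v, P', h1, h2⟩ := WfDvdMonoid.max_power_factor' h0
    (fun h => not_isUnit_X (isUnit_C.1 h) : ¬ IsUnit (C X : ℂ[X][X]))
  refine ⟨P', N - v, h1, ?_, fun x y hx => ?_⟩
  · rw [← natDegree_C_mul (pow_ne_zero v (X_ne_zero (R := ℂ))), C_pow, ← h2, natDegree, natDegree,
      degree, degree, hs]
  · have h3 : (P1.map (evalRingHom x)).comp (C (x ^ k) * X) =
        C (x ^ N) * P.map (evalRingHom x) := by
      ext j
      rw [comp_C_mul_X_coeff, coeff_C_mul, coeff_map, coeff_map, hP1, map_mul, map_pow]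
      by_cases hj : P.coeff j = 0
      · simp [hj]
      · rw [coe_evalRingHom, eval_X, mul_assoc, mul_comm, ← zpow_natCast, ← zpow_natCast,
          ← zpow_mul, ← zpow_add₀ hx, hn j (le_natDegree_of_ne_zero hj), sub_add_cancel]
    have h4 := congrArg (eval y) h3
    rw [eval_comp, eval_mul, eval_mul, eval_C, eval_C, eval_X, map_evalRingHom_eval,
      map_evalRingHom_eval, h2, evalEval_mul, evalEval_pow, evalEval_C, eval_X] at h4
    rw [zpow_sub₀ hx, zpow_natCast, div_mul_eq_mul_div, ← h4,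
      mul_div_cancel_left₀ _ (pow_ne_zero _ hx)]

end ShFA

open ShFA in
theorem sShFOf : SShFOf := by
  rintro Q Q' F k α hQ ⟨G, rfl⟩ h
  obtain ⟨F', β, h1, h2, h3⟩ := exT k F (left_ne_zero_of_mul hQ)
  obtain ⟨G', γ, -, -, h4⟩ := exT k G (right_ne_zero_of_mul hQ)
  obtain ⟨a, b, hab⟩ : ∃ a b : ℕ, α + b = β + γ + a :=
    ⟨(α - β - γ).toNat, (-(α - β - γ)).toNat, by omega⟩
  have h5 : C X ^ (b + 1) * Q' = F' * (G' * C X ^ (a + 1)) := ext2 fun x v => by
    simp only [evalEval_mul, evalEval_pow, evalEval_C, eval_X]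
    rcases eq_or_ne x 0 with rfl | hx
    · simp
    · have e : x ^ α * x ^ b = x ^ β * x ^ γ * x ^ a := by
        rw [← zpow_natCast, ← zpow_natCast, ← zpow_add₀ hx, hab, zpow_add₀ hx, zpow_add₀ hx]
      rw [← mul_div_cancel₀ v (zpow_ne_zero k hx), h _ _ hx, h3 _ _ hx, h4 _ _ hx, evalEval_mul]
      linear_combination x * F.evalEval x (v / x ^ k) * G.evalEval x (v / x ^ k) * e
  have h6 : IsRelPrime (C X : ℂ[X][X]) F' :=
    (prime_C_iff.2 prime_X).irreducible.isRelPrime_iff_not_dvd.2 h1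
  exact ⟨F', h6.pow_left.symm.dvd_of_dvd_mul_left ⟨_, h5⟩, h2⟩

end Pool.Agent.MP_670f9a_nt.GL
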