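import Pool.Agent.MP_670f9a_nt.H83.Spec

/-! A monomial change of coordinates. -/

namespace Pool.Agent.MP_670f9a_nt.GL

open Polynomial Real Finset MeasureTheory Metric Filter
open scoped ENNReal ComplexConjugate Topology

theorem sShearOf : SShearOf := by
  rintro hL ⟨-, hC1, hC⟩ hM ⟨-, ms, hs⟩ Q Q' B k α M ⟨g, B0, y0, B1, g1⟩ ⟨g', -, -, B2, g2⟩ hd hQ
    hF φ ⟨f1, K, K1, K2, K3⟩
  have nz : ∀ x : ℂ, x ∉ B → x ≠ 0 := fun x h e => h (e ▸ B0)
  have on : ∀ x y : ℂ, x ≠ 0 → (On Q' (x, x ^ k * y) ↔ On Q (x, y)) := fun x y h => by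
    simp [On, hQ x y h, zpow_ne_zero α h]
  have cn : ∀ x y : ℂ, x ≠ 0 → x ^ k * (x ^ (-k) * y) = y := fun x y h => by
    rw [zpow_neg, mul_inv_cancel_left₀ (zpow_ne_zero k h)]
  have cn' : ∀ x y : ℂ, x ≠ 0 → x ^ (-k) * (x ^ k * y) = y := fun x y h => by
    rw [zpow_neg, inv_mul_cancel_left₀ (zpow_ne_zero k h)]
  let T : ℂ × ℂ → ℂ × ℂ := fun p => (p.1, p.1 ^ k * p.2)
  let ψ : ℂ × ℂ → ℝ := fun p => φ (p.1, p.1 ^ (-k) * p.2)
  have mT : Measurable T := by fun_prop
  have t' : Test Q' B ψ := by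
    refine ⟨fun p hp => ?_, K, K1, K2, fun p hp => K3 _ hp⟩
    by_cases h : p.1 = 0
    · have : ∀ᶠ q : ℂ × ℂ in 𝓝 p, q.1 ∈ Kᶜ := continuous_fst.continuousAt.eventually
        (K1.isClosed.isOpen_compl.mem_nhds fun e => Set.disjoint_left.1 K2 e (h ▸ B0))
      exact (contDiffAt_const (c := 0)).congr_of_eventuallyEq (this.mono fun q hq => K3 _ hq)
    · have a : AnalyticAt ℂ (fun p : ℂ × ℂ => (p.1, p.1 ^ (-k) * p.2)) p :=
        analyticAt_fst.prod ((analyticAt_fst.zpow h).mul analyticAt_snd)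
      exact (f1 _ ((on _ _ h).1 (by rw [cn _ _ h]; exact hp))).comp p
        (a.contDiffAt.restrict_scalars ℝ)
  have mu' : mu Q' = (mu Q).map T := by
    ext s hs
    rw [Measure.map_apply mT hs, ← lintegral_indicator_one hs, ← lintegral_indicator_one (mT hs),
      ((hM Q' B g').2.2.2.1 _ (measurable_one.indicator hs)).2,
      ((hM Q B g).2.2.2.1 _ (measurable_one.indicator (mT hs))).2]
    refine lintegral_congr_ae ((B.finite_toSet.countable.ae_notMem volume).mono fun x hx => ?_)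
    have x0 := nz x hx
    have : fib Q' x = (fib Q x).map (x ^ k * ·) := by
      refine ((g'.2 x hx).2.ext ((g.2 x hx).2.map (mul_right_injective₀ (zpow_ne_zero k x0)))).2
        fun v => ?_
      rw [(hC Q' B g').1 x hx, Multiset.mem_map]
      exact ⟨fun h => ⟨x ^ (-k) * v, ((hC Q B g).1 x hx _).2 ((on _ _ x0).1
        (by rwa [cn _ _ x0])), cn _ _ x0⟩, fun ⟨y, h, e⟩ =>
        e ▸ (on _ _ x0).2 (((hC Q B g).1 x hx _).1 h)⟩
    simp only [this, Multiset.map_map]
    rfl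
  have key : ∀ p, Reg Q B p → (∀ w, D Q' w ψ (T p) = D Q w φ p) ∧ psi Q' 1 0 (T p) =
      psi Q ((sw Q').natDegree / (sw Q).natDegree) (k * Q.natDegree / (sw Q).natDegree) p := by
    rintro ⟨x, y⟩ ⟨p1, p2⟩
    have x0 := nz x p2
    have yn : y ≠ 0 := y0 _ ⟨p1, p2⟩
    obtain ⟨r, r0, hr⟩ := hL Q B {x} g isCompact_singleton (by simpa using p2)
    obtain ⟨Y, Y1, Y2⟩ := hr x rfl
    have := ((hC Q B g).1 x p2 y).2 p1
    rw [(Y2 x (mem_ball_self r0)).2, Multiset.mem_map] at this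
    obtain ⟨σ, -, rfl⟩ := this
    have a := Y1 σ x (mem_ball_self r0)
    have o : ∀ᶠ u in 𝓝 x, u ≠ 0 ∧ On Q (u, Y σ u) := by
      filter_upwards [ball_mem_nhds x r0] with u hu
      refine ⟨nz u (Y2 u hu).1, ((hC Q B g).1 u (Y2 u hu).1 _).1 ?_⟩
      rw [(Y2 u hu).2]
      exact Multiset.mem_map_of_mem _ (mem_univ σ)
    obtain ⟨c1, -, c2⟩ := (hC Q B g).2.2 (Y σ) x p2 a (o.mono fun _ h => h.2)
    obtain ⟨d1, -, d2⟩ := (hC Q' B g').2.2 (fun u => u ^ k * Y σ u) x p2
      ((analyticAt_id.zpow x0).mul a) (o.mono fun u h => (on _ _ h.1).2 h.2)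
    have s := d1.unique ((hasDerivAt_zpow k x (Or.inl x0)).mul c1)
    refine ⟨fun w => ?_, ?_⟩
    · rw [← (c2 φ).1 ((f1 _ p1).differentiableAt (by simp)),
        ← (d2 ψ).1 ((t'.1 _ ((on _ _ x0).2 p1)).differentiableAt (by simp))]
      refine congrFun (congrArg _ (EventuallyEq.fderiv_eq (o.mono fun u h => ?_))) w
      simp only [ψ, cn' _ _ h.1]
    · have e0 : (0 : ℝ) < (sw Q).natDegree := by exact_mod_cast g1.1
      have e1 : (0 : ℝ) < (sw Q').natDegree := by exact_mod_cast g2.1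
      have e2 : ((sw Q).natDegree : ℂ) ≠ 0 := by exact_mod_cast e0.ne'
      have xk := zpow_ne_zero k x0
      have l : 0 * ((sw Q').natDegree * log ‖x‖) + Q.natDegree * log ‖x ^ k * Y σ x‖ =
          k * Q.natDegree / (sw Q).natDegree * ((sw Q).natDegree * log ‖x‖) +
            Q.natDegree * log ‖Y σ x‖ := by
        rw [norm_mul, norm_zpow, log_mul (zpow_ne_zero k (norm_ne_zero_iff.2 x0))
          (norm_ne_zero_iff.2 yn), log_zpow]
        field_simp
        ring
      simp only [psi, psi0, la, lb, da, db, T, hd, s, l, (hs _).2.2 _ e0, (hs _).2.2 _ e1,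
        zpow_sub_one₀ x0]
      push_cast
      field_simp
      ring
  obtain ⟨-, -, -, m1, -, m2⟩ := hC1 Q'
  have m3 : Measurable (psi Q' 1 0) := by
    unfold psi psi0 la lb da db
    fun_prop
  have m4 := (m2 ψ).1
  have m5 : Measurable fun p => D Q' (conj (psi Q' 1 0 p)) ψ p := by
    simp only [(m2 ψ).2 (conj _), Complex.conj_re, Complex.conj_im]
    exact ((Complex.measurable_re.comp m3).mul (m4 1)).add
      ((Complex.measurable_im.comp m3).neg.mul (m4 _))
  have m6 : Measurable (gr Q' ψ ψ) := ((m4 1).mul (m4 1)).add ((m4 _).mul (m4 _))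
  have := hF ψ t'
  rw [mu', integral_map mT.aemeasurable m5.aestronglyMeasurable,
    integral_map mT.aemeasurable m6.aestronglyMeasurable] at this
  convert this using 2
  · exact integral_congr_ae ((hM Q B g).2.2.1.mono fun p hp => by
      simp only [(key p hp).1, (key p hp).2])
  · exact integral_congr_ae ((hM Q B g).2.2.1.mono fun p hp => by
      simp only [gr, (key p hp).1])

end Pool.Agent.MP_670f9a_nt.GL
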