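import Pool.Agent.MP_670f9a_nt.H83.Spec

/-!
Mixing moved and unmoved fibres so that the law of `x` is uniform on a disc.
-/

namespace Pool.Agent.MP_670f9a_nt.GL

open Polynomial Real Finset MeasureTheory Metric

namespace StepA

theorem mix {Q : ℂ[X][X]} {h h₁ h₂ : ℂ × ℂ → ℝ} {E E₁ E₂ : (ℂ × ℂ → ℝ) → ℝ} {C₁ C₂ θ : ℝ}
    (H₁ : StepOK Q h₁ E₁ C₁) (H₂ : StepOK Q h₂ E₂ C₂) (a : 0 ≤ θ) (b : θ ≤ 1)
    (e : ∀ p, h p = θ * h₁ p + (1 - θ) * h₂ p)
    (e' : ∀ Y, Adm Q Y → E Y = θ * E₁ Y + (1 - θ) * E₂ Y) :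
    StepOK Q h E (θ * C₁ + (1 - θ) * C₂) := by
  intro k p Y hp hD hY
  have s : ∑ i, h (p i) = θ * ∑ i, h₁ (p i) + (1 - θ) * ∑ i, h₂ (p i) := by
    simp only [e, Finset.sum_add_distrib, Finset.mul_sum]
  rw [s, e' Y hY]
  rcases le_total (∑ i, h₁ (p i) + E₁ Y - C₁) (∑ i, h₂ (p i) + E₂ Y - C₂) with c | c
  · obtain ⟨q, q1, q2, q3⟩ := H₂ k p Y hp hD hY
    exact ⟨q, q1, q2, le_trans (by nlinarith [mul_le_mul_of_nonneg_left c a]) q3⟩
  · obtain ⟨q, q1, q2, q3⟩ := H₁ k p Y hp hD hY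
    exact ⟨q, q1, q2, le_trans (by
      nlinarith [mul_le_mul_of_nonneg_left c (sub_nonneg.2 b)]) q3⟩

/-- The complementary density. -/
noncomputable def rest (R θ : ℝ) (s : ℂ → ℝ) (z : ℂ) : ℝ :=
  ((ball (0 : ℂ) R).indicator (fun _ => (π * R ^ 2)⁻¹) z - θ * s z) / (1 - θ)

theorem split {R θ : ℝ} {s f : ℂ → ℝ} (hθ : θ < 1) (h₁ : IntegrableOn f (ball 0 R))
    (h₂ : Integrable fun z => f z * s z) :
    (π * R ^ 2)⁻¹ * ∫ z in ball 0 R, f z =
      θ * (∫ z, f z * s z) + (1 - θ) * ∫ z, f z * rest R θ s z := by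
  have e : ∀ z, f z * rest R θ s z =
      ((π * R ^ 2)⁻¹ * (ball (0 : ℂ) R).indicator f z - θ * (f z * s z)) / (1 - θ) := fun z => by
    rw [rest]
    by_cases c : z ∈ ball (0 : ℂ) R
    · rw [Set.indicator_of_mem c, Set.indicator_of_mem c]
      ring
    · rw [Set.indicator_of_notMem c, Set.indicator_of_notMem c]
      ring
  simp only [e]
  rw [integral_div, integral_sub (((integrable_indicator_iff measurableSet_ball).2 h₁).const_mul _)
    (h₂.const_mul _), integral_const_mul, integral_const_mul, integral_indicator measurableSet_ball,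
    mul_div_cancel₀ _ (sub_pos.2 hθ).ne']
  ring

theorem dens {R R₀ S θ : ℝ} {s : ℂ → ℝ} (hs : Dens s R₀ S) (hR : 0 < R) (h₀ : R₀ ≤ R)
    (a : 0 ≤ θ) (b : θ < 1) (c : θ * S ≤ (π * R ^ 2)⁻¹) :
    Dens (rest R θ s) R ((π * R ^ 2)⁻¹ / (1 - θ)) := by
  obtain ⟨s1, s2, s3, s4⟩ := hs
  have b' := sub_pos.2 b
  have A : 0 < π * R ^ 2 := by positivity
  have o : ∀ z, R ≤ ‖z‖ → rest R θ s z = 0 := fun z hz => by
    rw [rest, s3 z (h₀.trans hz), Set.indicator_of_notMem (by simpa using hz)]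
    simp
  refine ⟨((measurable_const.indicator measurableSet_ball).sub (s1.const_mul θ)).div_const _,
    fun z => ?_, o, ?_⟩
  · rcases le_or_gt R ‖z‖ with k | k
    · rw [o z k]
      exact ⟨le_rfl, by positivity⟩
    · rw [rest, Set.indicator_of_mem (by simpa using k)]
      exact ⟨div_nonneg (sub_nonneg.2 ((mul_le_mul_of_nonneg_left (s2 z).2 a).trans c)) b'.le,
        div_le_div_of_nonneg_right (sub_le_self _ (mul_nonneg a (s2 z).1)) b'.le⟩
  · have k := split (R := R) (s := s) (f := fun _ => 1) b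
      (integrableOn_const measure_ball_lt_top.ne)
      (by simpa using Integrable.of_integral_ne_zero (s4.trans_ne one_ne_zero))
    have v : (volume : Measure ℂ).real (ball 0 R) = π * R ^ 2 := by
      rw [measureReal_def, Complex.volume_ball]
      simp [ENNReal.toReal_ofReal hR.le, mul_comm]
    simp only [one_mul, s4, integral_const, smul_eq_mul, mul_one, measureReal_restrict_apply_univ,
      v, inv_mul_cancel₀ A.ne'] at k
    exact mul_left_cancel₀ b'.ne' (by linarith)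

end StepA

open StepA

theorem sStepOf : SStepOf := by
  intro hD hA hU' hG Q B φ hQ hφ
  obtain ⟨s, R₀, S, τ₀, C₁, t0, hs, H₁⟩ := hG Q B φ hQ hφ
  obtain ⟨a1, a2, a3, -⟩ := hA Q B hQ
  obtain ⟨R, r1, r0⟩ : ∃ R : ℝ, 1 ≤ R ∧ R₀ ≤ R := ⟨max 1 R₀, le_max_left _ _, le_max_right _ _⟩
  have hR : 0 < R := one_pos.trans_le r1
  have A : 0 < π * R ^ 2 := by positivity
  have S0 : 0 ≤ S := (hs.2.1 0).1.trans (hs.2.1 0).2
  obtain ⟨θ, a, b, c⟩ : ∃ θ : ℝ, 0 < θ ∧ θ < 1 ∧ θ * S ≤ (π * R ^ 2)⁻¹ := by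
    have k := mul_nonneg S0 A.le
    refine ⟨(2 + S * (π * R ^ 2))⁻¹, by positivity, inv_lt_one_of_one_lt₀ (by linarith), ?_⟩
    rw [inv_mul_le_iff₀ (by positivity), le_mul_inv_iff₀ A]
    linarith
  obtain ⟨C₂, H₂⟩ := hU' Q B _ _ _ hQ (dens hs hR r0 a.le b c)
  refine ⟨R, θ * τ₀, θ * C₁ + (1 - θ) * C₂, r1, by positivity, fun τ u0 u1 => ?_⟩
  refine mix (H₁ (τ / θ) (by positivity) ((div_le_iff₀' a).2 u1)) H₂ a.le b.le (fun p => ?_)
    fun Y hY => ?_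
  · obtain ⟨k1, k2⟩ := (hD R hR).1 0 p.1
    have k := split b k1 (a3 s R₀ S p.1 hs)
    rw [k2, inv_mul_cancel_left₀ A.ne', sub_zero] at k
    rw [k]
    field_simp
    ring
  · rw [split b (a1 Y 0 R hY) (a2 Y s R₀ S hY hs)]
    field_simp
    ring

end Pool.Agent.MP_670f9a_nt.GL
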