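import Pool.Agent.MP_670f9a_nt.H83.Spec

/-!
The step with a perturbation: averaging over the centre of the disc.
-/

namespace Pool.Agent.MP_670f9a_nt.GL

open Polynomial Real Finset MeasureTheory Metric Filter
open scoped ENNReal ComplexConjugate Topology

namespace StepGA

theorem pick {A N : Set ℂ} {F : ℂ → ℝ} (hA : IsCompact A) (h0 : 0 < volume.real A)
    (hN : N.Finite) (hF : IntegrableOn F A) :
    ∃ c ∈ A, c ∉ N ∧ (volume.real A)⁻¹ * ∫ c in A, F c ≤ F c := by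
  have h1 := measure_setAverage_le_pos (ENNReal.toReal_pos_iff.1 h0).1.ne'
    hA.measure_lt_top.ne hF
  rw [← measure_sdiff_null (hN.measure_zero volume)] at h1
  obtain ⟨c, ⟨h2, h3⟩, h4⟩ := nonempty_of_measure_ne_zero h1.ne'
  rw [setAverage_eq, smul_eq_mul] at h3
  exact ⟨c, h2, h4, h3⟩

theorem pick4 {A N : Set ℂ} {F G H K : ℂ → ℝ} (hA : IsCompact A) (h0 : 0 < volume.real A)
    (hN : N.Finite) (hF : IntegrableOn F A) (hG : IntegrableOn G A) (hH : IntegrableOn H A)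
    (hK : IntegrableOn K A) : ∃ c ∈ A, c ∉ N ∧ (volume.real A)⁻¹ *
      ((∫ c in A, F c) + (∫ c in A, G c) + ((∫ c in A, H c) - ∫ c in A, K c)) ≤
        F c + G c + (H c - K c) := by
  have h := pick hA h0 hN ((hF.add hG).add (hH.sub hK))
  rwa [integral_add' (hF.add hG) (hH.sub hK), integral_add' hF hG, integral_sub' hH hK] at h

theorem lap_sub (f : ℂ → ℝ) (c z : ℂ) : lap (fun u => f (u - c)) z = lap f (z - c) := by
  unfold lap
  simp only [fderiv_comp_sub]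
  rw [fderiv_comp_sub (f := fun u => fderiv ℝ f u 1),
    fderiv_comp_sub (f := fun u => fderiv ℝ f u Complex.I)]

theorem lap_mul (hC : SCalc) (Q : ℂ[X][X]) (F : ℂ × ℂ → ℝ) (a : ℝ) (p : ℂ × ℂ) :
    Lap Q (fun q => a * F q) p = a * Lap Q F p := by
  have h : ∀ w, D Q w (fun q => a * F q) = fun q => a * D Q w F q := fun w =>
    funext fun q => (hC.1 Q q w).2.2.1 F a
  unfold Lap
  rw [h, h, (hC.1 Q p _).2.2.1, (hC.1 Q p _).2.2.1, mul_add]

theorem cd {χ : ℂ → ℝ} (h : ContDiff ℝ 2 χ) (c : ℂ) :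
    ContDiff ℝ 2 fun q : ℂ × ℂ => χ (q.1 - c) := h.comp (contDiff_fst.sub contDiff_const)

/-- uniform bounds for the localised test function -/
theorem bd (hC : SCalc) (hF : SFund) (hA : SAdm) {Q : ℂ[X][X]} {B : Finset ℂ} {φ : ℂ × ℂ → ℝ}
    (hG : Good Q B) (hT : Test Q B φ) {χ : ℂ → ℝ} (h2 : ContDiff ℝ 2 χ)
    (hc : HasCompactSupport χ) : ∃ L : ℝ, 0 < L ∧ ∀ (c : ℂ) (p : ℂ × ℂ), Reg Q B p →
      |φ p * χ (p.1 - c)| ≤ L ∧ |Lap Q (fun q => φ q * χ (q.1 - c)) p| ≤ L := by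
  obtain ⟨-, -, -, -, -, -, ⟨M, hM⟩, -⟩ := (hA Q B hG).2.2.2 φ hT
  obtain ⟨l1, l2, -⟩ := hF χ h2 hc
  obtain ⟨a, ha⟩ := h2.continuous.bounded_above_of_compact_support hc
  obtain ⟨b, hb⟩ := (h2.continuous_fderiv (by norm_num)).bounded_above_of_compact_support
    (hc.fderiv ℝ)
  obtain ⟨e, he⟩ := l1.bounded_above_of_compact_support (HasCompactSupport.intro hc l2)
  have a0 := (norm_nonneg _).trans (ha 0)
  have b0 := (norm_nonneg _).trans (hb 0)
  have e0 := (norm_nonneg _).trans (he 0)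
  refine ⟨|M| * (e + 4 * b + a) + 1, by positivity, fun c p hp => ?_⟩
  obtain ⟨m1, m2, m3, m4⟩ := hM p hp
  have M0 := (abs_nonneg _).trans m1
  rw [abs_of_nonneg M0]
  have k : ∀ {x y u : ℝ}, |x| ≤ M → |y| ≤ u → |x * y| ≤ M * u := fun h h' => by
    rw [abs_mul]
    exact mul_le_mul h h' (abs_nonneg _) M0
  have hs : ContDiff ℝ 2 fun u => χ (u - c) := h2.comp (contDiff_id.sub contDiff_const)
  have hd : ∀ w : ℂ, ‖w‖ = 1 → |D Q w (fun q => χ (q.1 - c)) p| ≤ b := fun w hw => by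
    rw [(hC.1 Q p w).2.2.2.2.1 (fun u => χ (u - c))
      (hs.differentiable (by norm_num)).differentiableAt, fderiv_comp_sub]
    exact ((fderiv ℝ χ _).le_opNorm w).trans (by rw [hw, mul_one]; exact hb _)
  have k1 := k m1 (ha (p.1 - c))
  refine ⟨k1.trans (by nlinarith [mul_nonneg M0 e0, mul_nonneg M0 b0]), ?_⟩
  obtain ⟨c1, -, -, c4⟩ := hC.2 Q B p hG hp
  rw [(c1 φ _ (hT.1 p hp.1) (cd h2 c).contDiffAt).1, c4 (fun u => χ (u - c)) hs.contDiffAt,
    lap_sub, gr, mul_comm (χ _)]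
  have k2 := abs_le.1 (k m1 (he (p.1 - c)))
  have k3 := abs_le.1 (k m2 (hd 1 norm_one))
  have k4 := abs_le.1 (k m3 (hd _ Complex.norm_I))
  have k5 := abs_le.1 (k m4 (ha (p.1 - c)))
  rw [abs_le]
  constructor <;> linarith [k2.1, k2.2, k3.1, k3.2, k4.1, k4.2, k5.1, k5.2]

end StepGA

open StepGA in
theorem sStepGOf : SStepGOf := by
  intro hL _ hS hC hF hD hJ hA hM h1 h2 Q B φ hG hT
  obtain ⟨K₀, k1, k2, k3⟩ := hT.2
  obtain ⟨x₀, hx₀⟩ := Infinite.exists_notMem_finset B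
  obtain ⟨K, kc, kd, kz, kx⟩ : ∃ K : Set ℂ, IsCompact K ∧ K ⊆ (B : Set ℂ)ᶜ ∧
      (∀ p : ℂ × ℂ, p.1 ∉ K → φ p = 0) ∧ x₀ ∈ K :=
    ⟨insert x₀ K₀, k1.insert _, Set.insert_subset hx₀ k2.subset_compl_right,
      fun p hp => k3 p fun h => hp (Set.mem_insert_of_mem _ h), Set.mem_insert _ _⟩
  obtain ⟨r₀, r0, hr0⟩ := kc.exists_cthickening_subset_open
    B.finite_toSet.isClosed.isOpen_compl kd
  have kc' : IsCompact (cthickening r₀ K) := kc.cthickening
  have kd' : Disjoint (cthickening r₀ K) (B : Set ℂ) := Set.subset_compl_iff_disjoint_right.1 hr0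
  obtain ⟨r₁, r1, hr1⟩ := hL Q B _ hG kc' kd'
  obtain ⟨r, rp, ra, rb⟩ : ∃ r : ℝ, 0 < r ∧ 2 * r ≤ r₀ ∧ 2 * r ≤ r₁ :=
    ⟨min r₀ r₁ / 2, by positivity, by linarith [min_le_left r₀ r₁],
      by linarith [min_le_right r₀ r₁]⟩
  obtain ⟨A, ac, aK, aB, a0⟩ : ∃ A : Set ℂ, IsCompact A ∧ (∀ x ∈ K, closedBall x (r / 4) ⊆ A) ∧
      (∀ c ∈ A, closedBall c r ⊆ cthickening r₀ K) ∧ 0 < volume.real A := by
    have hc : IsCompact (cthickening (r / 4) K) := kc.cthickening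
    refine ⟨_, hc, fun x hx => closedBall_subset_cthickening hx _, fun c hc =>
      (closedBall_subset_cthickening hc r).trans ((cthickening_cthickening_subset rp.le
        (by positivity) K).trans (cthickening_mono (by linarith) K)), ?_⟩
    exact ENNReal.toReal_pos ((measure_closedBall_pos volume x₀ (by positivity)).trans_le
      (measure_mono (closedBall_subset_cthickening kx _))).ne' hc.measure_lt_top.ne
  obtain ⟨χ, x2, xc, xz, xI⟩ : ∃ χ : ℂ → ℝ, ContDiff ℝ 2 χ ∧ HasCompactSupport χ ∧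
      (∀ z, r / 4 ≤ ‖z‖ → χ z = 0) ∧ 0 < ∫ z, χ z := by
    let f : ContDiffBump (0 : ℂ) := ⟨r / 8, r / 4, by positivity, by linarith⟩
    exact ⟨f, f.contDiff, f.hasCompactSupport,
      fun z hz => f.zero_of_le_dist (by rwa [dist_zero_right]), f.integral_pos⟩
  obtain ⟨L, L0, hLb⟩ := bd hC hF hA hG hT x2 xc
  obtain ⟨s, R, S, hs, hav⟩ := h1 A r ac a0 rp
  obtain ⟨R₁, R0, hR⟩ := ac.isBounded.subset_ball_lt 0 0
  obtain ⟨J, jI, hj⟩ := hJ Q B R₁ hG R0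
  obtain ⟨M, hMb⟩ := ((hS Q B hG).1 _ kc' kd').exists_bound_of_continuousOn
    (f := fun p : ℂ × ℂ => log⁺ ‖p.2‖) (by fun_prop)
  generalize hV : volume.real A = V at *
  generalize hI : ∫ z, χ z = I at *
  obtain ⟨T, T0, T1, T2⟩ : ∃ T : ℝ, 0 < T ∧ T * L ≤ 1 / 6 ∧ T * L ≤ 2 / r ^ 2 := by
    refine ⟨min (1 / 6) (2 / r ^ 2) / L, by positivity, ?_, ?_⟩ <;>
      rw [div_mul_cancel₀ _ L0.ne']
    exacts [min_le_left _ _, min_le_right _ _]
  refine ⟨s, R, S, T * I / V, Q.natDegree * (Q.natDegree * M) - V⁻¹ * ∫ c in A, J c,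
    by positivity, hs, fun τ t0 t1 k p Y hp hd hY => ?_⟩
  obtain ⟨t, t2, t3, ht⟩ : ∃ t : ℝ, 0 ≤ t ∧ t ≤ T ∧ V⁻¹ * (t * I) = τ :=
    ⟨τ * V / I, by positivity, by rwa [div_le_iff₀ xI, ← le_div_iff₀ a0], by field_simp⟩
  have pr : π * r ^ 2 ≠ 0 := by positivity
  have e1 : ∀ a c : ℂ, hU r (a - c) = (π * r ^ 2)⁻¹ * ∫ z in ball c r, log ‖a - z‖ :=
    fun a c => by rw [((hD r rp).1 c a).2, inv_mul_cancel_left₀ pr]
  have i1 : ∀ a : ℂ, IntegrableOn (fun c => hU r (a - c)) A ∧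
      V⁻¹ * ∫ c in A, hU r (a - c) = ∫ z, log ‖a - z‖ * s z := fun a => by
    simp only [e1]
    obtain ⟨u1, u2⟩ := hav (fun z => log ‖a - z‖) fun R' => by
      rcases le_or_gt R' 0 with h | h
      · simp [ball_eq_empty.2 h]
      · exact ((hD R' h).1 0 a).1
    exact ⟨u1.const_mul _, u2⟩
  have i2 : ∀ q : ℂ × ℂ, IntegrableOn (fun c => t * (φ q * χ (q.1 - c))) A ∧
      V⁻¹ * ∫ c in A, t * (φ q * χ (q.1 - c)) = τ * φ q := fun q => by
    have := x2.continuous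
    refine ⟨ContinuousOn.integrableOn_compact ac (by fun_prop), ?_⟩
    by_cases hq : q.1 ∈ K
    · rw [integral_const_mul, integral_const_mul, setIntegral_eq_integral_of_forall_compl_eq_zero,
        integral_sub_left_eq_self χ, hI, ← ht]
      · ring
      · intro c hc
        refine xz _ (le_of_not_gt fun h => hc (aK _ hq ?_))
        rw [mem_closedBall, dist_comm, dist_eq_norm]
        exact h.le
    · simp [kz q hq]
  obtain ⟨i3, i3'⟩ := hav (fs Q Y) fun R' => (hA Q B hG).1 Y 0 R' hY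
  obtain ⟨i4, i4'⟩ := h2 Q B φ Y K A χ (r / 4) hG hT kc kz ac x2 xz aK hY.1
  have i5 := jI.mono_set hR
  have i6 : IntegrableOn (fun c => ∑ i, (hU r ((p i).1 - c) -
      t * (φ (p i) * χ ((p i).1 - c)))) A :=
    integrable_finsetSum _ fun i _ => (i1 _).1.sub (i2 _).1
  obtain ⟨c, cA, cN, hc⟩ := pick4 ac (hV ▸ a0) (Set.finite_range fun i => (p i).1) i6 i5
    (i3.const_mul (π * r ^ 2)⁻¹) ((i4.const_mul t).const_mul (2 * π)⁻¹)
  rw [hV, integral_finsetSum (f := fun i c => hU r ((p i).1 - c) -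
    t * (φ (p i) * χ ((p i).1 - c))) _ fun i _ => (i1 _).1.sub (i2 _).1,
    integral_const_mul (2 * π)⁻¹, integral_const_mul t, i4', hI, mul_add, mul_add, mul_sub, i3',
    mul_sum] at hc
  have e2 : ∀ i, V⁻¹ * ∫ c in A, (hU r ((p i).1 - c) - t * (φ (p i) * χ ((p i).1 - c))) =
      (∫ z, log ‖(p i).1 - z‖ * s z) - τ * φ (p i) := fun i => by
    rw [integral_sub (i1 _).1 (i2 _).1, mul_sub, (i1 _).2, (i2 _).2]
  simp only [e2] at hc
  have cK := aB c cA (mem_closedBall_self rp.le)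
  have cB : c ∉ B := hr0 cK
  obtain ⟨y, y1, y2⟩ := hr1 c cK
  have sb := ball_subset_ball (x := c) rb
  obtain ⟨q, q1, q2, q3⟩ := hM Q B c r y (fun q => t * (φ q * χ (q.1 - c))) Y k p hG rp
    ⟨fun σ => (y1 σ).mono sb, fun z hz => y2 z (sb hz)⟩
    (fun q hq => contDiffAt_const.mul ((hT.1 q hq).mul (cd x2 c).contDiffAt))
    (fun q hq => by
      rw [mem_closedBall, dist_eq_norm, not_le] at hq
      simp only [xz _ hq.le, mul_zero])
    (fun q hq => by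
      obtain ⟨b1, b2⟩ := hLb c q hq
      rw [lap_mul hC, abs_mul, abs_mul t, abs_of_nonneg t2]
      exact ⟨(mul_le_mul t3 b1 (abs_nonneg _) T0.le).trans T1,
        (mul_le_mul t3 b2 (abs_nonneg _) T0.le).trans T2⟩)
    hY.1 (fun i => ⟨hp i, fun h => cN ⟨i, h⟩⟩) hd
  refine ⟨q, fun σ => (q1 σ).1, q2, ?_⟩
  have j1 := hj c cB (by simpa using hR cA)
  have j2 : 0 ≤ Q.natDegree * fs Q (fun p => log⁺ ‖p.2‖) c :=
    mul_nonneg (Nat.cast_nonneg _) (Multiset.sum_nonneg fun x hx => by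
      obtain ⟨y, -, rfl⟩ := Multiset.mem_map.1 hx
      exact posLog_nonneg)
  have j3 : ∑ σ, Q.natDegree * log⁺ ‖(q σ).2‖ ≤ Q.natDegree * (Q.natDegree * M) := by
    refine (sum_le_card_nsmul _ _ (Q.natDegree * M) fun σ _ => ?_).trans (by simp)
    exact mul_le_mul_of_nonneg_left ((le_abs_self _).trans (hMb _ ⟨(q1 σ).1,
      aB c cA (ball_subset_closedBall (q1 σ).2)⟩)) (Nat.cast_nonneg _)
  have e3 : ∫ q, Y q * Lap Q (fun q => t * (φ q * χ (q.1 - c))) q ∂mu Q =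
      t * ∫ q, Y q * Lap Q (fun q => φ q * χ (q.1 - c)) q ∂mu Q := by
    rw [← integral_const_mul]
    simp only [lap_mul hC]
    exact integral_congr_ae (Eventually.of_forall fun _ => mul_left_comm _ _ _)
  have e4 : V⁻¹ * ((2 * π)⁻¹ * (t * (I * ∫ p, Y p * Lap Q φ p ∂mu Q))) =
      τ / (2 * π) * ∫ p, Y p * Lap Q φ p ∂mu Q := by rw [← ht]; ring
  rw [e3] at q3
  rw [e4] at hc
  rw [sum_sub_distrib (f := fun σ => Y (q σ))]
  linarith

end Pool.Agent.MP_670f9a_nt.GL
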