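import Pool.Agent.MP_670f9a_nt.H83.Spec

/-! Adding an unmoved fibre whose abscissa has a given law. -/

namespace Pool.Agent.MP_670f9a_nt.GL

open Polynomial Real Finset MeasureTheory Metric Filter

namespace StepUA

/-- a point where a function is at least its mean for a density -/
theorem pick {F u : ℂ → ℝ} (N : Finset ℂ) (h0 : ∀ z, 0 ≤ u z) (h1 : ∫ z, u z = 1)
    (hF : Integrable fun z => F z * u z) : ∃ c, c ∉ N ∧ u c ≠ 0 ∧ ∫ z, F z * u z ≤ F c := by
  by_contra hc
  have hu : Integrable u := Integrable.of_integral_ne_zero (by rw [h1]; exact one_ne_zero)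
  set L := ∫ z, F z * u z with hL
  have hN : ∀ᵐ z : ℂ, z ∉ N := measure_eq_zero_iff_ae_notMem.1 (N.measure_zero volume)
  have hlt : ∀ z, z ∉ N → u z ≠ 0 → F z < L := fun z a b => lt_of_not_ge fun c => hc ⟨z, a, b, c⟩
  have hg : Integrable fun z => L * u z - F z * u z := (hu.const_mul L).sub hF
  have h2 : ∫ z, (L * u z - F z * u z) = 0 := by
    rw [integral_sub (hu.const_mul L) hF, integral_const_mul, h1, mul_one, sub_self]
  have h3 : 0 ≤ᵐ[volume] fun z => L * u z - F z * u z := by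
    filter_upwards [hN] with z hz
    by_cases e : u z = 0
    · simp [e]
    · have := mul_nonneg (sub_pos.2 (hlt z hz e)).le (h0 z)
      simp only [Pi.zero_apply]
      linarith
  have h4 : u =ᵐ[volume] fun _ => 0 := by
    filter_upwards [hN, (integral_eq_zero_iff_of_nonneg_ae h3 hg).1 h2] with z hz e
    by_contra b
    have := mul_pos (sub_pos.2 (hlt z hz b)) (lt_of_le_of_ne (h0 z) (Ne.symm b))
    simp only [Pi.zero_apply] at e
    linarith
  rw [integral_congr_ae h4, integral_zero] at h1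
  exact zero_ne_one h1

theorem sum_map {d : ℕ} (y : Fin d → ℂ) (f : ℂ → ℝ) :
    ((univ.val.map y).map f).sum = ∑ σ, f (y σ) := by
  rw [Multiset.map_map]
  rfl

end StepUA

open StepUA in
theorem sStepUOf : SStepUOf := by
  rintro ⟨-, -, hC⟩ ⟨hA, -, hV, hE⟩ hJ hAdm Q B u R S hG hu
  classical
  obtain ⟨-, hY, hL, -⟩ := hAdm Q B hG
  have hR : 0 < R := by
    by_contra h
    have h1 := hu.2.2.2
    rw [integral_congr_ae (g := fun _ => 0) (Eventually.of_forall fun z =>
      hu.2.2.1 z ((not_lt.1 h).trans (norm_nonneg z))), integral_zero] at h1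
    exact zero_ne_one h1
  obtain ⟨J, J1, J2⟩ := hJ Q B R hG hR
  have J3 : Integrable fun z => J z * u z := by
    have := ((integrable_indicator_iff measurableSet_ball).2 J1).mul_bdd
      hu.1.aestronglyMeasurable (c := S) (Eventually.of_forall fun z => by
        rw [Real.norm_of_nonneg (hu.2.1 z).1]; exact (hu.2.1 z).2)
    refine this.congr (Eventually.of_forall fun z => ?_)
    by_cases hz : z ∈ ball (0 : ℂ) R
    · simp only [Set.indicator_of_mem hz]
    · simp only [hu.2.2.1 z (not_lt.1 fun h => hz (mem_ball_zero_iff.2 h)), mul_zero]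
  refine ⟨-∫ z, J z * u z, fun k p Y hp hD hadm => ?_⟩
  have i1 : Integrable fun z => ∑ i, log ‖(p i).1 - z‖ * u z :=
    integrable_finsetSum _ fun i _ => hL u R S _ hu
  have i2 := hY Y u R S hadm hu
  have e0 : ∀ z, (∑ i, log ‖(p i).1 - z‖ + fs Q Y z + J z) * u z
      = ∑ i, log ‖(p i).1 - z‖ * u z + fs Q Y z * u z + J z * u z := fun z => by
    rw [add_mul, add_mul, sum_mul]
  obtain ⟨c, c1, c2, c3⟩ := pick (F := fun z => ∑ i, log ‖(p i).1 - z‖ + fs Q Y z + J z)
    (B ∪ univ.image fun i => (p i).1) (fun z => (hu.2.1 z).1) hu.2.2.2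
    (by simp only [e0]; exact (i1.add i2).add J3)
  simp only [e0] at c3
  have i3 : Integrable fun z => ∑ i, log ‖(p i).1 - z‖ * u z + fs Q Y z * u z := i1.add i2
  rw [integral_add i3 J3, integral_add i1 i2,
    integral_finsetSum _ fun i _ => hL u R S _ hu] at c3
  have hB : c ∉ B := fun h => c1 (mem_union_left _ h)
  have hx : ∀ i, ‖(p i).1 - c‖ ≠ 0 := fun i h =>
    c1 (mem_union_right _ (mem_image.2 ⟨i, mem_univ _, sub_eq_zero.1 (norm_eq_zero.1 h)⟩))
  have hc : ‖c‖ < R := lt_of_not_ge fun h => c2 (hu.2.2.1 c h)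
  obtain ⟨y, y1, y2⟩ := hE _ _ (hG.2 c hB).1 (hG.2 c hB).2
  obtain ⟨v1, v2⟩ := hV _ y y1
  have a1 := (hA k Q.natDegree p).1 c y
  have p0 : ∏ i, ‖(p i).1 - c‖ ≠ 0 := prod_ne_zero_iff.2 fun i _ => hx i
  have v0 := norm_ne_zero_iff.2 v1
  have d0 := norm_ne_zero_iff.2 hD
  refine ⟨fun σ => (c, y σ), fun σ => ((hC Q B hG).1 c hB _).1 ?_, ?_, ?_⟩
  · rw [y2]
    exact Multiset.mem_map_of_mem _ (mem_univ_val σ)
  · rw [← norm_ne_zero_iff, a1]
    exact mul_ne_zero (mul_ne_zero v0 p0) d0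
  · have j := J2 c hB hc
    have f1 : fs Q Y c = ∑ σ, Y (c, y σ) := by rw [fs, y2, sum_map]
    simp only [lv, fs, y2, sum_map] at j
    rw [a1, log_mul (mul_ne_zero v0 p0) d0, log_mul v0 p0, log_prod fun i _ => hx i, v2,
      sum_sub_distrib, ← mul_sum]
    linarith

end Pool.Agent.MP_670f9a_nt.GL
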