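import Pool.Agent.MP_670f9a_nt.H83.Spec
import Pool.Agent.MP_670f9a_nt.H30.Fub

/-! Exchange of the variables, and the finite set of bad fibres. -/

namespace Pool.Agent.MP_670f9a_nt.GL

open Polynomial Real
open Pool.Agent.MP_670f9a_nt.NP (Phi Psi m2 toC)

namespace SwA

theorem coeff_sw {R : Type} [CommRing R] (P : R[X][X]) (i j : ℕ) :
    ((sw P).coeff i).coeff j = (P.coeff j).coeff i := by
  unfold sw
  induction P using Polynomial.induction_on' with
  | add p q hp hq => simp only [map_add, coeff_add, hp, hq]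
  | monomial n a =>
    induction a using Polynomial.induction_on' with
    | add p q hp hq => simp only [map_add, coeff_add, hp, hq]
    | monomial m r =>
      rw [Bivariate.swap_monomial_monomial]
      simp only [coeff_monomial]
      split_ifs <;> simp_all [coeff_monomial]

theorem sw_map {R S : Type} [CommRing R] [CommRing S] (f : R →+* S) (P : R[X][X]) :
    (sw P).map (mapRingHom f) = sw (P.map (mapRingHom f)) := by
  ext i j
  simp only [coeff_map, coe_mapRingHom, coeff_sw]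

theorem eval_sw (Q : ℂ[X][X]) (x y : ℂ) : (sw Q).evalEval y x = Q.evalEval x y := by
  have := Bivariate.aevalAeval_swap (R := ℂ) (A := ℂ) y x Q
  rwa [coe_aevalAeval_eq_evalEval, coe_aevalAeval_eq_evalEval] at this

theorem inj {R S : Type} [CommRing R] [CommRing S] (f : R →+* S) (hf : Function.Injective f) :
    Function.Injective (mapRingHom f) := map_injective f hf

theorem deg {P : ℤ[X][X]} (h : NonCol P) : 1 ≤ P.natDegree := by
  obtain ⟨i₁, j₁, i₂, j₂, i₃, j₃, h1, h2, h3, h4⟩ := h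
  by_contra hn
  have e : ∀ i j, (P.coeff j).coeff i ≠ 0 → j = 0 := fun i j h => by
    have : j ≤ P.natDegree := le_natDegree_of_ne_zero fun h0 => h (by rw [h0, coeff_zero])
    omega
  rw [e _ _ h1, e _ _ h2, e _ _ h3] at h4
  simp at h4

theorem c0 {P : ℤ[X][X]} (hi : Irr P) (h : NonCol P) : P.coeff 0 ≠ 0 := by
  intro h0
  set Pq := P.map (mapRingHom (Int.castRingHom ℚ)) with hP
  have h1 : X ∣ Pq := X_dvd_iff.2 (by rw [hP, coeff_map, h0, map_zero])
  obtain ⟨u, hu⟩ := h1
  have h2 : IsUnit u := (hi.isUnit_or_isUnit hu).resolve_left not_isUnit_X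
  obtain ⟨r, -, rfl⟩ := isUnit_iff.1 h2
  obtain ⟨i₁, j₁, i₂, j₂, i₃, j₃, h1, h2, h3, h4⟩ := h
  have e : ∀ i j, (P.coeff j).coeff i ≠ 0 → j = 1 := fun i j h => by
    by_contra hj
    have h5 : Pq.coeff j = 0 := by rw [hu, mul_comm, coeff_C_mul, coeff_X, if_neg (Ne.symm hj), mul_zero]
    rw [hP, coeff_map] at h5
    have h6 : P.coeff j = 0 :=
      inj (Int.castRingHom ℚ) (RingHom.injective_int _) (h5.trans (map_zero _).symm)
    exact h (by rw [h6, coeff_zero])
  rw [e _ _ h1, e _ _ h2, e _ _ h3] at h4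
  simp at h4

theorem bez {P : ℤ[X][X]} (hi : Irr P) (hd : 1 ≤ P.natDegree) :
    ∃ (A B : ℤ[X][X]) (r : ℤ[X]), r ≠ 0 ∧ P * A + derivative P * B = C r := by
  have hq := inj (Int.castRingHom ℚ) (RingHom.injective_int _)
  set K := FractionRing ℚ[X]
  have hK : Function.Injective (algebraMap ℚ[X] K) := IsFractionRing.injective _ _
  have : CharZero K := algebraRat.charZero K
  have h1 : (P.map (mapRingHom (Int.castRingHom ℚ))).IsPrimitive :=
    Irreducible.isPrimitive hi (by rw [natDegree_map_eq_of_injective hq]; omega)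
  have h2 := ((h1.irreducible_iff_irreducible_map_fraction_map (K := K)).1 hi).separable
  rw [Polynomial.map_map] at h2
  set φ := (algebraMap ℚ[X] K).comp (mapRingHom (Int.castRingHom ℚ))
  have hφ : Function.Injective φ := hK.comp hq
  have h3 := resultant_ne_zero _ _ h2
  rw [derivative_map, natDegree_map_eq_of_injective hφ, natDegree_map_eq_of_injective hφ,
    resultant_map_map] at h3
  obtain ⟨A, B, -, -, e⟩ := exists_mul_add_mul_eq_C_resultant P (derivative P) le_rfl le_rfl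
    (Or.inl (by omega))
  exact ⟨A, B, _, fun h0 => h3 (by rw [h0, map_zero]), e⟩

theorem good {P : ℤ[X][X]} (hi : Irr P) (h : NonCol P) :
    ∃ B, Good (toC P) B ∧ 0 ∈ B ∧ ∀ p, Reg (toC P) B p → p.2 ≠ 0 := by
  classical
  have hc := inj (Int.castRingHom ℂ) (RingHom.injective_int _)
  have hd := deg h
  have hn : (toC P).natDegree = P.natDegree := natDegree_map_eq_of_injective hc _
  obtain ⟨A, B, r, hr, e⟩ := bez hi hd
  have hl : P.leadingCoeff ≠ 0 := leadingCoeff_ne_zero.2 fun h0 => by simp [h0] at hd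
  set g : ℂ[X] := mapRingHom (Int.castRingHom ℂ) (r * P.leadingCoeff * P.coeff 0 * X) with hg
  have hg0 : g ≠ 0 := fun h0 => mul_ne_zero (mul_ne_zero (mul_ne_zero hr hl) (c0 hi h)) X_ne_zero
    (hc (h0.trans (map_zero _).symm))
  have key : ∀ x ∉ g.roots.toFinset,
      ((evalRingHom x).comp (mapRingHom (Int.castRingHom ℂ))) r ≠ 0 ∧
      ((evalRingHom x).comp (mapRingHom (Int.castRingHom ℂ))) P.leadingCoeff ≠ 0 ∧
      ((evalRingHom x).comp (mapRingHom (Int.castRingHom ℂ))) (P.coeff 0) ≠ 0 := fun x hx => by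
    have h1 : evalRingHom x g ≠ 0 := fun h0 =>
      hx (Multiset.mem_toFinset.2 ((mem_roots hg0).2 h0))
    rw [hg, map_mul, map_mul, map_mul, map_mul, map_mul, map_mul] at h1
    exact ⟨fun h0 => h1 (by rw [RingHom.comp_apply] at h0; simp only [h0, zero_mul]),
      fun h0 => h1 (by rw [RingHom.comp_apply] at h0; simp only [h0, zero_mul, mul_zero]),
      fun h0 => h1 (by rw [RingHom.comp_apply] at h0; simp only [h0, zero_mul, mul_zero])⟩
  refine ⟨g.roots.toFinset, ⟨by omega, fun x hx => ?_⟩, ?_, fun p hp h0 => ?_⟩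
  · obtain ⟨k1, k2, -⟩ := key x hx
    unfold fib toC
    rw [Polynomial.map_map]
    set ψ := (evalRingHom x).comp (mapRingHom (Int.castRingHom ℂ))
    refine ⟨?_, nodup_roots ?_⟩
    · rw [IsAlgClosed.card_roots_eq_natDegree, natDegree_map_of_leadingCoeff_ne_zero _ k2]
      exact hn.symm
    · have e1 := congrArg (Polynomial.map ψ) e
      rw [Polynomial.map_add, Polynomial.map_mul, Polynomial.map_mul, map_C, ← derivative_map] at e1
      refine ⟨C (ψ r)⁻¹ * A.map ψ, C (ψ r)⁻¹ * B.map ψ, ?_⟩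
      have e2 : C (ψ r)⁻¹ * C (ψ r) = 1 := by rw [← C_mul, inv_mul_cancel₀ k1, C_1]
      rw [← e2, ← e1]
      ring
  · refine Multiset.mem_toFinset.2 ((mem_roots hg0).2 ?_)
    simp [hg]
  · refine (key p.1 hp.2).2.2 ?_
    have h1 : (toC P).evalEval p.1 p.2 = 0 := hp.1
    rw [h0, evalEval, C_0, ← coeff_zero_eq_eval_zero, toC, coeff_map] at h1
    exact h1

end SwA

open SwA

theorem sSwOf : SSwOf := by
  intro P
  have hc := inj (Int.castRingHom ℂ) (RingHom.injective_int _)
  have h1 : toC (sw P) = sw (toC P) := sw_map _ P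
  refine ⟨h1, natDegree_map_eq_of_injective hc _, Bivariate.swap_swap_apply P,
    fun hi h => ⟨?_, ?_, ?_, deg h⟩⟩
  · unfold Irr
    rw [sw_map]
    exact (MulEquiv.irreducible_iff (Bivariate.swap (R := ℚ))).2 hi
  · obtain ⟨i₁, j₁, i₂, j₂, i₃, j₃, h1, h2, h3, h4⟩ := h
    refine ⟨j₁, i₁, j₂, i₂, j₃, i₃, by rwa [coeff_sw], by rwa [coeff_sw], by rwa [coeff_sw],
      fun e => h4 (by linear_combination -e)⟩
  · have h0 : toC P ≠ 0 := fun h0 => by
      have h2 : (toC P).natDegree = P.natDegree := natDegree_map_eq_of_injective hc _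
      have := deg h
      rw [h0, natDegree_zero] at h2
      omega
    rw [h1, ← (H30.sFub _ h0).2.2.1, m2]
    congr 1
    funext u
    simp only [Phi, Psi, eval_sw]

theorem sTorOf : STorOf := by
  intro hs
  refine ⟨fun P hi h => ?_, fun Q B B₁ h hB => ⟨⟨h.1.1, fun x hx => h.1.2 x fun h' => hx (hB h')⟩,
    hB h.2.1, fun p hp => h.2.2.1 p ⟨hp.1, fun h' => hp.2 (hB h')⟩, h.2.2.2⟩⟩
  obtain ⟨B, h1, h2, h3⟩ := good hi h
  obtain ⟨e, -, -, h4⟩ := hs P
  obtain ⟨B', h5, -⟩ := good (h4 hi h).1 (h4 hi h).2.1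
  exact ⟨B, h1, h2, h3, B', e ▸ h5⟩

end Pool.Agent.MP_670f9a_nt.GL
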