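import Pool.Agent.MP_670f9a_nt.H83.Spec

/-!
Change of chart: the area of the coordinate `y` against the area of the coordinate `x`.
-/

namespace Pool.Agent.MP_670f9a_nt.GL

open Polynomial Real Finset MeasureTheory Metric Filter
open scoped ENNReal ComplexConjugate Topology

namespace SwapA

theorem dC_snd (Q : ℂ[X][X]) (p : ℂ × ℂ) : dC Q Prod.snd p = sl Q p := by
  unfold dC
  rw [fderiv_snd]
  rfl

theorem one (hC : SChart) {Q : ℂ[X][X]} {B B' : Finset ℂ} (h : Good Q B) (h' : Good (sw Q) B')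
    (p : ℂ × ℂ) (hp : Reg Q B p) (hp' : p.2 ∉ B') :
    sl Q p ≠ 0 ∧ sl (sw Q) p.swap = (sl Q p)⁻¹ := by
  have a1 := ((hC.2.2 Q B h).2.1 p hp).1
  have a2 := ((hC.2.2 (sw Q) B' h').2.1 p.swap ⟨(hC.1 Q p.1 p.2).trans hp.1, hp'⟩).1
  simp only [Prod.fst_swap, Prod.snd_swap] at a2
  refine ⟨div_ne_zero (neg_ne_zero.2 a2) a1, ?_⟩
  simp only [sl, Prod.fst_swap, Prod.snd_swap, (hC.2.1 Q).1]
  rw [inv_div, div_neg, neg_div]

theorem fibre (hC : SChart) {Q : ℂ[X][X]} {B B' : Finset ℂ} (h : Good Q B) (h' : Good (sw Q) B')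
    (Φ : ℂ × ℂ → ℝ≥0∞) (h0 : ∀ p : ℂ × ℂ, p.1 ∈ B → Φ p = 0) {w : ℂ} (hw : w ∉ B') :
    ∑' p : {p : ℂ × ℂ // Reg Q B p ∧ p.2 = w ∧ dC Q Prod.snd p ≠ 0}, Φ p =
      ((fib (sw Q) w).map fun x => Φ (w, x).swap).sum := by
  classical
  have hm : ∀ x, x ∈ fib (sw Q) w ↔ On Q (x, w) := fun x => by
    rw [(hC.2.2 (sw Q) B' h').1 w hw x]
    exact (hC.1 Q x w).congr_left
  have e := tsum_subtype {p : ℂ × ℂ | Reg Q B p ∧ p.2 = w ∧ dC Q Prod.snd p ≠ 0} Φ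
  refine e.trans ?_
  rw [tsum_eq_sum (s := (fib (sw Q) w).toFinset.image fun x => (x, w)) ?_,
    sum_image fun x _ y _ e => congrArg Prod.fst e]
  · rw [Finset.sum_eq_multiset_sum, Multiset.toFinset_val, (h'.2 w hw).2.dedup]
    refine congrArg Multiset.sum (Multiset.map_congr rfl fun x hx => ?_)
    by_cases hB : x ∈ B
    · rw [Prod.swap_prod_mk, h0 (x, w) hB]
      exact Set.indicator_apply_eq_zero.2 fun _ => h0 (x, w) hB
    · have hr : Reg Q B (x, w) := ⟨(hm x).1 hx, hB⟩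
      refine Set.indicator_of_mem ?_ Φ
      exact ⟨hr, rfl, by rw [dC_snd]; exact (one hC h h' _ hr hw).1⟩
  · intro p hp
    refine Set.indicator_of_notMem (fun hq => hp ?_) Φ
    obtain ⟨x, y⟩ := p
    obtain ⟨h1, rfl, _⟩ := hq
    exact mem_image.2 ⟨x, Multiset.mem_toFinset.2 ((hm x).2 h1.1), rfl⟩

theorem two (hC : SChart) (hM : SMu) (hA : SArea) {Q : ℂ[X][X]} {B B' : Finset ℂ} (h : Good Q B)
    (h' : Good (sw Q) B') (Φ : ℂ × ℂ → ℝ≥0∞) (hΦ : Measurable Φ)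
    (h0 : ∀ p : ℂ × ℂ, p.1 ∈ B → Φ p = 0) :
    ∫⁻ p, Φ p * ENNReal.ofReal (‖sl Q p‖ ^ 2) ∂mu Q = ∫⁻ p, Φ p.swap ∂mu (sw Q) := by
  have a1 := hA Q B Prod.snd Φ h (fun p _ => analyticAt_snd) hΦ
  have a2 := ((hM (sw Q) B' h').2.2.2.1 (fun p => Φ p.swap) (hΦ.comp measurable_swap)).2
  rw [a2]
  refine Eq.trans (by simp only [dC_snd]) (a1.trans (lintegral_congr_ae ?_))
  filter_upwards [B'.countable_toSet.ae_notMem volume] with w hw
  exact fibre hC h h' Φ h0 hw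

end SwapA

theorem sSwapOf : SSwapOf := by
  intro hC hM hA Q B B' h h'
  refine ⟨SwapA.one hC h h', SwapA.two hC hM hA h h', fun Φ hΦ h0 hI => ?_⟩
  have key : ∀ Ψ : ℂ × ℂ → ℝ, Measurable Ψ → (∀ p : ℂ × ℂ, p.1 ∈ B → Ψ p = 0) →
      ∫⁻ p, ENNReal.ofReal (Ψ p * ‖sl Q p‖ ^ 2) ∂mu Q =
        ∫⁻ p, ENNReal.ofReal (Ψ p.swap) ∂mu (sw Q) := fun Ψ hΨ h1 => by
    rw [← SwapA.two hC hM hA h h' (fun p => ENNReal.ofReal (Ψ p)) hΨ.ennreal_ofReal
      fun p hp => by simp [h1 p hp]]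
    exact lintegral_congr fun p => ENNReal.ofReal_mul' (by positivity)
  have hI' : Integrable (fun p : ℂ × ℂ => Φ p.swap) (mu (sw Q)) := by
    refine ⟨(hΦ.comp measurable_swap).aestronglyMeasurable, ?_⟩
    rw [hasFiniteIntegral_iff_norm, ← key (fun p => ‖Φ p‖) hΦ.norm fun p hp => by simp [h0 p hp]]
    have := (hasFiniteIntegral_iff_norm _).1 hI.2
    simpa only [norm_mul, norm_pow, norm_norm] using this
  refine ⟨hI', ?_⟩
  rw [integral_eq_lintegral_pos_part_sub_lintegral_neg_part hI,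
    integral_eq_lintegral_pos_part_sub_lintegral_neg_part hI', key Φ hΦ h0,
    ← key (fun p => -Φ p) hΦ.neg fun p hp => by simp [h0 p hp]]
  simp only [neg_mul]

end Pool.Agent.MP_670f9a_nt.GL
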