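import Pool.Agent.MP_670f9a_nt.H83.Spec

/-! Transfer between embeddings, specialisation of variables and the universal determinant. -/

namespace Pool.Agent.MP_670f9a_nt.GL

open Polynomial Finset

namespace TransferA

theorem sw_mp {K : Type} [Field K] (σ : K →+* ℂ) (Q : K[X][X]) : sw (mp σ Q) = mp σ (sw Q) := by
  have h : (Bivariate.swap (R := ℂ)).toRingEquiv.toRingHom.comp (mapRingHom (mapRingHom σ)) =
      (mapRingHom (mapRingHom σ)).comp (Bivariate.swap (R := K)).toRingEquiv.toRingHom := by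
    refine Polynomial.ringHom_ext' (Polynomial.ringHom_ext' (RingHom.ext fun a => ?_) ?_) ?_
    · simp [Bivariate.swap_C_C]
    · simp [Bivariate.swap_X]
    · simp [Bivariate.swap_Y]
  exact RingHom.congr_fun h Q

/-- the equation of the curve in one pair of variables -/
noncomputable def th {K : Type} [Field K] {l : ℕ} (i : Fin l) :
    K[X][X] →+* MvPolynomial (Fin l ⊕ Fin l) K :=
  eval₂RingHom (eval₂RingHom MvPolynomial.C (MvPolynomial.X (Sum.inl i)))
    (MvPolynomial.X (Sum.inr i))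

theorem ev_th {K : Type} [Field K] {l : ℕ} (σ : K →+* ℂ) (p : Fin l → ℂ × ℂ) (i : Fin l)
    (Q : K[X][X]) : ev σ p (th i Q) = (mp σ Q).evalEval (p i).1 (p i).2 := by
  have h : (ev σ p).comp (th i) =
      (evalEvalRingHom (p i).1 (p i).2).comp (mapRingHom (mapRingHom σ)) := by
    refine Polynomial.ringHom_ext' (Polynomial.ringHom_ext' (RingHom.ext fun a => ?_) ?_) ?_
    · simp [ev, th]
    · simp [ev, th]
    · simp [ev, th]
  exact RingHom.congr_fun h Q

theorem mem_rad {K : Type} [Field K] {l : ℕ} (σ : K →+* ℂ) (Q : K[X][X])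
    (G : MvPolynomial (Fin l ⊕ Fin l) K) (h : ∀ p, (∀ i, On (mp σ Q) (p i)) → ev σ p G = 0) :
    G ∈ (Ideal.span (Set.range fun i : Fin l => th i Q)).radical := by
  let _ : Algebra K ℂ := σ.toAlgebra
  rw [← MvPolynomial.vanishingIdeal_zeroLocus_eq_radical (K := ℂ),
    MvPolynomial.mem_vanishingIdeal_iff]
  intro x hx
  have e : ∀ F : MvPolynomial (Fin l ⊕ Fin l) K,
      MvPolynomial.aeval x F = ev σ (fun i => (x (Sum.inl i), x (Sum.inr i))) F := by
    intro F
    have : (Sum.elim (fun i => x (Sum.inl i)) fun i => x (Sum.inr i)) = x := by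
      funext s; cases s <;> rfl
    unfold ev
    simp only [this]
    rfl
  rw [e]
  refine h _ fun i => ?_
  have := MvPolynomial.mem_zeroLocus_iff.mp hx (th i Q) (Ideal.subset_span ⟨i, rfl⟩)
  rw [e, ev_th] at this
  exact this

theorem of_rad {K : Type} [Field K] {l : ℕ} (σ : K →+* ℂ) (Q : K[X][X])
    (G : MvPolynomial (Fin l ⊕ Fin l) K)
    (h : G ∈ (Ideal.span (Set.range fun i : Fin l => th i Q)).radical) (p : Fin l → ℂ × ℂ)
    (hp : ∀ i, On (mp σ Q) (p i)) : ev σ p G = 0 := by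
  obtain ⟨n, hn⟩ := h
  have hle : Ideal.span (Set.range fun i : Fin l => th i Q) ≤ RingHom.ker (ev σ p) := by
    rw [Ideal.span_le]
    rintro _ ⟨i, rfl⟩
    show ev σ p (th i Q) = 0
    rw [ev_th]
    exact hp i
  have := hle hn
  rw [RingHom.mem_ker, map_pow] at this
  exact eq_zero_of_pow_eq_zero this

theorem spec {K : Type} [Field K] {l : ℕ} (σ : K →+* ℂ) (p : Fin l → ℂ × ℂ)
    (G : MvPolynomial (Fin (l + 1) ⊕ Fin (l + 1)) K) :
    ∃ H : ℂ[X][X], ∀ x y, H.evalEval x y = ev σ (Fin.cons (x, y) p) G := by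
  induction G using MvPolynomial.induction_on with
  | C a => exact ⟨C (C (σ a)), fun x y => by simp [ev]⟩
  | add F G hF hG =>
    obtain ⟨H₁, h₁⟩ := hF
    obtain ⟨H₂, h₂⟩ := hG
    exact ⟨H₁ + H₂, fun x y => by rw [evalEval_add, map_add, h₁, h₂]⟩
  | mul_X F n hF =>
    obtain ⟨H₁, h₁⟩ := hF
    have : ∃ H : ℂ[X][X], ∀ x y,
        H.evalEval x y = ev σ (Fin.cons (x, y) p) (MvPolynomial.X n) := by
      rcases n with i | i
      · refine Fin.cases ⟨C X, fun x y => ?_⟩ (fun j => ⟨C (C (p j).1), fun x y => ?_⟩) i <;>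
          simp [ev, evalEval_C]
      · refine Fin.cases ⟨X, fun x y => ?_⟩ (fun j => ⟨C (C (p j).2), fun x y => ?_⟩) i <;>
          simp [ev]
    obtain ⟨H₂, h₂⟩ := this
    exact ⟨H₁ * H₂, fun x y => by rw [evalEval_mul, map_mul, h₁, h₂]⟩

/-- the universal determinant -/
noncomputable def Gd (R : Type) [CommRing R] (k d : ℕ) :
    MvPolynomial (Fin ((k + 1) * d) ⊕ Fin ((k + 1) * d)) R :=
  (Matrix.of fun i j : Fin (k + 1) × Fin d =>
    (MvPolynomial.X (Sum.inl (finProdFinEquiv i)) ^ (j.1 : ℕ) *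
      MvPolynomial.X (Sum.inr (finProdFinEquiv i)) ^ (j.2 : ℕ) :
      MvPolynomial (Fin ((k + 1) * d) ⊕ Fin ((k + 1) * d)) R)).det

theorem Gd_map (R : Type) [CommRing R] (k d : ℕ) :
    MvPolynomial.map (Int.castRingHom R) (Gd ℤ k d) = Gd R k d := by
  unfold Gd
  rw [RingHom.map_det]
  congr 1
  ext i j : 2
  simp

theorem Gd_ev {K : Type} [Field K] (k d : ℕ) (σ : K →+* ℂ) (p : Fin ((k + 1) * d) → ℂ × ℂ) :
    ev σ p (Gd K k d) = Dt k d fun i => p (finProdFinEquiv i) := by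
  unfold Gd Dt
  rw [RingHom.map_det]
  congr 1
  ext i j : 2
  simp [ev]

theorem entry_deg {K : Type} [Field K] {l : ℕ} (i a : Fin l) (b c : ℕ) :
    (MvPolynomial.X (Sum.inl a) ^ b * MvPolynomial.X (Sum.inr a) ^ c :
      MvPolynomial (Fin l ⊕ Fin l) K).degreeOf (Sum.inl i) ≤ if a = i then b else 0 := by
  refine (MvPolynomial.degreeOf_mul_le _ _ _).trans ?_
  have h1 := MvPolynomial.degreeOf_pow_le (Sum.inl i : Fin l ⊕ Fin l)
    (MvPolynomial.X (Sum.inl a) : MvPolynomial (Fin l ⊕ Fin l) K) b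
  have h2 := MvPolynomial.degreeOf_pow_le (Sum.inl i : Fin l ⊕ Fin l)
    (MvPolynomial.X (Sum.inr a) : MvPolynomial (Fin l ⊕ Fin l) K) c
  rw [MvPolynomial.degreeOf_X] at h1 h2
  by_cases h : a = i
  · subst h
    simp at h1 h2 ⊢
    omega
  · have h' : ¬ i = a := fun e => h e.symm
    simp [h, h'] at h1 h2 ⊢
    exact ⟨h1, h2⟩

theorem Gd_deg {K : Type} [Field K] (k d : ℕ) (i : Fin ((k + 1) * d)) :
    (Gd K k d).degreeOf (Sum.inl i) ≤ k := by
  unfold Gd
  rw [Matrix.det_apply']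
  refine (MvPolynomial.degreeOf_sum_le _ _ _).trans (Finset.sup_le fun s _ => ?_)
  refine (MvPolynomial.degreeOf_mul_le _ _ _).trans ?_
  rw [← map_intCast (MvPolynomial.C : K →+* _), MvPolynomial.degreeOf_C, zero_add]
  refine (MvPolynomial.degreeOf_prod_le _ _ _).trans ?_
  refine (sum_le_sum fun j _ => entry_deg i (finProdFinEquiv (s j)) j.1 j.2).trans ?_
  rw [sum_eq_single (s.symm (finProdFinEquiv.symm i))]
  · split_ifs
    · exact Nat.lt_succ_iff.mp (Fin.is_lt _)
    · exact Nat.zero_le _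
  · intro j _ hj
    rw [if_neg]
    intro h
    apply hj
    rw [← h]
    simp
  · intro h
    exact absurd (mem_univ _) h

end TransferA

open TransferA in
theorem sTransferOf : STransferOf := by
  refine ⟨fun K _ σ Q => ⟨?_, sw_mp σ Q⟩,
    fun K _ l σ σ' Q G h p hp => of_rad σ' Q G (mem_rad σ Q G h) p hp,
    fun K _ l σ p G => spec σ p G,
    fun K _ Q k d => ⟨Gd K k d, Gd_deg k d, fun m V t _ => ?_, Gd_ev k d⟩⟩
  · exact natDegree_map_eq_of_injective (Polynomial.map_injective σ σ.injective) Q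
  · rw [pow_zero, one_mul, ← Gd_map, MvPolynomial.coeff_map]
    exact intCast_mem V _

end Pool.Agent.MP_670f9a_nt.GL
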