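import Pool.Agent.MP_670f9a_nt.H83.Spec

/-! The total turning between two scales is bounded. -/

namespace Pool.Agent.MP_670f9a_nt.GL

open Polynomial Real MeasureTheory Metric Filter
open scoped ComplexConjugate Topology

namespace TurnA

theorem om_bd {Γ : ℝ} (h : ∀ s, -Γ ≤ deriv gam s ∧ deriv gam s ≤ 0) (Q : ℂ[X][X]) (t : ℝ)
    (p : ℂ × ℂ) : 0 ≤ om Q t p ∧ om Q t p ≤ Γ * (2 / t ^ 2) :=
  ⟨mul_nonneg (neg_nonneg.2 (h _).2) (by positivity),
    mul_le_mul_of_nonneg_right (neg_le.1 (h _).1) (by positivity)⟩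

theorem div_le {u q S : ℝ} (hq : 0 ≤ q) (hS : 0 ≤ S) (h : u ≤ q * S) : u / √q ≤ √q * S := by
  refine div_le_of_le_mul₀ (sqrt_nonneg _) (by positivity) ?_
  rwa [mul_right_comm, mul_self_sqrt hq]

theorem re_zeta (u : ℂ) (r : ℝ) : (u * (conj u / r)).re = ‖u‖ ^ 2 / r := by
  rw [← mul_div_assoc, Complex.mul_conj, ← Complex.ofReal_div, Complex.ofReal_re,
    Complex.normSq_eq_norm_sq]

end TurnA

open TurnA in
theorem sTurnOf : STurnOf := by
  rintro hMu - - ⟨⟨-, g01, anti, g1, g0, Γ, hΓ⟩, -⟩ ⟨hm, hR⟩ hA hE hG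
  have Γ0 : 0 ≤ Γ := by linarith [(hΓ 0).1, (hΓ 0).2]
  refine ⟨16 * π * Γ, by positivity, fun Q B s t hT hs hst => ?_⟩
  have ht : 0 < t := hs.trans_le hst
  obtain ⟨-, -, -, -, -, mq, mS, mu', mz, -, mo, id⟩ := hm Q
  obtain ⟨-, hr⟩ := hR Q B hT
  obtain ⟨-, -, ae, -⟩ := hMu Q B hT.1
  obtain ⟨iS, aS⟩ := hA Q B (2 * t) hT (by positivity)
  set W : Set (ℂ × ℂ) := {p | qq Q p ≤ (2 * t) ^ 2} with hW
  set E : Set (ℂ × ℂ) := {p | s ^ 2 < qq Q p ∧ qq Q p ≤ t ^ 2} with hE'
  have mW : MeasurableSet W := measurableSet_le mq measurable_const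
  have mE : MeasurableSet E :=
    (measurableSet_lt measurable_const mq).inter (measurableSet_le mq measurable_const)
  have q0 : ∀ p, 0 ≤ qq Q p := fun p => by unfold qq; positivity
  have S0 : ∀ p, 0 ≤ SS Q p := fun p => by unfold SS; positivity
  have uS : ∀ p, ‖uu Q p‖ ^ 2 ≤ qq Q p * SS Q p := fun p => by
    linarith [id p, sq_nonneg ‖zz Q p‖]
  have zS : ∀ p, ‖zz Q p‖ ^ 2 ≤ qq Q p * SS Q p := fun p => by
    linarith [id p, sq_nonneg ‖uu Q p‖]
  have st : s ^ 2 ≤ t ^ 2 := by gcongr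
  have tt : t ^ 2 ≤ (2 * t) ^ 2 := by nlinarith
  set φ : ℂ × ℂ → ℝ := fun p => cut Q (2 * t) p - cut Q s p with hφ
  have φ0 : ∀ p, 0 ≤ φ p := fun p => sub_nonneg.2
    (anti (div_le_div_of_nonneg_left (q0 p) (by positivity) (st.trans tt)))
  have big : ∀ p, (2 * t) ^ 2 ≤ qq Q p → φ p = 0 ∧ om Q (2 * t) p = 0 ∧ om Q s p = 0 :=
    fun p h => by
      have a := g0 (qq Q p / (2 * t) ^ 2) ((one_le_div (by positivity)).2 h)
      have b := g0 (qq Q p / s ^ 2) ((one_le_div (by positivity)).2 ((st.trans tt).trans h))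
      simp [hφ, cut, om, a.1, a.2, b.1, b.2]
  have small : ∀ p, qq Q p < s ^ 2 / 4 → φ p = 0 := fun p h => by
    have a := g1 (qq Q p / (2 * t) ^ 2) ((div_le_iff₀ (by positivity)).2 (by linarith))
    have b := g1 (qq Q p / s ^ 2) ((div_le_iff₀ (by positivity)).2 (by linarith))
    simp only [hφ, cut, a.1, b.1, sub_self]
  have one : ∀ p ∈ E, φ p = 1 := fun p h => by
    have a := g1 (qq Q p / (2 * t) ^ 2) ((div_le_iff₀ (by positivity)).2 (by linarith [h.2]))
    have b := g0 (qq Q p / s ^ 2) ((one_le_div (by positivity)).2 h.1.le)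
    simp only [hφ, cut, a.1, b.1, sub_zero]
  have hD : ∀ p, Reg Q B p → ∀ w, D Q w φ p = -((om Q (2 * t) p - om Q s p) * (uu Q p * w).re) :=
    fun p hp w => by
      obtain ⟨-, -, -, -, -, -, -, hc⟩ := hr p hp
      have a := (hc (2 * t)).2 w
      have b := (hc s).2 w
      unfold D at a b ⊢
      rw [hφ, fderiv_fun_sub ((hc _).1.differentiableAt two_ne_zero)
        ((hc _).1.differentiableAt two_ne_zero), sub_apply, a, b]
      ring
  have dom : ∀ (F : ℂ × ℂ → ℝ) (c : ℝ), Measurable F → (∀ p ∈ W, |F p| ≤ c * SS Q p) →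
      IntegrableOn F W (mu Q) := fun F c m h =>
    (iS.const_mul c).mono' m.aestronglyMeasurable (ae_restrict_of_forall_mem mW h)
  have ig : Integrable (gr Q φ φ) (mu Q) := by
    have := dom (fun p => (om Q (2 * t) p - om Q s p) ^ 2 * ‖uu Q p‖ ^ 2)
      ((Γ * (2 / s ^ 2)) ^ 2 * (2 * t) ^ 2) ((((mo _).1.sub (mo _).1).pow_const 2).mul
        (mu'.norm.pow_const 2)) fun p hp => by
      have a := om_bd hΓ Q (2 * t) p
      have b := om_bd hΓ Q s p
      have c : Γ * (2 / (2 * t) ^ 2) ≤ Γ * (2 / s ^ 2) := by gcongr; linarith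
      rw [abs_of_nonneg (by positivity), mul_assoc]
      exact mul_le_mul (sq_le_sq' (by linarith) (by linarith))
        ((uS p).trans (mul_le_mul_of_nonneg_right hp (S0 p))) (by positivity) (by positivity)
    refine ((integrable_indicator_iff mW).2 this).congr ?_
    filter_upwards [ae] with p hp
    rw [gr, hD p hp, hD p hp]
    by_cases h : p ∈ W
    · rw [Set.indicator_of_mem h, ← Complex.normSq_eq_norm_sq, Complex.normSq_apply]
      simp
      ring
    · have := big p (not_le.1 h).le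
      simp [Set.indicator_of_notMem h, this.2.1, this.2.2]
  have e1 : (1 : ℝ) ≤ (sw Q).natDegree := by exact_mod_cast hT.2.2.2.choose_spec.1
  obtain ⟨iD, hη⟩ := hE Q B φ (fun p => conj (uu Q p) / √(qq Q p)) W (closedBall 0 (exp (2 * t))) 1
    hT.1 (isCompact_closedBall _ _) (fun p hp => ⟨((hr p hp).2.2.2.2.2.2.2 _).1.sub
      ((hr p hp).2.2.2.2.2.2.2 _).1, abs_le.2 ⟨by linarith [φ0 p], sub_le_iff_le_add.2
        ((g01 _).2.trans (le_add_of_nonneg_right (g01 _).1))⟩⟩)
    (fun p _ h => (big p (by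
      rw [mem_closedBall_zero_iff, not_le] at h
      have a := (lt_log_iff_exp_lt ((exp_pos _).trans h)).2 h
      have b : 2 * t ≤ la Q p := a.le.trans (le_mul_of_one_le_left (by linarith) e1)
      exact (pow_le_pow_left₀ (by positivity) b 2).trans (le_add_of_nonneg_right (sq_nonneg _)))).1)
    ig mW ((Complex.continuous_conj.measurable.comp mu').div
      (Complex.measurable_ofReal.comp mq.sqrt))
    (dom _ 1 ((((Complex.continuous_conj.measurable.comp mu').div
      (Complex.measurable_ofReal.comp mq.sqrt)).norm).pow_const 2) fun p _ => by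
        rw [abs_of_nonneg (by positivity), one_mul, norm_div, div_pow, Complex.norm_conj,
          Complex.norm_real, Real.norm_of_nonneg (sqrt_nonneg _), sq_sqrt (q0 p)]
        exact div_le_of_le_mul₀ (q0 p) (S0 p) (mul_comm (qq Q p) _ ▸ uS p))
    fun p hp h => by
      have := big p (not_le.1 h).le
      exact ⟨this.1, fun w => by simp [hD p hp, this.2.1, this.2.2]⟩
  have up : -∫ p, D Q (conj (uu Q p) / √(qq Q p)) φ p ∂mu Q ≤ 16 * π * Γ * DD Q := by
    rw [← integral_neg]
    refine (integral_mono_ae iD.neg ((integrable_indicator_iff mW).2 (iS.const_mul (Γ / t)))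
      ?_).trans ?_
    · filter_upwards [ae] with p hp
      rw [Pi.neg_apply, hD p hp, neg_neg, re_zeta]
      by_cases h : p ∈ W
      · rw [Set.indicator_of_mem h]
        have a := om_bd hΓ Q (2 * t) p
        have b := om_bd hΓ Q s p
        have c : √(qq Q p) ≤ 2 * t := sqrt_le_iff.2 ⟨by positivity, h⟩
        calc _ ≤ Γ * (2 / (2 * t) ^ 2) * (2 * t * SS Q p) :=
              mul_le_mul (by linarith) ((div_le (q0 p) (S0 p) (uS p)).trans
                (mul_le_mul_of_nonneg_right c (S0 p))) (by positivity) (by positivity)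
          _ = _ := by field_simp
      · have := big p (not_le.1 h).le
        simp [Set.indicator_of_notMem h, this.2.1, this.2.2]
    · rw [integral_indicator mW, integral_const_mul]
      calc _ ≤ Γ / t * (8 * π * (2 * t) * DD Q) := by gcongr
        _ = _ := by field_simp; ring
  set f : ℂ × ℂ → ℝ := fun p => ‖zz Q p‖ ^ 2 / √(qq Q p) ^ 3 with hf
  have f0 : ∀ p, 0 ≤ f p := fun p => by positivity
  have iE : IntegrableOn f E (mu Q) := by
    refine ((iS.mono_set fun p (h : p ∈ E) => h.2.trans tt).const_mul (1 / s)).mono'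
      ((mz.norm.pow_const 2).div (mq.sqrt.pow_const 3)).aestronglyMeasurable
      (ae_restrict_of_forall_mem mE fun p h => ?_)
    have a : s ≤ √(qq Q p) := le_sqrt_of_sq_le h.1.le
    have b : 0 < √(qq Q p) := hs.trans_le a
    rw [Real.norm_of_nonneg (f0 p), hf, div_le_iff₀ (by positivity), pow_succ _ 2, sq_sqrt (q0 p)]
    calc _ ≤ qq Q p * SS Q p * (s / s) := by rw [div_self hs.ne', mul_one]; exact zS p
      _ ≤ qq Q p * SS Q p * (√(qq Q p) / s) := by have := q0 p; have := S0 p; gcongr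
      _ = _ := by ring
  refine ⟨iE, ?_⟩
  choose η c01 h01 h1 hT' hd _ using fun n : ℕ => hη (1 / (n + 1)) (by positivity)
  have L : Tendsto (fun n => ∫ p in E, η n p.1 * f p ∂mu Q) atTop (𝓝 (∫ p in E, f p ∂mu Q)) := by
    refine tendsto_integral_of_dominated_convergence f
      (fun n => ((c01 n).comp continuous_fst).aestronglyMeasurable.mul iE.1) iE
      (fun n => Eventually.of_forall fun p => ?_) ?_
    · rw [Real.norm_of_nonneg (mul_nonneg (h01 n _).1 (f0 p))]
      exact mul_le_of_le_one_left (f0 p) (h01 n _).2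
    · filter_upwards [ae_restrict_of_ae ae] with p hp
      refine tendsto_const_nhds.congr' ?_
      filter_upwards [(eventually_all_finset B).2 fun b hb =>
        tendsto_one_div_add_atTop_nhds_zero_nat.eventually (ge_mem_nhds (norm_pos_iff.2
          (sub_ne_zero.2 fun e : p.1 = b => hp.2 (e ▸ hb))))] with n hn
      rw [h1 n _ hn, one_mul]
  refine le_of_tendsto_of_tendsto' L (by
    simpa using tendsto_one_div_add_atTop_nhds_zero_nat.const_add (16 * π * Γ * DD Q)) fun n => ?_
  obtain ⟨i1, i2⟩ := hG Q B _ (s ^ 2 / 4) hT (hT' n) (by positivity) fun p h => by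
    simp [small p h]
  calc _ = ∫ p in E, φ p * η n p.1 * f p ∂mu Q :=
        setIntegral_congr_fun mE fun p h => by simp [one p h]
    _ ≤ ∫ p, φ p * η n p.1 * f p ∂mu Q := setIntegral_le_integral i1
        (Eventually.of_forall fun p => mul_nonneg (mul_nonneg (φ0 p) (h01 n _).1) (f0 p))
    _ ≤ _ := by
        have := (abs_le.1 (hd n)).1
        rw [i2, ← one_div]
        linarith

end Pool.Agent.MP_670f9a_nt.GL
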