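import Pool.Agent.MP_670f9a_nt.H83.Spec

/-! The upper bound for the determinant. -/

namespace Pool.Agent.MP_670f9a_nt.GL

open Polynomial Real Finset MeasureTheory Metric Filter
open scoped Topology

namespace UBA

theorem adm_fst (Q : ℂ[X][X]) {f : ℂ → ℝ} (hf : Continuous f) : Adm Q fun p => f p.1 := by
  refine ⟨(hf.comp continuous_fst).continuousOn, fun R => ?_⟩
  obtain ⟨M, hM⟩ := (isCompact_closedBall (0 : ℂ) R).exists_bound_of_continuousOn hf.continuousOn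
  exact ⟨M, fun p _ hp => hM p.1 (mem_closedBall_zero_iff.mpr hp)⟩

theorem adm_lin {Q : ℂ[X][X]} {F G : ℂ × ℂ → ℝ} (hF : Adm Q F) (hG : Adm Q G) (a : ℝ) :
    Adm Q fun p => F p + a * G p := by
  refine ⟨hF.1.add (continuousOn_const.mul hG.1), fun R => ?_⟩
  obtain ⟨M, hM⟩ := hF.2 R
  obtain ⟨M', hM'⟩ := hG.2 R
  refine ⟨M + |a| * M', fun p hp hR => (abs_add_le _ _).trans ?_⟩
  rw [abs_mul]
  exact add_le_add (hM p hp hR) (mul_le_mul_of_nonneg_left (hM' p hp hR) (abs_nonneg a))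

theorem fs_lin {Q : ℂ[X][X]} {B : Finset ℂ} (hQ : Good Q B) (f : ℂ → ℝ) (φ : ℂ × ℂ → ℝ) (b : ℝ)
    {x : ℂ} (hx : x ∉ B) :
    fs Q (fun p => f p.1 + b * φ p) x = Q.natDegree * f x + b * fs Q φ x := by
  unfold fs
  rw [Multiset.sum_map_add, Multiset.sum_map_mul_left]
  simp only [Multiset.map_const', Multiset.sum_replicate, (hQ.2 x hx).1, nsmul_eq_mul]

theorem int_ball {f : ℂ → ℝ} (hf : Continuous f) (R : ℝ) : IntegrableOn f (ball (0 : ℂ) R) :=
  (hf.continuousOn.integrableOn_compact (isCompact_closedBall (0 : ℂ) R)).mono_set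
    ball_subset_closedBall

theorem int_fs {Q : ℂ[X][X]} {B : Finset ℂ} (hQ : Good Q B) {f g : ℂ → ℝ} {φ : ℂ × ℂ → ℝ}
    (hf : Continuous f) (hg : Continuous g) (hφ : Continuous (fs Q φ)) (a b c R : ℝ) :
    ∫ z in ball (0 : ℂ) R, fs Q (fun p => (a * f p.1 + c * g p.1) + b * φ p) z =
      Q.natDegree * (a * (∫ z in ball (0 : ℂ) R, f z) + c * ∫ z in ball (0 : ℂ) R, g z) +
        b * ∫ z in ball (0 : ℂ) R, fs Q φ z := by
  have h0 : ∀ᵐ z : ℂ, z ∉ (B : Set ℂ) := (B.finite_toSet.countable.ae_notMem _)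
  have h1 : ∀ᵐ z ∂(volume.restrict (ball (0 : ℂ) R)),
      fs Q (fun p => (a * f p.1 + c * g p.1) + b * φ p) z =
        Q.natDegree * (a * f z + c * g z) + b * fs Q φ z :=
    ae_restrict_of_ae (h0.mono fun z hz => fs_lin hQ (fun x => a * f x + c * g x) φ b hz)
  have i1 := (int_ball hf R).const_mul a
  have i2 := (int_ball hg R).const_mul c
  have i3 : Integrable (fun z => (Q.natDegree : ℝ) * (a * f z + c * g z))
      (volume.restrict (ball (0 : ℂ) R)) := (i1.add i2).const_mul _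
  rw [integral_congr_ae h1, integral_add i3 ((int_ball hφ R).const_mul b),
    integral_const_mul, integral_const_mul, integral_add i1 i2, integral_const_mul,
    integral_const_mul]

theorem small (c a ε : ℝ) (ha : 0 < a) (hε : 0 < ε) :
    ∃ k₀ : ℕ, 1 ≤ k₀ ∧ ∀ k : ℕ, k₀ ≤ k → ∀ N : ℕ, (N : ℝ) ≤ a * k →
      c * k + 2 * N * log N + N ≤ ε * k ^ 2 := by
  have h1 := (Real.isLittleO_log_id_atTop).bound (show (0 : ℝ) < ε / (4 * a) by positivity)
  have h2 := (tendsto_natCast_atTop_atTop (R := ℝ)).eventually h1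
  have h3 := (tendsto_natCast_atTop_atTop (R := ℝ)).eventually
    (eventually_ge_atTop ((c + 2 * a * |log a| + a) / (ε / 2)))
  obtain ⟨k₁, hk⟩ := eventually_atTop.mp (h2.and h3)
  refine ⟨max 1 k₁, le_max_left _ _, fun k h N hN => ?_⟩
  obtain ⟨h4, h5⟩ := hk k ((le_max_right _ _).trans h)
  have k1 : (1 : ℝ) ≤ k := by exact_mod_cast (le_max_left _ _).trans h
  have hl := Real.log_nonneg k1
  simp only [id] at h4
  rw [Real.norm_of_nonneg hl, Real.norm_of_nonneg (by linarith)] at h4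
  rw [div_le_iff₀ (by positivity)] at h5
  have h6 : (N : ℝ) * log N ≤ a * k * (|log a| + log k) := by
    rcases Nat.eq_zero_or_pos N with h0 | h0
    · subst h0
      simp only [Nat.cast_zero, zero_mul]
      positivity
    · have n1 : (0 : ℝ) < N := by exact_mod_cast h0
      have : log N ≤ |log a| + log k := by
        refine (Real.log_le_log n1 hN).trans ?_
        rw [Real.log_mul ha.ne' (by linarith)]
        linarith [le_abs_self (log a)]
      exact mul_le_mul hN this (Real.log_natCast_nonneg N) (by positivity)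
  have h7 : 2 * a * log k ≤ ε / 2 * k := by
    have : 2 * a * (ε / (4 * a) * k) = ε / 2 * k := by field_simp; ring
    rw [← this]
    exact mul_le_mul_of_nonneg_left h4 (by positivity)
  have h8 : (c + 2 * a * |log a| + a + 2 * a * log k) * k ≤ ε * k * k :=
    mul_le_mul_of_nonneg_right (by linarith) (by linarith)
  nlinarith

theorem sum_lin (j : ℕ) (u v : ℝ) :
    ∑ i ∈ range j, ((i : ℝ) * u + v) = j * (j - 1) / 2 * u + j * v := by
  induction j with
  | zero => simp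
  | succ n ih => rw [sum_range_succ, ih]; push_cast; ring

end UBA

open UBA in
theorem sUBOf : SUBOf := by
  intro hDisc hHad hAdm hStep hEval hIter Q B φ ε hQ hφ hε
  obtain ⟨R, τ₀, C₀, hR, hτ₀, hS⟩ := hStep Q B φ hQ hφ
  have hR0 : 0 < R := by linarith
  obtain ⟨M, hM⟩ := exists_nat_one_div_lt hτ₀
  obtain ⟨-, -, -, cU, -, iU, iL⟩ := hDisc R hR0
  obtain ⟨aφ, dφ, -, -, -, -, -, iφ⟩ := (hAdm Q B hQ).2.2.2 φ hφ
  obtain ⟨eU, eL, eφ⟩ := hEval Q B φ R hQ hφ hR0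
  have cL : Continuous fun z : ℂ => log⁺ ‖z‖ := continuous_posLog.comp continuous_norm
  set τ : ℝ := 1 / ((M : ℝ) + 1) with hτ
  have hτ1 : τ * ((M : ℝ) + 1) = 1 := by rw [hτ]; field_simp
  have hS' := hS τ (by positivity) hM.le
  set d : ℕ := Q.natDegree with hd
  have d1 : (1 : ℝ) ≤ d := by exact_mod_cast hQ.1
  set A : ℝ := (π * R ^ 2)⁻¹ * ∫ z in ball (0 : ℂ) R, fs Q φ z with hA
  set G : ℝ := ∫ p, gr Q φ φ p ∂mu Q with hG
  set I : ℝ := log R - 1 / 4 with hI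
  set E : (ℂ × ℂ → ℝ) → ℝ := fun Y => (π * R ^ 2)⁻¹ * (∫ z in ball 0 R, fs Q Y z) -
    τ / (2 * π) * ∫ p, Y p * Lap Q φ p ∂mu Q with hE
  have hlin : ∀ a b c : ℝ, E (fun p => (a * hU R p.1 + c * log⁺ ‖p.1‖) + b * φ p) =
      a * (d * I - τ * A) + c * (d * hU R 1 - τ * Mx Q φ) + b * (A + τ * (G / (2 * π))) := by
    intro a b c
    have j1 := (iφ _ (adm_fst Q cU).1).const_mul a
    have j2 := (iφ _ (adm_fst Q cL).1).const_mul c
    have j3 := (iφ _ aφ.1).const_mul b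
    have j4 : Integrable (fun p : ℂ × ℂ => a * (hU R p.1 * Lap Q φ p) +
        c * (log⁺ ‖p.1‖ * Lap Q φ p)) (mu Q) := j1.add j2
    have e1 : ∀ p : ℂ × ℂ, ((a * hU R p.1 + c * log⁺ ‖p.1‖) + b * φ p) * Lap Q φ p =
        (a * (hU R p.1 * Lap Q φ p) + c * (log⁺ ‖p.1‖ * Lap Q φ p)) + b * (φ p * Lap Q φ p) :=
      fun p => by ring
    simp only [hE, e1]
    rw [int_fs hQ cU cL dφ.continuous a b c R, integral_add j4 j3, integral_add j1 j2,
      integral_const_mul, integral_const_mul, integral_const_mul, eU, eL, eφ, iU, iL, hA]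
    have := Real.pi_pos
    field_simp
    ring
  obtain ⟨k₀, hk₀, hsm⟩ := small (((M : ℝ) + 1) * (d * I / 2 + C₀) - A - τ * (G / (4 * π)))
    (((M : ℝ) + 3) * d) ε (by positivity) hε
  refine ⟨k₀, fun k hk p hp hD => ?_⟩
  have k1 : 1 ≤ k := hk₀.trans hk
  have k1' : (1 : ℝ) ≤ k := by exact_mod_cast k1
  set j : ℕ := (M + 1) * k with hj
  have hj' : (j : ℝ) = ((M : ℝ) + 1) * k := by rw [hj]; push_cast; ring
  have hjτ : (j : ℝ) * τ = k := by rw [hj', mul_comm, ← mul_assoc, hτ1, one_mul]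
  have hfun : ∀ i : ℕ, (fun q : ℂ × ℂ => (i : ℝ) * (hU R q.1 - τ * φ q) -
      (j * hU R q.1 + k * log⁺ ‖q.1‖)) =
      fun q => (((i : ℝ) - j) * hU R q.1 + (-k) * log⁺ ‖q.1‖) + (-(i * τ)) * φ q := by
    intro i
    funext q
    ring
  obtain ⟨n, p', hn, hD', hle⟩ := hIter Q (fun q => hU R q.1 - τ * φ q)
    (fun q => j * hU R q.1 + k * log⁺ ‖q.1‖) E C₀ hS' (fun i => by
      rw [hfun i]
      exact adm_lin (adm_fst Q (f := fun z => ((i : ℝ) - j) * hU R z + (-k) * log⁺ ‖z‖)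
        ((continuous_const.mul cU).add (continuous_const.mul cL))) aφ _)
    j k p (fun i => (hp i).1) hD
  have hH := hHad n k j d R p' hn (Nat.mul_pos (Nat.succ_pos M) k1) hR hD'
  have hN : (((n + 1) * d : ℕ) : ℝ) ≤ ((M : ℝ) + 3) * d * k := by
    rw [hn]
    push_cast
    rw [hj']
    nlinarith
  have h3 := hsm k hk _ hN
  have s1 : ∑ i ∈ range j, E (fun q : ℂ × ℂ => (i : ℝ) * (hU R q.1 - τ * φ q) -
      (j * hU R q.1 + k * log⁺ ‖q.1‖)) =
      j * (j - 1) / 2 * ((d * I - τ * A) - τ * (A + τ * (G / (2 * π)))) +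
        j * (-(j * (d * I - τ * A)) - k * (d * hU R 1 - τ * Mx Q φ)) := by
    rw [← sum_lin]
    refine sum_congr rfl fun i _ => ?_
    rw [hfun i, hlin]
    ring
  have s2 : ∑ i, ((j : ℝ) * (hU R (p i).1 - τ * φ (p i)) -
      (j * hU R (p i).1 + k * log⁺ ‖(p i).1‖) - d * log⁺ ‖(p i).2‖) =
      -∑ i, (k : ℝ) * (log⁺ ‖(p i).1‖ + φ (p i)) := by
    rw [← sum_neg_distrib]
    refine sum_congr rfl fun i _ => ?_
    rw [(hp i).2, posLog_one, mul_sub, ← mul_assoc, hjτ]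
    ring
  have s3 : ∑ i, ((j : ℝ) * hU R (p' i).1 + k * log⁺ ‖(p' i).1‖ + d * log⁺ ‖(p' i).2‖) =
      ∑ i, ((d : ℝ) * log⁺ ‖(p' i).2‖ + j * hU R (p' i).1 + k * log⁺ ‖(p' i).1‖) :=
    sum_congr rfl fun i _ => by ring
  rw [s1, s2, s3] at hle
  have key : -((j : ℝ) * (j - 1) / 2 * ((d * I - τ * A) - τ * (A + τ * (G / (2 * π)))) +
        j * (-(j * (d * I - τ * A)) - k * (d * hU R 1 - τ * Mx Q φ))) + j * C₀ -
      d * (j ^ 2 * I / 2 + j * k * hU R 1) =
      -(k ^ 2 * Mx Q φ) + k ^ 2 * (G / (4 * π)) +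
        (((M : ℝ) + 1) * (d * I / 2 + C₀) - A - τ * (G / (4 * π))) * k := by
    rw [hj', hτ]
    have := Real.pi_pos
    field_simp
    ring
  rw [← hI] at hH
  have hle' : log ‖Dt k d p‖ + -∑ i, (k : ℝ) * (log⁺ ‖(p i).1‖ + φ (p i)) +
      (j * (j - 1) / 2 * ((d * I - τ * A) - τ * (A + τ * (G / (2 * π)))) +
        j * (-(j * (d * I - τ * A)) - k * (d * hU R 1 - τ * Mx Q φ))) - j * C₀ ≤
      log ‖Dt n d p'‖ -
        ∑ i, ((d : ℝ) * log⁺ ‖(p' i).2‖ + j * hU R (p' i).1 + k * log⁺ ‖(p' i).1‖) := hle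
  linarith

end Pool.Agent.MP_670f9a_nt.GL
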