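import Pool.Agent.MP_670f9a_nt.H83.Spec

/-! A pointwise inequality for three quadratic forms. -/

namespace Pool.Agent.MP_670f9a_nt.GL

open Real
open scoped ComplexConjugate

namespace VecA

theorem sg_le (x : ℝ) : |sg x| ≤ 1 := by
  unfold sg
  split_ifs <;> simp

theorem sg_mul (x : ℝ) : sg x * x = |x| := by
  unfold sg
  split_ifs with h1 h2
  · rw [abs_of_pos h1, one_mul]
  · rw [abs_of_neg h2]; ring
  · have : x = 0 := le_antisymm (not_lt.1 h1) (not_lt.1 h2)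
    simp [this]

theorem sg_pos {c : ℝ} (hc : 0 < c) (x : ℝ) : sg (c * x) = sg x := by
  unfold sg
  have h1 : 0 < c * x ↔ 0 < x := mul_pos_iff_of_pos_left hc
  have h2 : c * x < 0 ↔ x < 0 := by
    constructor
    · intro h
      by_contra h'
      have := mul_nonneg hc.le (not_lt.1 h')
      linarith
    · exact fun h => mul_neg_of_pos_of_neg hc h
  simp only [h1, h2]

theorem sq_exp (l m : ℝ) (u z : ℂ) : ‖(l : ℂ) * u + m * z‖ ^ 2 =
    l ^ 2 * ‖u‖ ^ 2 + 2 * l * m * (u * conj z).re + m ^ 2 * ‖z‖ ^ 2 := by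
  simp only [Complex.sq_norm, Complex.normSq_apply, Complex.add_re, Complex.add_im, Complex.mul_re,
    Complex.mul_im, Complex.ofReal_re, Complex.ofReal_im, Complex.conj_re, Complex.conj_im]
  ring

theorem re_exp (l m : ℝ) (u z : ℂ) : (u * conj ((l : ℂ) * u + m * z)).re =
    l * ‖u‖ ^ 2 + m * (u * conj z).re := by
  simp only [Complex.sq_norm, Complex.normSq_apply, Complex.add_re, Complex.add_im, Complex.mul_re,
    Complex.mul_im, Complex.ofReal_re, Complex.ofReal_im, Complex.conj_re, Complex.conj_im]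
  ring

theorem abs_mul_le {x y A B : ℝ} (hx : |x| ≤ A) (hy : |y| ≤ B) : |x * y| ≤ A * B := by
  rw [abs_mul]
  exact mul_le_mul hx hy (abs_nonneg _) ((abs_nonneg _).trans hx)

theorem sq_near {l m P Z X ζ : ℝ} (hl : |l| ≤ 5 / 2) (hm : |m| ≤ 5 / 2) (hP : P + Z = 1)
    (hZ : |Z| ≤ ζ) (hX : |X| ≤ ζ) : |l ^ 2 * P + 2 * l * m * X + m ^ 2 * Z - l ^ 2| ≤ 25 * ζ := by
  have e : l ^ 2 * P + 2 * l * m * X + m ^ 2 * Z - l ^ 2 =
      2 * (l * m * X) + m * m * Z - l * l * Z := by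
    have : P = 1 - Z := by linarith
    rw [this]; ring
  have h1 := abs_le.1 (abs_mul_le (abs_mul_le hl hm) hX)
  have h2 := abs_le.1 (abs_mul_le (abs_mul_le hm hm) hZ)
  have h3 := abs_le.1 (abs_mul_le (abs_mul_le hl hl) hZ)
  rw [e, abs_le]
  constructor <;> linarith [h1.1, h1.2, h2.1, h2.2, h3.1, h3.2]

theorem prod_near {t H ρ δ ζ : ℝ} (h1 : |t - H| ≤ 50 * ζ) (h2 : |ρ - δ| ≤ 10 * ζ) (hH : |H| ≤ 13)
    (hδ : |δ| ≤ 5) (hζ : ζ ≤ 1) : H * δ - 900 * ζ ≤ t * ρ := by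
  have hρ : |ρ| ≤ 15 := by
    rw [abs_le] at h2 hδ ⊢
    constructor <;> linarith [h2.1, h2.2, hδ.1, hδ.2]
  have hζ0 : 0 ≤ ζ := by linarith [abs_nonneg (ρ - δ)]
  have h3 := abs_le.1 (abs_mul_le h1 hρ)
  have h4 := abs_le.1 (abs_mul_le hH h2)
  have e : t * ρ = H * δ + (t - H) * ρ + H * (ρ - δ) := by ring
  rw [e]
  linarith [h3.1, h4.1]

/-- the main term of one form -/
noncomputable def ff (lam k a b : ℝ) : ℝ :=
  (lam * |a| - |k * a + b|) ^ 2 * (lam * |a| + |k * a + b|)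

theorem one (a b lam k : ℝ) (x g : ℂ) (hab : a ^ 2 + b ^ 2 = 1)
    (hx : ‖x‖ ^ 2 + ‖g * x‖ ^ 2 = 1) (hl0 : 0 ≤ lam) (hl : lam ≤ 5 / 2) (hk : |k| ≤ 3 / 2) :
    ff lam k a b - 900 * ‖a * (g * x) - b * x‖ ≤
      th0 lam k g * ((a * x + b * (g * x)) * conj (psi0 lam k a b x (g * x))).re := by
  have ha : |a| ≤ 1 := abs_le_one_iff_mul_self_le_one.2 (by nlinarith)
  have hb : |b| ≤ 1 := abs_le_one_iff_mul_self_le_one.2 (by nlinarith)
  have hl' : |lam| ≤ 5 / 2 := by rwa [abs_of_nonneg hl0]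
  have eth : th0 lam k g = ‖(lam : ℂ) * x‖ ^ 2 - ‖(k : ℂ) * x + g * x‖ ^ 2 := by
    unfold th0
    rw [← add_mul, norm_mul, norm_mul, Complex.norm_real, Real.norm_eq_abs, mul_pow, mul_pow,
      sq_abs, div_eq_iff (by positivity)]
    rw [norm_mul, mul_pow] at hx
    linear_combination (‖(k : ℂ) + g‖ ^ 2 - lam ^ 2) * hx
  generalize g * x = y at *
  set u : ℂ := a * x + b * y with hu
  set z : ℂ := a * y - b * x with hz
  have hc : (a : ℂ) ^ 2 + (b : ℂ) ^ 2 = 1 := by exact_mod_cast hab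
  have e1 : (lam : ℂ) * x = ((lam * a : ℝ) : ℂ) * u + ((-(lam * b) : ℝ) : ℂ) * z := by
    rw [hu, hz]; push_cast; linear_combination (-(lam * x) : ℂ) * hc
  have e2 : (k : ℂ) * x + y = ((k * a + b : ℝ) : ℂ) * u + ((a - k * b : ℝ) : ℂ) * z := by
    rw [hu, hz]; push_cast; linear_combination (-(k * x + y) : ℂ) * hc
  have e3 : psi0 lam k a b x y = ((sg a * (lam * a) - sg (k * a + b) * (k * a + b) : ℝ) : ℂ) * u +
      ((sg a * -(lam * b) - sg (k * a + b) * (a - k * b) : ℝ) : ℂ) * z := by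
    unfold psi0
    rw [e1, e2]; push_cast; ring
  have hP : ‖u‖ ^ 2 + ‖z‖ ^ 2 = 1 := by
    have h1 := sq_exp a b x y
    have h2 := sq_exp (-b) a x y
    have h3 : ((-b : ℝ) : ℂ) * x + a * y = z := by rw [hz]; push_cast; ring
    rw [h3] at h2
    rw [h1, h2]
    linear_combination (a ^ 2 + b ^ 2) * hx + hab
  have hu1 : ‖u‖ ≤ 1 := by nlinarith [norm_nonneg u, norm_nonneg z]
  have hz1 : ‖z‖ ≤ 1 := by nlinarith [norm_nonneg u, norm_nonneg z]
  have hZ : |‖z‖ ^ 2| ≤ ‖z‖ := by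
    rw [abs_of_nonneg (by positivity)]
    nlinarith [norm_nonneg z]
  have hX : |(u * conj z).re| ≤ ‖z‖ := by
    refine (Complex.abs_re_le_norm _).trans ?_
    rw [norm_mul, Complex.norm_conj]
    nlinarith [norm_nonneg z]
  have b1 : |lam * a| ≤ 5 / 2 := (abs_mul_le hl' ha).trans (by norm_num)
  have b2 : |-(lam * b)| ≤ 5 / 2 := by
    rw [abs_neg]; exact (abs_mul_le hl' hb).trans (by norm_num)
  have b3 : |k * a + b| ≤ 5 / 2 := by
    have := abs_mul_le hk ha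
    exact (abs_add_le _ _).trans (by linarith)
  have b4 : |a - k * b| ≤ 5 / 2 := by
    have := abs_mul_le hk hb
    exact (abs_sub _ _).trans (by linarith)
  have s1 : sg a * (lam * a) = lam * |a| := by rw [← sg_mul a]; ring
  have s2 := sg_mul (k * a + b)
  have n1 := abs_le.1 (sq_near b1 b2 hP hZ hX)
  have n2 := abs_le.1 (sq_near b3 b4 hP hZ hX)
  have c1 : 0 ≤ lam * |a| := by positivity
  have c2 : lam * |a| ≤ 5 / 2 := by nlinarith [abs_nonneg a]
  have c3 := abs_nonneg (k * a + b)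
  have hδ : abs (lam * |a| - |k * a + b|) ≤ 5 := by
    rw [abs_le]; constructor <;> linarith
  have eff : ff lam k a b = ((lam * a) ^ 2 - (k * a + b) ^ 2) * (lam * |a| - |k * a + b|) := by
    unfold ff
    rw [mul_pow, ← sq_abs a, ← sq_abs (k * a + b)]
    ring
  rw [eth, e3, re_exp _ _ u z, e1, e2, sq_exp _ _ u z, sq_exp _ _ u z, s1, s2, eff]
  refine prod_near ?_ ?_ ?_ hδ hz1
  · rw [abs_le]; constructor <;> linarith [n1.1, n1.2, n2.1, n2.2]
  · have m1 := abs_le.1 (abs_mul_le (sg_le a) b2)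
    have m2 := abs_le.1 (abs_mul_le (sg_le (k * a + b)) b4)
    have m3 : |sg a * -(lam * b) - sg (k * a + b) * (a - k * b)| ≤ 5 := by
      rw [abs_le]; constructor <;> linarith [m1.1, m1.2, m2.1, m2.2]
    have m4 := abs_le.1 (abs_mul_le m3 hX)
    have m5 := abs_le.1 (abs_mul_le hδ hZ)
    have m6 : ‖u‖ ^ 2 = 1 - ‖z‖ ^ 2 := by linarith
    rw [m6, abs_le]
    constructor <;> linarith [m4.1, m4.2, m5.1, m5.2]
  · have m1 := abs_le.1 (abs_mul_le b1 b1)
    have m2 := abs_le.1 (abs_mul_le b3 b3)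
    rw [abs_le]
    constructor <;> nlinarith [m1.1, m1.2, m2.1, m2.2]

theorem ff_nonneg {lam : ℝ} (hl : 0 ≤ lam) (k a b : ℝ) : 0 ≤ ff lam k a b := by
  unfold ff
  positivity

theorem ff_big {lam k a b : ℝ} (hl : 1 ≤ lam) (ha : 3 / 5 ≤ |a|)
    (h : |k * a + b| ≤ |a| / 2 + 1 / 10) : 1 / 200 ≤ ff lam k a b := by
  unfold ff
  have h1 : |a| ≤ lam * |a| := by nlinarith
  have h2 : 1 / 5 ≤ lam * |a| - |k * a + b| := by linarith
  have h3 : 3 / 5 ≤ lam * |a| + |k * a + b| := by linarith [abs_nonneg (k * a + b)]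
  calc (1 : ℝ) / 200 ≤ (1 / 5) ^ 2 * (3 / 5) := by norm_num
    _ ≤ _ := by gcongr

theorem three {a b kap l₁ l₂ : ℝ} (hab : a ^ 2 + b ^ 2 = 1) (hk1 : 1 / 2 ≤ kap) (hk2 : kap ≤ 3 / 2)
    (h1 : 1 ≤ l₁) (h2 : 1 ≤ l₂) :
    1 / 200 ≤ ff 1 0 a b + ff l₁ kap a b + ff l₂ (-kap) a b := by
  have p0 := ff_nonneg zero_le_one 0 a b
  have p1 := ff_nonneg (zero_le_one.trans h1) kap a b
  have p2 := ff_nonneg (zero_le_one.trans h2) (-kap) a b
  have hA := abs_nonneg a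
  have hB := abs_nonneg b
  have hab' : |a| ^ 2 + |b| ^ 2 = 1 := by rw [sq_abs, sq_abs, hab]
  by_cases h : 1 / 100 ≤ (|a| - |b|) ^ 2
  · have h3 : 1 ≤ |a| + |b| := by nlinarith [mul_nonneg hA hB]
    have h4 : 1 / 200 ≤ ff 1 0 a b := by
      unfold ff
      rw [zero_mul, zero_add, one_mul]
      nlinarith
    linarith
  · push Not at h
    have h3 : |a| - |b| ≤ 1 / 10 := by nlinarith
    have h4 : |b| - |a| ≤ 1 / 10 := by nlinarith
    have h5 : 3 / 5 ≤ |a| := by nlinarith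
    have h6 : abs (kap * |a| - |b|) ≤ |a| / 2 + 1 / 10 := by
      rw [abs_le]
      constructor <;> nlinarith
    have h7 : |kap * a + b| = abs (kap * |a| - |b|) ∨ |-kap * a + b| = abs (kap * |a| - |b|) := by
      rcases le_total 0 a with h8 | h8 <;> rcases le_total 0 b with h9 | h9
      · right
        rw [abs_of_nonneg h8, abs_of_nonneg h9, ← abs_neg]
        congr 1; ring
      · left
        rw [abs_of_nonneg h8, abs_of_nonpos h9]
        congr 1; ring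
      · left
        rw [abs_of_nonpos h8, abs_of_nonneg h9, ← abs_neg]
        congr 1; ring
      · right
        rw [abs_of_nonpos h8, abs_of_nonpos h9]
        congr 1; ring
    rcases h7 with h7 | h7
    · linarith [ff_big h1 h5 (h7.trans_le h6)]
    · linarith [ff_big h2 h5 (h7.trans_le h6)]

theorem scale {r : ℝ} (hr : 0 < r) (R lam k a b : ℝ) (x g : ℂ) :
    ((((r * a : ℝ) : ℂ) * (R * x) + ((r * b : ℝ) : ℂ) * (g * (R * x))) *
      conj (psi0 lam k (r * a) (r * b) (R * x) (g * (R * x)))).re =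
      r * R ^ 2 * ((a * x + b * (g * x)) * conj (psi0 lam k a b x (g * x))).re := by
  have e : psi0 lam k (r * a) (r * b) (R * x) (g * (R * x)) = R * psi0 lam k a b x (g * x) := by
    unfold psi0
    rw [show k * (r * a) + r * b = r * (k * a + b) by ring, sg_pos hr, sg_pos hr]
    ring
  rw [e, map_mul, Complex.conj_ofReal, ← Complex.re_ofReal_mul]
  congr 1
  push_cast
  ring

end VecA

open VecA in
theorem sVecOf : SVecOf := by
  refine ⟨2700, by norm_num, fun a b kap l₁ l₂ a' g hk1 hk2 h1 h1' h2 h2' => ?_⟩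
  by_cases h0 : a' = 0
  · subst h0
    simp
  by_cases hq : a ^ 2 + b ^ 2 = 0
  · have ha : a = 0 := by nlinarith
    have hb : b = 0 := by nlinarith
    subst ha hb
    simp
  obtain ⟨r, a, b, hr, hab, rfl, rfl⟩ :
      ∃ r a₀ b₀ : ℝ, 0 < r ∧ a₀ ^ 2 + b₀ ^ 2 = 1 ∧ a = r * a₀ ∧ b = r * b₀ := by
    have hp : 0 < a ^ 2 + b ^ 2 := lt_of_le_of_ne (by positivity) (Ne.symm hq)
    have hr : 0 < √(a ^ 2 + b ^ 2) := Real.sqrt_pos.2 hp
    refine ⟨√(a ^ 2 + b ^ 2), a / √(a ^ 2 + b ^ 2), b / √(a ^ 2 + b ^ 2), hr, ?_, ?_, ?_⟩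
    · rw [div_pow, div_pow, Real.sq_sqrt hp.le, ← add_div, div_self hq]
    · field_simp
    · field_simp
  obtain ⟨R, x, hR, hx, rfl⟩ :
      ∃ (R : ℝ) (x : ℂ), 0 < R ∧ ‖x‖ ^ 2 + ‖g * x‖ ^ 2 = 1 ∧ a' = R * x := by
    have hp : 0 < ‖a'‖ ^ 2 + ‖g * a'‖ ^ 2 := by positivity
    have hr : 0 < √(‖a'‖ ^ 2 + ‖g * a'‖ ^ 2) := Real.sqrt_pos.2 hp
    refine ⟨√(‖a'‖ ^ 2 + ‖g * a'‖ ^ 2), a' / √(‖a'‖ ^ 2 + ‖g * a'‖ ^ 2), hr, ?_, ?_⟩
    · rw [← mul_div_assoc, norm_div, norm_div, Complex.norm_real, Real.norm_of_nonneg hr.le,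
        div_pow, div_pow, Real.sq_sqrt hp.le, ← add_div, div_self hp.ne']
    · have : ((√(‖a'‖ ^ 2 + ‖g * a'‖ ^ 2) : ℝ) : ℂ) ≠ 0 := by exact_mod_cast hr.ne'
      rw [mul_div_cancel₀ _ this]
  have nR : ‖(R : ℂ)‖ = R := by rw [Complex.norm_real, Real.norm_of_nonneg hR.le]
  have nr : ‖(r : ℂ)‖ = r := by rw [Complex.norm_real, Real.norm_of_nonneg hr.le]
  have e1 : √(‖(R : ℂ) * x‖ ^ 2 + ‖g * (R * x)‖ ^ 2) = R := by
    rw [mul_left_comm, norm_mul, norm_mul (R : ℂ), nR, mul_pow, mul_pow, ← mul_add, hx, mul_one,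
      Real.sqrt_sq hR.le]
  have e2 : ‖((r * a : ℝ) : ℂ) * (g * (R * x)) - ((r * b : ℝ) : ℂ) * (R * x)‖ =
      r * R * ‖a * (g * x) - b * x‖ := by
    rw [← nr, ← nR, ← norm_mul, ← norm_mul, nr, nR]
    congr 1
    push_cast
    ring
  have e3 : ((((r * a : ℝ) : ℂ) * (R * x) + ((r * b : ℝ) : ℂ) * (g * (R * x))) *
      conj ((sg (r * a) : ℂ) * (R * x))).re =
      r * R ^ 2 * ((a * x + b * (g * x)) * conj ((sg a : ℂ) * x)).re := by
    rw [sg_pos hr, mul_left_comm (sg a : ℂ), map_mul, Complex.conj_ofReal, ← Complex.re_ofReal_mul]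
    congr 1
    push_cast
    ring
  have e4 : ((a * x + b * (g * x)) * conj ((sg a : ℂ) * x)).re ≤ 1 := by
    refine (Complex.re_le_norm _).trans ?_
    have hx1 : ‖x‖ ≤ 1 := by nlinarith [norm_nonneg x, norm_nonneg (g * x)]
    have hu : ‖(a : ℂ) * x + b * (g * x)‖ ≤ 1 := by
      have q1 := sq_exp a b x (g * x)
      have q2 := sq_exp (-b) a x (g * x)
      have q3 : ‖(a : ℂ) * x + b * (g * x)‖ ^ 2 + ‖((-b : ℝ) : ℂ) * x + a * (g * x)‖ ^ 2 = 1 := by
        rw [q1, q2]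
        linear_combination (a ^ 2 + b ^ 2) * hx + hab
      nlinarith [norm_nonneg ((a : ℂ) * x + b * (g * x)),
        norm_nonneg (((-b : ℝ) : ℂ) * x + a * (g * x))]
    rw [norm_mul, Complex.norm_conj, norm_mul, Complex.norm_real, Real.norm_eq_abs]
    have := sg_le a
    calc ‖(a : ℂ) * x + b * (g * x)‖ * (|sg a| * ‖x‖) ≤ 1 * (1 * 1) := by gcongr
      _ = 1 := by norm_num
  have o0 := one a b 1 0 x g hab hx zero_le_one (by norm_num) (by norm_num)
  have o1 := one a b l₁ kap x g hab hx (by linarith) h1' (by rw [abs_le]; constructor <;> linarith)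
  have o2 := one a b l₂ (-kap) x g hab hx (by linarith) h2'
    (by rw [abs_le]; constructor <;> linarith)
  have t := three hab hk1 hk2 h1 h2
  rw [e1, e2, e3, scale hr, scale hr, scale hr]
  have hw : 0 < r * R ^ 2 := by positivity
  have key : 1 / 200 * ((a * x + b * (g * x)) * conj ((sg a : ℂ) * x)).re ≤
      th0 1 0 g * ((a * x + b * (g * x)) * conj (psi0 1 0 a b x (g * x))).re +
      th0 l₁ kap g * ((a * x + b * (g * x)) * conj (psi0 l₁ kap a b x (g * x))).re +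
      th0 l₂ (-kap) g * ((a * x + b * (g * x)) * conj (psi0 l₂ (-kap) a b x (g * x))).re +
      2700 * ‖a * (g * x) - b * x‖ := by linarith
  have := mul_le_mul_of_nonneg_left key hw.le
  linarith

end Pool.Agent.MP_670f9a_nt.GL
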